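import Pool.Agent.Lib.MP_79d702_lc.U2.Crt.K0
import Pool.Agent.Lib.MP_79d702_lc.U2.Crt.K1
import Pool.Agent.Lib.MP_79d702_lc.U2.Crt.K2
import Pool.Agent.Lib.MP_79d702_lc.U2.Crt.K3
import Pool.Agent.Lib.MP_79d702_lc.U2.Crt.K4
import Pool.Agent.Lib.MP_79d702_lc.U2.Crt.K5
import Pool.Agent.Lib.MP_79d702_lc.U2.Crt.K6
import Pool.Agent.Lib.MP_79d702_lc.U2.Crt.K7
import Pool.Agent.Lib.MP_79d702_lc.U2.Crt.K8
import Pool.Agent.Lib.MP_79d702_lc.U2.Crt.K9
import Pool.Agent.Lib.MP_79d702_lc.U2.Crt.K10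
import Pool.Agent.Lib.MP_79d702_lc.U2.Crt.K11
import Pool.Agent.Lib.MP_79d702_lc.U2.Crt.K12
import Pool.Agent.Lib.MP_79d702_lc.U2.Crt.K13
import Pool.Agent.Lib.MP_79d702_lc.U2.Crt.K14
import Pool.Agent.Lib.MP_79d702_lc.U2.Crt.K15
import Pool.Agent.Lib.MP_79d702_lc.U2.Crt.K16
import Pool.Agent.Lib.MP_79d702_lc.U2.Crt.K17
import Pool.Agent.Lib.MP_79d702_lc.U2.Crt.K18
import Pool.Agent.Lib.MP_79d702_lc.U2.Crt.K19
import Pool.Agent.Lib.MP_79d702_lc.U2.Crt.K20
import Pool.Agent.Lib.MP_79d702_lc.U2.Crt.K21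
import Pool.Agent.Lib.MP_79d702_lc.U2.Crt.K22
import Pool.Agent.Lib.MP_79d702_lc.U2.Crt.K23
import Pool.Agent.Lib.MP_79d702_lc.U2.Crt.K24
import Pool.Agent.Lib.MP_79d702_lc.U2.Crt.K25
import Pool.Agent.Lib.MP_79d702_lc.U2.Crt.K26
import Pool.Agent.Lib.MP_79d702_lc.U2.Crt.K27
import Pool.Agent.Lib.MP_79d702_lc.U2.Crt.K28
import Pool.Agent.Lib.MP_79d702_lc.U2.Crt.K29
import Pool.Agent.Lib.MP_79d702_lc.U2.Crt.K30
import Pool.Agent.Lib.MP_79d702_lc.U2.Crt.K31
import Pool.Agent.Lib.MP_79d702_lc.U2.Crt.K32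
import Pool.Agent.Lib.MP_79d702_lc.U2.Crt.K33
import Pool.Agent.Lib.MP_79d702_lc.U2.Crt.K34
import Pool.Agent.Lib.MP_79d702_lc.U2.Crt.K35
import Pool.Agent.Lib.MP_79d702_lc.U2.Crt.K36
import Pool.Agent.Lib.MP_79d702_lc.U2.Crt.K37
import Pool.Agent.Lib.MP_79d702_lc.U2.Crt.K38
import Pool.Agent.Lib.MP_79d702_lc.U2.Crt.K39
import Pool.Agent.Lib.MP_79d702_lc.U2.Crt.K40
import Pool.Agent.Lib.MP_79d702_lc.U2.Crt.K41
import Pool.Agent.Lib.MP_79d702_lc.U2.Crt.K42
import Pool.Agent.Lib.MP_79d702_lc.U2.Crt.K43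
import Pool.Agent.Lib.MP_79d702_lc.U2.Crt.K44
import Pool.Agent.Lib.MP_79d702_lc.U2.Crt.K45
import Pool.Agent.Lib.MP_79d702_lc.U2.Crt.K46
import Pool.Agent.Lib.MP_79d702_lc.U2.Crt.K47
import Pool.Agent.Lib.MP_79d702_lc.U2.Crt.K48
import Pool.Agent.Lib.MP_79d702_lc.U2.Crt.K49
import Pool.Agent.Lib.MP_79d702_lc.U2.Crt.K50
import Pool.Agent.Lib.MP_79d702_lc.U2.Crt.K51
import Pool.Agent.Lib.MP_79d702_lc.U2.Crt.K52
import Pool.Agent.Lib.MP_79d702_lc.U2.Crt.K53
import Pool.Agent.Lib.MP_79d702_lc.U2.Crt.K54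
import Pool.Agent.Lib.MP_79d702_lc.U2.Crt.K55
import Pool.Agent.Lib.MP_79d702_lc.U2.Crt.K56
import Pool.Agent.Lib.MP_79d702_lc.U2.Crt.K57
import Pool.Agent.Lib.MP_79d702_lc.U2.Crt.K58
import Pool.Agent.Lib.MP_79d702_lc.U2.Crt.K59
import Pool.Agent.Lib.MP_79d702_lc.U2.Crt.K60
import Pool.Agent.Lib.MP_79d702_lc.U2.Crt.K61
import Pool.Agent.Lib.MP_79d702_lc.U2.Crt.K62
import Pool.Agent.Lib.MP_79d702_lc.U2.Crt.K63
import Pool.Agent.Lib.MP_79d702_lc.U2.Crt.K64
import Pool.Agent.Lib.MP_79d702_lc.U2.Crt.K65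
import Pool.Agent.Lib.MP_79d702_lc.U2.Crt.K66
import Pool.Agent.Lib.MP_79d702_lc.U2.Crt.K67
import Pool.Agent.Lib.MP_79d702_lc.U2.Crt.K68
import Pool.Agent.Lib.MP_79d702_lc.U2.Crt.K69
import Pool.Agent.Lib.MP_79d702_lc.U2.Crt.K70
import Pool.Agent.Lib.MP_79d702_lc.U2.Crt.K71
import Pool.Agent.Lib.MP_79d702_lc.U2.Crt.K72
import Pool.Agent.Lib.MP_79d702_lc.U2.Crt.K73
import Pool.Agent.Lib.MP_79d702_lc.U2.Crt.K74
import Pool.Agent.Lib.MP_79d702_lc.U2.Crt.K75
import Pool.Agent.Lib.MP_79d702_lc.U2.Crt.K76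
import Pool.Agent.Lib.MP_79d702_lc.U2.Crt.K77
import Pool.Agent.Lib.MP_79d702_lc.U2.Crt.K78
import Pool.Agent.Lib.MP_79d702_lc.U2.Crt.K79
import Pool.Agent.Lib.MP_79d702_lc.U2.Crt.K80
import Pool.Agent.Lib.MP_79d702_lc.U2.Crt.K81
import Pool.Agent.Lib.MP_79d702_lc.U2.Crt.K82
import Pool.Agent.Lib.MP_79d702_lc.U2.Crt.K83
import Pool.Agent.Lib.MP_79d702_lc.U2.Crt.K84
import Pool.Agent.Lib.MP_79d702_lc.U2.Crt.K85
import Pool.Agent.Lib.MP_79d702_lc.U2.Crt.K86
import Pool.Agent.Lib.MP_79d702_lc.U2.Crt.K87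
import Pool.Agent.Lib.MP_79d702_lc.U2.Crt.K88
import Pool.Agent.Lib.MP_79d702_lc.U2.Crt.K89
import Pool.Agent.Lib.MP_79d702_lc.U2.Crt.K90
import Pool.Agent.Lib.MP_79d702_lc.U2.Crt.K91
import Pool.Agent.Lib.MP_79d702_lc.U2.Crt.K92
import Pool.Agent.Lib.MP_79d702_lc.U2.Crt.K93
import Pool.Agent.Lib.MP_79d702_lc.U2.Crt.K94
import Pool.Agent.Lib.MP_79d702_lc.U2.Crt.K95
import Pool.Agent.Lib.MP_79d702_lc.U2.Crt.K96
import Pool.Agent.Lib.MP_79d702_lc.U2.Crt.K97
import Pool.Agent.Lib.MP_79d702_lc.U2.Crt.K98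
import Pool.Agent.Lib.MP_79d702_lc.U2.Crt.K99
import Pool.Agent.Lib.MP_79d702_lc.U2.Crt.K100
import Pool.Agent.Lib.MP_79d702_lc.U2.Crt.K101
import Pool.Agent.Lib.MP_79d702_lc.U2.Crt.K102
import Pool.Agent.Lib.MP_79d702_lc.U2.Crt.K103
import Pool.Agent.Lib.MP_79d702_lc.U2.Crt.K104
import Pool.Agent.Lib.MP_79d702_lc.U2.Crt.K105
import Pool.Agent.Lib.MP_79d702_lc.U2.Crt.K106
import Pool.Agent.Lib.MP_79d702_lc.U2.Crt.K107
import Pool.Agent.Lib.MP_79d702_lc.U2.Crt.K108
import Pool.Agent.Lib.MP_79d702_lc.U2.Crt.K109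
import Pool.Agent.Lib.MP_79d702_lc.U2.Crt.K110
import Pool.Agent.Lib.MP_79d702_lc.U2.Crt.K111
import Pool.Agent.Lib.MP_79d702_lc.U2.Crt.K112
import Pool.Agent.Lib.MP_79d702_lc.U2.Crt.K113
import Pool.Agent.Lib.MP_79d702_lc.U2.Crt.K114
import Pool.Agent.Lib.MP_79d702_lc.U2.Crt.K115
import Pool.Agent.Lib.MP_79d702_lc.U2.Crt.K116
import Pool.Agent.Lib.MP_79d702_lc.U2.Crt.K117
import Pool.Agent.Lib.MP_79d702_lc.U2.Crt.K118
import Pool.Agent.Lib.MP_79d702_lc.U2.Crt.K119
import Pool.Agent.Lib.MP_79d702_lc.U2.Crt.K120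
import Pool.Agent.Lib.MP_79d702_lc.U2.Crt.K121
import Pool.Agent.Lib.MP_79d702_lc.U2.Crt.K122
import Pool.Agent.Lib.MP_79d702_lc.U2.Crt.K123

namespace Pool.Agent.Lib.MP_79d702_lc.U2.Crt

theorem a1 : V2.Cert db 0 7770 := k0.trans k1
theorem a2 : V2.Cert db 0 10922 := a1.trans k2
theorem a3 : V2.Cert db 0 14041 := a2.trans k3
theorem a4 : V2.Cert db 0 17190 := a3.trans k4
theorem a5 : V2.Cert db 0 19419 := a4.trans k5
theorem a6 : V2.Cert db 0 21739 := a5.trans k6
theorem a7 : V2.Cert db 0 24221 := a6.trans k7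
theorem a8 : V2.Cert db 0 26583 := a7.trans k8
theorem a9 : V2.Cert db 0 28520 := a8.trans k9
theorem a10 : V2.Cert db 0 31473 := a9.trans k10
theorem a11 : V2.Cert db 0 33964 := a10.trans k11
theorem a12 : V2.Cert db 0 36262 := a11.trans k12
theorem a13 : V2.Cert db 0 38266 := a12.trans k13
theorem a14 : V2.Cert db 0 40352 := a13.trans k14
theorem a15 : V2.Cert db 0 42215 := a14.trans k15
theorem a16 : V2.Cert db 0 44500 := a15.trans k16
theorem a17 : V2.Cert db 0 46272 := a16.trans k17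
theorem a18 : V2.Cert db 0 48381 := a17.trans k18
theorem a19 : V2.Cert db 0 50462 := a18.trans k19
theorem a20 : V2.Cert db 0 52296 := a19.trans k20
theorem a21 : V2.Cert db 0 54278 := a20.trans k21
theorem a22 : V2.Cert db 0 56504 := a21.trans k22
theorem a23 : V2.Cert db 0 58404 := a22.trans k23
theorem a24 : V2.Cert db 0 60087 := a23.trans k24
theorem a25 : V2.Cert db 0 61681 := a24.trans k25
theorem a26 : V2.Cert db 0 63514 := a25.trans k26
theorem a27 : V2.Cert db 0 65271 := a26.trans k27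
theorem a28 : V2.Cert db 0 67340 := a27.trans k28
theorem a29 : V2.Cert db 0 68990 := a28.trans k29
theorem a30 : V2.Cert db 0 70640 := a29.trans k30
theorem a31 : V2.Cert db 0 72106 := a30.trans k31
theorem a32 : V2.Cert db 0 74068 := a31.trans k32
theorem a33 : V2.Cert db 0 76238 := a32.trans k33
theorem a34 : V2.Cert db 0 78273 := a33.trans k34
theorem a35 : V2.Cert db 0 80057 := a34.trans k35
theorem a36 : V2.Cert db 0 82464 := a35.trans k36
theorem a37 : V2.Cert db 0 84868 := a36.trans k37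
theorem a38 : V2.Cert db 0 86955 := a37.trans k38
theorem a39 : V2.Cert db 0 89309 := a38.trans k39
theorem a40 : V2.Cert db 0 91289 := a39.trans k40
theorem a41 : V2.Cert db 0 93262 := a40.trans k41
theorem a42 : V2.Cert db 0 95119 := a41.trans k42
theorem a43 : V2.Cert db 0 96851 := a42.trans k43
theorem a44 : V2.Cert db 0 98518 := a43.trans k44
theorem a45 : V2.Cert db 0 100409 := a44.trans k45
theorem a46 : V2.Cert db 0 102177 := a45.trans k46
theorem a47 : V2.Cert db 0 103846 := a46.trans k47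
theorem a48 : V2.Cert db 0 105557 := a47.trans k48
theorem a49 : V2.Cert db 0 107142 := a48.trans k49
theorem a50 : V2.Cert db 0 108792 := a49.trans k50
theorem a51 : V2.Cert db 0 110319 := a50.trans k51
theorem a52 : V2.Cert db 0 111834 := a51.trans k52
theorem a53 : V2.Cert db 0 113879 := a52.trans k53
theorem a54 : V2.Cert db 0 116150 := a53.trans k54
theorem a55 : V2.Cert db 0 117807 := a54.trans k55
theorem a56 : V2.Cert db 0 119530 := a55.trans k56
theorem a57 : V2.Cert db 0 121476 := a56.trans k57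
theorem a58 : V2.Cert db 0 123080 := a57.trans k58
theorem a59 : V2.Cert db 0 125185 := a58.trans k59
theorem a60 : V2.Cert db 0 127072 := a59.trans k60
theorem a61 : V2.Cert db 0 128827 := a60.trans k61
theorem a62 : V2.Cert db 0 131131 := a61.trans k62
theorem a63 : V2.Cert db 0 133357 := a62.trans k63
theorem a64 : V2.Cert db 0 135342 := a63.trans k64
theorem a65 : V2.Cert db 0 137189 := a64.trans k65
theorem a66 : V2.Cert db 0 139292 := a65.trans k66
theorem a67 : V2.Cert db 0 141150 := a66.trans k67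
theorem a68 : V2.Cert db 0 143060 := a67.trans k68
theorem a69 : V2.Cert db 0 144901 := a68.trans k69
theorem a70 : V2.Cert db 0 146631 := a69.trans k70
theorem a71 : V2.Cert db 0 148652 := a70.trans k71
theorem a72 : V2.Cert db 0 150412 := a71.trans k72
theorem a73 : V2.Cert db 0 152281 := a72.trans k73
theorem a74 : V2.Cert db 0 154006 := a73.trans k74
theorem a75 : V2.Cert db 0 155917 := a74.trans k75
theorem a76 : V2.Cert db 0 157937 := a75.trans k76
theorem a77 : V2.Cert db 0 159465 := a76.trans k77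
theorem a78 : V2.Cert db 0 161138 := a77.trans k78
theorem a79 : V2.Cert db 0 162773 := a78.trans k79
theorem a80 : V2.Cert db 0 164490 := a79.trans k80
theorem a81 : V2.Cert db 0 166075 := a80.trans k81
theorem a82 : V2.Cert db 0 167792 := a81.trans k82
theorem a83 : V2.Cert db 0 169322 := a82.trans k83
theorem a84 : V2.Cert db 0 170797 := a83.trans k84
theorem a85 : V2.Cert db 0 172355 := a84.trans k85
theorem a86 : V2.Cert db 0 173836 := a85.trans k86
theorem a87 : V2.Cert db 0 175206 := a86.trans k87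
theorem a88 : V2.Cert db 0 176616 := a87.trans k88
theorem a89 : V2.Cert db 0 178097 := a88.trans k89
theorem a90 : V2.Cert db 0 179692 := a89.trans k90
theorem a91 : V2.Cert db 0 181482 := a90.trans k91
theorem a92 : V2.Cert db 0 182759 := a91.trans k92
theorem a93 : V2.Cert db 0 184240 := a92.trans k93
theorem a94 : V2.Cert db 0 185618 := a93.trans k94
theorem a95 : V2.Cert db 0 187330 := a94.trans k95
theorem a96 : V2.Cert db 0 189503 := a95.trans k96
theorem a97 : V2.Cert db 0 191616 := a96.trans k97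
theorem a98 : V2.Cert db 0 193640 := a97.trans k98
theorem a99 : V2.Cert db 0 194987 := a98.trans k99
theorem a100 : V2.Cert db 0 196827 := a99.trans k100
theorem a101 : V2.Cert db 0 198318 := a100.trans k101
theorem a102 : V2.Cert db 0 200174 := a101.trans k102
theorem a103 : V2.Cert db 0 201738 := a102.trans k103
theorem a104 : V2.Cert db 0 203260 := a103.trans k104
theorem a105 : V2.Cert db 0 205026 := a104.trans k105
theorem a106 : V2.Cert db 0 206740 := a105.trans k106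
theorem a107 : V2.Cert db 0 208295 := a106.trans k107
theorem a108 : V2.Cert db 0 209762 := a107.trans k108
theorem a109 : V2.Cert db 0 211444 := a108.trans k109
theorem a110 : V2.Cert db 0 212918 := a109.trans k110
theorem a111 : V2.Cert db 0 214554 := a110.trans k111
theorem a112 : V2.Cert db 0 216316 := a111.trans k112
theorem a113 : V2.Cert db 0 217774 := a112.trans k113
theorem a114 : V2.Cert db 0 218762 := a113.trans k114
theorem a115 : V2.Cert db 0 220295 := a114.trans k115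
theorem a116 : V2.Cert db 0 221970 := a115.trans k116
theorem a117 : V2.Cert db 0 223615 := a116.trans k117
theorem a118 : V2.Cert db 0 225046 := a117.trans k118
theorem a119 : V2.Cert db 0 226261 := a118.trans k119
theorem a120 : V2.Cert db 0 227394 := a119.trans k120
theorem a121 : V2.Cert db 0 228414 := a120.trans k121
theorem a122 : V2.Cert db 0 229528 := a121.trans k122
theorem a123 : V2.Cert db 0 229817 := a122.trans k123

theorem all : V2.Cert db 0 229817 := a123

theorem core : Core :=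
  V2.core_of_cert all fun p q r =>
    match p, q, r with
    | false, false, false => ⟨184, by decide +kernel, by decide +kernel⟩
    | false, false, true => ⟨186, by decide +kernel, by decide +kernel⟩
    | false, true, false => ⟨1482, by decide +kernel, by decide +kernel⟩
    | false, true, true => ⟨1484, by decide +kernel, by decide +kernel⟩
    | true, false, false => ⟨142059, by decide +kernel, by decide +kernel⟩
    | true, false, true => ⟨146021, by decide +kernel, by decide +kernel⟩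
    | true, true, false => ⟨156944, by decide +kernel, by decide +kernel⟩
    | true, true, true => ⟨229816, by decide +kernel, by decide +kernel⟩

end Pool.Agent.Lib.MP_79d702_lc.U2.Crt
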