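import Pool.Agent.Lib.MP_79d702_lc.U2.Crt.Tab
import Pool.Agent.Lib.MP_79d702_lc.U2.Crt.D0
import Pool.Agent.Lib.MP_79d702_lc.U2.Crt.D1
import Pool.Agent.Lib.MP_79d702_lc.U2.Crt.D2
import Pool.Agent.Lib.MP_79d702_lc.U2.Crt.D3
import Pool.Agent.Lib.MP_79d702_lc.U2.Crt.D4
import Pool.Agent.Lib.MP_79d702_lc.U2.Crt.D5
import Pool.Agent.Lib.MP_79d702_lc.U2.Crt.D6
import Pool.Agent.Lib.MP_79d702_lc.U2.Crt.D7
import Pool.Agent.Lib.MP_79d702_lc.U2.Crt.D8
import Pool.Agent.Lib.MP_79d702_lc.U2.Crt.D9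

namespace Pool.Agent.Lib.MP_79d702_lc.U2.Crt

noncomputable def t0 (i : Nat) : Nat :=
  (@Bool.rec (fun _ => Nat) (b5 i) (b6 i) (Nat.ble (nat_lit 384) i))

noncomputable def t1 (i : Nat) : Nat :=
  (@Bool.rec (fun _ => Nat) (@Bool.rec (fun _ => Nat) (b2 i) (b3 i) (Nat.ble (nat_lit 192) i)) (@Bool.rec (fun _ => Nat) (b4 i) (t0 i) (Nat.ble (nat_lit 320) i)) (Nat.ble (nat_lit 256) i))

noncomputable def t2 (i : Nat) : Nat :=
  (@Bool.rec (fun _ => Nat) (b7 i) (b8 i) (Nat.ble (nat_lit 512) i))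

noncomputable def t3 (i : Nat) : Nat :=
  (@Bool.rec (fun _ => Nat) (b10 i) (b11 i) (Nat.ble (nat_lit 704) i))

noncomputable def t4 (i : Nat) : Nat :=
  (@Bool.rec (fun _ => Nat) (b12 i) (b13 i) (Nat.ble (nat_lit 832) i))

noncomputable def t5 (i : Nat) : Nat :=
  (@Bool.rec (fun _ => Nat) (@Bool.rec (fun _ => Nat) (b9 i) (t3 i) (Nat.ble (nat_lit 640) i)) (@Bool.rec (fun _ => Nat) (t4 i) (b14 i) (Nat.ble (nat_lit 896) i)) (Nat.ble (nat_lit 768) i))

noncomputable def t6 (i : Nat) : Nat :=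
  (@Bool.rec (fun _ => Nat) (@Bool.rec (fun _ => Nat) (b15 i) (b16 i) (Nat.ble (nat_lit 1024) i)) (b17 i) (Nat.ble (nat_lit 1088) i))

noncomputable def t7 (i : Nat) : Nat :=
  (@Bool.rec (fun _ => Nat) (b18 i) (b19 i) (Nat.ble (nat_lit 1216) i))

noncomputable def t8 (i : Nat) : Nat :=
  (@Bool.rec (fun _ => Nat) (b21 i) (b22 i) (Nat.ble (nat_lit 1408) i))

noncomputable def t9 (i : Nat) : Nat :=
  (@Bool.rec (fun _ => Nat) (@Bool.rec (fun _ => Nat) (t6 i) (t7 i) (Nat.ble (nat_lit 1152) i)) (@Bool.rec (fun _ => Nat) (b20 i) (t8 i) (Nat.ble (nat_lit 1344) i)) (Nat.ble (nat_lit 1280) i))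

noncomputable def t10 (i : Nat) : Nat :=
  (@Bool.rec (fun _ => Nat) (b23 i) (b24 i) (Nat.ble (nat_lit 1536) i))

noncomputable def t11 (i : Nat) : Nat :=
  (@Bool.rec (fun _ => Nat) (@Bool.rec (fun _ => Nat) (t2 i) (t5 i) (Nat.ble (nat_lit 576) i)) (@Bool.rec (fun _ => Nat) (t9 i) (t10 i) (Nat.ble (nat_lit 1472) i)) (Nat.ble (nat_lit 960) i))

noncomputable def t12 (i : Nat) : Nat :=
  (@Bool.rec (fun _ => Nat) (@Bool.rec (fun _ => Nat) (b0 i) (b1 i) (Nat.ble (nat_lit 64) i)) (@Bool.rec (fun _ => Nat) (t1 i) (t11 i) (Nat.ble (nat_lit 448) i)) (Nat.ble (nat_lit 128) i))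

noncomputable def t13 (i : Nat) : Nat :=
  (@Bool.rec (fun _ => Nat) (b25 i) (b26 i) (Nat.ble (nat_lit 1664) i))

noncomputable def t14 (i : Nat) : Nat :=
  (@Bool.rec (fun _ => Nat) (b27 i) (@Bool.rec (fun _ => Nat) (b28 i) (b29 i) (Nat.ble (nat_lit 1856) i)) (Nat.ble (nat_lit 1792) i))

noncomputable def t15 (i : Nat) : Nat :=
  (@Bool.rec (fun _ => Nat) (b32 i) (b33 i) (Nat.ble (nat_lit 2112) i))

noncomputable def t16 (i : Nat) : Nat :=
  (@Bool.rec (fun _ => Nat) (b30 i) (@Bool.rec (fun _ => Nat) (b31 i) (t15 i) (Nat.ble (nat_lit 2048) i)) (Nat.ble (nat_lit 1984) i))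

noncomputable def t17 (i : Nat) : Nat :=
  (@Bool.rec (fun _ => Nat) (b35 i) (b36 i) (Nat.ble (nat_lit 2304) i))

noncomputable def t18 (i : Nat) : Nat :=
  (@Bool.rec (fun _ => Nat) (b37 i) (b38 i) (Nat.ble (nat_lit 2432) i))

noncomputable def t19 (i : Nat) : Nat :=
  (@Bool.rec (fun _ => Nat) (b39 i) (b40 i) (Nat.ble (nat_lit 2560) i))

noncomputable def t20 (i : Nat) : Nat :=
  (@Bool.rec (fun _ => Nat) (@Bool.rec (fun _ => Nat) (b34 i) (t17 i) (Nat.ble (nat_lit 2240) i)) (@Bool.rec (fun _ => Nat) (t18 i) (t19 i) (Nat.ble (nat_lit 2496) i)) (Nat.ble (nat_lit 2368) i))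

noncomputable def t21 (i : Nat) : Nat :=
  (@Bool.rec (fun _ => Nat) (@Bool.rec (fun _ => Nat) (t13 i) (t14 i) (Nat.ble (nat_lit 1728) i)) (@Bool.rec (fun _ => Nat) (t16 i) (t20 i) (Nat.ble (nat_lit 2176) i)) (Nat.ble (nat_lit 1920) i))

noncomputable def t22 (i : Nat) : Nat :=
  (@Bool.rec (fun _ => Nat) (b43 i) (b44 i) (Nat.ble (nat_lit 2816) i))

noncomputable def t23 (i : Nat) : Nat :=
  (@Bool.rec (fun _ => Nat) (@Bool.rec (fun _ => Nat) (b45 i) (b46 i) (Nat.ble (nat_lit 2944) i)) (@Bool.rec (fun _ => Nat) (b47 i) (b48 i) (Nat.ble (nat_lit 3072) i)) (Nat.ble (nat_lit 3008) i))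

noncomputable def t24 (i : Nat) : Nat :=
  (@Bool.rec (fun _ => Nat) (@Bool.rec (fun _ => Nat) (b41 i) (b42 i) (Nat.ble (nat_lit 2688) i)) (@Bool.rec (fun _ => Nat) (t22 i) (t23 i) (Nat.ble (nat_lit 2880) i)) (Nat.ble (nat_lit 2752) i))

noncomputable def t25 (i : Nat) : Nat :=
  (@Bool.rec (fun _ => Nat) (@Bool.rec (fun _ => Nat) (b49 i) (b50 i) (Nat.ble (nat_lit 3200) i)) (b51 i) (Nat.ble (nat_lit 3264) i))

noncomputable def t26 (i : Nat) : Nat :=
  (@Bool.rec (fun _ => Nat) (b52 i) (b53 i) (Nat.ble (nat_lit 3392) i))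

noncomputable def t27 (i : Nat) : Nat :=
  (@Bool.rec (fun _ => Nat) (@Bool.rec (fun _ => Nat) (b54 i) (b55 i) (Nat.ble (nat_lit 3520) i)) (@Bool.rec (fun _ => Nat) (b56 i) (b57 i) (Nat.ble (nat_lit 3648) i)) (Nat.ble (nat_lit 3584) i))

noncomputable def t28 (i : Nat) : Nat :=
  (@Bool.rec (fun _ => Nat) (@Bool.rec (fun _ => Nat) (b58 i) (b59 i) (Nat.ble (nat_lit 3776) i)) (b60 i) (Nat.ble (nat_lit 3840) i))

noncomputable def t29 (i : Nat) : Nat :=
  (@Bool.rec (fun _ => Nat) (@Bool.rec (fun _ => Nat) (t25 i) (t26 i) (Nat.ble (nat_lit 3328) i)) (@Bool.rec (fun _ => Nat) (t27 i) (t28 i) (Nat.ble (nat_lit 3712) i)) (Nat.ble (nat_lit 3456) i))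

noncomputable def t30 (i : Nat) : Nat :=
  (@Bool.rec (fun _ => Nat) (@Bool.rec (fun _ => Nat) (b61 i) (b62 i) (Nat.ble (nat_lit 3968) i)) (@Bool.rec (fun _ => Nat) (b63 i) (b64 i) (Nat.ble (nat_lit 4096) i)) (Nat.ble (nat_lit 4032) i))

noncomputable def t31 (i : Nat) : Nat :=
  (@Bool.rec (fun _ => Nat) (b65 i) (b66 i) (Nat.ble (nat_lit 4224) i))

noncomputable def t32 (i : Nat) : Nat :=
  (@Bool.rec (fun _ => Nat) (@Bool.rec (fun _ => Nat) (t31 i) (b67 i) (Nat.ble (nat_lit 4288) i)) (b68 i) (Nat.ble (nat_lit 4352) i))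

noncomputable def t33 (i : Nat) : Nat :=
  (@Bool.rec (fun _ => Nat) (b69 i) (b70 i) (Nat.ble (nat_lit 4480) i))

noncomputable def t34 (i : Nat) : Nat :=
  (@Bool.rec (fun _ => Nat) (@Bool.rec (fun _ => Nat) (t30 i) (t32 i) (Nat.ble (nat_lit 4160) i)) (@Bool.rec (fun _ => Nat) (t33 i) (b71 i) (Nat.ble (nat_lit 4544) i)) (Nat.ble (nat_lit 4416) i))

noncomputable def t35 (i : Nat) : Nat :=
  (@Bool.rec (fun _ => Nat) (@Bool.rec (fun _ => Nat) (b73 i) (b74 i) (Nat.ble (nat_lit 4736) i)) (@Bool.rec (fun _ => Nat) (b75 i) (b76 i) (Nat.ble (nat_lit 4864) i)) (Nat.ble (nat_lit 4800) i))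

noncomputable def t36 (i : Nat) : Nat :=
  (@Bool.rec (fun _ => Nat) (b77 i) (b78 i) (Nat.ble (nat_lit 4992) i))

noncomputable def t37 (i : Nat) : Nat :=
  (@Bool.rec (fun _ => Nat) (b79 i) (b80 i) (Nat.ble (nat_lit 5120) i))

noncomputable def t38 (i : Nat) : Nat :=
  (@Bool.rec (fun _ => Nat) (@Bool.rec (fun _ => Nat) (b72 i) (t35 i) (Nat.ble (nat_lit 4672) i)) (@Bool.rec (fun _ => Nat) (t36 i) (t37 i) (Nat.ble (nat_lit 5056) i)) (Nat.ble (nat_lit 4928) i))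

noncomputable def t39 (i : Nat) : Nat :=
  (@Bool.rec (fun _ => Nat) (@Bool.rec (fun _ => Nat) (t24 i) (t29 i) (Nat.ble (nat_lit 3136) i)) (@Bool.rec (fun _ => Nat) (t34 i) (t38 i) (Nat.ble (nat_lit 4608) i)) (Nat.ble (nat_lit 3904) i))

noncomputable def t40 (i : Nat) : Nat :=
  (@Bool.rec (fun _ => Nat) (b81 i) (b82 i) (Nat.ble (nat_lit 5248) i))

noncomputable def t41 (i : Nat) : Nat :=
  (@Bool.rec (fun _ => Nat) (b84 i) (b85 i) (Nat.ble (nat_lit 5440) i))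

noncomputable def t42 (i : Nat) : Nat :=
  (@Bool.rec (fun _ => Nat) (@Bool.rec (fun _ => Nat) (t40 i) (b83 i) (Nat.ble (nat_lit 5312) i)) (@Bool.rec (fun _ => Nat) (t41 i) (b86 i) (Nat.ble (nat_lit 5504) i)) (Nat.ble (nat_lit 5376) i))

noncomputable def t43 (i : Nat) : Nat :=
  (@Bool.rec (fun _ => Nat) (@Bool.rec (fun _ => Nat) (b87 i) (b88 i) (Nat.ble (nat_lit 5632) i)) (@Bool.rec (fun _ => Nat) (b89 i) (b90 i) (Nat.ble (nat_lit 5760) i)) (Nat.ble (nat_lit 5696) i))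

noncomputable def t44 (i : Nat) : Nat :=
  (@Bool.rec (fun _ => Nat) (b92 i) (b93 i) (Nat.ble (nat_lit 5952) i))

noncomputable def t45 (i : Nat) : Nat :=
  (@Bool.rec (fun _ => Nat) (@Bool.rec (fun _ => Nat) (b91 i) (t44 i) (Nat.ble (nat_lit 5888) i)) (@Bool.rec (fun _ => Nat) (b94 i) (b95 i) (Nat.ble (nat_lit 6080) i)) (Nat.ble (nat_lit 6016) i))

noncomputable def t46 (i : Nat) : Nat :=
  (@Bool.rec (fun _ => Nat) (@Bool.rec (fun _ => Nat) (b96 i) (b97 i) (Nat.ble (nat_lit 6208) i)) (@Bool.rec (fun _ => Nat) (b98 i) (b99 i) (Nat.ble (nat_lit 6336) i)) (Nat.ble (nat_lit 6272) i))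

noncomputable def t47 (i : Nat) : Nat :=
  (@Bool.rec (fun _ => Nat) (@Bool.rec (fun _ => Nat) (t42 i) (t43 i) (Nat.ble (nat_lit 5568) i)) (@Bool.rec (fun _ => Nat) (t45 i) (t46 i) (Nat.ble (nat_lit 6144) i)) (Nat.ble (nat_lit 5824) i))

noncomputable def t48 (i : Nat) : Nat :=
  (@Bool.rec (fun _ => Nat) (@Bool.rec (fun _ => Nat) (b100 i) (b101 i) (Nat.ble (nat_lit 6464) i)) (b102 i) (Nat.ble (nat_lit 6528) i))

noncomputable def t49 (i : Nat) : Nat :=
  (@Bool.rec (fun _ => Nat) (b104 i) (b105 i) (Nat.ble (nat_lit 6720) i))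

noncomputable def t50 (i : Nat) : Nat :=
  (@Bool.rec (fun _ => Nat) (@Bool.rec (fun _ => Nat) (b106 i) (b107 i) (Nat.ble (nat_lit 6848) i)) (@Bool.rec (fun _ => Nat) (b108 i) (b109 i) (Nat.ble (nat_lit 6976) i)) (Nat.ble (nat_lit 6912) i))

noncomputable def t51 (i : Nat) : Nat :=
  (@Bool.rec (fun _ => Nat) (@Bool.rec (fun _ => Nat) (t48 i) (b103 i) (Nat.ble (nat_lit 6592) i)) (@Bool.rec (fun _ => Nat) (t49 i) (t50 i) (Nat.ble (nat_lit 6784) i)) (Nat.ble (nat_lit 6656) i))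

noncomputable def t52 (i : Nat) : Nat :=
  (@Bool.rec (fun _ => Nat) (@Bool.rec (fun _ => Nat) (b110 i) (b111 i) (Nat.ble (nat_lit 7104) i)) (b112 i) (Nat.ble (nat_lit 7168) i))

noncomputable def t53 (i : Nat) : Nat :=
  (@Bool.rec (fun _ => Nat) (b116 i) (b117 i) (Nat.ble (nat_lit 7488) i))

noncomputable def t54 (i : Nat) : Nat :=
  (@Bool.rec (fun _ => Nat) (@Bool.rec (fun _ => Nat) (b113 i) (b114 i) (Nat.ble (nat_lit 7296) i)) (@Bool.rec (fun _ => Nat) (b115 i) (t53 i) (Nat.ble (nat_lit 7424) i)) (Nat.ble (nat_lit 7360) i))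

noncomputable def t55 (i : Nat) : Nat :=
  (@Bool.rec (fun _ => Nat) (@Bool.rec (fun _ => Nat) (b118 i) (b119 i) (Nat.ble (nat_lit 7616) i)) (b120 i) (Nat.ble (nat_lit 7680) i))

noncomputable def t56 (i : Nat) : Nat :=
  (@Bool.rec (fun _ => Nat) (b121 i) (b122 i) (Nat.ble (nat_lit 7808) i))

noncomputable def t57 (i : Nat) : Nat :=
  (@Bool.rec (fun _ => Nat) (@Bool.rec (fun _ => Nat) (t52 i) (t54 i) (Nat.ble (nat_lit 7232) i)) (@Bool.rec (fun _ => Nat) (t55 i) (t56 i) (Nat.ble (nat_lit 7744) i)) (Nat.ble (nat_lit 7552) i))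

noncomputable def t58 (i : Nat) : Nat :=
  (@Bool.rec (fun _ => Nat) (b125 i) (@Bool.rec (fun _ => Nat) (b126 i) (b127 i) (Nat.ble (nat_lit 8128) i)) (Nat.ble (nat_lit 8064) i))

noncomputable def t59 (i : Nat) : Nat :=
  (@Bool.rec (fun _ => Nat) (b123 i) (@Bool.rec (fun _ => Nat) (b124 i) (t58 i) (Nat.ble (nat_lit 8000) i)) (Nat.ble (nat_lit 7936) i))

noncomputable def t60 (i : Nat) : Nat :=
  (@Bool.rec (fun _ => Nat) (b128 i) (@Bool.rec (fun _ => Nat) (b129 i) (b130 i) (Nat.ble (nat_lit 8320) i)) (Nat.ble (nat_lit 8256) i))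

noncomputable def t61 (i : Nat) : Nat :=
  (@Bool.rec (fun _ => Nat) (@Bool.rec (fun _ => Nat) (b131 i) (b132 i) (Nat.ble (nat_lit 8448) i)) (b133 i) (Nat.ble (nat_lit 8512) i))

noncomputable def t62 (i : Nat) : Nat :=
  (@Bool.rec (fun _ => Nat) (@Bool.rec (fun _ => Nat) (b134 i) (b135 i) (Nat.ble (nat_lit 8640) i)) (@Bool.rec (fun _ => Nat) (b136 i) (b137 i) (Nat.ble (nat_lit 8768) i)) (Nat.ble (nat_lit 8704) i))

noncomputable def t63 (i : Nat) : Nat :=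
  (@Bool.rec (fun _ => Nat) (@Bool.rec (fun _ => Nat) (t59 i) (t60 i) (Nat.ble (nat_lit 8192) i)) (@Bool.rec (fun _ => Nat) (t61 i) (t62 i) (Nat.ble (nat_lit 8576) i)) (Nat.ble (nat_lit 8384) i))

noncomputable def t64 (i : Nat) : Nat :=
  (@Bool.rec (fun _ => Nat) (@Bool.rec (fun _ => Nat) (t47 i) (t51 i) (Nat.ble (nat_lit 6400) i)) (@Bool.rec (fun _ => Nat) (t57 i) (t63 i) (Nat.ble (nat_lit 7872) i)) (Nat.ble (nat_lit 7040) i))

noncomputable def t65 (i : Nat) : Nat :=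
  (@Bool.rec (fun _ => Nat) (@Bool.rec (fun _ => Nat) (b138 i) (b139 i) (Nat.ble (nat_lit 8896) i)) (@Bool.rec (fun _ => Nat) (b140 i) (b141 i) (Nat.ble (nat_lit 9024) i)) (Nat.ble (nat_lit 8960) i))

noncomputable def t66 (i : Nat) : Nat :=
  (@Bool.rec (fun _ => Nat) (@Bool.rec (fun _ => Nat) (b142 i) (b143 i) (Nat.ble (nat_lit 9152) i)) (@Bool.rec (fun _ => Nat) (b144 i) (b145 i) (Nat.ble (nat_lit 9280) i)) (Nat.ble (nat_lit 9216) i))

noncomputable def t67 (i : Nat) : Nat :=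
  (@Bool.rec (fun _ => Nat) (b146 i) (b147 i) (Nat.ble (nat_lit 9408) i))

noncomputable def t68 (i : Nat) : Nat :=
  (@Bool.rec (fun _ => Nat) (b149 i) (b150 i) (Nat.ble (nat_lit 9600) i))

noncomputable def t69 (i : Nat) : Nat :=
  (@Bool.rec (fun _ => Nat) (b151 i) (b152 i) (Nat.ble (nat_lit 9728) i))

noncomputable def t70 (i : Nat) : Nat :=
  (@Bool.rec (fun _ => Nat) (@Bool.rec (fun _ => Nat) (t67 i) (b148 i) (Nat.ble (nat_lit 9472) i)) (@Bool.rec (fun _ => Nat) (t68 i) (t69 i) (Nat.ble (nat_lit 9664) i)) (Nat.ble (nat_lit 9536) i))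

noncomputable def t71 (i : Nat) : Nat :=
  (@Bool.rec (fun _ => Nat) (b153 i) (b154 i) (Nat.ble (nat_lit 9856) i))

noncomputable def t72 (i : Nat) : Nat :=
  (@Bool.rec (fun _ => Nat) (b156 i) (b157 i) (Nat.ble (nat_lit 10048) i))

noncomputable def t73 (i : Nat) : Nat :=
  (@Bool.rec (fun _ => Nat) (b158 i) (b159 i) (Nat.ble (nat_lit 10176) i))

noncomputable def t74 (i : Nat) : Nat :=
  (@Bool.rec (fun _ => Nat) (@Bool.rec (fun _ => Nat) (t71 i) (b155 i) (Nat.ble (nat_lit 9920) i)) (@Bool.rec (fun _ => Nat) (t72 i) (t73 i) (Nat.ble (nat_lit 10112) i)) (Nat.ble (nat_lit 9984) i))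

noncomputable def t75 (i : Nat) : Nat :=
  (@Bool.rec (fun _ => Nat) (@Bool.rec (fun _ => Nat) (t65 i) (t66 i) (Nat.ble (nat_lit 9088) i)) (@Bool.rec (fun _ => Nat) (t70 i) (t74 i) (Nat.ble (nat_lit 9792) i)) (Nat.ble (nat_lit 9344) i))

noncomputable def t76 (i : Nat) : Nat :=
  (@Bool.rec (fun _ => Nat) (b160 i) (b161 i) (Nat.ble (nat_lit 10304) i))

noncomputable def t77 (i : Nat) : Nat :=
  (@Bool.rec (fun _ => Nat) (b162 i) (b163 i) (Nat.ble (nat_lit 10432) i))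

noncomputable def t78 (i : Nat) : Nat :=
  (@Bool.rec (fun _ => Nat) (b164 i) (b165 i) (Nat.ble (nat_lit 10560) i))

noncomputable def t79 (i : Nat) : Nat :=
  (@Bool.rec (fun _ => Nat) (b166 i) (b167 i) (Nat.ble (nat_lit 10688) i))

noncomputable def t80 (i : Nat) : Nat :=
  (@Bool.rec (fun _ => Nat) (@Bool.rec (fun _ => Nat) (t76 i) (t77 i) (Nat.ble (nat_lit 10368) i)) (@Bool.rec (fun _ => Nat) (t78 i) (t79 i) (Nat.ble (nat_lit 10624) i)) (Nat.ble (nat_lit 10496) i))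

noncomputable def t81 (i : Nat) : Nat :=
  (@Bool.rec (fun _ => Nat) (b168 i) (@Bool.rec (fun _ => Nat) (b169 i) (b170 i) (Nat.ble (nat_lit 10880) i)) (Nat.ble (nat_lit 10816) i))

noncomputable def t82 (i : Nat) : Nat :=
  (@Bool.rec (fun _ => Nat) (b172 i) (b173 i) (Nat.ble (nat_lit 11072) i))

noncomputable def t83 (i : Nat) : Nat :=
  (@Bool.rec (fun _ => Nat) (@Bool.rec (fun _ => Nat) (b171 i) (t82 i) (Nat.ble (nat_lit 11008) i)) (@Bool.rec (fun _ => Nat) (b174 i) (b175 i) (Nat.ble (nat_lit 11200) i)) (Nat.ble (nat_lit 11136) i))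

noncomputable def t84 (i : Nat) : Nat :=
  (@Bool.rec (fun _ => Nat) (b176 i) (b177 i) (Nat.ble (nat_lit 11328) i))

noncomputable def t85 (i : Nat) : Nat :=
  (@Bool.rec (fun _ => Nat) (b179 i) (b180 i) (Nat.ble (nat_lit 11520) i))

noncomputable def t86 (i : Nat) : Nat :=
  (@Bool.rec (fun _ => Nat) (@Bool.rec (fun _ => Nat) (t84 i) (b178 i) (Nat.ble (nat_lit 11392) i)) (@Bool.rec (fun _ => Nat) (t85 i) (b181 i) (Nat.ble (nat_lit 11584) i)) (Nat.ble (nat_lit 11456) i))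

noncomputable def t87 (i : Nat) : Nat :=
  (@Bool.rec (fun _ => Nat) (@Bool.rec (fun _ => Nat) (t80 i) (t81 i) (Nat.ble (nat_lit 10752) i)) (@Bool.rec (fun _ => Nat) (t83 i) (t86 i) (Nat.ble (nat_lit 11264) i)) (Nat.ble (nat_lit 10944) i))

noncomputable def t88 (i : Nat) : Nat :=
  (@Bool.rec (fun _ => Nat) (b182 i) (@Bool.rec (fun _ => Nat) (b183 i) (b184 i) (Nat.ble (nat_lit 11776) i)) (Nat.ble (nat_lit 11712) i))

noncomputable def t89 (i : Nat) : Nat :=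
  (@Bool.rec (fun _ => Nat) (b185 i) (@Bool.rec (fun _ => Nat) (b186 i) (b187 i) (Nat.ble (nat_lit 11968) i)) (Nat.ble (nat_lit 11904) i))

noncomputable def t90 (i : Nat) : Nat :=
  (@Bool.rec (fun _ => Nat) (@Bool.rec (fun _ => Nat) (b188 i) (b189 i) (Nat.ble (nat_lit 12096) i)) (b190 i) (Nat.ble (nat_lit 12160) i))

noncomputable def t91 (i : Nat) : Nat :=
  (@Bool.rec (fun _ => Nat) (@Bool.rec (fun _ => Nat) (b191 i) (b192 i) (Nat.ble (nat_lit 12288) i)) (b193 i) (Nat.ble (nat_lit 12352) i))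

noncomputable def t92 (i : Nat) : Nat :=
  (@Bool.rec (fun _ => Nat) (@Bool.rec (fun _ => Nat) (t88 i) (t89 i) (Nat.ble (nat_lit 11840) i)) (@Bool.rec (fun _ => Nat) (t90 i) (t91 i) (Nat.ble (nat_lit 12224) i)) (Nat.ble (nat_lit 12032) i))

noncomputable def t93 (i : Nat) : Nat :=
  (@Bool.rec (fun _ => Nat) (@Bool.rec (fun _ => Nat) (b194 i) (b195 i) (Nat.ble (nat_lit 12480) i)) (b196 i) (Nat.ble (nat_lit 12544) i))

noncomputable def t94 (i : Nat) : Nat :=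
  (@Bool.rec (fun _ => Nat) (b198 i) (b199 i) (Nat.ble (nat_lit 12736) i))

noncomputable def t95 (i : Nat) : Nat :=
  (@Bool.rec (fun _ => Nat) (@Bool.rec (fun _ => Nat) (t93 i) (b197 i) (Nat.ble (nat_lit 12608) i)) (@Bool.rec (fun _ => Nat) (t94 i) (b200 i) (Nat.ble (nat_lit 12800) i)) (Nat.ble (nat_lit 12672) i))

noncomputable def t96 (i : Nat) : Nat :=
  (@Bool.rec (fun _ => Nat) (b201 i) (b202 i) (Nat.ble (nat_lit 12928) i))

noncomputable def t97 (i : Nat) : Nat :=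
  (@Bool.rec (fun _ => Nat) (b204 i) (b205 i) (Nat.ble (nat_lit 13120) i))

noncomputable def t98 (i : Nat) : Nat :=
  (@Bool.rec (fun _ => Nat) (b208 i) (b209 i) (Nat.ble (nat_lit 13376) i))

noncomputable def t99 (i : Nat) : Nat :=
  (@Bool.rec (fun _ => Nat) (b206 i) (@Bool.rec (fun _ => Nat) (b207 i) (t98 i) (Nat.ble (nat_lit 13312) i)) (Nat.ble (nat_lit 13248) i))

noncomputable def t100 (i : Nat) : Nat :=
  (@Bool.rec (fun _ => Nat) (@Bool.rec (fun _ => Nat) (t96 i) (b203 i) (Nat.ble (nat_lit 12992) i)) (@Bool.rec (fun _ => Nat) (t97 i) (t99 i) (Nat.ble (nat_lit 13184) i)) (Nat.ble (nat_lit 13056) i))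

noncomputable def t101 (i : Nat) : Nat :=
  (@Bool.rec (fun _ => Nat) (b210 i) (b211 i) (Nat.ble (nat_lit 13504) i))

noncomputable def t102 (i : Nat) : Nat :=
  (@Bool.rec (fun _ => Nat) (b212 i) (@Bool.rec (fun _ => Nat) (b213 i) (b214 i) (Nat.ble (nat_lit 13696) i)) (Nat.ble (nat_lit 13632) i))

noncomputable def t103 (i : Nat) : Nat :=
  (@Bool.rec (fun _ => Nat) (b216 i) (b217 i) (Nat.ble (nat_lit 13888) i))

noncomputable def t104 (i : Nat) : Nat :=
  (@Bool.rec (fun _ => Nat) (@Bool.rec (fun _ => Nat) (t101 i) (t102 i) (Nat.ble (nat_lit 13568) i)) (@Bool.rec (fun _ => Nat) (b215 i) (t103 i) (Nat.ble (nat_lit 13824) i)) (Nat.ble (nat_lit 13760) i))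

noncomputable def t105 (i : Nat) : Nat :=
  (@Bool.rec (fun _ => Nat) (@Bool.rec (fun _ => Nat) (t92 i) (t95 i) (Nat.ble (nat_lit 12416) i)) (@Bool.rec (fun _ => Nat) (t100 i) (t104 i) (Nat.ble (nat_lit 13440) i)) (Nat.ble (nat_lit 12864) i))

noncomputable def t106 (i : Nat) : Nat :=
  (@Bool.rec (fun _ => Nat) (b218 i) (b219 i) (Nat.ble (nat_lit 14016) i))

noncomputable def t107 (i : Nat) : Nat :=
  (@Bool.rec (fun _ => Nat) (b220 i) (@Bool.rec (fun _ => Nat) (b221 i) (b222 i) (Nat.ble (nat_lit 14208) i)) (Nat.ble (nat_lit 14144) i))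

noncomputable def t108 (i : Nat) : Nat :=
  (@Bool.rec (fun _ => Nat) (@Bool.rec (fun _ => Nat) (t106 i) (t107 i) (Nat.ble (nat_lit 14080) i)) (@Bool.rec (fun _ => Nat) (b223 i) (b224 i) (Nat.ble (nat_lit 14336) i)) (Nat.ble (nat_lit 14272) i))

noncomputable def t109 (i : Nat) : Nat :=
  (@Bool.rec (fun _ => Nat) (b225 i) (b226 i) (Nat.ble (nat_lit 14464) i))

noncomputable def t110 (i : Nat) : Nat :=
  (@Bool.rec (fun _ => Nat) (b228 i) (b229 i) (Nat.ble (nat_lit 14656) i))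

noncomputable def t111 (i : Nat) : Nat :=
  (@Bool.rec (fun _ => Nat) (@Bool.rec (fun _ => Nat) (t109 i) (b227 i) (Nat.ble (nat_lit 14528) i)) (@Bool.rec (fun _ => Nat) (t110 i) (b230 i) (Nat.ble (nat_lit 14720) i)) (Nat.ble (nat_lit 14592) i))

noncomputable def t112 (i : Nat) : Nat :=
  (@Bool.rec (fun _ => Nat) (b232 i) (b233 i) (Nat.ble (nat_lit 14912) i))

noncomputable def t113 (i : Nat) : Nat :=
  (@Bool.rec (fun _ => Nat) (b234 i) (b235 i) (Nat.ble (nat_lit 15040) i))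

noncomputable def t114 (i : Nat) : Nat :=
  (@Bool.rec (fun _ => Nat) (@Bool.rec (fun _ => Nat) (b231 i) (t112 i) (Nat.ble (nat_lit 14848) i)) (@Bool.rec (fun _ => Nat) (t113 i) (b236 i) (Nat.ble (nat_lit 15104) i)) (Nat.ble (nat_lit 14976) i))

noncomputable def t115 (i : Nat) : Nat :=
  (@Bool.rec (fun _ => Nat) (b237 i) (b238 i) (Nat.ble (nat_lit 15232) i))

noncomputable def t116 (i : Nat) : Nat :=
  (@Bool.rec (fun _ => Nat) (b240 i) (b241 i) (Nat.ble (nat_lit 15424) i))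

noncomputable def t117 (i : Nat) : Nat :=
  (@Bool.rec (fun _ => Nat) (@Bool.rec (fun _ => Nat) (t115 i) (b239 i) (Nat.ble (nat_lit 15296) i)) (@Bool.rec (fun _ => Nat) (t116 i) (b242 i) (Nat.ble (nat_lit 15488) i)) (Nat.ble (nat_lit 15360) i))

noncomputable def t118 (i : Nat) : Nat :=
  (@Bool.rec (fun _ => Nat) (@Bool.rec (fun _ => Nat) (t108 i) (t111 i) (Nat.ble (nat_lit 14400) i)) (@Bool.rec (fun _ => Nat) (t114 i) (t117 i) (Nat.ble (nat_lit 15168) i)) (Nat.ble (nat_lit 14784) i))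

noncomputable def t119 (i : Nat) : Nat :=
  (@Bool.rec (fun _ => Nat) (@Bool.rec (fun _ => Nat) (t75 i) (t87 i) (Nat.ble (nat_lit 10240) i)) (@Bool.rec (fun _ => Nat) (t105 i) (t118 i) (Nat.ble (nat_lit 13952) i)) (Nat.ble (nat_lit 11648) i))

noncomputable def t120 (i : Nat) : Nat :=
  (@Bool.rec (fun _ => Nat) (@Bool.rec (fun _ => Nat) (t21 i) (t39 i) (Nat.ble (nat_lit 2624) i)) (@Bool.rec (fun _ => Nat) (t64 i) (t119 i) (Nat.ble (nat_lit 8832) i)) (Nat.ble (nat_lit 5184) i))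

noncomputable def t121 (i : Nat) : Nat :=
  (@Bool.rec (fun _ => Nat) (b243 i) (b244 i) (Nat.ble (nat_lit 15616) i))

noncomputable def t122 (i : Nat) : Nat :=
  (@Bool.rec (fun _ => Nat) (b245 i) (b246 i) (Nat.ble (nat_lit 15744) i))

noncomputable def t123 (i : Nat) : Nat :=
  (@Bool.rec (fun _ => Nat) (b247 i) (b248 i) (Nat.ble (nat_lit 15872) i))

noncomputable def t124 (i : Nat) : Nat :=
  (@Bool.rec (fun _ => Nat) (b249 i) (b250 i) (Nat.ble (nat_lit 16000) i))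

noncomputable def t125 (i : Nat) : Nat :=
  (@Bool.rec (fun _ => Nat) (@Bool.rec (fun _ => Nat) (t121 i) (t122 i) (Nat.ble (nat_lit 15680) i)) (@Bool.rec (fun _ => Nat) (t123 i) (t124 i) (Nat.ble (nat_lit 15936) i)) (Nat.ble (nat_lit 15808) i))

noncomputable def t126 (i : Nat) : Nat :=
  (@Bool.rec (fun _ => Nat) (b251 i) (@Bool.rec (fun _ => Nat) (b252 i) (b253 i) (Nat.ble (nat_lit 16192) i)) (Nat.ble (nat_lit 16128) i))

noncomputable def t127 (i : Nat) : Nat :=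
  (@Bool.rec (fun _ => Nat) (@Bool.rec (fun _ => Nat) (b254 i) (b255 i) (Nat.ble (nat_lit 16320) i)) (@Bool.rec (fun _ => Nat) (b256 i) (b257 i) (Nat.ble (nat_lit 16448) i)) (Nat.ble (nat_lit 16384) i))

noncomputable def t128 (i : Nat) : Nat :=
  (@Bool.rec (fun _ => Nat) (b258 i) (b259 i) (Nat.ble (nat_lit 16576) i))

noncomputable def t129 (i : Nat) : Nat :=
  (@Bool.rec (fun _ => Nat) (b260 i) (b261 i) (Nat.ble (nat_lit 16704) i))

noncomputable def t130 (i : Nat) : Nat :=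
  (@Bool.rec (fun _ => Nat) (@Bool.rec (fun _ => Nat) (t126 i) (t127 i) (Nat.ble (nat_lit 16256) i)) (@Bool.rec (fun _ => Nat) (t128 i) (t129 i) (Nat.ble (nat_lit 16640) i)) (Nat.ble (nat_lit 16512) i))

noncomputable def t131 (i : Nat) : Nat :=
  (@Bool.rec (fun _ => Nat) (@Bool.rec (fun _ => Nat) (b262 i) (b263 i) (Nat.ble (nat_lit 16832) i)) (b264 i) (Nat.ble (nat_lit 16896) i))

noncomputable def t132 (i : Nat) : Nat :=
  (@Bool.rec (fun _ => Nat) (@Bool.rec (fun _ => Nat) (b266 i) (b267 i) (Nat.ble (nat_lit 17088) i)) (@Bool.rec (fun _ => Nat) (b268 i) (b269 i) (Nat.ble (nat_lit 17216) i)) (Nat.ble (nat_lit 17152) i))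

noncomputable def t133 (i : Nat) : Nat :=
  (@Bool.rec (fun _ => Nat) (b272 i) (b273 i) (Nat.ble (nat_lit 17472) i))

noncomputable def t134 (i : Nat) : Nat :=
  (@Bool.rec (fun _ => Nat) (b274 i) (b275 i) (Nat.ble (nat_lit 17600) i))

noncomputable def t135 (i : Nat) : Nat :=
  (@Bool.rec (fun _ => Nat) (@Bool.rec (fun _ => Nat) (b270 i) (b271 i) (Nat.ble (nat_lit 17344) i)) (@Bool.rec (fun _ => Nat) (t133 i) (t134 i) (Nat.ble (nat_lit 17536) i)) (Nat.ble (nat_lit 17408) i))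

noncomputable def t136 (i : Nat) : Nat :=
  (@Bool.rec (fun _ => Nat) (@Bool.rec (fun _ => Nat) (t131 i) (b265 i) (Nat.ble (nat_lit 16960) i)) (@Bool.rec (fun _ => Nat) (t132 i) (t135 i) (Nat.ble (nat_lit 17280) i)) (Nat.ble (nat_lit 17024) i))

noncomputable def t137 (i : Nat) : Nat :=
  (@Bool.rec (fun _ => Nat) (@Bool.rec (fun _ => Nat) (b276 i) (b277 i) (Nat.ble (nat_lit 17728) i)) (b278 i) (Nat.ble (nat_lit 17792) i))

noncomputable def t138 (i : Nat) : Nat :=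
  (@Bool.rec (fun _ => Nat) (@Bool.rec (fun _ => Nat) (b279 i) (b280 i) (Nat.ble (nat_lit 17920) i)) (@Bool.rec (fun _ => Nat) (b281 i) (b282 i) (Nat.ble (nat_lit 18048) i)) (Nat.ble (nat_lit 17984) i))

noncomputable def t139 (i : Nat) : Nat :=
  (@Bool.rec (fun _ => Nat) (b283 i) (@Bool.rec (fun _ => Nat) (b284 i) (b285 i) (Nat.ble (nat_lit 18240) i)) (Nat.ble (nat_lit 18176) i))

noncomputable def t140 (i : Nat) : Nat :=
  (@Bool.rec (fun _ => Nat) (b289 i) (b290 i) (Nat.ble (nat_lit 18560) i))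

noncomputable def t141 (i : Nat) : Nat :=
  (@Bool.rec (fun _ => Nat) (@Bool.rec (fun _ => Nat) (b286 i) (b287 i) (Nat.ble (nat_lit 18368) i)) (@Bool.rec (fun _ => Nat) (b288 i) (t140 i) (Nat.ble (nat_lit 18496) i)) (Nat.ble (nat_lit 18432) i))

noncomputable def t142 (i : Nat) : Nat :=
  (@Bool.rec (fun _ => Nat) (@Bool.rec (fun _ => Nat) (t137 i) (t138 i) (Nat.ble (nat_lit 17856) i)) (@Bool.rec (fun _ => Nat) (t139 i) (t141 i) (Nat.ble (nat_lit 18304) i)) (Nat.ble (nat_lit 18112) i))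

noncomputable def t143 (i : Nat) : Nat :=
  (@Bool.rec (fun _ => Nat) (@Bool.rec (fun _ => Nat) (t125 i) (t130 i) (Nat.ble (nat_lit 16064) i)) (@Bool.rec (fun _ => Nat) (t136 i) (t142 i) (Nat.ble (nat_lit 17664) i)) (Nat.ble (nat_lit 16768) i))

noncomputable def t144 (i : Nat) : Nat :=
  (@Bool.rec (fun _ => Nat) (b293 i) (b294 i) (Nat.ble (nat_lit 18816) i))

noncomputable def t145 (i : Nat) : Nat :=
  (@Bool.rec (fun _ => Nat) (b291 i) (@Bool.rec (fun _ => Nat) (b292 i) (t144 i) (Nat.ble (nat_lit 18752) i)) (Nat.ble (nat_lit 18688) i))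

noncomputable def t146 (i : Nat) : Nat :=
  (@Bool.rec (fun _ => Nat) (@Bool.rec (fun _ => Nat) (b295 i) (b296 i) (Nat.ble (nat_lit 18944) i)) (@Bool.rec (fun _ => Nat) (b297 i) (b298 i) (Nat.ble (nat_lit 19072) i)) (Nat.ble (nat_lit 19008) i))

noncomputable def t147 (i : Nat) : Nat :=
  (@Bool.rec (fun _ => Nat) (b299 i) (b300 i) (Nat.ble (nat_lit 19200) i))

noncomputable def t148 (i : Nat) : Nat :=
  (@Bool.rec (fun _ => Nat) (b302 i) (b303 i) (Nat.ble (nat_lit 19392) i))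

noncomputable def t149 (i : Nat) : Nat :=
  (@Bool.rec (fun _ => Nat) (b301 i) (@Bool.rec (fun _ => Nat) (t148 i) (b304 i) (Nat.ble (nat_lit 19456) i)) (Nat.ble (nat_lit 19328) i))

noncomputable def t150 (i : Nat) : Nat :=
  (@Bool.rec (fun _ => Nat) (@Bool.rec (fun _ => Nat) (t145 i) (t146 i) (Nat.ble (nat_lit 18880) i)) (@Bool.rec (fun _ => Nat) (t147 i) (t149 i) (Nat.ble (nat_lit 19264) i)) (Nat.ble (nat_lit 19136) i))

noncomputable def t151 (i : Nat) : Nat :=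
  (@Bool.rec (fun _ => Nat) (b308 i) (b309 i) (Nat.ble (nat_lit 19776) i))

noncomputable def t152 (i : Nat) : Nat :=
  (@Bool.rec (fun _ => Nat) (@Bool.rec (fun _ => Nat) (b305 i) (b306 i) (Nat.ble (nat_lit 19584) i)) (@Bool.rec (fun _ => Nat) (b307 i) (t151 i) (Nat.ble (nat_lit 19712) i)) (Nat.ble (nat_lit 19648) i))

noncomputable def t153 (i : Nat) : Nat :=
  (@Bool.rec (fun _ => Nat) (b310 i) (b311 i) (Nat.ble (nat_lit 19904) i))

noncomputable def t154 (i : Nat) : Nat :=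
  (@Bool.rec (fun _ => Nat) (b313 i) (b314 i) (Nat.ble (nat_lit 20096) i))

noncomputable def t155 (i : Nat) : Nat :=
  (@Bool.rec (fun _ => Nat) (@Bool.rec (fun _ => Nat) (t152 i) (t153 i) (Nat.ble (nat_lit 19840) i)) (@Bool.rec (fun _ => Nat) (b312 i) (t154 i) (Nat.ble (nat_lit 20032) i)) (Nat.ble (nat_lit 19968) i))

noncomputable def t156 (i : Nat) : Nat :=
  (@Bool.rec (fun _ => Nat) (b316 i) (b317 i) (Nat.ble (nat_lit 20288) i))

noncomputable def t157 (i : Nat) : Nat :=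
  (@Bool.rec (fun _ => Nat) (@Bool.rec (fun _ => Nat) (b318 i) (b319 i) (Nat.ble (nat_lit 20416) i)) (b320 i) (Nat.ble (nat_lit 20480) i))

noncomputable def t158 (i : Nat) : Nat :=
  (@Bool.rec (fun _ => Nat) (@Bool.rec (fun _ => Nat) (b321 i) (b322 i) (Nat.ble (nat_lit 20608) i)) (b323 i) (Nat.ble (nat_lit 20672) i))

noncomputable def t159 (i : Nat) : Nat :=
  (@Bool.rec (fun _ => Nat) (@Bool.rec (fun _ => Nat) (b315 i) (t156 i) (Nat.ble (nat_lit 20224) i)) (@Bool.rec (fun _ => Nat) (t157 i) (t158 i) (Nat.ble (nat_lit 20544) i)) (Nat.ble (nat_lit 20352) i))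

noncomputable def t160 (i : Nat) : Nat :=
  (@Bool.rec (fun _ => Nat) (b324 i) (b325 i) (Nat.ble (nat_lit 20800) i))

noncomputable def t161 (i : Nat) : Nat :=
  (@Bool.rec (fun _ => Nat) (b328 i) (b329 i) (Nat.ble (nat_lit 21056) i))

noncomputable def t162 (i : Nat) : Nat :=
  (@Bool.rec (fun _ => Nat) (@Bool.rec (fun _ => Nat) (t160 i) (b326 i) (Nat.ble (nat_lit 20864) i)) (@Bool.rec (fun _ => Nat) (b327 i) (t161 i) (Nat.ble (nat_lit 20992) i)) (Nat.ble (nat_lit 20928) i))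

noncomputable def t163 (i : Nat) : Nat :=
  (@Bool.rec (fun _ => Nat) (@Bool.rec (fun _ => Nat) (b330 i) (b331 i) (Nat.ble (nat_lit 21184) i)) (@Bool.rec (fun _ => Nat) (b332 i) (b333 i) (Nat.ble (nat_lit 21312) i)) (Nat.ble (nat_lit 21248) i))

noncomputable def t164 (i : Nat) : Nat :=
  (@Bool.rec (fun _ => Nat) (b334 i) (b335 i) (Nat.ble (nat_lit 21440) i))

noncomputable def t165 (i : Nat) : Nat :=
  (@Bool.rec (fun _ => Nat) (b339 i) (b340 i) (Nat.ble (nat_lit 21760) i))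

noncomputable def t166 (i : Nat) : Nat :=
  (@Bool.rec (fun _ => Nat) (@Bool.rec (fun _ => Nat) (b336 i) (b337 i) (Nat.ble (nat_lit 21568) i)) (@Bool.rec (fun _ => Nat) (b338 i) (t165 i) (Nat.ble (nat_lit 21696) i)) (Nat.ble (nat_lit 21632) i))

noncomputable def t167 (i : Nat) : Nat :=
  (@Bool.rec (fun _ => Nat) (@Bool.rec (fun _ => Nat) (t162 i) (t163 i) (Nat.ble (nat_lit 21120) i)) (@Bool.rec (fun _ => Nat) (t164 i) (t166 i) (Nat.ble (nat_lit 21504) i)) (Nat.ble (nat_lit 21376) i))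

noncomputable def t168 (i : Nat) : Nat :=
  (@Bool.rec (fun _ => Nat) (@Bool.rec (fun _ => Nat) (t150 i) (t155 i) (Nat.ble (nat_lit 19520) i)) (@Bool.rec (fun _ => Nat) (t159 i) (t167 i) (Nat.ble (nat_lit 20736) i)) (Nat.ble (nat_lit 20160) i))

noncomputable def t169 (i : Nat) : Nat :=
  (@Bool.rec (fun _ => Nat) (b341 i) (b342 i) (Nat.ble (nat_lit 21888) i))

noncomputable def t170 (i : Nat) : Nat :=
  (@Bool.rec (fun _ => Nat) (b344 i) (b345 i) (Nat.ble (nat_lit 22080) i))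

noncomputable def t171 (i : Nat) : Nat :=
  (@Bool.rec (fun _ => Nat) (b347 i) (b348 i) (Nat.ble (nat_lit 22272) i))

noncomputable def t172 (i : Nat) : Nat :=
  (@Bool.rec (fun _ => Nat) (@Bool.rec (fun _ => Nat) (b343 i) (t170 i) (Nat.ble (nat_lit 22016) i)) (@Bool.rec (fun _ => Nat) (b346 i) (t171 i) (Nat.ble (nat_lit 22208) i)) (Nat.ble (nat_lit 22144) i))

noncomputable def t173 (i : Nat) : Nat :=
  (@Bool.rec (fun _ => Nat) (b349 i) (@Bool.rec (fun _ => Nat) (b350 i) (b351 i) (Nat.ble (nat_lit 22464) i)) (Nat.ble (nat_lit 22400) i))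

noncomputable def t174 (i : Nat) : Nat :=
  (@Bool.rec (fun _ => Nat) (b353 i) (b354 i) (Nat.ble (nat_lit 22656) i))

noncomputable def t175 (i : Nat) : Nat :=
  (@Bool.rec (fun _ => Nat) (@Bool.rec (fun _ => Nat) (b352 i) (t174 i) (Nat.ble (nat_lit 22592) i)) (@Bool.rec (fun _ => Nat) (b355 i) (b356 i) (Nat.ble (nat_lit 22784) i)) (Nat.ble (nat_lit 22720) i))

noncomputable def t176 (i : Nat) : Nat :=
  (@Bool.rec (fun _ => Nat) (@Bool.rec (fun _ => Nat) (t169 i) (t172 i) (Nat.ble (nat_lit 21952) i)) (@Bool.rec (fun _ => Nat) (t173 i) (t175 i) (Nat.ble (nat_lit 22528) i)) (Nat.ble (nat_lit 22336) i))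

noncomputable def t177 (i : Nat) : Nat :=
  (@Bool.rec (fun _ => Nat) (b357 i) (@Bool.rec (fun _ => Nat) (b358 i) (b359 i) (Nat.ble (nat_lit 22976) i)) (Nat.ble (nat_lit 22912) i))

noncomputable def t178 (i : Nat) : Nat :=
  (@Bool.rec (fun _ => Nat) (b360 i) (b361 i) (Nat.ble (nat_lit 23104) i))

noncomputable def t179 (i : Nat) : Nat :=
  (@Bool.rec (fun _ => Nat) (@Bool.rec (fun _ => Nat) (t178 i) (b362 i) (Nat.ble (nat_lit 23168) i)) (b363 i) (Nat.ble (nat_lit 23232) i))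

noncomputable def t180 (i : Nat) : Nat :=
  (@Bool.rec (fun _ => Nat) (b364 i) (b365 i) (Nat.ble (nat_lit 23360) i))

noncomputable def t181 (i : Nat) : Nat :=
  (@Bool.rec (fun _ => Nat) (b366 i) (b367 i) (Nat.ble (nat_lit 23488) i))

noncomputable def t182 (i : Nat) : Nat :=
  (@Bool.rec (fun _ => Nat) (@Bool.rec (fun _ => Nat) (t177 i) (t179 i) (Nat.ble (nat_lit 23040) i)) (@Bool.rec (fun _ => Nat) (t180 i) (t181 i) (Nat.ble (nat_lit 23424) i)) (Nat.ble (nat_lit 23296) i))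

noncomputable def t183 (i : Nat) : Nat :=
  (@Bool.rec (fun _ => Nat) (b369 i) (@Bool.rec (fun _ => Nat) (b370 i) (b371 i) (Nat.ble (nat_lit 23744) i)) (Nat.ble (nat_lit 23680) i))

noncomputable def t184 (i : Nat) : Nat :=
  (@Bool.rec (fun _ => Nat) (@Bool.rec (fun _ => Nat) (b372 i) (b373 i) (Nat.ble (nat_lit 23872) i)) (b374 i) (Nat.ble (nat_lit 23936) i))

noncomputable def t185 (i : Nat) : Nat :=
  (@Bool.rec (fun _ => Nat) (b378 i) (b379 i) (Nat.ble (nat_lit 24256) i))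

noncomputable def t186 (i : Nat) : Nat :=
  (@Bool.rec (fun _ => Nat) (@Bool.rec (fun _ => Nat) (b375 i) (b376 i) (Nat.ble (nat_lit 24064) i)) (@Bool.rec (fun _ => Nat) (b377 i) (t185 i) (Nat.ble (nat_lit 24192) i)) (Nat.ble (nat_lit 24128) i))

noncomputable def t187 (i : Nat) : Nat :=
  (@Bool.rec (fun _ => Nat) (@Bool.rec (fun _ => Nat) (b368 i) (t183 i) (Nat.ble (nat_lit 23616) i)) (@Bool.rec (fun _ => Nat) (t184 i) (t186 i) (Nat.ble (nat_lit 24000) i)) (Nat.ble (nat_lit 23808) i))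

noncomputable def t188 (i : Nat) : Nat :=
  (@Bool.rec (fun _ => Nat) (@Bool.rec (fun _ => Nat) (b380 i) (b381 i) (Nat.ble (nat_lit 24384) i)) (b382 i) (Nat.ble (nat_lit 24448) i))

noncomputable def t189 (i : Nat) : Nat :=
  (@Bool.rec (fun _ => Nat) (b383 i) (b384 i) (Nat.ble (nat_lit 24576) i))

noncomputable def t190 (i : Nat) : Nat :=
  (@Bool.rec (fun _ => Nat) (b385 i) (b386 i) (Nat.ble (nat_lit 24704) i))

noncomputable def t191 (i : Nat) : Nat :=
  (@Bool.rec (fun _ => Nat) (b390 i) (b391 i) (Nat.ble (nat_lit 25024) i))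

noncomputable def t192 (i : Nat) : Nat :=
  (@Bool.rec (fun _ => Nat) (@Bool.rec (fun _ => Nat) (b387 i) (b388 i) (Nat.ble (nat_lit 24832) i)) (@Bool.rec (fun _ => Nat) (b389 i) (t191 i) (Nat.ble (nat_lit 24960) i)) (Nat.ble (nat_lit 24896) i))

noncomputable def t193 (i : Nat) : Nat :=
  (@Bool.rec (fun _ => Nat) (@Bool.rec (fun _ => Nat) (t188 i) (t189 i) (Nat.ble (nat_lit 24512) i)) (@Bool.rec (fun _ => Nat) (t190 i) (t192 i) (Nat.ble (nat_lit 24768) i)) (Nat.ble (nat_lit 24640) i))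

noncomputable def t194 (i : Nat) : Nat :=
  (@Bool.rec (fun _ => Nat) (@Bool.rec (fun _ => Nat) (t176 i) (t182 i) (Nat.ble (nat_lit 22848) i)) (@Bool.rec (fun _ => Nat) (t187 i) (t193 i) (Nat.ble (nat_lit 24320) i)) (Nat.ble (nat_lit 23552) i))

noncomputable def t195 (i : Nat) : Nat :=
  (@Bool.rec (fun _ => Nat) (b393 i) (b394 i) (Nat.ble (nat_lit 25216) i))

noncomputable def t196 (i : Nat) : Nat :=
  (@Bool.rec (fun _ => Nat) (@Bool.rec (fun _ => Nat) (b392 i) (t195 i) (Nat.ble (nat_lit 25152) i)) (@Bool.rec (fun _ => Nat) (b395 i) (b396 i) (Nat.ble (nat_lit 25344) i)) (Nat.ble (nat_lit 25280) i))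

noncomputable def t197 (i : Nat) : Nat :=
  (@Bool.rec (fun _ => Nat) (b399 i) (b400 i) (Nat.ble (nat_lit 25600) i))

noncomputable def t198 (i : Nat) : Nat :=
  (@Bool.rec (fun _ => Nat) (b397 i) (@Bool.rec (fun _ => Nat) (b398 i) (t197 i) (Nat.ble (nat_lit 25536) i)) (Nat.ble (nat_lit 25472) i))

noncomputable def t199 (i : Nat) : Nat :=
  (@Bool.rec (fun _ => Nat) (@Bool.rec (fun _ => Nat) (b401 i) (b402 i) (Nat.ble (nat_lit 25728) i)) (@Bool.rec (fun _ => Nat) (b403 i) (b404 i) (Nat.ble (nat_lit 25856) i)) (Nat.ble (nat_lit 25792) i))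

noncomputable def t200 (i : Nat) : Nat :=
  (@Bool.rec (fun _ => Nat) (@Bool.rec (fun _ => Nat) (b405 i) (b406 i) (Nat.ble (nat_lit 25984) i)) (@Bool.rec (fun _ => Nat) (b407 i) (b408 i) (Nat.ble (nat_lit 26112) i)) (Nat.ble (nat_lit 26048) i))

noncomputable def t201 (i : Nat) : Nat :=
  (@Bool.rec (fun _ => Nat) (@Bool.rec (fun _ => Nat) (t196 i) (t198 i) (Nat.ble (nat_lit 25408) i)) (@Bool.rec (fun _ => Nat) (t199 i) (t200 i) (Nat.ble (nat_lit 25920) i)) (Nat.ble (nat_lit 25664) i))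

noncomputable def t202 (i : Nat) : Nat :=
  (@Bool.rec (fun _ => Nat) (b412 i) (b413 i) (Nat.ble (nat_lit 26432) i))

noncomputable def t203 (i : Nat) : Nat :=
  (@Bool.rec (fun _ => Nat) (@Bool.rec (fun _ => Nat) (b409 i) (b410 i) (Nat.ble (nat_lit 26240) i)) (@Bool.rec (fun _ => Nat) (b411 i) (t202 i) (Nat.ble (nat_lit 26368) i)) (Nat.ble (nat_lit 26304) i))

noncomputable def t204 (i : Nat) : Nat :=
  (@Bool.rec (fun _ => Nat) (b414 i) (b415 i) (Nat.ble (nat_lit 26560) i))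

noncomputable def t205 (i : Nat) : Nat :=
  (@Bool.rec (fun _ => Nat) (b418 i) (b419 i) (Nat.ble (nat_lit 26816) i))

noncomputable def t206 (i : Nat) : Nat :=
  (@Bool.rec (fun _ => Nat) (@Bool.rec (fun _ => Nat) (t204 i) (b416 i) (Nat.ble (nat_lit 26624) i)) (@Bool.rec (fun _ => Nat) (b417 i) (t205 i) (Nat.ble (nat_lit 26752) i)) (Nat.ble (nat_lit 26688) i))

noncomputable def t207 (i : Nat) : Nat :=
  (@Bool.rec (fun _ => Nat) (@Bool.rec (fun _ => Nat) (b420 i) (b421 i) (Nat.ble (nat_lit 26944) i)) (@Bool.rec (fun _ => Nat) (b422 i) (b423 i) (Nat.ble (nat_lit 27072) i)) (Nat.ble (nat_lit 27008) i))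

noncomputable def t208 (i : Nat) : Nat :=
  (@Bool.rec (fun _ => Nat) (@Bool.rec (fun _ => Nat) (b424 i) (b425 i) (Nat.ble (nat_lit 27200) i)) (@Bool.rec (fun _ => Nat) (b426 i) (b427 i) (Nat.ble (nat_lit 27328) i)) (Nat.ble (nat_lit 27264) i))

noncomputable def t209 (i : Nat) : Nat :=
  (@Bool.rec (fun _ => Nat) (@Bool.rec (fun _ => Nat) (t203 i) (t206 i) (Nat.ble (nat_lit 26496) i)) (@Bool.rec (fun _ => Nat) (t207 i) (t208 i) (Nat.ble (nat_lit 27136) i)) (Nat.ble (nat_lit 26880) i))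

noncomputable def t210 (i : Nat) : Nat :=
  (@Bool.rec (fun _ => Nat) (@Bool.rec (fun _ => Nat) (b428 i) (b429 i) (Nat.ble (nat_lit 27456) i)) (b430 i) (Nat.ble (nat_lit 27520) i))

noncomputable def t211 (i : Nat) : Nat :=
  (@Bool.rec (fun _ => Nat) (b431 i) (b432 i) (Nat.ble (nat_lit 27648) i))

noncomputable def t212 (i : Nat) : Nat :=
  (@Bool.rec (fun _ => Nat) (@Bool.rec (fun _ => Nat) (b433 i) (b434 i) (Nat.ble (nat_lit 27776) i)) (@Bool.rec (fun _ => Nat) (b435 i) (b436 i) (Nat.ble (nat_lit 27904) i)) (Nat.ble (nat_lit 27840) i))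

noncomputable def t213 (i : Nat) : Nat :=
  (@Bool.rec (fun _ => Nat) (b437 i) (b438 i) (Nat.ble (nat_lit 28032) i))

noncomputable def t214 (i : Nat) : Nat :=
  (@Bool.rec (fun _ => Nat) (b439 i) (b440 i) (Nat.ble (nat_lit 28160) i))

noncomputable def t215 (i : Nat) : Nat :=
  (@Bool.rec (fun _ => Nat) (@Bool.rec (fun _ => Nat) (t213 i) (t214 i) (Nat.ble (nat_lit 28096) i)) (b441 i) (Nat.ble (nat_lit 28224) i))

noncomputable def t216 (i : Nat) : Nat :=
  (@Bool.rec (fun _ => Nat) (@Bool.rec (fun _ => Nat) (t210 i) (t211 i) (Nat.ble (nat_lit 27584) i)) (@Bool.rec (fun _ => Nat) (t212 i) (t215 i) (Nat.ble (nat_lit 27968) i)) (Nat.ble (nat_lit 27712) i))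

noncomputable def t217 (i : Nat) : Nat :=
  (@Bool.rec (fun _ => Nat) (@Bool.rec (fun _ => Nat) (b442 i) (b443 i) (Nat.ble (nat_lit 28352) i)) (b444 i) (Nat.ble (nat_lit 28416) i))

noncomputable def t218 (i : Nat) : Nat :=
  (@Bool.rec (fun _ => Nat) (b446 i) (@Bool.rec (fun _ => Nat) (b447 i) (b448 i) (Nat.ble (nat_lit 28672) i)) (Nat.ble (nat_lit 28608) i))

noncomputable def t219 (i : Nat) : Nat :=
  (@Bool.rec (fun _ => Nat) (b449 i) (b450 i) (Nat.ble (nat_lit 28800) i))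

noncomputable def t220 (i : Nat) : Nat :=
  (@Bool.rec (fun _ => Nat) (@Bool.rec (fun _ => Nat) (t217 i) (b445 i) (Nat.ble (nat_lit 28480) i)) (@Bool.rec (fun _ => Nat) (t218 i) (t219 i) (Nat.ble (nat_lit 28736) i)) (Nat.ble (nat_lit 28544) i))

noncomputable def t221 (i : Nat) : Nat :=
  (@Bool.rec (fun _ => Nat) (@Bool.rec (fun _ => Nat) (t201 i) (t209 i) (Nat.ble (nat_lit 26176) i)) (@Bool.rec (fun _ => Nat) (t216 i) (t220 i) (Nat.ble (nat_lit 28288) i)) (Nat.ble (nat_lit 27392) i))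

noncomputable def t222 (i : Nat) : Nat :=
  (@Bool.rec (fun _ => Nat) (@Bool.rec (fun _ => Nat) (t143 i) (t168 i) (Nat.ble (nat_lit 18624) i)) (@Bool.rec (fun _ => Nat) (t194 i) (t221 i) (Nat.ble (nat_lit 25088) i)) (Nat.ble (nat_lit 21824) i))

noncomputable def t223 (i : Nat) : Nat :=
  (@Bool.rec (fun _ => Nat) (b451 i) (b452 i) (Nat.ble (nat_lit 28928) i))

noncomputable def t224 (i : Nat) : Nat :=
  (@Bool.rec (fun _ => Nat) (@Bool.rec (fun _ => Nat) (t223 i) (b453 i) (Nat.ble (nat_lit 28992) i)) (@Bool.rec (fun _ => Nat) (b454 i) (b455 i) (Nat.ble (nat_lit 29120) i)) (Nat.ble (nat_lit 29056) i))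

noncomputable def t225 (i : Nat) : Nat :=
  (@Bool.rec (fun _ => Nat) (@Bool.rec (fun _ => Nat) (b456 i) (b457 i) (Nat.ble (nat_lit 29248) i)) (b458 i) (Nat.ble (nat_lit 29312) i))

noncomputable def t226 (i : Nat) : Nat :=
  (@Bool.rec (fun _ => Nat) (@Bool.rec (fun _ => Nat) (b459 i) (b460 i) (Nat.ble (nat_lit 29440) i)) (@Bool.rec (fun _ => Nat) (b461 i) (b462 i) (Nat.ble (nat_lit 29568) i)) (Nat.ble (nat_lit 29504) i))

noncomputable def t227 (i : Nat) : Nat :=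
  (@Bool.rec (fun _ => Nat) (@Bool.rec (fun _ => Nat) (t224 i) (t225 i) (Nat.ble (nat_lit 29184) i)) (@Bool.rec (fun _ => Nat) (t226 i) (b463 i) (Nat.ble (nat_lit 29632) i)) (Nat.ble (nat_lit 29376) i))

noncomputable def t228 (i : Nat) : Nat :=
  (@Bool.rec (fun _ => Nat) (@Bool.rec (fun _ => Nat) (b464 i) (b465 i) (Nat.ble (nat_lit 29760) i)) (@Bool.rec (fun _ => Nat) (b466 i) (b467 i) (Nat.ble (nat_lit 29888) i)) (Nat.ble (nat_lit 29824) i))

noncomputable def t229 (i : Nat) : Nat :=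
  (@Bool.rec (fun _ => Nat) (b468 i) (b469 i) (Nat.ble (nat_lit 30016) i))

noncomputable def t230 (i : Nat) : Nat :=
  (@Bool.rec (fun _ => Nat) (b470 i) (b471 i) (Nat.ble (nat_lit 30144) i))

noncomputable def t231 (i : Nat) : Nat :=
  (@Bool.rec (fun _ => Nat) (b472 i) (b473 i) (Nat.ble (nat_lit 30272) i))

noncomputable def t232 (i : Nat) : Nat :=
  (@Bool.rec (fun _ => Nat) (b474 i) (b475 i) (Nat.ble (nat_lit 30400) i))

noncomputable def t233 (i : Nat) : Nat :=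
  (@Bool.rec (fun _ => Nat) (@Bool.rec (fun _ => Nat) (t229 i) (t230 i) (Nat.ble (nat_lit 30080) i)) (@Bool.rec (fun _ => Nat) (t231 i) (t232 i) (Nat.ble (nat_lit 30336) i)) (Nat.ble (nat_lit 30208) i))

noncomputable def t234 (i : Nat) : Nat :=
  (@Bool.rec (fun _ => Nat) (b476 i) (@Bool.rec (fun _ => Nat) (b477 i) (b478 i) (Nat.ble (nat_lit 30592) i)) (Nat.ble (nat_lit 30528) i))

noncomputable def t235 (i : Nat) : Nat :=
  (@Bool.rec (fun _ => Nat) (b479 i) (b480 i) (Nat.ble (nat_lit 30720) i))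

noncomputable def t236 (i : Nat) : Nat :=
  (@Bool.rec (fun _ => Nat) (b481 i) (b482 i) (Nat.ble (nat_lit 30848) i))

noncomputable def t237 (i : Nat) : Nat :=
  (@Bool.rec (fun _ => Nat) (@Bool.rec (fun _ => Nat) (t234 i) (t235 i) (Nat.ble (nat_lit 30656) i)) (@Bool.rec (fun _ => Nat) (t236 i) (b483 i) (Nat.ble (nat_lit 30912) i)) (Nat.ble (nat_lit 30784) i))

noncomputable def t238 (i : Nat) : Nat :=
  (@Bool.rec (fun _ => Nat) (@Bool.rec (fun _ => Nat) (t227 i) (t228 i) (Nat.ble (nat_lit 29696) i)) (@Bool.rec (fun _ => Nat) (t233 i) (t237 i) (Nat.ble (nat_lit 30464) i)) (Nat.ble (nat_lit 29952) i))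

noncomputable def t239 (i : Nat) : Nat :=
  (@Bool.rec (fun _ => Nat) (b486 i) (@Bool.rec (fun _ => Nat) (b487 i) (b488 i) (Nat.ble (nat_lit 31232) i)) (Nat.ble (nat_lit 31168) i))

noncomputable def t240 (i : Nat) : Nat :=
  (@Bool.rec (fun _ => Nat) (@Bool.rec (fun _ => Nat) (b489 i) (b490 i) (Nat.ble (nat_lit 31360) i)) (@Bool.rec (fun _ => Nat) (b491 i) (b492 i) (Nat.ble (nat_lit 31488) i)) (Nat.ble (nat_lit 31424) i))

noncomputable def t241 (i : Nat) : Nat :=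
  (@Bool.rec (fun _ => Nat) (@Bool.rec (fun _ => Nat) (b484 i) (b485 i) (Nat.ble (nat_lit 31040) i)) (@Bool.rec (fun _ => Nat) (t239 i) (t240 i) (Nat.ble (nat_lit 31296) i)) (Nat.ble (nat_lit 31104) i))

noncomputable def t242 (i : Nat) : Nat :=
  (@Bool.rec (fun _ => Nat) (b496 i) (b497 i) (Nat.ble (nat_lit 31808) i))

noncomputable def t243 (i : Nat) : Nat :=
  (@Bool.rec (fun _ => Nat) (@Bool.rec (fun _ => Nat) (b493 i) (b494 i) (Nat.ble (nat_lit 31616) i)) (@Bool.rec (fun _ => Nat) (b495 i) (t242 i) (Nat.ble (nat_lit 31744) i)) (Nat.ble (nat_lit 31680) i))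

noncomputable def t244 (i : Nat) : Nat :=
  (@Bool.rec (fun _ => Nat) (b501 i) (b502 i) (Nat.ble (nat_lit 32128) i))

noncomputable def t245 (i : Nat) : Nat :=
  (@Bool.rec (fun _ => Nat) (@Bool.rec (fun _ => Nat) (b498 i) (b499 i) (Nat.ble (nat_lit 31936) i)) (@Bool.rec (fun _ => Nat) (b500 i) (t244 i) (Nat.ble (nat_lit 32064) i)) (Nat.ble (nat_lit 32000) i))

noncomputable def t246 (i : Nat) : Nat :=
  (@Bool.rec (fun _ => Nat) (@Bool.rec (fun _ => Nat) (b503 i) (b504 i) (Nat.ble (nat_lit 32256) i)) (@Bool.rec (fun _ => Nat) (b505 i) (b506 i) (Nat.ble (nat_lit 32384) i)) (Nat.ble (nat_lit 32320) i))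

noncomputable def t247 (i : Nat) : Nat :=
  (@Bool.rec (fun _ => Nat) (b509 i) (b510 i) (Nat.ble (nat_lit 32640) i))

noncomputable def t248 (i : Nat) : Nat :=
  (@Bool.rec (fun _ => Nat) (@Bool.rec (fun _ => Nat) (b507 i) (b508 i) (Nat.ble (nat_lit 32512) i)) (@Bool.rec (fun _ => Nat) (t247 i) (b511 i) (Nat.ble (nat_lit 32704) i)) (Nat.ble (nat_lit 32576) i))

noncomputable def t249 (i : Nat) : Nat :=
  (@Bool.rec (fun _ => Nat) (@Bool.rec (fun _ => Nat) (t243 i) (t245 i) (Nat.ble (nat_lit 31872) i)) (@Bool.rec (fun _ => Nat) (t246 i) (t248 i) (Nat.ble (nat_lit 32448) i)) (Nat.ble (nat_lit 32192) i))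

noncomputable def t250 (i : Nat) : Nat :=
  (@Bool.rec (fun _ => Nat) (b514 i) (b515 i) (Nat.ble (nat_lit 32960) i))

noncomputable def t251 (i : Nat) : Nat :=
  (@Bool.rec (fun _ => Nat) (@Bool.rec (fun _ => Nat) (b512 i) (b513 i) (Nat.ble (nat_lit 32832) i)) (@Bool.rec (fun _ => Nat) (t250 i) (b516 i) (Nat.ble (nat_lit 33024) i)) (Nat.ble (nat_lit 32896) i))

noncomputable def t252 (i : Nat) : Nat :=
  (@Bool.rec (fun _ => Nat) (@Bool.rec (fun _ => Nat) (b517 i) (b518 i) (Nat.ble (nat_lit 33152) i)) (@Bool.rec (fun _ => Nat) (b519 i) (b520 i) (Nat.ble (nat_lit 33280) i)) (Nat.ble (nat_lit 33216) i))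

noncomputable def t253 (i : Nat) : Nat :=
  (@Bool.rec (fun _ => Nat) (b521 i) (b522 i) (Nat.ble (nat_lit 33408) i))

noncomputable def t254 (i : Nat) : Nat :=
  (@Bool.rec (fun _ => Nat) (b523 i) (b524 i) (Nat.ble (nat_lit 33536) i))

noncomputable def t255 (i : Nat) : Nat :=
  (@Bool.rec (fun _ => Nat) (@Bool.rec (fun _ => Nat) (t251 i) (t252 i) (Nat.ble (nat_lit 33088) i)) (@Bool.rec (fun _ => Nat) (t253 i) (t254 i) (Nat.ble (nat_lit 33472) i)) (Nat.ble (nat_lit 33344) i))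

noncomputable def t256 (i : Nat) : Nat :=
  (@Bool.rec (fun _ => Nat) (b525 i) (b526 i) (Nat.ble (nat_lit 33664) i))

noncomputable def t257 (i : Nat) : Nat :=
  (@Bool.rec (fun _ => Nat) (b527 i) (b528 i) (Nat.ble (nat_lit 33792) i))

noncomputable def t258 (i : Nat) : Nat :=
  (@Bool.rec (fun _ => Nat) (b533 i) (b534 i) (Nat.ble (nat_lit 34176) i))

noncomputable def t259 (i : Nat) : Nat :=
  (@Bool.rec (fun _ => Nat) (@Bool.rec (fun _ => Nat) (b530 i) (b531 i) (Nat.ble (nat_lit 33984) i)) (@Bool.rec (fun _ => Nat) (b532 i) (t258 i) (Nat.ble (nat_lit 34112) i)) (Nat.ble (nat_lit 34048) i))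

noncomputable def t260 (i : Nat) : Nat :=
  (@Bool.rec (fun _ => Nat) (@Bool.rec (fun _ => Nat) (t256 i) (t257 i) (Nat.ble (nat_lit 33728) i)) (@Bool.rec (fun _ => Nat) (b529 i) (t259 i) (Nat.ble (nat_lit 33920) i)) (Nat.ble (nat_lit 33856) i))

noncomputable def t261 (i : Nat) : Nat :=
  (@Bool.rec (fun _ => Nat) (@Bool.rec (fun _ => Nat) (t241 i) (t249 i) (Nat.ble (nat_lit 31552) i)) (@Bool.rec (fun _ => Nat) (t255 i) (t260 i) (Nat.ble (nat_lit 33600) i)) (Nat.ble (nat_lit 32768) i))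

noncomputable def t262 (i : Nat) : Nat :=
  (@Bool.rec (fun _ => Nat) (b535 i) (b536 i) (Nat.ble (nat_lit 34304) i))

noncomputable def t263 (i : Nat) : Nat :=
  (@Bool.rec (fun _ => Nat) (b539 i) (b540 i) (Nat.ble (nat_lit 34560) i))

noncomputable def t264 (i : Nat) : Nat :=
  (@Bool.rec (fun _ => Nat) (b537 i) (@Bool.rec (fun _ => Nat) (b538 i) (t263 i) (Nat.ble (nat_lit 34496) i)) (Nat.ble (nat_lit 34432) i))

noncomputable def t265 (i : Nat) : Nat :=
  (@Bool.rec (fun _ => Nat) (b541 i) (b542 i) (Nat.ble (nat_lit 34688) i))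

noncomputable def t266 (i : Nat) : Nat :=
  (@Bool.rec (fun _ => Nat) (@Bool.rec (fun _ => Nat) (b543 i) (b544 i) (Nat.ble (nat_lit 34816) i)) (@Bool.rec (fun _ => Nat) (b545 i) (b546 i) (Nat.ble (nat_lit 34944) i)) (Nat.ble (nat_lit 34880) i))

noncomputable def t267 (i : Nat) : Nat :=
  (@Bool.rec (fun _ => Nat) (@Bool.rec (fun _ => Nat) (t262 i) (t264 i) (Nat.ble (nat_lit 34368) i)) (@Bool.rec (fun _ => Nat) (t265 i) (t266 i) (Nat.ble (nat_lit 34752) i)) (Nat.ble (nat_lit 34624) i))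

noncomputable def t268 (i : Nat) : Nat :=
  (@Bool.rec (fun _ => Nat) (b550 i) (b551 i) (Nat.ble (nat_lit 35264) i))

noncomputable def t269 (i : Nat) : Nat :=
  (@Bool.rec (fun _ => Nat) (@Bool.rec (fun _ => Nat) (b547 i) (b548 i) (Nat.ble (nat_lit 35072) i)) (@Bool.rec (fun _ => Nat) (b549 i) (t268 i) (Nat.ble (nat_lit 35200) i)) (Nat.ble (nat_lit 35136) i))

noncomputable def t270 (i : Nat) : Nat :=
  (@Bool.rec (fun _ => Nat) (@Bool.rec (fun _ => Nat) (b552 i) (b553 i) (Nat.ble (nat_lit 35392) i)) (@Bool.rec (fun _ => Nat) (b554 i) (b555 i) (Nat.ble (nat_lit 35520) i)) (Nat.ble (nat_lit 35456) i))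

noncomputable def t271 (i : Nat) : Nat :=
  (@Bool.rec (fun _ => Nat) (b557 i) (b558 i) (Nat.ble (nat_lit 35712) i))

noncomputable def t272 (i : Nat) : Nat :=
  (@Bool.rec (fun _ => Nat) (b559 i) (b560 i) (Nat.ble (nat_lit 35840) i))

noncomputable def t273 (i : Nat) : Nat :=
  (@Bool.rec (fun _ => Nat) (@Bool.rec (fun _ => Nat) (b556 i) (t271 i) (Nat.ble (nat_lit 35648) i)) (@Bool.rec (fun _ => Nat) (t272 i) (b561 i) (Nat.ble (nat_lit 35904) i)) (Nat.ble (nat_lit 35776) i))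

noncomputable def t274 (i : Nat) : Nat :=
  (@Bool.rec (fun _ => Nat) (b563 i) (b564 i) (Nat.ble (nat_lit 36096) i))

noncomputable def t275 (i : Nat) : Nat :=
  (@Bool.rec (fun _ => Nat) (b565 i) (b566 i) (Nat.ble (nat_lit 36224) i))

noncomputable def t276 (i : Nat) : Nat :=
  (@Bool.rec (fun _ => Nat) (b567 i) (b568 i) (Nat.ble (nat_lit 36352) i))

noncomputable def t277 (i : Nat) : Nat :=
  (@Bool.rec (fun _ => Nat) (@Bool.rec (fun _ => Nat) (b562 i) (t274 i) (Nat.ble (nat_lit 36032) i)) (@Bool.rec (fun _ => Nat) (t275 i) (t276 i) (Nat.ble (nat_lit 36288) i)) (Nat.ble (nat_lit 36160) i))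

noncomputable def t278 (i : Nat) : Nat :=
  (@Bool.rec (fun _ => Nat) (@Bool.rec (fun _ => Nat) (t269 i) (t270 i) (Nat.ble (nat_lit 35328) i)) (@Bool.rec (fun _ => Nat) (t273 i) (t277 i) (Nat.ble (nat_lit 35968) i)) (Nat.ble (nat_lit 35584) i))

noncomputable def t279 (i : Nat) : Nat :=
  (@Bool.rec (fun _ => Nat) (b569 i) (b570 i) (Nat.ble (nat_lit 36480) i))

noncomputable def t280 (i : Nat) : Nat :=
  (@Bool.rec (fun _ => Nat) (b571 i) (@Bool.rec (fun _ => Nat) (b572 i) (b573 i) (Nat.ble (nat_lit 36672) i)) (Nat.ble (nat_lit 36608) i))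

noncomputable def t281 (i : Nat) : Nat :=
  (@Bool.rec (fun _ => Nat) (b574 i) (b575 i) (Nat.ble (nat_lit 36800) i))

noncomputable def t282 (i : Nat) : Nat :=
  (@Bool.rec (fun _ => Nat) (b576 i) (b577 i) (Nat.ble (nat_lit 36928) i))

noncomputable def t283 (i : Nat) : Nat :=
  (@Bool.rec (fun _ => Nat) (@Bool.rec (fun _ => Nat) (t279 i) (t280 i) (Nat.ble (nat_lit 36544) i)) (@Bool.rec (fun _ => Nat) (t281 i) (t282 i) (Nat.ble (nat_lit 36864) i)) (Nat.ble (nat_lit 36736) i))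

noncomputable def t284 (i : Nat) : Nat :=
  (@Bool.rec (fun _ => Nat) (b580 i) (b581 i) (Nat.ble (nat_lit 37184) i))

noncomputable def t285 (i : Nat) : Nat :=
  (@Bool.rec (fun _ => Nat) (@Bool.rec (fun _ => Nat) (b578 i) (b579 i) (Nat.ble (nat_lit 37056) i)) (@Bool.rec (fun _ => Nat) (t284 i) (b582 i) (Nat.ble (nat_lit 37248) i)) (Nat.ble (nat_lit 37120) i))

noncomputable def t286 (i : Nat) : Nat :=
  (@Bool.rec (fun _ => Nat) (b583 i) (b584 i) (Nat.ble (nat_lit 37376) i))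

noncomputable def t287 (i : Nat) : Nat :=
  (@Bool.rec (fun _ => Nat) (b586 i) (b587 i) (Nat.ble (nat_lit 37568) i))

noncomputable def t288 (i : Nat) : Nat :=
  (@Bool.rec (fun _ => Nat) (b588 i) (b589 i) (Nat.ble (nat_lit 37696) i))

noncomputable def t289 (i : Nat) : Nat :=
  (@Bool.rec (fun _ => Nat) (@Bool.rec (fun _ => Nat) (t286 i) (b585 i) (Nat.ble (nat_lit 37440) i)) (@Bool.rec (fun _ => Nat) (t287 i) (t288 i) (Nat.ble (nat_lit 37632) i)) (Nat.ble (nat_lit 37504) i))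

noncomputable def t290 (i : Nat) : Nat :=
  (@Bool.rec (fun _ => Nat) (b590 i) (b591 i) (Nat.ble (nat_lit 37824) i))

noncomputable def t291 (i : Nat) : Nat :=
  (@Bool.rec (fun _ => Nat) (b592 i) (b593 i) (Nat.ble (nat_lit 37952) i))

noncomputable def t292 (i : Nat) : Nat :=
  (@Bool.rec (fun _ => Nat) (b594 i) (b595 i) (Nat.ble (nat_lit 38080) i))

noncomputable def t293 (i : Nat) : Nat :=
  (@Bool.rec (fun _ => Nat) (@Bool.rec (fun _ => Nat) (t290 i) (t291 i) (Nat.ble (nat_lit 37888) i)) (@Bool.rec (fun _ => Nat) (t292 i) (b596 i) (Nat.ble (nat_lit 38144) i)) (Nat.ble (nat_lit 38016) i))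

noncomputable def t294 (i : Nat) : Nat :=
  (@Bool.rec (fun _ => Nat) (@Bool.rec (fun _ => Nat) (t283 i) (t285 i) (Nat.ble (nat_lit 36992) i)) (@Bool.rec (fun _ => Nat) (t289 i) (t293 i) (Nat.ble (nat_lit 37760) i)) (Nat.ble (nat_lit 37312) i))

noncomputable def t295 (i : Nat) : Nat :=
  (@Bool.rec (fun _ => Nat) (b597 i) (b598 i) (Nat.ble (nat_lit 38272) i))

noncomputable def t296 (i : Nat) : Nat :=
  (@Bool.rec (fun _ => Nat) (b599 i) (b600 i) (Nat.ble (nat_lit 38400) i))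

noncomputable def t297 (i : Nat) : Nat :=
  (@Bool.rec (fun _ => Nat) (b601 i) (b602 i) (Nat.ble (nat_lit 38528) i))

noncomputable def t298 (i : Nat) : Nat :=
  (@Bool.rec (fun _ => Nat) (b603 i) (b604 i) (Nat.ble (nat_lit 38656) i))

noncomputable def t299 (i : Nat) : Nat :=
  (@Bool.rec (fun _ => Nat) (@Bool.rec (fun _ => Nat) (t295 i) (t296 i) (Nat.ble (nat_lit 38336) i)) (@Bool.rec (fun _ => Nat) (t297 i) (t298 i) (Nat.ble (nat_lit 38592) i)) (Nat.ble (nat_lit 38464) i))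

noncomputable def t300 (i : Nat) : Nat :=
  (@Bool.rec (fun _ => Nat) (b605 i) (b606 i) (Nat.ble (nat_lit 38784) i))

noncomputable def t301 (i : Nat) : Nat :=
  (@Bool.rec (fun _ => Nat) (b607 i) (b608 i) (Nat.ble (nat_lit 38912) i))

noncomputable def t302 (i : Nat) : Nat :=
  (@Bool.rec (fun _ => Nat) (b609 i) (b610 i) (Nat.ble (nat_lit 39040) i))

noncomputable def t303 (i : Nat) : Nat :=
  (@Bool.rec (fun _ => Nat) (@Bool.rec (fun _ => Nat) (t300 i) (t301 i) (Nat.ble (nat_lit 38848) i)) (@Bool.rec (fun _ => Nat) (t302 i) (b611 i) (Nat.ble (nat_lit 39104) i)) (Nat.ble (nat_lit 38976) i))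

noncomputable def t304 (i : Nat) : Nat :=
  (@Bool.rec (fun _ => Nat) (b613 i) (b614 i) (Nat.ble (nat_lit 39296) i))

noncomputable def t305 (i : Nat) : Nat :=
  (@Bool.rec (fun _ => Nat) (@Bool.rec (fun _ => Nat) (b612 i) (t304 i) (Nat.ble (nat_lit 39232) i)) (@Bool.rec (fun _ => Nat) (b615 i) (b616 i) (Nat.ble (nat_lit 39424) i)) (Nat.ble (nat_lit 39360) i))

noncomputable def t306 (i : Nat) : Nat :=
  (@Bool.rec (fun _ => Nat) (@Bool.rec (fun _ => Nat) (b617 i) (b618 i) (Nat.ble (nat_lit 39552) i)) (@Bool.rec (fun _ => Nat) (b619 i) (b620 i) (Nat.ble (nat_lit 39680) i)) (Nat.ble (nat_lit 39616) i))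

noncomputable def t307 (i : Nat) : Nat :=
  (@Bool.rec (fun _ => Nat) (@Bool.rec (fun _ => Nat) (t299 i) (t303 i) (Nat.ble (nat_lit 38720) i)) (@Bool.rec (fun _ => Nat) (t305 i) (t306 i) (Nat.ble (nat_lit 39488) i)) (Nat.ble (nat_lit 39168) i))

noncomputable def t308 (i : Nat) : Nat :=
  (@Bool.rec (fun _ => Nat) (@Bool.rec (fun _ => Nat) (t267 i) (t278 i) (Nat.ble (nat_lit 35008) i)) (@Bool.rec (fun _ => Nat) (t294 i) (t307 i) (Nat.ble (nat_lit 38208) i)) (Nat.ble (nat_lit 36416) i))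

noncomputable def t309 (i : Nat) : Nat :=
  (@Bool.rec (fun _ => Nat) (b622 i) (b623 i) (Nat.ble (nat_lit 39872) i))

noncomputable def t310 (i : Nat) : Nat :=
  (@Bool.rec (fun _ => Nat) (b625 i) (b626 i) (Nat.ble (nat_lit 40064) i))

noncomputable def t311 (i : Nat) : Nat :=
  (@Bool.rec (fun _ => Nat) (@Bool.rec (fun _ => Nat) (b621 i) (t309 i) (Nat.ble (nat_lit 39808) i)) (@Bool.rec (fun _ => Nat) (b624 i) (t310 i) (Nat.ble (nat_lit 40000) i)) (Nat.ble (nat_lit 39936) i))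

noncomputable def t312 (i : Nat) : Nat :=
  (@Bool.rec (fun _ => Nat) (b628 i) (b629 i) (Nat.ble (nat_lit 40256) i))

noncomputable def t313 (i : Nat) : Nat :=
  (@Bool.rec (fun _ => Nat) (b630 i) (b631 i) (Nat.ble (nat_lit 40384) i))

noncomputable def t314 (i : Nat) : Nat :=
  (@Bool.rec (fun _ => Nat) (b632 i) (b633 i) (Nat.ble (nat_lit 40512) i))

noncomputable def t315 (i : Nat) : Nat :=
  (@Bool.rec (fun _ => Nat) (@Bool.rec (fun _ => Nat) (b627 i) (t312 i) (Nat.ble (nat_lit 40192) i)) (@Bool.rec (fun _ => Nat) (t313 i) (t314 i) (Nat.ble (nat_lit 40448) i)) (Nat.ble (nat_lit 40320) i))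

noncomputable def t316 (i : Nat) : Nat :=
  (@Bool.rec (fun _ => Nat) (b636 i) (b637 i) (Nat.ble (nat_lit 40768) i))

noncomputable def t317 (i : Nat) : Nat :=
  (@Bool.rec (fun _ => Nat) (b634 i) (@Bool.rec (fun _ => Nat) (b635 i) (t316 i) (Nat.ble (nat_lit 40704) i)) (Nat.ble (nat_lit 40640) i))

noncomputable def t318 (i : Nat) : Nat :=
  (@Bool.rec (fun _ => Nat) (b638 i) (b639 i) (Nat.ble (nat_lit 40896) i))

noncomputable def t319 (i : Nat) : Nat :=
  (@Bool.rec (fun _ => Nat) (b640 i) (@Bool.rec (fun _ => Nat) (b641 i) (b642 i) (Nat.ble (nat_lit 41088) i)) (Nat.ble (nat_lit 41024) i))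

noncomputable def t320 (i : Nat) : Nat :=
  (@Bool.rec (fun _ => Nat) (@Bool.rec (fun _ => Nat) (b643 i) (b644 i) (Nat.ble (nat_lit 41216) i)) (b645 i) (Nat.ble (nat_lit 41280) i))

noncomputable def t321 (i : Nat) : Nat :=
  (@Bool.rec (fun _ => Nat) (b646 i) (b647 i) (Nat.ble (nat_lit 41408) i))

noncomputable def t322 (i : Nat) : Nat :=
  (@Bool.rec (fun _ => Nat) (@Bool.rec (fun _ => Nat) (t318 i) (t319 i) (Nat.ble (nat_lit 40960) i)) (@Bool.rec (fun _ => Nat) (t320 i) (t321 i) (Nat.ble (nat_lit 41344) i)) (Nat.ble (nat_lit 41152) i))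

noncomputable def t323 (i : Nat) : Nat :=
  (@Bool.rec (fun _ => Nat) (@Bool.rec (fun _ => Nat) (t311 i) (t315 i) (Nat.ble (nat_lit 40128) i)) (@Bool.rec (fun _ => Nat) (t317 i) (t322 i) (Nat.ble (nat_lit 40832) i)) (Nat.ble (nat_lit 40576) i))

noncomputable def t324 (i : Nat) : Nat :=
  (@Bool.rec (fun _ => Nat) (b648 i) (@Bool.rec (fun _ => Nat) (b649 i) (b650 i) (Nat.ble (nat_lit 41600) i)) (Nat.ble (nat_lit 41536) i))

noncomputable def t325 (i : Nat) : Nat :=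
  (@Bool.rec (fun _ => Nat) (b651 i) (@Bool.rec (fun _ => Nat) (b652 i) (b653 i) (Nat.ble (nat_lit 41792) i)) (Nat.ble (nat_lit 41728) i))

noncomputable def t326 (i : Nat) : Nat :=
  (@Bool.rec (fun _ => Nat) (b654 i) (b655 i) (Nat.ble (nat_lit 41920) i))

noncomputable def t327 (i : Nat) : Nat :=
  (@Bool.rec (fun _ => Nat) (@Bool.rec (fun _ => Nat) (t324 i) (t325 i) (Nat.ble (nat_lit 41664) i)) (@Bool.rec (fun _ => Nat) (t326 i) (b656 i) (Nat.ble (nat_lit 41984) i)) (Nat.ble (nat_lit 41856) i))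

noncomputable def t328 (i : Nat) : Nat :=
  (@Bool.rec (fun _ => Nat) (b659 i) (b660 i) (Nat.ble (nat_lit 42240) i))

noncomputable def t329 (i : Nat) : Nat :=
  (@Bool.rec (fun _ => Nat) (@Bool.rec (fun _ => Nat) (b657 i) (b658 i) (Nat.ble (nat_lit 42112) i)) (@Bool.rec (fun _ => Nat) (t328 i) (b661 i) (Nat.ble (nat_lit 42304) i)) (Nat.ble (nat_lit 42176) i))

noncomputable def t330 (i : Nat) : Nat :=
  (@Bool.rec (fun _ => Nat) (b662 i) (b663 i) (Nat.ble (nat_lit 42432) i))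

noncomputable def t331 (i : Nat) : Nat :=
  (@Bool.rec (fun _ => Nat) (b664 i) (b665 i) (Nat.ble (nat_lit 42560) i))

noncomputable def t332 (i : Nat) : Nat :=
  (@Bool.rec (fun _ => Nat) (@Bool.rec (fun _ => Nat) (t327 i) (t329 i) (Nat.ble (nat_lit 42048) i)) (@Bool.rec (fun _ => Nat) (t330 i) (t331 i) (Nat.ble (nat_lit 42496) i)) (Nat.ble (nat_lit 42368) i))

noncomputable def t333 (i : Nat) : Nat :=
  (@Bool.rec (fun _ => Nat) (@Bool.rec (fun _ => Nat) (b666 i) (b667 i) (Nat.ble (nat_lit 42688) i)) (b668 i) (Nat.ble (nat_lit 42752) i))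

noncomputable def t334 (i : Nat) : Nat :=
  (@Bool.rec (fun _ => Nat) (b669 i) (b670 i) (Nat.ble (nat_lit 42880) i))

noncomputable def t335 (i : Nat) : Nat :=
  (@Bool.rec (fun _ => Nat) (b674 i) (b675 i) (Nat.ble (nat_lit 43200) i))

noncomputable def t336 (i : Nat) : Nat :=
  (@Bool.rec (fun _ => Nat) (@Bool.rec (fun _ => Nat) (b671 i) (b672 i) (Nat.ble (nat_lit 43008) i)) (@Bool.rec (fun _ => Nat) (b673 i) (t335 i) (Nat.ble (nat_lit 43136) i)) (Nat.ble (nat_lit 43072) i))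

noncomputable def t337 (i : Nat) : Nat :=
  (@Bool.rec (fun _ => Nat) (@Bool.rec (fun _ => Nat) (b676 i) (b677 i) (Nat.ble (nat_lit 43328) i)) (@Bool.rec (fun _ => Nat) (b678 i) (b679 i) (Nat.ble (nat_lit 43456) i)) (Nat.ble (nat_lit 43392) i))

noncomputable def t338 (i : Nat) : Nat :=
  (@Bool.rec (fun _ => Nat) (@Bool.rec (fun _ => Nat) (t333 i) (t334 i) (Nat.ble (nat_lit 42816) i)) (@Bool.rec (fun _ => Nat) (t336 i) (t337 i) (Nat.ble (nat_lit 43264) i)) (Nat.ble (nat_lit 42944) i))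

noncomputable def t339 (i : Nat) : Nat :=
  (@Bool.rec (fun _ => Nat) (b681 i) (b682 i) (Nat.ble (nat_lit 43648) i))

noncomputable def t340 (i : Nat) : Nat :=
  (@Bool.rec (fun _ => Nat) (b684 i) (b685 i) (Nat.ble (nat_lit 43840) i))

noncomputable def t341 (i : Nat) : Nat :=
  (@Bool.rec (fun _ => Nat) (@Bool.rec (fun _ => Nat) (b680 i) (t339 i) (Nat.ble (nat_lit 43584) i)) (@Bool.rec (fun _ => Nat) (b683 i) (t340 i) (Nat.ble (nat_lit 43776) i)) (Nat.ble (nat_lit 43712) i))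

noncomputable def t342 (i : Nat) : Nat :=
  (@Bool.rec (fun _ => Nat) (b688 i) (b689 i) (Nat.ble (nat_lit 44096) i))

noncomputable def t343 (i : Nat) : Nat :=
  (@Bool.rec (fun _ => Nat) (b690 i) (b691 i) (Nat.ble (nat_lit 44224) i))

noncomputable def t344 (i : Nat) : Nat :=
  (@Bool.rec (fun _ => Nat) (@Bool.rec (fun _ => Nat) (b686 i) (b687 i) (Nat.ble (nat_lit 43968) i)) (@Bool.rec (fun _ => Nat) (t342 i) (t343 i) (Nat.ble (nat_lit 44160) i)) (Nat.ble (nat_lit 44032) i))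

noncomputable def t345 (i : Nat) : Nat :=
  (@Bool.rec (fun _ => Nat) (b692 i) (b693 i) (Nat.ble (nat_lit 44352) i))

noncomputable def t346 (i : Nat) : Nat :=
  (@Bool.rec (fun _ => Nat) (b695 i) (b696 i) (Nat.ble (nat_lit 44544) i))

noncomputable def t347 (i : Nat) : Nat :=
  (@Bool.rec (fun _ => Nat) (@Bool.rec (fun _ => Nat) (t345 i) (b694 i) (Nat.ble (nat_lit 44416) i)) (@Bool.rec (fun _ => Nat) (t346 i) (b697 i) (Nat.ble (nat_lit 44608) i)) (Nat.ble (nat_lit 44480) i))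

noncomputable def t348 (i : Nat) : Nat :=
  (@Bool.rec (fun _ => Nat) (b698 i) (b699 i) (Nat.ble (nat_lit 44736) i))

noncomputable def t349 (i : Nat) : Nat :=
  (@Bool.rec (fun _ => Nat) (b701 i) (b702 i) (Nat.ble (nat_lit 44928) i))

noncomputable def t350 (i : Nat) : Nat :=
  (@Bool.rec (fun _ => Nat) (b703 i) (b704 i) (Nat.ble (nat_lit 45056) i))

noncomputable def t351 (i : Nat) : Nat :=
  (@Bool.rec (fun _ => Nat) (@Bool.rec (fun _ => Nat) (t348 i) (b700 i) (Nat.ble (nat_lit 44800) i)) (@Bool.rec (fun _ => Nat) (t349 i) (t350 i) (Nat.ble (nat_lit 44992) i)) (Nat.ble (nat_lit 44864) i))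

noncomputable def t352 (i : Nat) : Nat :=
  (@Bool.rec (fun _ => Nat) (@Bool.rec (fun _ => Nat) (t341 i) (t344 i) (Nat.ble (nat_lit 43904) i)) (@Bool.rec (fun _ => Nat) (t347 i) (t351 i) (Nat.ble (nat_lit 44672) i)) (Nat.ble (nat_lit 44288) i))

noncomputable def t353 (i : Nat) : Nat :=
  (@Bool.rec (fun _ => Nat) (@Bool.rec (fun _ => Nat) (t323 i) (t332 i) (Nat.ble (nat_lit 41472) i)) (@Bool.rec (fun _ => Nat) (t338 i) (t352 i) (Nat.ble (nat_lit 43520) i)) (Nat.ble (nat_lit 42624) i))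

noncomputable def t354 (i : Nat) : Nat :=
  (@Bool.rec (fun _ => Nat) (@Bool.rec (fun _ => Nat) (t238 i) (t261 i) (Nat.ble (nat_lit 30976) i)) (@Bool.rec (fun _ => Nat) (t308 i) (t353 i) (Nat.ble (nat_lit 39744) i)) (Nat.ble (nat_lit 34240) i))

noncomputable def t355 (i : Nat) : Nat :=
  (@Bool.rec (fun _ => Nat) (b705 i) (b706 i) (Nat.ble (nat_lit 45184) i))

noncomputable def t356 (i : Nat) : Nat :=
  (@Bool.rec (fun _ => Nat) (b708 i) (b709 i) (Nat.ble (nat_lit 45376) i))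

noncomputable def t357 (i : Nat) : Nat :=
  (@Bool.rec (fun _ => Nat) (b710 i) (b711 i) (Nat.ble (nat_lit 45504) i))

noncomputable def t358 (i : Nat) : Nat :=
  (@Bool.rec (fun _ => Nat) (@Bool.rec (fun _ => Nat) (t355 i) (b707 i) (Nat.ble (nat_lit 45248) i)) (@Bool.rec (fun _ => Nat) (t356 i) (t357 i) (Nat.ble (nat_lit 45440) i)) (Nat.ble (nat_lit 45312) i))

noncomputable def t359 (i : Nat) : Nat :=
  (@Bool.rec (fun _ => Nat) (b713 i) (b714 i) (Nat.ble (nat_lit 45696) i))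

noncomputable def t360 (i : Nat) : Nat :=
  (@Bool.rec (fun _ => Nat) (b715 i) (b716 i) (Nat.ble (nat_lit 45824) i))

noncomputable def t361 (i : Nat) : Nat :=
  (@Bool.rec (fun _ => Nat) (@Bool.rec (fun _ => Nat) (b712 i) (t359 i) (Nat.ble (nat_lit 45632) i)) (@Bool.rec (fun _ => Nat) (t360 i) (b717 i) (Nat.ble (nat_lit 45888) i)) (Nat.ble (nat_lit 45760) i))

noncomputable def t362 (i : Nat) : Nat :=
  (@Bool.rec (fun _ => Nat) (b718 i) (b719 i) (Nat.ble (nat_lit 46016) i))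

noncomputable def t363 (i : Nat) : Nat :=
  (@Bool.rec (fun _ => Nat) (b720 i) (b721 i) (Nat.ble (nat_lit 46144) i))

noncomputable def t364 (i : Nat) : Nat :=
  (@Bool.rec (fun _ => Nat) (@Bool.rec (fun _ => Nat) (b722 i) (b723 i) (Nat.ble (nat_lit 46272) i)) (b724 i) (Nat.ble (nat_lit 46336) i))

noncomputable def t365 (i : Nat) : Nat :=
  (@Bool.rec (fun _ => Nat) (b725 i) (b726 i) (Nat.ble (nat_lit 46464) i))

noncomputable def t366 (i : Nat) : Nat :=
  (@Bool.rec (fun _ => Nat) (@Bool.rec (fun _ => Nat) (t362 i) (t363 i) (Nat.ble (nat_lit 46080) i)) (@Bool.rec (fun _ => Nat) (t364 i) (t365 i) (Nat.ble (nat_lit 46400) i)) (Nat.ble (nat_lit 46208) i))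

noncomputable def t367 (i : Nat) : Nat :=
  (@Bool.rec (fun _ => Nat) (@Bool.rec (fun _ => Nat) (b727 i) (b728 i) (Nat.ble (nat_lit 46592) i)) (@Bool.rec (fun _ => Nat) (b729 i) (b730 i) (Nat.ble (nat_lit 46720) i)) (Nat.ble (nat_lit 46656) i))

noncomputable def t368 (i : Nat) : Nat :=
  (@Bool.rec (fun _ => Nat) (@Bool.rec (fun _ => Nat) (t358 i) (t361 i) (Nat.ble (nat_lit 45568) i)) (@Bool.rec (fun _ => Nat) (t366 i) (t367 i) (Nat.ble (nat_lit 46528) i)) (Nat.ble (nat_lit 45952) i))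

noncomputable def t369 (i : Nat) : Nat :=
  (@Bool.rec (fun _ => Nat) (b731 i) (b732 i) (Nat.ble (nat_lit 46848) i))

noncomputable def t370 (i : Nat) : Nat :=
  (@Bool.rec (fun _ => Nat) (b734 i) (b735 i) (Nat.ble (nat_lit 47040) i))

noncomputable def t371 (i : Nat) : Nat :=
  (@Bool.rec (fun _ => Nat) (@Bool.rec (fun _ => Nat) (t370 i) (b736 i) (Nat.ble (nat_lit 47104) i)) (b737 i) (Nat.ble (nat_lit 47168) i))

noncomputable def t372 (i : Nat) : Nat :=
  (@Bool.rec (fun _ => Nat) (b739 i) (b740 i) (Nat.ble (nat_lit 47360) i))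

noncomputable def t373 (i : Nat) : Nat :=
  (@Bool.rec (fun _ => Nat) (@Bool.rec (fun _ => Nat) (b738 i) (t372 i) (Nat.ble (nat_lit 47296) i)) (@Bool.rec (fun _ => Nat) (b741 i) (b742 i) (Nat.ble (nat_lit 47488) i)) (Nat.ble (nat_lit 47424) i))

noncomputable def t374 (i : Nat) : Nat :=
  (@Bool.rec (fun _ => Nat) (@Bool.rec (fun _ => Nat) (t369 i) (b733 i) (Nat.ble (nat_lit 46912) i)) (@Bool.rec (fun _ => Nat) (t371 i) (t373 i) (Nat.ble (nat_lit 47232) i)) (Nat.ble (nat_lit 46976) i))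

noncomputable def t375 (i : Nat) : Nat :=
  (@Bool.rec (fun _ => Nat) (b744 i) (b745 i) (Nat.ble (nat_lit 47680) i))

noncomputable def t376 (i : Nat) : Nat :=
  (@Bool.rec (fun _ => Nat) (b746 i) (b747 i) (Nat.ble (nat_lit 47808) i))

noncomputable def t377 (i : Nat) : Nat :=
  (@Bool.rec (fun _ => Nat) (b748 i) (b749 i) (Nat.ble (nat_lit 47936) i))

noncomputable def t378 (i : Nat) : Nat :=
  (@Bool.rec (fun _ => Nat) (@Bool.rec (fun _ => Nat) (b743 i) (t375 i) (Nat.ble (nat_lit 47616) i)) (@Bool.rec (fun _ => Nat) (t376 i) (t377 i) (Nat.ble (nat_lit 47872) i)) (Nat.ble (nat_lit 47744) i))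

noncomputable def t379 (i : Nat) : Nat :=
  (@Bool.rec (fun _ => Nat) (b750 i) (b751 i) (Nat.ble (nat_lit 48064) i))

noncomputable def t380 (i : Nat) : Nat :=
  (@Bool.rec (fun _ => Nat) (b752 i) (@Bool.rec (fun _ => Nat) (b753 i) (b754 i) (Nat.ble (nat_lit 48256) i)) (Nat.ble (nat_lit 48192) i))

noncomputable def t381 (i : Nat) : Nat :=
  (@Bool.rec (fun _ => Nat) (b755 i) (b756 i) (Nat.ble (nat_lit 48384) i))

noncomputable def t382 (i : Nat) : Nat :=
  (@Bool.rec (fun _ => Nat) (b757 i) (b758 i) (Nat.ble (nat_lit 48512) i))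

noncomputable def t383 (i : Nat) : Nat :=
  (@Bool.rec (fun _ => Nat) (@Bool.rec (fun _ => Nat) (t379 i) (t380 i) (Nat.ble (nat_lit 48128) i)) (@Bool.rec (fun _ => Nat) (t381 i) (t382 i) (Nat.ble (nat_lit 48448) i)) (Nat.ble (nat_lit 48320) i))

noncomputable def t384 (i : Nat) : Nat :=
  (@Bool.rec (fun _ => Nat) (@Bool.rec (fun _ => Nat) (b759 i) (b760 i) (Nat.ble (nat_lit 48640) i)) (@Bool.rec (fun _ => Nat) (b761 i) (b762 i) (Nat.ble (nat_lit 48768) i)) (Nat.ble (nat_lit 48704) i))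

noncomputable def t385 (i : Nat) : Nat :=
  (@Bool.rec (fun _ => Nat) (b764 i) (@Bool.rec (fun _ => Nat) (b765 i) (b766 i) (Nat.ble (nat_lit 49024) i)) (Nat.ble (nat_lit 48960) i))

noncomputable def t386 (i : Nat) : Nat :=
  (@Bool.rec (fun _ => Nat) (b767 i) (b768 i) (Nat.ble (nat_lit 49152) i))

noncomputable def t387 (i : Nat) : Nat :=
  (@Bool.rec (fun _ => Nat) (@Bool.rec (fun _ => Nat) (b763 i) (t385 i) (Nat.ble (nat_lit 48896) i)) (@Bool.rec (fun _ => Nat) (t386 i) (b769 i) (Nat.ble (nat_lit 49216) i)) (Nat.ble (nat_lit 49088) i))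

noncomputable def t388 (i : Nat) : Nat :=
  (@Bool.rec (fun _ => Nat) (@Bool.rec (fun _ => Nat) (t378 i) (t383 i) (Nat.ble (nat_lit 48000) i)) (@Bool.rec (fun _ => Nat) (t384 i) (t387 i) (Nat.ble (nat_lit 48832) i)) (Nat.ble (nat_lit 48576) i))

noncomputable def t389 (i : Nat) : Nat :=
  (@Bool.rec (fun _ => Nat) (b770 i) (b771 i) (Nat.ble (nat_lit 49344) i))

noncomputable def t390 (i : Nat) : Nat :=
  (@Bool.rec (fun _ => Nat) (b774 i) (b775 i) (Nat.ble (nat_lit 49600) i))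

noncomputable def t391 (i : Nat) : Nat :=
  (@Bool.rec (fun _ => Nat) (@Bool.rec (fun _ => Nat) (t389 i) (b772 i) (Nat.ble (nat_lit 49408) i)) (@Bool.rec (fun _ => Nat) (b773 i) (t390 i) (Nat.ble (nat_lit 49536) i)) (Nat.ble (nat_lit 49472) i))

noncomputable def t392 (i : Nat) : Nat :=
  (@Bool.rec (fun _ => Nat) (b776 i) (b777 i) (Nat.ble (nat_lit 49728) i))

noncomputable def t393 (i : Nat) : Nat :=
  (@Bool.rec (fun _ => Nat) (b778 i) (b779 i) (Nat.ble (nat_lit 49856) i))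

noncomputable def t394 (i : Nat) : Nat :=
  (@Bool.rec (fun _ => Nat) (b780 i) (b781 i) (Nat.ble (nat_lit 49984) i))

noncomputable def t395 (i : Nat) : Nat :=
  (@Bool.rec (fun _ => Nat) (b782 i) (b783 i) (Nat.ble (nat_lit 50112) i))

noncomputable def t396 (i : Nat) : Nat :=
  (@Bool.rec (fun _ => Nat) (@Bool.rec (fun _ => Nat) (t392 i) (t393 i) (Nat.ble (nat_lit 49792) i)) (@Bool.rec (fun _ => Nat) (t394 i) (t395 i) (Nat.ble (nat_lit 50048) i)) (Nat.ble (nat_lit 49920) i))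

noncomputable def t397 (i : Nat) : Nat :=
  (@Bool.rec (fun _ => Nat) (b784 i) (b785 i) (Nat.ble (nat_lit 50240) i))

noncomputable def t398 (i : Nat) : Nat :=
  (@Bool.rec (fun _ => Nat) (b788 i) (b789 i) (Nat.ble (nat_lit 50496) i))

noncomputable def t399 (i : Nat) : Nat :=
  (@Bool.rec (fun _ => Nat) (@Bool.rec (fun _ => Nat) (t397 i) (b786 i) (Nat.ble (nat_lit 50304) i)) (@Bool.rec (fun _ => Nat) (b787 i) (t398 i) (Nat.ble (nat_lit 50432) i)) (Nat.ble (nat_lit 50368) i))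

noncomputable def t400 (i : Nat) : Nat :=
  (@Bool.rec (fun _ => Nat) (@Bool.rec (fun _ => Nat) (b792 i) (b793 i) (Nat.ble (nat_lit 50752) i)) (b794 i) (Nat.ble (nat_lit 50816) i))

noncomputable def t401 (i : Nat) : Nat :=
  (@Bool.rec (fun _ => Nat) (b795 i) (b796 i) (Nat.ble (nat_lit 50944) i))

noncomputable def t402 (i : Nat) : Nat :=
  (@Bool.rec (fun _ => Nat) (@Bool.rec (fun _ => Nat) (b790 i) (b791 i) (Nat.ble (nat_lit 50624) i)) (@Bool.rec (fun _ => Nat) (t400 i) (t401 i) (Nat.ble (nat_lit 50880) i)) (Nat.ble (nat_lit 50688) i))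

noncomputable def t403 (i : Nat) : Nat :=
  (@Bool.rec (fun _ => Nat) (@Bool.rec (fun _ => Nat) (t391 i) (t396 i) (Nat.ble (nat_lit 49664) i)) (@Bool.rec (fun _ => Nat) (t399 i) (t402 i) (Nat.ble (nat_lit 50560) i)) (Nat.ble (nat_lit 50176) i))

noncomputable def t404 (i : Nat) : Nat :=
  (@Bool.rec (fun _ => Nat) (@Bool.rec (fun _ => Nat) (t368 i) (t374 i) (Nat.ble (nat_lit 46784) i)) (@Bool.rec (fun _ => Nat) (t388 i) (t403 i) (Nat.ble (nat_lit 49280) i)) (Nat.ble (nat_lit 47552) i))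

noncomputable def t405 (i : Nat) : Nat :=
  (@Bool.rec (fun _ => Nat) (b797 i) (@Bool.rec (fun _ => Nat) (b798 i) (b799 i) (Nat.ble (nat_lit 51136) i)) (Nat.ble (nat_lit 51072) i))

noncomputable def t406 (i : Nat) : Nat :=
  (@Bool.rec (fun _ => Nat) (b800 i) (b801 i) (Nat.ble (nat_lit 51264) i))

noncomputable def t407 (i : Nat) : Nat :=
  (@Bool.rec (fun _ => Nat) (b802 i) (b803 i) (Nat.ble (nat_lit 51392) i))

noncomputable def t408 (i : Nat) : Nat :=
  (@Bool.rec (fun _ => Nat) (b804 i) (b805 i) (Nat.ble (nat_lit 51520) i))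

noncomputable def t409 (i : Nat) : Nat :=
  (@Bool.rec (fun _ => Nat) (@Bool.rec (fun _ => Nat) (t405 i) (t406 i) (Nat.ble (nat_lit 51200) i)) (@Bool.rec (fun _ => Nat) (t407 i) (t408 i) (Nat.ble (nat_lit 51456) i)) (Nat.ble (nat_lit 51328) i))

noncomputable def t410 (i : Nat) : Nat :=
  (@Bool.rec (fun _ => Nat) (b806 i) (@Bool.rec (fun _ => Nat) (b807 i) (b808 i) (Nat.ble (nat_lit 51712) i)) (Nat.ble (nat_lit 51648) i))

noncomputable def t411 (i : Nat) : Nat :=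
  (@Bool.rec (fun _ => Nat) (b809 i) (b810 i) (Nat.ble (nat_lit 51840) i))

noncomputable def t412 (i : Nat) : Nat :=
  (@Bool.rec (fun _ => Nat) (b811 i) (b812 i) (Nat.ble (nat_lit 51968) i))

noncomputable def t413 (i : Nat) : Nat :=
  (@Bool.rec (fun _ => Nat) (@Bool.rec (fun _ => Nat) (t410 i) (t411 i) (Nat.ble (nat_lit 51776) i)) (@Bool.rec (fun _ => Nat) (t412 i) (b813 i) (Nat.ble (nat_lit 52032) i)) (Nat.ble (nat_lit 51904) i))

noncomputable def t414 (i : Nat) : Nat :=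
  (@Bool.rec (fun _ => Nat) (b814 i) (b815 i) (Nat.ble (nat_lit 52160) i))

noncomputable def t415 (i : Nat) : Nat :=
  (@Bool.rec (fun _ => Nat) (b816 i) (b817 i) (Nat.ble (nat_lit 52288) i))

noncomputable def t416 (i : Nat) : Nat :=
  (@Bool.rec (fun _ => Nat) (b818 i) (b819 i) (Nat.ble (nat_lit 52416) i))

noncomputable def t417 (i : Nat) : Nat :=
  (@Bool.rec (fun _ => Nat) (b820 i) (b821 i) (Nat.ble (nat_lit 52544) i))

noncomputable def t418 (i : Nat) : Nat :=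
  (@Bool.rec (fun _ => Nat) (@Bool.rec (fun _ => Nat) (t414 i) (t415 i) (Nat.ble (nat_lit 52224) i)) (@Bool.rec (fun _ => Nat) (t416 i) (t417 i) (Nat.ble (nat_lit 52480) i)) (Nat.ble (nat_lit 52352) i))

noncomputable def t419 (i : Nat) : Nat :=
  (@Bool.rec (fun _ => Nat) (b822 i) (b823 i) (Nat.ble (nat_lit 52672) i))

noncomputable def t420 (i : Nat) : Nat :=
  (@Bool.rec (fun _ => Nat) (b824 i) (b825 i) (Nat.ble (nat_lit 52800) i))

noncomputable def t421 (i : Nat) : Nat :=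
  (@Bool.rec (fun _ => Nat) (@Bool.rec (fun _ => Nat) (b826 i) (b827 i) (Nat.ble (nat_lit 52928) i)) (b828 i) (Nat.ble (nat_lit 52992) i))

noncomputable def t422 (i : Nat) : Nat :=
  (@Bool.rec (fun _ => Nat) (b829 i) (b830 i) (Nat.ble (nat_lit 53120) i))

noncomputable def t423 (i : Nat) : Nat :=
  (@Bool.rec (fun _ => Nat) (@Bool.rec (fun _ => Nat) (t419 i) (t420 i) (Nat.ble (nat_lit 52736) i)) (@Bool.rec (fun _ => Nat) (t421 i) (t422 i) (Nat.ble (nat_lit 53056) i)) (Nat.ble (nat_lit 52864) i))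

noncomputable def t424 (i : Nat) : Nat :=
  (@Bool.rec (fun _ => Nat) (@Bool.rec (fun _ => Nat) (t409 i) (t413 i) (Nat.ble (nat_lit 51584) i)) (@Bool.rec (fun _ => Nat) (t418 i) (t423 i) (Nat.ble (nat_lit 52608) i)) (Nat.ble (nat_lit 52096) i))

noncomputable def t425 (i : Nat) : Nat :=
  (@Bool.rec (fun _ => Nat) (@Bool.rec (fun _ => Nat) (b831 i) (b832 i) (Nat.ble (nat_lit 53248) i)) (@Bool.rec (fun _ => Nat) (b833 i) (b834 i) (Nat.ble (nat_lit 53376) i)) (Nat.ble (nat_lit 53312) i))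

noncomputable def t426 (i : Nat) : Nat :=
  (@Bool.rec (fun _ => Nat) (b835 i) (b836 i) (Nat.ble (nat_lit 53504) i))

noncomputable def t427 (i : Nat) : Nat :=
  (@Bool.rec (fun _ => Nat) (@Bool.rec (fun _ => Nat) (b837 i) (b838 i) (Nat.ble (nat_lit 53632) i)) (@Bool.rec (fun _ => Nat) (b839 i) (b840 i) (Nat.ble (nat_lit 53760) i)) (Nat.ble (nat_lit 53696) i))

noncomputable def t428 (i : Nat) : Nat :=
  (@Bool.rec (fun _ => Nat) (@Bool.rec (fun _ => Nat) (b841 i) (b842 i) (Nat.ble (nat_lit 53888) i)) (@Bool.rec (fun _ => Nat) (b843 i) (b844 i) (Nat.ble (nat_lit 54016) i)) (Nat.ble (nat_lit 53952) i))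

noncomputable def t429 (i : Nat) : Nat :=
  (@Bool.rec (fun _ => Nat) (@Bool.rec (fun _ => Nat) (t425 i) (t426 i) (Nat.ble (nat_lit 53440) i)) (@Bool.rec (fun _ => Nat) (t427 i) (t428 i) (Nat.ble (nat_lit 53824) i)) (Nat.ble (nat_lit 53568) i))

noncomputable def t430 (i : Nat) : Nat :=
  (@Bool.rec (fun _ => Nat) (@Bool.rec (fun _ => Nat) (b845 i) (b846 i) (Nat.ble (nat_lit 54144) i)) (@Bool.rec (fun _ => Nat) (b847 i) (b848 i) (Nat.ble (nat_lit 54272) i)) (Nat.ble (nat_lit 54208) i))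

noncomputable def t431 (i : Nat) : Nat :=
  (@Bool.rec (fun _ => Nat) (@Bool.rec (fun _ => Nat) (b849 i) (b850 i) (Nat.ble (nat_lit 54400) i)) (@Bool.rec (fun _ => Nat) (b851 i) (b852 i) (Nat.ble (nat_lit 54528) i)) (Nat.ble (nat_lit 54464) i))

noncomputable def t432 (i : Nat) : Nat :=
  (@Bool.rec (fun _ => Nat) (b854 i) (b855 i) (Nat.ble (nat_lit 54720) i))

noncomputable def t433 (i : Nat) : Nat :=
  (@Bool.rec (fun _ => Nat) (b856 i) (b857 i) (Nat.ble (nat_lit 54848) i))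

noncomputable def t434 (i : Nat) : Nat :=
  (@Bool.rec (fun _ => Nat) (@Bool.rec (fun _ => Nat) (b853 i) (t432 i) (Nat.ble (nat_lit 54656) i)) (@Bool.rec (fun _ => Nat) (t433 i) (b858 i) (Nat.ble (nat_lit 54912) i)) (Nat.ble (nat_lit 54784) i))

noncomputable def t435 (i : Nat) : Nat :=
  (@Bool.rec (fun _ => Nat) (@Bool.rec (fun _ => Nat) (b859 i) (b860 i) (Nat.ble (nat_lit 55040) i)) (b861 i) (Nat.ble (nat_lit 55104) i))

noncomputable def t436 (i : Nat) : Nat :=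
  (@Bool.rec (fun _ => Nat) (@Bool.rec (fun _ => Nat) (t430 i) (t431 i) (Nat.ble (nat_lit 54336) i)) (@Bool.rec (fun _ => Nat) (t434 i) (t435 i) (Nat.ble (nat_lit 54976) i)) (Nat.ble (nat_lit 54592) i))

noncomputable def t437 (i : Nat) : Nat :=
  (@Bool.rec (fun _ => Nat) (b862 i) (b863 i) (Nat.ble (nat_lit 55232) i))

noncomputable def t438 (i : Nat) : Nat :=
  (@Bool.rec (fun _ => Nat) (@Bool.rec (fun _ => Nat) (t437 i) (b864 i) (Nat.ble (nat_lit 55296) i)) (@Bool.rec (fun _ => Nat) (b865 i) (b866 i) (Nat.ble (nat_lit 55424) i)) (Nat.ble (nat_lit 55360) i))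

noncomputable def t439 (i : Nat) : Nat :=
  (@Bool.rec (fun _ => Nat) (b868 i) (b869 i) (Nat.ble (nat_lit 55616) i))

noncomputable def t440 (i : Nat) : Nat :=
  (@Bool.rec (fun _ => Nat) (b871 i) (b872 i) (Nat.ble (nat_lit 55808) i))

noncomputable def t441 (i : Nat) : Nat :=
  (@Bool.rec (fun _ => Nat) (@Bool.rec (fun _ => Nat) (b867 i) (t439 i) (Nat.ble (nat_lit 55552) i)) (@Bool.rec (fun _ => Nat) (b870 i) (t440 i) (Nat.ble (nat_lit 55744) i)) (Nat.ble (nat_lit 55680) i))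

noncomputable def t442 (i : Nat) : Nat :=
  (@Bool.rec (fun _ => Nat) (b873 i) (b874 i) (Nat.ble (nat_lit 55936) i))

noncomputable def t443 (i : Nat) : Nat :=
  (@Bool.rec (fun _ => Nat) (b875 i) (b876 i) (Nat.ble (nat_lit 56064) i))

noncomputable def t444 (i : Nat) : Nat :=
  (@Bool.rec (fun _ => Nat) (@Bool.rec (fun _ => Nat) (t442 i) (t443 i) (Nat.ble (nat_lit 56000) i)) (@Bool.rec (fun _ => Nat) (b877 i) (b878 i) (Nat.ble (nat_lit 56192) i)) (Nat.ble (nat_lit 56128) i))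

noncomputable def t445 (i : Nat) : Nat :=
  (@Bool.rec (fun _ => Nat) (b882 i) (b883 i) (Nat.ble (nat_lit 56512) i))

noncomputable def t446 (i : Nat) : Nat :=
  (@Bool.rec (fun _ => Nat) (@Bool.rec (fun _ => Nat) (b879 i) (b880 i) (Nat.ble (nat_lit 56320) i)) (@Bool.rec (fun _ => Nat) (b881 i) (t445 i) (Nat.ble (nat_lit 56448) i)) (Nat.ble (nat_lit 56384) i))

noncomputable def t447 (i : Nat) : Nat :=
  (@Bool.rec (fun _ => Nat) (@Bool.rec (fun _ => Nat) (t438 i) (t441 i) (Nat.ble (nat_lit 55488) i)) (@Bool.rec (fun _ => Nat) (t444 i) (t446 i) (Nat.ble (nat_lit 56256) i)) (Nat.ble (nat_lit 55872) i))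

noncomputable def t448 (i : Nat) : Nat :=
  (@Bool.rec (fun _ => Nat) (@Bool.rec (fun _ => Nat) (t424 i) (t429 i) (Nat.ble (nat_lit 53184) i)) (@Bool.rec (fun _ => Nat) (t436 i) (t447 i) (Nat.ble (nat_lit 55168) i)) (Nat.ble (nat_lit 54080) i))

noncomputable def t449 (i : Nat) : Nat :=
  (@Bool.rec (fun _ => Nat) (b884 i) (b885 i) (Nat.ble (nat_lit 56640) i))

noncomputable def t450 (i : Nat) : Nat :=
  (@Bool.rec (fun _ => Nat) (b886 i) (b887 i) (Nat.ble (nat_lit 56768) i))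

noncomputable def t451 (i : Nat) : Nat :=
  (@Bool.rec (fun _ => Nat) (b888 i) (@Bool.rec (fun _ => Nat) (b889 i) (b890 i) (Nat.ble (nat_lit 56960) i)) (Nat.ble (nat_lit 56896) i))

noncomputable def t452 (i : Nat) : Nat :=
  (@Bool.rec (fun _ => Nat) (b891 i) (b892 i) (Nat.ble (nat_lit 57088) i))

noncomputable def t453 (i : Nat) : Nat :=
  (@Bool.rec (fun _ => Nat) (@Bool.rec (fun _ => Nat) (t449 i) (t450 i) (Nat.ble (nat_lit 56704) i)) (@Bool.rec (fun _ => Nat) (t451 i) (t452 i) (Nat.ble (nat_lit 57024) i)) (Nat.ble (nat_lit 56832) i))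

noncomputable def t454 (i : Nat) : Nat :=
  (@Bool.rec (fun _ => Nat) (b893 i) (b894 i) (Nat.ble (nat_lit 57216) i))

noncomputable def t455 (i : Nat) : Nat :=
  (@Bool.rec (fun _ => Nat) (b895 i) (b896 i) (Nat.ble (nat_lit 57344) i))

noncomputable def t456 (i : Nat) : Nat :=
  (@Bool.rec (fun _ => Nat) (b897 i) (b898 i) (Nat.ble (nat_lit 57472) i))

noncomputable def t457 (i : Nat) : Nat :=
  (@Bool.rec (fun _ => Nat) (b899 i) (@Bool.rec (fun _ => Nat) (b900 i) (b901 i) (Nat.ble (nat_lit 57664) i)) (Nat.ble (nat_lit 57600) i))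

noncomputable def t458 (i : Nat) : Nat :=
  (@Bool.rec (fun _ => Nat) (@Bool.rec (fun _ => Nat) (t454 i) (t455 i) (Nat.ble (nat_lit 57280) i)) (@Bool.rec (fun _ => Nat) (t456 i) (t457 i) (Nat.ble (nat_lit 57536) i)) (Nat.ble (nat_lit 57408) i))

noncomputable def t459 (i : Nat) : Nat :=
  (@Bool.rec (fun _ => Nat) (b902 i) (b903 i) (Nat.ble (nat_lit 57792) i))

noncomputable def t460 (i : Nat) : Nat :=
  (@Bool.rec (fun _ => Nat) (b904 i) (b905 i) (Nat.ble (nat_lit 57920) i))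

noncomputable def t461 (i : Nat) : Nat :=
  (@Bool.rec (fun _ => Nat) (b906 i) (b907 i) (Nat.ble (nat_lit 58048) i))

noncomputable def t462 (i : Nat) : Nat :=
  (@Bool.rec (fun _ => Nat) (b908 i) (b909 i) (Nat.ble (nat_lit 58176) i))

noncomputable def t463 (i : Nat) : Nat :=
  (@Bool.rec (fun _ => Nat) (@Bool.rec (fun _ => Nat) (t459 i) (t460 i) (Nat.ble (nat_lit 57856) i)) (@Bool.rec (fun _ => Nat) (t461 i) (t462 i) (Nat.ble (nat_lit 58112) i)) (Nat.ble (nat_lit 57984) i))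

noncomputable def t464 (i : Nat) : Nat :=
  (@Bool.rec (fun _ => Nat) (b911 i) (b912 i) (Nat.ble (nat_lit 58368) i))

noncomputable def t465 (i : Nat) : Nat :=
  (@Bool.rec (fun _ => Nat) (b913 i) (b914 i) (Nat.ble (nat_lit 58496) i))

noncomputable def t466 (i : Nat) : Nat :=
  (@Bool.rec (fun _ => Nat) (@Bool.rec (fun _ => Nat) (b910 i) (t464 i) (Nat.ble (nat_lit 58304) i)) (@Bool.rec (fun _ => Nat) (t465 i) (b915 i) (Nat.ble (nat_lit 58560) i)) (Nat.ble (nat_lit 58432) i))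

noncomputable def t467 (i : Nat) : Nat :=
  (@Bool.rec (fun _ => Nat) (@Bool.rec (fun _ => Nat) (t453 i) (t458 i) (Nat.ble (nat_lit 57152) i)) (@Bool.rec (fun _ => Nat) (t463 i) (t466 i) (Nat.ble (nat_lit 58240) i)) (Nat.ble (nat_lit 57728) i))

noncomputable def t468 (i : Nat) : Nat :=
  (@Bool.rec (fun _ => Nat) (b918 i) (b919 i) (Nat.ble (nat_lit 58816) i))

noncomputable def t469 (i : Nat) : Nat :=
  (@Bool.rec (fun _ => Nat) (b920 i) (b921 i) (Nat.ble (nat_lit 58944) i))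

noncomputable def t470 (i : Nat) : Nat :=
  (@Bool.rec (fun _ => Nat) (@Bool.rec (fun _ => Nat) (b916 i) (b917 i) (Nat.ble (nat_lit 58688) i)) (@Bool.rec (fun _ => Nat) (t468 i) (t469 i) (Nat.ble (nat_lit 58880) i)) (Nat.ble (nat_lit 58752) i))

noncomputable def t471 (i : Nat) : Nat :=
  (@Bool.rec (fun _ => Nat) (b922 i) (b923 i) (Nat.ble (nat_lit 59072) i))

noncomputable def t472 (i : Nat) : Nat :=
  (@Bool.rec (fun _ => Nat) (b924 i) (b925 i) (Nat.ble (nat_lit 59200) i))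

noncomputable def t473 (i : Nat) : Nat :=
  (@Bool.rec (fun _ => Nat) (b926 i) (b927 i) (Nat.ble (nat_lit 59328) i))

noncomputable def t474 (i : Nat) : Nat :=
  (@Bool.rec (fun _ => Nat) (b928 i) (@Bool.rec (fun _ => Nat) (b929 i) (b930 i) (Nat.ble (nat_lit 59520) i)) (Nat.ble (nat_lit 59456) i))

noncomputable def t475 (i : Nat) : Nat :=
  (@Bool.rec (fun _ => Nat) (@Bool.rec (fun _ => Nat) (t471 i) (t472 i) (Nat.ble (nat_lit 59136) i)) (@Bool.rec (fun _ => Nat) (t473 i) (t474 i) (Nat.ble (nat_lit 59392) i)) (Nat.ble (nat_lit 59264) i))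

noncomputable def t476 (i : Nat) : Nat :=
  (@Bool.rec (fun _ => Nat) (b931 i) (b932 i) (Nat.ble (nat_lit 59648) i))

noncomputable def t477 (i : Nat) : Nat :=
  (@Bool.rec (fun _ => Nat) (@Bool.rec (fun _ => Nat) (b933 i) (b934 i) (Nat.ble (nat_lit 59776) i)) (b935 i) (Nat.ble (nat_lit 59840) i))

noncomputable def t478 (i : Nat) : Nat :=
  (@Bool.rec (fun _ => Nat) (b936 i) (b937 i) (Nat.ble (nat_lit 59968) i))

noncomputable def t479 (i : Nat) : Nat :=
  (@Bool.rec (fun _ => Nat) (@Bool.rec (fun _ => Nat) (b938 i) (b939 i) (Nat.ble (nat_lit 60096) i)) (b940 i) (Nat.ble (nat_lit 60160) i))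

noncomputable def t480 (i : Nat) : Nat :=
  (@Bool.rec (fun _ => Nat) (@Bool.rec (fun _ => Nat) (t476 i) (t477 i) (Nat.ble (nat_lit 59712) i)) (@Bool.rec (fun _ => Nat) (t478 i) (t479 i) (Nat.ble (nat_lit 60032) i)) (Nat.ble (nat_lit 59904) i))

noncomputable def t481 (i : Nat) : Nat :=
  (@Bool.rec (fun _ => Nat) (b941 i) (@Bool.rec (fun _ => Nat) (b942 i) (b943 i) (Nat.ble (nat_lit 60352) i)) (Nat.ble (nat_lit 60288) i))

noncomputable def t482 (i : Nat) : Nat :=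
  (@Bool.rec (fun _ => Nat) (b944 i) (b945 i) (Nat.ble (nat_lit 60480) i))

noncomputable def t483 (i : Nat) : Nat :=
  (@Bool.rec (fun _ => Nat) (@Bool.rec (fun _ => Nat) (b947 i) (b948 i) (Nat.ble (nat_lit 60672) i)) (b949 i) (Nat.ble (nat_lit 60736) i))

noncomputable def t484 (i : Nat) : Nat :=
  (@Bool.rec (fun _ => Nat) (@Bool.rec (fun _ => Nat) (t481 i) (t482 i) (Nat.ble (nat_lit 60416) i)) (@Bool.rec (fun _ => Nat) (b946 i) (t483 i) (Nat.ble (nat_lit 60608) i)) (Nat.ble (nat_lit 60544) i))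

noncomputable def t485 (i : Nat) : Nat :=
  (@Bool.rec (fun _ => Nat) (@Bool.rec (fun _ => Nat) (t470 i) (t475 i) (Nat.ble (nat_lit 59008) i)) (@Bool.rec (fun _ => Nat) (t480 i) (t484 i) (Nat.ble (nat_lit 60224) i)) (Nat.ble (nat_lit 59584) i))

noncomputable def t486 (i : Nat) : Nat :=
  (@Bool.rec (fun _ => Nat) (b950 i) (b951 i) (Nat.ble (nat_lit 60864) i))

noncomputable def t487 (i : Nat) : Nat :=
  (@Bool.rec (fun _ => Nat) (@Bool.rec (fun _ => Nat) (t486 i) (b952 i) (Nat.ble (nat_lit 60928) i)) (@Bool.rec (fun _ => Nat) (b953 i) (b954 i) (Nat.ble (nat_lit 61056) i)) (Nat.ble (nat_lit 60992) i))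

noncomputable def t488 (i : Nat) : Nat :=
  (@Bool.rec (fun _ => Nat) (@Bool.rec (fun _ => Nat) (b955 i) (b956 i) (Nat.ble (nat_lit 61184) i)) (@Bool.rec (fun _ => Nat) (b957 i) (b958 i) (Nat.ble (nat_lit 61312) i)) (Nat.ble (nat_lit 61248) i))

noncomputable def t489 (i : Nat) : Nat :=
  (@Bool.rec (fun _ => Nat) (b959 i) (b960 i) (Nat.ble (nat_lit 61440) i))

noncomputable def t490 (i : Nat) : Nat :=
  (@Bool.rec (fun _ => Nat) (b963 i) (b964 i) (Nat.ble (nat_lit 61696) i))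

noncomputable def t491 (i : Nat) : Nat :=
  (@Bool.rec (fun _ => Nat) (@Bool.rec (fun _ => Nat) (t489 i) (b961 i) (Nat.ble (nat_lit 61504) i)) (@Bool.rec (fun _ => Nat) (b962 i) (t490 i) (Nat.ble (nat_lit 61632) i)) (Nat.ble (nat_lit 61568) i))

noncomputable def t492 (i : Nat) : Nat :=
  (@Bool.rec (fun _ => Nat) (b965 i) (b966 i) (Nat.ble (nat_lit 61824) i))

noncomputable def t493 (i : Nat) : Nat :=
  (@Bool.rec (fun _ => Nat) (b967 i) (b968 i) (Nat.ble (nat_lit 61952) i))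

noncomputable def t494 (i : Nat) : Nat :=
  (@Bool.rec (fun _ => Nat) (b969 i) (b970 i) (Nat.ble (nat_lit 62080) i))

noncomputable def t495 (i : Nat) : Nat :=
  (@Bool.rec (fun _ => Nat) (@Bool.rec (fun _ => Nat) (t492 i) (t493 i) (Nat.ble (nat_lit 61888) i)) (@Bool.rec (fun _ => Nat) (t494 i) (b971 i) (Nat.ble (nat_lit 62144) i)) (Nat.ble (nat_lit 62016) i))

noncomputable def t496 (i : Nat) : Nat :=
  (@Bool.rec (fun _ => Nat) (@Bool.rec (fun _ => Nat) (t487 i) (t488 i) (Nat.ble (nat_lit 61120) i)) (@Bool.rec (fun _ => Nat) (t491 i) (t495 i) (Nat.ble (nat_lit 61760) i)) (Nat.ble (nat_lit 61376) i))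

noncomputable def t497 (i : Nat) : Nat :=
  (@Bool.rec (fun _ => Nat) (b972 i) (b973 i) (Nat.ble (nat_lit 62272) i))

noncomputable def t498 (i : Nat) : Nat :=
  (@Bool.rec (fun _ => Nat) (b974 i) (b975 i) (Nat.ble (nat_lit 62400) i))

noncomputable def t499 (i : Nat) : Nat :=
  (@Bool.rec (fun _ => Nat) (b976 i) (b977 i) (Nat.ble (nat_lit 62528) i))

noncomputable def t500 (i : Nat) : Nat :=
  (@Bool.rec (fun _ => Nat) (b978 i) (b979 i) (Nat.ble (nat_lit 62656) i))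

noncomputable def t501 (i : Nat) : Nat :=
  (@Bool.rec (fun _ => Nat) (@Bool.rec (fun _ => Nat) (t497 i) (t498 i) (Nat.ble (nat_lit 62336) i)) (@Bool.rec (fun _ => Nat) (t499 i) (t500 i) (Nat.ble (nat_lit 62592) i)) (Nat.ble (nat_lit 62464) i))

noncomputable def t502 (i : Nat) : Nat :=
  (@Bool.rec (fun _ => Nat) (b981 i) (b982 i) (Nat.ble (nat_lit 62848) i))

noncomputable def t503 (i : Nat) : Nat :=
  (@Bool.rec (fun _ => Nat) (b983 i) (b984 i) (Nat.ble (nat_lit 62976) i))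

noncomputable def t504 (i : Nat) : Nat :=
  (@Bool.rec (fun _ => Nat) (@Bool.rec (fun _ => Nat) (b985 i) (b986 i) (Nat.ble (nat_lit 63104) i)) (b987 i) (Nat.ble (nat_lit 63168) i))

noncomputable def t505 (i : Nat) : Nat :=
  (@Bool.rec (fun _ => Nat) (@Bool.rec (fun _ => Nat) (b980 i) (t502 i) (Nat.ble (nat_lit 62784) i)) (@Bool.rec (fun _ => Nat) (t503 i) (t504 i) (Nat.ble (nat_lit 63040) i)) (Nat.ble (nat_lit 62912) i))

noncomputable def t506 (i : Nat) : Nat :=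
  (@Bool.rec (fun _ => Nat) (b988 i) (b989 i) (Nat.ble (nat_lit 63296) i))

noncomputable def t507 (i : Nat) : Nat :=
  (@Bool.rec (fun _ => Nat) (@Bool.rec (fun _ => Nat) (b990 i) (b991 i) (Nat.ble (nat_lit 63424) i)) (b992 i) (Nat.ble (nat_lit 63488) i))

noncomputable def t508 (i : Nat) : Nat :=
  (@Bool.rec (fun _ => Nat) (b993 i) (b994 i) (Nat.ble (nat_lit 63616) i))

noncomputable def t509 (i : Nat) : Nat :=
  (@Bool.rec (fun _ => Nat) (@Bool.rec (fun _ => Nat) (b995 i) (b996 i) (Nat.ble (nat_lit 63744) i)) (b997 i) (Nat.ble (nat_lit 63808) i))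

noncomputable def t510 (i : Nat) : Nat :=
  (@Bool.rec (fun _ => Nat) (@Bool.rec (fun _ => Nat) (t506 i) (t507 i) (Nat.ble (nat_lit 63360) i)) (@Bool.rec (fun _ => Nat) (t508 i) (t509 i) (Nat.ble (nat_lit 63680) i)) (Nat.ble (nat_lit 63552) i))

noncomputable def t511 (i : Nat) : Nat :=
  (@Bool.rec (fun _ => Nat) (b1000 i) (b1001 i) (Nat.ble (nat_lit 64064) i))

noncomputable def t512 (i : Nat) : Nat :=
  (@Bool.rec (fun _ => Nat) (b998 i) (@Bool.rec (fun _ => Nat) (b999 i) (t511 i) (Nat.ble (nat_lit 64000) i)) (Nat.ble (nat_lit 63936) i))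

noncomputable def t513 (i : Nat) : Nat :=
  (@Bool.rec (fun _ => Nat) (@Bool.rec (fun _ => Nat) (t501 i) (t505 i) (Nat.ble (nat_lit 62720) i)) (@Bool.rec (fun _ => Nat) (t510 i) (t512 i) (Nat.ble (nat_lit 63872) i)) (Nat.ble (nat_lit 63232) i))

noncomputable def t514 (i : Nat) : Nat :=
  (@Bool.rec (fun _ => Nat) (@Bool.rec (fun _ => Nat) (t467 i) (t485 i) (Nat.ble (nat_lit 58624) i)) (@Bool.rec (fun _ => Nat) (t496 i) (t513 i) (Nat.ble (nat_lit 62208) i)) (Nat.ble (nat_lit 60800) i))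

noncomputable def t515 (i : Nat) : Nat :=
  (@Bool.rec (fun _ => Nat) (b1002 i) (b1003 i) (Nat.ble (nat_lit 64192) i))

noncomputable def t516 (i : Nat) : Nat :=
  (@Bool.rec (fun _ => Nat) (b1005 i) (b1006 i) (Nat.ble (nat_lit 64384) i))

noncomputable def t517 (i : Nat) : Nat :=
  (@Bool.rec (fun _ => Nat) (b1007 i) (b1008 i) (Nat.ble (nat_lit 64512) i))

noncomputable def t518 (i : Nat) : Nat :=
  (@Bool.rec (fun _ => Nat) (@Bool.rec (fun _ => Nat) (t515 i) (b1004 i) (Nat.ble (nat_lit 64256) i)) (@Bool.rec (fun _ => Nat) (t516 i) (t517 i) (Nat.ble (nat_lit 64448) i)) (Nat.ble (nat_lit 64320) i))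

noncomputable def t519 (i : Nat) : Nat :=
  (@Bool.rec (fun _ => Nat) (b1009 i) (b1010 i) (Nat.ble (nat_lit 64640) i))

noncomputable def t520 (i : Nat) : Nat :=
  (@Bool.rec (fun _ => Nat) (b1012 i) (@Bool.rec (fun _ => Nat) (b1013 i) (b1014 i) (Nat.ble (nat_lit 64896) i)) (Nat.ble (nat_lit 64832) i))

noncomputable def t521 (i : Nat) : Nat :=
  (@Bool.rec (fun _ => Nat) (@Bool.rec (fun _ => Nat) (t519 i) (b1011 i) (Nat.ble (nat_lit 64704) i)) (@Bool.rec (fun _ => Nat) (t520 i) (b1015 i) (Nat.ble (nat_lit 64960) i)) (Nat.ble (nat_lit 64768) i))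

noncomputable def t522 (i : Nat) : Nat :=
  (@Bool.rec (fun _ => Nat) (b1016 i) (b1017 i) (Nat.ble (nat_lit 65088) i))

noncomputable def t523 (i : Nat) : Nat :=
  (@Bool.rec (fun _ => Nat) (b1018 i) (b1019 i) (Nat.ble (nat_lit 65216) i))

noncomputable def t524 (i : Nat) : Nat :=
  (@Bool.rec (fun _ => Nat) (@Bool.rec (fun _ => Nat) (t522 i) (t523 i) (Nat.ble (nat_lit 65152) i)) (@Bool.rec (fun _ => Nat) (b1020 i) (b1021 i) (Nat.ble (nat_lit 65344) i)) (Nat.ble (nat_lit 65280) i))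

noncomputable def t525 (i : Nat) : Nat :=
  (@Bool.rec (fun _ => Nat) (b1023 i) (b1024 i) (Nat.ble (nat_lit 65536) i))

noncomputable def t526 (i : Nat) : Nat :=
  (@Bool.rec (fun _ => Nat) (@Bool.rec (fun _ => Nat) (b1025 i) (b1026 i) (Nat.ble (nat_lit 65664) i)) (b1027 i) (Nat.ble (nat_lit 65728) i))

noncomputable def t527 (i : Nat) : Nat :=
  (@Bool.rec (fun _ => Nat) (@Bool.rec (fun _ => Nat) (b1022 i) (t525 i) (Nat.ble (nat_lit 65472) i)) (@Bool.rec (fun _ => Nat) (t526 i) (b1028 i) (Nat.ble (nat_lit 65792) i)) (Nat.ble (nat_lit 65600) i))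

noncomputable def t528 (i : Nat) : Nat :=
  (@Bool.rec (fun _ => Nat) (@Bool.rec (fun _ => Nat) (t518 i) (t521 i) (Nat.ble (nat_lit 64576) i)) (@Bool.rec (fun _ => Nat) (t524 i) (t527 i) (Nat.ble (nat_lit 65408) i)) (Nat.ble (nat_lit 65024) i))

noncomputable def t529 (i : Nat) : Nat :=
  (@Bool.rec (fun _ => Nat) (b1030 i) (b1031 i) (Nat.ble (nat_lit 65984) i))

noncomputable def t530 (i : Nat) : Nat :=
  (@Bool.rec (fun _ => Nat) (@Bool.rec (fun _ => Nat) (b1029 i) (t529 i) (Nat.ble (nat_lit 65920) i)) (@Bool.rec (fun _ => Nat) (b1032 i) (b1033 i) (Nat.ble (nat_lit 66112) i)) (Nat.ble (nat_lit 66048) i))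

noncomputable def t531 (i : Nat) : Nat :=
  (@Bool.rec (fun _ => Nat) (b1035 i) (b1036 i) (Nat.ble (nat_lit 66304) i))

noncomputable def t532 (i : Nat) : Nat :=
  (@Bool.rec (fun _ => Nat) (b1037 i) (b1038 i) (Nat.ble (nat_lit 66432) i))

noncomputable def t533 (i : Nat) : Nat :=
  (@Bool.rec (fun _ => Nat) (@Bool.rec (fun _ => Nat) (b1034 i) (t531 i) (Nat.ble (nat_lit 66240) i)) (@Bool.rec (fun _ => Nat) (t532 i) (b1039 i) (Nat.ble (nat_lit 66496) i)) (Nat.ble (nat_lit 66368) i))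

noncomputable def t534 (i : Nat) : Nat :=
  (@Bool.rec (fun _ => Nat) (@Bool.rec (fun _ => Nat) (b1040 i) (b1041 i) (Nat.ble (nat_lit 66624) i)) (b1042 i) (Nat.ble (nat_lit 66688) i))

noncomputable def t535 (i : Nat) : Nat :=
  (@Bool.rec (fun _ => Nat) (b1044 i) (b1045 i) (Nat.ble (nat_lit 66880) i))

noncomputable def t536 (i : Nat) : Nat :=
  (@Bool.rec (fun _ => Nat) (b1046 i) (b1047 i) (Nat.ble (nat_lit 67008) i))

noncomputable def t537 (i : Nat) : Nat :=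
  (@Bool.rec (fun _ => Nat) (b1048 i) (b1049 i) (Nat.ble (nat_lit 67136) i))

noncomputable def t538 (i : Nat) : Nat :=
  (@Bool.rec (fun _ => Nat) (@Bool.rec (fun _ => Nat) (b1043 i) (t535 i) (Nat.ble (nat_lit 66816) i)) (@Bool.rec (fun _ => Nat) (t536 i) (t537 i) (Nat.ble (nat_lit 67072) i)) (Nat.ble (nat_lit 66944) i))

noncomputable def t539 (i : Nat) : Nat :=
  (@Bool.rec (fun _ => Nat) (@Bool.rec (fun _ => Nat) (t530 i) (t533 i) (Nat.ble (nat_lit 66176) i)) (@Bool.rec (fun _ => Nat) (t534 i) (t538 i) (Nat.ble (nat_lit 66752) i)) (Nat.ble (nat_lit 66560) i))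

noncomputable def t540 (i : Nat) : Nat :=
  (@Bool.rec (fun _ => Nat) (@Bool.rec (fun _ => Nat) (b1050 i) (b1051 i) (Nat.ble (nat_lit 67264) i)) (b1052 i) (Nat.ble (nat_lit 67328) i))

noncomputable def t541 (i : Nat) : Nat :=
  (@Bool.rec (fun _ => Nat) (b1053 i) (b1054 i) (Nat.ble (nat_lit 67456) i))

noncomputable def t542 (i : Nat) : Nat :=
  (@Bool.rec (fun _ => Nat) (b1055 i) (b1056 i) (Nat.ble (nat_lit 67584) i))

noncomputable def t543 (i : Nat) : Nat :=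
  (@Bool.rec (fun _ => Nat) (b1057 i) (b1058 i) (Nat.ble (nat_lit 67712) i))

noncomputable def t544 (i : Nat) : Nat :=
  (@Bool.rec (fun _ => Nat) (@Bool.rec (fun _ => Nat) (t540 i) (t541 i) (Nat.ble (nat_lit 67392) i)) (@Bool.rec (fun _ => Nat) (t542 i) (t543 i) (Nat.ble (nat_lit 67648) i)) (Nat.ble (nat_lit 67520) i))

noncomputable def t545 (i : Nat) : Nat :=
  (@Bool.rec (fun _ => Nat) (b1059 i) (@Bool.rec (fun _ => Nat) (b1060 i) (b1061 i) (Nat.ble (nat_lit 67904) i)) (Nat.ble (nat_lit 67840) i))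

noncomputable def t546 (i : Nat) : Nat :=
  (@Bool.rec (fun _ => Nat) (b1062 i) (@Bool.rec (fun _ => Nat) (b1063 i) (b1064 i) (Nat.ble (nat_lit 68096) i)) (Nat.ble (nat_lit 68032) i))

noncomputable def t547 (i : Nat) : Nat :=
  (@Bool.rec (fun _ => Nat) (b1066 i) (b1067 i) (Nat.ble (nat_lit 68288) i))

noncomputable def t548 (i : Nat) : Nat :=
  (@Bool.rec (fun _ => Nat) (@Bool.rec (fun _ => Nat) (t545 i) (t546 i) (Nat.ble (nat_lit 67968) i)) (@Bool.rec (fun _ => Nat) (b1065 i) (t547 i) (Nat.ble (nat_lit 68224) i)) (Nat.ble (nat_lit 68160) i))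

noncomputable def t549 (i : Nat) : Nat :=
  (@Bool.rec (fun _ => Nat) (b1068 i) (@Bool.rec (fun _ => Nat) (b1069 i) (b1070 i) (Nat.ble (nat_lit 68480) i)) (Nat.ble (nat_lit 68416) i))

noncomputable def t550 (i : Nat) : Nat :=
  (@Bool.rec (fun _ => Nat) (b1071 i) (@Bool.rec (fun _ => Nat) (b1072 i) (b1073 i) (Nat.ble (nat_lit 68672) i)) (Nat.ble (nat_lit 68608) i))

noncomputable def t551 (i : Nat) : Nat :=
  (@Bool.rec (fun _ => Nat) (@Bool.rec (fun _ => Nat) (b1074 i) (b1075 i) (Nat.ble (nat_lit 68800) i)) (b1076 i) (Nat.ble (nat_lit 68864) i))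

noncomputable def t552 (i : Nat) : Nat :=
  (@Bool.rec (fun _ => Nat) (b1077 i) (b1078 i) (Nat.ble (nat_lit 68992) i))

noncomputable def t553 (i : Nat) : Nat :=
  (@Bool.rec (fun _ => Nat) (@Bool.rec (fun _ => Nat) (t549 i) (t550 i) (Nat.ble (nat_lit 68544) i)) (@Bool.rec (fun _ => Nat) (t551 i) (t552 i) (Nat.ble (nat_lit 68928) i)) (Nat.ble (nat_lit 68736) i))

noncomputable def t554 (i : Nat) : Nat :=
  (@Bool.rec (fun _ => Nat) (b1079 i) (@Bool.rec (fun _ => Nat) (b1080 i) (b1081 i) (Nat.ble (nat_lit 69184) i)) (Nat.ble (nat_lit 69120) i))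

noncomputable def t555 (i : Nat) : Nat :=
  (@Bool.rec (fun _ => Nat) (@Bool.rec (fun _ => Nat) (b1082 i) (b1083 i) (Nat.ble (nat_lit 69312) i)) (@Bool.rec (fun _ => Nat) (b1084 i) (b1085 i) (Nat.ble (nat_lit 69440) i)) (Nat.ble (nat_lit 69376) i))

noncomputable def t556 (i : Nat) : Nat :=
  (@Bool.rec (fun _ => Nat) (b1086 i) (b1087 i) (Nat.ble (nat_lit 69568) i))

noncomputable def t557 (i : Nat) : Nat :=
  (@Bool.rec (fun _ => Nat) (b1088 i) (b1089 i) (Nat.ble (nat_lit 69696) i))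

noncomputable def t558 (i : Nat) : Nat :=
  (@Bool.rec (fun _ => Nat) (@Bool.rec (fun _ => Nat) (t554 i) (t555 i) (Nat.ble (nat_lit 69248) i)) (@Bool.rec (fun _ => Nat) (t556 i) (t557 i) (Nat.ble (nat_lit 69632) i)) (Nat.ble (nat_lit 69504) i))

noncomputable def t559 (i : Nat) : Nat :=
  (@Bool.rec (fun _ => Nat) (@Bool.rec (fun _ => Nat) (t544 i) (t548 i) (Nat.ble (nat_lit 67776) i)) (@Bool.rec (fun _ => Nat) (t553 i) (t558 i) (Nat.ble (nat_lit 69056) i)) (Nat.ble (nat_lit 68352) i))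

noncomputable def t560 (i : Nat) : Nat :=
  (@Bool.rec (fun _ => Nat) (b1090 i) (b1091 i) (Nat.ble (nat_lit 69824) i))

noncomputable def t561 (i : Nat) : Nat :=
  (@Bool.rec (fun _ => Nat) (b1092 i) (@Bool.rec (fun _ => Nat) (b1093 i) (b1094 i) (Nat.ble (nat_lit 70016) i)) (Nat.ble (nat_lit 69952) i))

noncomputable def t562 (i : Nat) : Nat :=
  (@Bool.rec (fun _ => Nat) (@Bool.rec (fun _ => Nat) (b1095 i) (b1096 i) (Nat.ble (nat_lit 70144) i)) (b1097 i) (Nat.ble (nat_lit 70208) i))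

noncomputable def t563 (i : Nat) : Nat :=
  (@Bool.rec (fun _ => Nat) (b1098 i) (@Bool.rec (fun _ => Nat) (b1099 i) (b1100 i) (Nat.ble (nat_lit 70400) i)) (Nat.ble (nat_lit 70336) i))

noncomputable def t564 (i : Nat) : Nat :=
  (@Bool.rec (fun _ => Nat) (@Bool.rec (fun _ => Nat) (t560 i) (t561 i) (Nat.ble (nat_lit 69888) i)) (@Bool.rec (fun _ => Nat) (t562 i) (t563 i) (Nat.ble (nat_lit 70272) i)) (Nat.ble (nat_lit 70080) i))

noncomputable def t565 (i : Nat) : Nat :=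
  (@Bool.rec (fun _ => Nat) (b1101 i) (@Bool.rec (fun _ => Nat) (b1102 i) (b1103 i) (Nat.ble (nat_lit 70592) i)) (Nat.ble (nat_lit 70528) i))

noncomputable def t566 (i : Nat) : Nat :=
  (@Bool.rec (fun _ => Nat) (@Bool.rec (fun _ => Nat) (b1104 i) (b1105 i) (Nat.ble (nat_lit 70720) i)) (b1106 i) (Nat.ble (nat_lit 70784) i))

noncomputable def t567 (i : Nat) : Nat :=
  (@Bool.rec (fun _ => Nat) (@Bool.rec (fun _ => Nat) (b1107 i) (b1108 i) (Nat.ble (nat_lit 70912) i)) (b1109 i) (Nat.ble (nat_lit 70976) i))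

noncomputable def t568 (i : Nat) : Nat :=
  (@Bool.rec (fun _ => Nat) (b1110 i) (b1111 i) (Nat.ble (nat_lit 71104) i))

noncomputable def t569 (i : Nat) : Nat :=
  (@Bool.rec (fun _ => Nat) (@Bool.rec (fun _ => Nat) (t565 i) (t566 i) (Nat.ble (nat_lit 70656) i)) (@Bool.rec (fun _ => Nat) (t567 i) (t568 i) (Nat.ble (nat_lit 71040) i)) (Nat.ble (nat_lit 70848) i))

noncomputable def t570 (i : Nat) : Nat :=
  (@Bool.rec (fun _ => Nat) (b1112 i) (b1113 i) (Nat.ble (nat_lit 71232) i))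

noncomputable def t571 (i : Nat) : Nat :=
  (@Bool.rec (fun _ => Nat) (b1114 i) (@Bool.rec (fun _ => Nat) (b1115 i) (b1116 i) (Nat.ble (nat_lit 71424) i)) (Nat.ble (nat_lit 71360) i))

noncomputable def t572 (i : Nat) : Nat :=
  (@Bool.rec (fun _ => Nat) (@Bool.rec (fun _ => Nat) (b1117 i) (b1118 i) (Nat.ble (nat_lit 71552) i)) (b1119 i) (Nat.ble (nat_lit 71616) i))

noncomputable def t573 (i : Nat) : Nat :=
  (@Bool.rec (fun _ => Nat) (b1120 i) (@Bool.rec (fun _ => Nat) (b1121 i) (b1122 i) (Nat.ble (nat_lit 71808) i)) (Nat.ble (nat_lit 71744) i))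

noncomputable def t574 (i : Nat) : Nat :=
  (@Bool.rec (fun _ => Nat) (@Bool.rec (fun _ => Nat) (t570 i) (t571 i) (Nat.ble (nat_lit 71296) i)) (@Bool.rec (fun _ => Nat) (t572 i) (t573 i) (Nat.ble (nat_lit 71680) i)) (Nat.ble (nat_lit 71488) i))

noncomputable def t575 (i : Nat) : Nat :=
  (@Bool.rec (fun _ => Nat) (@Bool.rec (fun _ => Nat) (t564 i) (t569 i) (Nat.ble (nat_lit 70464) i)) (@Bool.rec (fun _ => Nat) (t574 i) (b1123 i) (Nat.ble (nat_lit 71872) i)) (Nat.ble (nat_lit 71168) i))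

noncomputable def t576 (i : Nat) : Nat :=
  (@Bool.rec (fun _ => Nat) (@Bool.rec (fun _ => Nat) (t528 i) (t539 i) (Nat.ble (nat_lit 65856) i)) (@Bool.rec (fun _ => Nat) (t559 i) (t575 i) (Nat.ble (nat_lit 69760) i)) (Nat.ble (nat_lit 67200) i))

noncomputable def t577 (i : Nat) : Nat :=
  (@Bool.rec (fun _ => Nat) (@Bool.rec (fun _ => Nat) (t404 i) (t448 i) (Nat.ble (nat_lit 51008) i)) (@Bool.rec (fun _ => Nat) (t514 i) (t576 i) (Nat.ble (nat_lit 64128) i)) (Nat.ble (nat_lit 56576) i))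

noncomputable def t578 (i : Nat) : Nat :=
  (@Bool.rec (fun _ => Nat) (b1124 i) (@Bool.rec (fun _ => Nat) (b1125 i) (b1126 i) (Nat.ble (nat_lit 72064) i)) (Nat.ble (nat_lit 72000) i))

noncomputable def t579 (i : Nat) : Nat :=
  (@Bool.rec (fun _ => Nat) (b1127 i) (@Bool.rec (fun _ => Nat) (b1128 i) (b1129 i) (Nat.ble (nat_lit 72256) i)) (Nat.ble (nat_lit 72192) i))

noncomputable def t580 (i : Nat) : Nat :=
  (@Bool.rec (fun _ => Nat) (b1130 i) (b1131 i) (Nat.ble (nat_lit 72384) i))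

noncomputable def t581 (i : Nat) : Nat :=
  (@Bool.rec (fun _ => Nat) (@Bool.rec (fun _ => Nat) (t578 i) (t579 i) (Nat.ble (nat_lit 72128) i)) (@Bool.rec (fun _ => Nat) (t580 i) (b1132 i) (Nat.ble (nat_lit 72448) i)) (Nat.ble (nat_lit 72320) i))

noncomputable def t582 (i : Nat) : Nat :=
  (@Bool.rec (fun _ => Nat) (b1133 i) (b1134 i) (Nat.ble (nat_lit 72576) i))

noncomputable def t583 (i : Nat) : Nat :=
  (@Bool.rec (fun _ => Nat) (b1135 i) (b1136 i) (Nat.ble (nat_lit 72704) i))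

noncomputable def t584 (i : Nat) : Nat :=
  (@Bool.rec (fun _ => Nat) (@Bool.rec (fun _ => Nat) (b1137 i) (b1138 i) (Nat.ble (nat_lit 72832) i)) (b1139 i) (Nat.ble (nat_lit 72896) i))

noncomputable def t585 (i : Nat) : Nat :=
  (@Bool.rec (fun _ => Nat) (@Bool.rec (fun _ => Nat) (b1140 i) (b1141 i) (Nat.ble (nat_lit 73024) i)) (b1142 i) (Nat.ble (nat_lit 73088) i))

noncomputable def t586 (i : Nat) : Nat :=
  (@Bool.rec (fun _ => Nat) (@Bool.rec (fun _ => Nat) (t582 i) (t583 i) (Nat.ble (nat_lit 72640) i)) (@Bool.rec (fun _ => Nat) (t584 i) (t585 i) (Nat.ble (nat_lit 72960) i)) (Nat.ble (nat_lit 72768) i))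

noncomputable def t587 (i : Nat) : Nat :=
  (@Bool.rec (fun _ => Nat) (@Bool.rec (fun _ => Nat) (b1143 i) (b1144 i) (Nat.ble (nat_lit 73216) i)) (@Bool.rec (fun _ => Nat) (b1145 i) (b1146 i) (Nat.ble (nat_lit 73344) i)) (Nat.ble (nat_lit 73280) i))

noncomputable def t588 (i : Nat) : Nat :=
  (@Bool.rec (fun _ => Nat) (b1148 i) (b1149 i) (Nat.ble (nat_lit 73536) i))

noncomputable def t589 (i : Nat) : Nat :=
  (@Bool.rec (fun _ => Nat) (b1151 i) (b1152 i) (Nat.ble (nat_lit 73728) i))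

noncomputable def t590 (i : Nat) : Nat :=
  (@Bool.rec (fun _ => Nat) (@Bool.rec (fun _ => Nat) (b1147 i) (t588 i) (Nat.ble (nat_lit 73472) i)) (@Bool.rec (fun _ => Nat) (b1150 i) (t589 i) (Nat.ble (nat_lit 73664) i)) (Nat.ble (nat_lit 73600) i))

noncomputable def t591 (i : Nat) : Nat :=
  (@Bool.rec (fun _ => Nat) (@Bool.rec (fun _ => Nat) (t581 i) (t586 i) (Nat.ble (nat_lit 72512) i)) (@Bool.rec (fun _ => Nat) (t587 i) (t590 i) (Nat.ble (nat_lit 73408) i)) (Nat.ble (nat_lit 73152) i))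

noncomputable def t592 (i : Nat) : Nat :=
  (@Bool.rec (fun _ => Nat) (b1155 i) (b1156 i) (Nat.ble (nat_lit 73984) i))

noncomputable def t593 (i : Nat) : Nat :=
  (@Bool.rec (fun _ => Nat) (@Bool.rec (fun _ => Nat) (b1153 i) (b1154 i) (Nat.ble (nat_lit 73856) i)) (@Bool.rec (fun _ => Nat) (t592 i) (b1157 i) (Nat.ble (nat_lit 74048) i)) (Nat.ble (nat_lit 73920) i))

noncomputable def t594 (i : Nat) : Nat :=
  (@Bool.rec (fun _ => Nat) (b1159 i) (b1160 i) (Nat.ble (nat_lit 74240) i))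

noncomputable def t595 (i : Nat) : Nat :=
  (@Bool.rec (fun _ => Nat) (b1161 i) (b1162 i) (Nat.ble (nat_lit 74368) i))

noncomputable def t596 (i : Nat) : Nat :=
  (@Bool.rec (fun _ => Nat) (b1158 i) (@Bool.rec (fun _ => Nat) (t594 i) (t595 i) (Nat.ble (nat_lit 74304) i)) (Nat.ble (nat_lit 74176) i))

noncomputable def t597 (i : Nat) : Nat :=
  (@Bool.rec (fun _ => Nat) (b1165 i) (b1166 i) (Nat.ble (nat_lit 74624) i))

noncomputable def t598 (i : Nat) : Nat :=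
  (@Bool.rec (fun _ => Nat) (b1167 i) (b1168 i) (Nat.ble (nat_lit 74752) i))

noncomputable def t599 (i : Nat) : Nat :=
  (@Bool.rec (fun _ => Nat) (@Bool.rec (fun _ => Nat) (b1163 i) (b1164 i) (Nat.ble (nat_lit 74496) i)) (@Bool.rec (fun _ => Nat) (t597 i) (t598 i) (Nat.ble (nat_lit 74688) i)) (Nat.ble (nat_lit 74560) i))

noncomputable def t600 (i : Nat) : Nat :=
  (@Bool.rec (fun _ => Nat) (b1169 i) (b1170 i) (Nat.ble (nat_lit 74880) i))

noncomputable def t601 (i : Nat) : Nat :=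
  (@Bool.rec (fun _ => Nat) (b1171 i) (b1172 i) (Nat.ble (nat_lit 75008) i))

noncomputable def t602 (i : Nat) : Nat :=
  (@Bool.rec (fun _ => Nat) (b1174 i) (b1175 i) (Nat.ble (nat_lit 75200) i))

noncomputable def t603 (i : Nat) : Nat :=
  (@Bool.rec (fun _ => Nat) (@Bool.rec (fun _ => Nat) (t600 i) (t601 i) (Nat.ble (nat_lit 74944) i)) (@Bool.rec (fun _ => Nat) (b1173 i) (t602 i) (Nat.ble (nat_lit 75136) i)) (Nat.ble (nat_lit 75072) i))

noncomputable def t604 (i : Nat) : Nat :=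
  (@Bool.rec (fun _ => Nat) (@Bool.rec (fun _ => Nat) (t593 i) (t596 i) (Nat.ble (nat_lit 74112) i)) (@Bool.rec (fun _ => Nat) (t599 i) (t603 i) (Nat.ble (nat_lit 74816) i)) (Nat.ble (nat_lit 74432) i))

noncomputable def t605 (i : Nat) : Nat :=
  (@Bool.rec (fun _ => Nat) (b1176 i) (b1177 i) (Nat.ble (nat_lit 75328) i))

noncomputable def t606 (i : Nat) : Nat :=
  (@Bool.rec (fun _ => Nat) (b1178 i) (b1179 i) (Nat.ble (nat_lit 75456) i))

noncomputable def t607 (i : Nat) : Nat :=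
  (@Bool.rec (fun _ => Nat) (b1180 i) (b1181 i) (Nat.ble (nat_lit 75584) i))

noncomputable def t608 (i : Nat) : Nat :=
  (@Bool.rec (fun _ => Nat) (b1182 i) (b1183 i) (Nat.ble (nat_lit 75712) i))

noncomputable def t609 (i : Nat) : Nat :=
  (@Bool.rec (fun _ => Nat) (@Bool.rec (fun _ => Nat) (t605 i) (t606 i) (Nat.ble (nat_lit 75392) i)) (@Bool.rec (fun _ => Nat) (t607 i) (t608 i) (Nat.ble (nat_lit 75648) i)) (Nat.ble (nat_lit 75520) i))

noncomputable def t610 (i : Nat) : Nat :=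
  (@Bool.rec (fun _ => Nat) (b1184 i) (b1185 i) (Nat.ble (nat_lit 75840) i))

noncomputable def t611 (i : Nat) : Nat :=
  (@Bool.rec (fun _ => Nat) (b1186 i) (b1187 i) (Nat.ble (nat_lit 75968) i))

noncomputable def t612 (i : Nat) : Nat :=
  (@Bool.rec (fun _ => Nat) (b1188 i) (b1189 i) (Nat.ble (nat_lit 76096) i))

noncomputable def t613 (i : Nat) : Nat :=
  (@Bool.rec (fun _ => Nat) (b1190 i) (b1191 i) (Nat.ble (nat_lit 76224) i))

noncomputable def t614 (i : Nat) : Nat :=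
  (@Bool.rec (fun _ => Nat) (@Bool.rec (fun _ => Nat) (t610 i) (t611 i) (Nat.ble (nat_lit 75904) i)) (@Bool.rec (fun _ => Nat) (t612 i) (t613 i) (Nat.ble (nat_lit 76160) i)) (Nat.ble (nat_lit 76032) i))

noncomputable def t615 (i : Nat) : Nat :=
  (@Bool.rec (fun _ => Nat) (b1193 i) (b1194 i) (Nat.ble (nat_lit 76416) i))

noncomputable def t616 (i : Nat) : Nat :=
  (@Bool.rec (fun _ => Nat) (b1195 i) (b1196 i) (Nat.ble (nat_lit 76544) i))

noncomputable def t617 (i : Nat) : Nat :=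
  (@Bool.rec (fun _ => Nat) (b1197 i) (@Bool.rec (fun _ => Nat) (b1198 i) (b1199 i) (Nat.ble (nat_lit 76736) i)) (Nat.ble (nat_lit 76672) i))

noncomputable def t618 (i : Nat) : Nat :=
  (@Bool.rec (fun _ => Nat) (@Bool.rec (fun _ => Nat) (b1192 i) (t615 i) (Nat.ble (nat_lit 76352) i)) (@Bool.rec (fun _ => Nat) (t616 i) (t617 i) (Nat.ble (nat_lit 76608) i)) (Nat.ble (nat_lit 76480) i))

noncomputable def t619 (i : Nat) : Nat :=
  (@Bool.rec (fun _ => Nat) (b1201 i) (b1202 i) (Nat.ble (nat_lit 76928) i))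

noncomputable def t620 (i : Nat) : Nat :=
  (@Bool.rec (fun _ => Nat) (b1203 i) (b1204 i) (Nat.ble (nat_lit 77056) i))

noncomputable def t621 (i : Nat) : Nat :=
  (@Bool.rec (fun _ => Nat) (b1205 i) (b1206 i) (Nat.ble (nat_lit 77184) i))

noncomputable def t622 (i : Nat) : Nat :=
  (@Bool.rec (fun _ => Nat) (@Bool.rec (fun _ => Nat) (b1200 i) (t619 i) (Nat.ble (nat_lit 76864) i)) (@Bool.rec (fun _ => Nat) (t620 i) (t621 i) (Nat.ble (nat_lit 77120) i)) (Nat.ble (nat_lit 76992) i))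

noncomputable def t623 (i : Nat) : Nat :=
  (@Bool.rec (fun _ => Nat) (@Bool.rec (fun _ => Nat) (t609 i) (t614 i) (Nat.ble (nat_lit 75776) i)) (@Bool.rec (fun _ => Nat) (t618 i) (t622 i) (Nat.ble (nat_lit 76800) i)) (Nat.ble (nat_lit 76288) i))

noncomputable def t624 (i : Nat) : Nat :=
  (@Bool.rec (fun _ => Nat) (b1207 i) (@Bool.rec (fun _ => Nat) (b1208 i) (b1209 i) (Nat.ble (nat_lit 77376) i)) (Nat.ble (nat_lit 77312) i))

noncomputable def t625 (i : Nat) : Nat :=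
  (@Bool.rec (fun _ => Nat) (b1210 i) (b1211 i) (Nat.ble (nat_lit 77504) i))

noncomputable def t626 (i : Nat) : Nat :=
  (@Bool.rec (fun _ => Nat) (b1213 i) (b1214 i) (Nat.ble (nat_lit 77696) i))

noncomputable def t627 (i : Nat) : Nat :=
  (@Bool.rec (fun _ => Nat) (@Bool.rec (fun _ => Nat) (t624 i) (t625 i) (Nat.ble (nat_lit 77440) i)) (@Bool.rec (fun _ => Nat) (b1212 i) (t626 i) (Nat.ble (nat_lit 77632) i)) (Nat.ble (nat_lit 77568) i))

noncomputable def t628 (i : Nat) : Nat :=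
  (@Bool.rec (fun _ => Nat) (b1215 i) (b1216 i) (Nat.ble (nat_lit 77824) i))

noncomputable def t629 (i : Nat) : Nat :=
  (@Bool.rec (fun _ => Nat) (b1217 i) (b1218 i) (Nat.ble (nat_lit 77952) i))

noncomputable def t630 (i : Nat) : Nat :=
  (@Bool.rec (fun _ => Nat) (b1219 i) (b1220 i) (Nat.ble (nat_lit 78080) i))

noncomputable def t631 (i : Nat) : Nat :=
  (@Bool.rec (fun _ => Nat) (@Bool.rec (fun _ => Nat) (t628 i) (t629 i) (Nat.ble (nat_lit 77888) i)) (@Bool.rec (fun _ => Nat) (t630 i) (b1221 i) (Nat.ble (nat_lit 78144) i)) (Nat.ble (nat_lit 78016) i))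

noncomputable def t632 (i : Nat) : Nat :=
  (@Bool.rec (fun _ => Nat) (b1222 i) (b1223 i) (Nat.ble (nat_lit 78272) i))

noncomputable def t633 (i : Nat) : Nat :=
  (@Bool.rec (fun _ => Nat) (b1224 i) (b1225 i) (Nat.ble (nat_lit 78400) i))

noncomputable def t634 (i : Nat) : Nat :=
  (@Bool.rec (fun _ => Nat) (b1226 i) (@Bool.rec (fun _ => Nat) (b1227 i) (b1228 i) (Nat.ble (nat_lit 78592) i)) (Nat.ble (nat_lit 78528) i))

noncomputable def t635 (i : Nat) : Nat :=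
  (@Bool.rec (fun _ => Nat) (b1229 i) (b1230 i) (Nat.ble (nat_lit 78720) i))

noncomputable def t636 (i : Nat) : Nat :=
  (@Bool.rec (fun _ => Nat) (@Bool.rec (fun _ => Nat) (t632 i) (t633 i) (Nat.ble (nat_lit 78336) i)) (@Bool.rec (fun _ => Nat) (t634 i) (t635 i) (Nat.ble (nat_lit 78656) i)) (Nat.ble (nat_lit 78464) i))

noncomputable def t637 (i : Nat) : Nat :=
  (@Bool.rec (fun _ => Nat) (b1231 i) (b1232 i) (Nat.ble (nat_lit 78848) i))

noncomputable def t638 (i : Nat) : Nat :=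
  (@Bool.rec (fun _ => Nat) (@Bool.rec (fun _ => Nat) (b1233 i) (b1234 i) (Nat.ble (nat_lit 78976) i)) (b1235 i) (Nat.ble (nat_lit 79040) i))

noncomputable def t639 (i : Nat) : Nat :=
  (@Bool.rec (fun _ => Nat) (b1236 i) (b1237 i) (Nat.ble (nat_lit 79168) i))

noncomputable def t640 (i : Nat) : Nat :=
  (@Bool.rec (fun _ => Nat) (b1238 i) (@Bool.rec (fun _ => Nat) (b1239 i) (b1240 i) (Nat.ble (nat_lit 79360) i)) (Nat.ble (nat_lit 79296) i))

noncomputable def t641 (i : Nat) : Nat :=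
  (@Bool.rec (fun _ => Nat) (@Bool.rec (fun _ => Nat) (t637 i) (t638 i) (Nat.ble (nat_lit 78912) i)) (@Bool.rec (fun _ => Nat) (t639 i) (t640 i) (Nat.ble (nat_lit 79232) i)) (Nat.ble (nat_lit 79104) i))

noncomputable def t642 (i : Nat) : Nat :=
  (@Bool.rec (fun _ => Nat) (@Bool.rec (fun _ => Nat) (t627 i) (t631 i) (Nat.ble (nat_lit 77760) i)) (@Bool.rec (fun _ => Nat) (t636 i) (t641 i) (Nat.ble (nat_lit 78784) i)) (Nat.ble (nat_lit 78208) i))

noncomputable def t643 (i : Nat) : Nat :=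
  (@Bool.rec (fun _ => Nat) (@Bool.rec (fun _ => Nat) (t591 i) (t604 i) (Nat.ble (nat_lit 73792) i)) (@Bool.rec (fun _ => Nat) (t623 i) (t642 i) (Nat.ble (nat_lit 77248) i)) (Nat.ble (nat_lit 75264) i))

noncomputable def t644 (i : Nat) : Nat :=
  (@Bool.rec (fun _ => Nat) (@Bool.rec (fun _ => Nat) (b1242 i) (b1243 i) (Nat.ble (nat_lit 79552) i)) (b1244 i) (Nat.ble (nat_lit 79616) i))

noncomputable def t645 (i : Nat) : Nat :=
  (@Bool.rec (fun _ => Nat) (b1246 i) (b1247 i) (Nat.ble (nat_lit 79808) i))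

noncomputable def t646 (i : Nat) : Nat :=
  (@Bool.rec (fun _ => Nat) (@Bool.rec (fun _ => Nat) (b1245 i) (t645 i) (Nat.ble (nat_lit 79744) i)) (@Bool.rec (fun _ => Nat) (b1248 i) (b1249 i) (Nat.ble (nat_lit 79936) i)) (Nat.ble (nat_lit 79872) i))

noncomputable def t647 (i : Nat) : Nat :=
  (@Bool.rec (fun _ => Nat) (b1241 i) (@Bool.rec (fun _ => Nat) (t644 i) (t646 i) (Nat.ble (nat_lit 79680) i)) (Nat.ble (nat_lit 79488) i))

noncomputable def t648 (i : Nat) : Nat :=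
  (@Bool.rec (fun _ => Nat) (b1250 i) (b1251 i) (Nat.ble (nat_lit 80064) i))

noncomputable def t649 (i : Nat) : Nat :=
  (@Bool.rec (fun _ => Nat) (b1252 i) (@Bool.rec (fun _ => Nat) (b1253 i) (b1254 i) (Nat.ble (nat_lit 80256) i)) (Nat.ble (nat_lit 80192) i))

noncomputable def t650 (i : Nat) : Nat :=
  (@Bool.rec (fun _ => Nat) (b1255 i) (b1256 i) (Nat.ble (nat_lit 80384) i))

noncomputable def t651 (i : Nat) : Nat :=
  (@Bool.rec (fun _ => Nat) (@Bool.rec (fun _ => Nat) (t650 i) (b1257 i) (Nat.ble (nat_lit 80448) i)) (b1258 i) (Nat.ble (nat_lit 80512) i))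

noncomputable def t652 (i : Nat) : Nat :=
  (@Bool.rec (fun _ => Nat) (b1261 i) (b1262 i) (Nat.ble (nat_lit 80768) i))

noncomputable def t653 (i : Nat) : Nat :=
  (@Bool.rec (fun _ => Nat) (@Bool.rec (fun _ => Nat) (b1259 i) (b1260 i) (Nat.ble (nat_lit 80640) i)) (@Bool.rec (fun _ => Nat) (t652 i) (b1263 i) (Nat.ble (nat_lit 80832) i)) (Nat.ble (nat_lit 80704) i))

noncomputable def t654 (i : Nat) : Nat :=
  (@Bool.rec (fun _ => Nat) (@Bool.rec (fun _ => Nat) (t648 i) (t649 i) (Nat.ble (nat_lit 80128) i)) (@Bool.rec (fun _ => Nat) (t651 i) (t653 i) (Nat.ble (nat_lit 80576) i)) (Nat.ble (nat_lit 80320) i))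

noncomputable def t655 (i : Nat) : Nat :=
  (@Bool.rec (fun _ => Nat) (b1264 i) (@Bool.rec (fun _ => Nat) (b1265 i) (b1266 i) (Nat.ble (nat_lit 81024) i)) (Nat.ble (nat_lit 80960) i))

noncomputable def t656 (i : Nat) : Nat :=
  (@Bool.rec (fun _ => Nat) (b1268 i) (b1269 i) (Nat.ble (nat_lit 81216) i))

noncomputable def t657 (i : Nat) : Nat :=
  (@Bool.rec (fun _ => Nat) (b1271 i) (b1272 i) (Nat.ble (nat_lit 81408) i))

noncomputable def t658 (i : Nat) : Nat :=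
  (@Bool.rec (fun _ => Nat) (@Bool.rec (fun _ => Nat) (b1267 i) (t656 i) (Nat.ble (nat_lit 81152) i)) (@Bool.rec (fun _ => Nat) (b1270 i) (t657 i) (Nat.ble (nat_lit 81344) i)) (Nat.ble (nat_lit 81280) i))

noncomputable def t659 (i : Nat) : Nat :=
  (@Bool.rec (fun _ => Nat) (b1273 i) (b1274 i) (Nat.ble (nat_lit 81536) i))

noncomputable def t660 (i : Nat) : Nat :=
  (@Bool.rec (fun _ => Nat) (@Bool.rec (fun _ => Nat) (t659 i) (b1275 i) (Nat.ble (nat_lit 81600) i)) (@Bool.rec (fun _ => Nat) (b1276 i) (b1277 i) (Nat.ble (nat_lit 81728) i)) (Nat.ble (nat_lit 81664) i))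

noncomputable def t661 (i : Nat) : Nat :=
  (@Bool.rec (fun _ => Nat) (b1279 i) (b1280 i) (Nat.ble (nat_lit 81920) i))

noncomputable def t662 (i : Nat) : Nat :=
  (@Bool.rec (fun _ => Nat) (b1281 i) (b1282 i) (Nat.ble (nat_lit 82048) i))

noncomputable def t663 (i : Nat) : Nat :=
  (@Bool.rec (fun _ => Nat) (b1283 i) (b1284 i) (Nat.ble (nat_lit 82176) i))

noncomputable def t664 (i : Nat) : Nat :=
  (@Bool.rec (fun _ => Nat) (@Bool.rec (fun _ => Nat) (b1278 i) (t661 i) (Nat.ble (nat_lit 81856) i)) (@Bool.rec (fun _ => Nat) (t662 i) (t663 i) (Nat.ble (nat_lit 82112) i)) (Nat.ble (nat_lit 81984) i))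

noncomputable def t665 (i : Nat) : Nat :=
  (@Bool.rec (fun _ => Nat) (@Bool.rec (fun _ => Nat) (t655 i) (t658 i) (Nat.ble (nat_lit 81088) i)) (@Bool.rec (fun _ => Nat) (t660 i) (t664 i) (Nat.ble (nat_lit 81792) i)) (Nat.ble (nat_lit 81472) i))

noncomputable def t666 (i : Nat) : Nat :=
  (@Bool.rec (fun _ => Nat) (b1285 i) (b1286 i) (Nat.ble (nat_lit 82304) i))

noncomputable def t667 (i : Nat) : Nat :=
  (@Bool.rec (fun _ => Nat) (@Bool.rec (fun _ => Nat) (b1287 i) (b1288 i) (Nat.ble (nat_lit 82432) i)) (@Bool.rec (fun _ => Nat) (b1289 i) (b1290 i) (Nat.ble (nat_lit 82560) i)) (Nat.ble (nat_lit 82496) i))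

noncomputable def t668 (i : Nat) : Nat :=
  (@Bool.rec (fun _ => Nat) (b1293 i) (b1294 i) (Nat.ble (nat_lit 82816) i))

noncomputable def t669 (i : Nat) : Nat :=
  (@Bool.rec (fun _ => Nat) (b1295 i) (b1296 i) (Nat.ble (nat_lit 82944) i))

noncomputable def t670 (i : Nat) : Nat :=
  (@Bool.rec (fun _ => Nat) (@Bool.rec (fun _ => Nat) (b1291 i) (b1292 i) (Nat.ble (nat_lit 82688) i)) (@Bool.rec (fun _ => Nat) (t668 i) (t669 i) (Nat.ble (nat_lit 82880) i)) (Nat.ble (nat_lit 82752) i))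

noncomputable def t671 (i : Nat) : Nat :=
  (@Bool.rec (fun _ => Nat) (b1298 i) (b1299 i) (Nat.ble (nat_lit 83136) i))

noncomputable def t672 (i : Nat) : Nat :=
  (@Bool.rec (fun _ => Nat) (@Bool.rec (fun _ => Nat) (b1297 i) (t671 i) (Nat.ble (nat_lit 83072) i)) (@Bool.rec (fun _ => Nat) (b1300 i) (b1301 i) (Nat.ble (nat_lit 83264) i)) (Nat.ble (nat_lit 83200) i))

noncomputable def t673 (i : Nat) : Nat :=
  (@Bool.rec (fun _ => Nat) (@Bool.rec (fun _ => Nat) (t666 i) (t667 i) (Nat.ble (nat_lit 82368) i)) (@Bool.rec (fun _ => Nat) (t670 i) (t672 i) (Nat.ble (nat_lit 83008) i)) (Nat.ble (nat_lit 82624) i))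

noncomputable def t674 (i : Nat) : Nat :=
  (@Bool.rec (fun _ => Nat) (@Bool.rec (fun _ => Nat) (t647 i) (t654 i) (Nat.ble (nat_lit 80000) i)) (@Bool.rec (fun _ => Nat) (t665 i) (t673 i) (Nat.ble (nat_lit 82240) i)) (Nat.ble (nat_lit 80896) i))

noncomputable def t675 (i : Nat) : Nat :=
  (@Bool.rec (fun _ => Nat) (b1302 i) (b1303 i) (Nat.ble (nat_lit 83392) i))

noncomputable def t676 (i : Nat) : Nat :=
  (@Bool.rec (fun _ => Nat) (b1306 i) (b1307 i) (Nat.ble (nat_lit 83648) i))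

noncomputable def t677 (i : Nat) : Nat :=
  (@Bool.rec (fun _ => Nat) (b1308 i) (b1309 i) (Nat.ble (nat_lit 83776) i))

noncomputable def t678 (i : Nat) : Nat :=
  (@Bool.rec (fun _ => Nat) (@Bool.rec (fun _ => Nat) (b1304 i) (b1305 i) (Nat.ble (nat_lit 83520) i)) (@Bool.rec (fun _ => Nat) (t676 i) (t677 i) (Nat.ble (nat_lit 83712) i)) (Nat.ble (nat_lit 83584) i))

noncomputable def t679 (i : Nat) : Nat :=
  (@Bool.rec (fun _ => Nat) (b1310 i) (b1311 i) (Nat.ble (nat_lit 83904) i))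

noncomputable def t680 (i : Nat) : Nat :=
  (@Bool.rec (fun _ => Nat) (@Bool.rec (fun _ => Nat) (t679 i) (b1312 i) (Nat.ble (nat_lit 83968) i)) (@Bool.rec (fun _ => Nat) (b1313 i) (b1314 i) (Nat.ble (nat_lit 84096) i)) (Nat.ble (nat_lit 84032) i))

noncomputable def t681 (i : Nat) : Nat :=
  (@Bool.rec (fun _ => Nat) (b1315 i) (b1316 i) (Nat.ble (nat_lit 84224) i))

noncomputable def t682 (i : Nat) : Nat :=
  (@Bool.rec (fun _ => Nat) (b1319 i) (b1320 i) (Nat.ble (nat_lit 84480) i))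

noncomputable def t683 (i : Nat) : Nat :=
  (@Bool.rec (fun _ => Nat) (@Bool.rec (fun _ => Nat) (t681 i) (b1317 i) (Nat.ble (nat_lit 84288) i)) (@Bool.rec (fun _ => Nat) (b1318 i) (t682 i) (Nat.ble (nat_lit 84416) i)) (Nat.ble (nat_lit 84352) i))

noncomputable def t684 (i : Nat) : Nat :=
  (@Bool.rec (fun _ => Nat) (@Bool.rec (fun _ => Nat) (t675 i) (t678 i) (Nat.ble (nat_lit 83456) i)) (@Bool.rec (fun _ => Nat) (t680 i) (t683 i) (Nat.ble (nat_lit 84160) i)) (Nat.ble (nat_lit 83840) i))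

noncomputable def t685 (i : Nat) : Nat :=
  (@Bool.rec (fun _ => Nat) (b1323 i) (b1324 i) (Nat.ble (nat_lit 84736) i))

noncomputable def t686 (i : Nat) : Nat :=
  (@Bool.rec (fun _ => Nat) (@Bool.rec (fun _ => Nat) (b1321 i) (b1322 i) (Nat.ble (nat_lit 84608) i)) (@Bool.rec (fun _ => Nat) (t685 i) (b1325 i) (Nat.ble (nat_lit 84800) i)) (Nat.ble (nat_lit 84672) i))

noncomputable def t687 (i : Nat) : Nat :=
  (@Bool.rec (fun _ => Nat) (b1326 i) (b1327 i) (Nat.ble (nat_lit 84928) i))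

noncomputable def t688 (i : Nat) : Nat :=
  (@Bool.rec (fun _ => Nat) (b1329 i) (b1330 i) (Nat.ble (nat_lit 85120) i))

noncomputable def t689 (i : Nat) : Nat :=
  (@Bool.rec (fun _ => Nat) (b1331 i) (b1332 i) (Nat.ble (nat_lit 85248) i))

noncomputable def t690 (i : Nat) : Nat :=
  (@Bool.rec (fun _ => Nat) (@Bool.rec (fun _ => Nat) (t687 i) (b1328 i) (Nat.ble (nat_lit 84992) i)) (@Bool.rec (fun _ => Nat) (t688 i) (t689 i) (Nat.ble (nat_lit 85184) i)) (Nat.ble (nat_lit 85056) i))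

noncomputable def t691 (i : Nat) : Nat :=
  (@Bool.rec (fun _ => Nat) (b1334 i) (b1335 i) (Nat.ble (nat_lit 85440) i))

noncomputable def t692 (i : Nat) : Nat :=
  (@Bool.rec (fun _ => Nat) (b1337 i) (b1338 i) (Nat.ble (nat_lit 85632) i))

noncomputable def t693 (i : Nat) : Nat :=
  (@Bool.rec (fun _ => Nat) (@Bool.rec (fun _ => Nat) (b1333 i) (t691 i) (Nat.ble (nat_lit 85376) i)) (@Bool.rec (fun _ => Nat) (b1336 i) (t692 i) (Nat.ble (nat_lit 85568) i)) (Nat.ble (nat_lit 85504) i))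

noncomputable def t694 (i : Nat) : Nat :=
  (@Bool.rec (fun _ => Nat) (b1340 i) (b1341 i) (Nat.ble (nat_lit 85824) i))

noncomputable def t695 (i : Nat) : Nat :=
  (@Bool.rec (fun _ => Nat) (b1343 i) (b1344 i) (Nat.ble (nat_lit 86016) i))

noncomputable def t696 (i : Nat) : Nat :=
  (@Bool.rec (fun _ => Nat) (@Bool.rec (fun _ => Nat) (b1339 i) (t694 i) (Nat.ble (nat_lit 85760) i)) (@Bool.rec (fun _ => Nat) (b1342 i) (t695 i) (Nat.ble (nat_lit 85952) i)) (Nat.ble (nat_lit 85888) i))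

noncomputable def t697 (i : Nat) : Nat :=
  (@Bool.rec (fun _ => Nat) (@Bool.rec (fun _ => Nat) (t686 i) (t690 i) (Nat.ble (nat_lit 84864) i)) (@Bool.rec (fun _ => Nat) (t693 i) (t696 i) (Nat.ble (nat_lit 85696) i)) (Nat.ble (nat_lit 85312) i))

noncomputable def t698 (i : Nat) : Nat :=
  (@Bool.rec (fun _ => Nat) (b1345 i) (b1346 i) (Nat.ble (nat_lit 86144) i))

noncomputable def t699 (i : Nat) : Nat :=
  (@Bool.rec (fun _ => Nat) (b1347 i) (b1348 i) (Nat.ble (nat_lit 86272) i))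

noncomputable def t700 (i : Nat) : Nat :=
  (@Bool.rec (fun _ => Nat) (b1349 i) (b1350 i) (Nat.ble (nat_lit 86400) i))

noncomputable def t701 (i : Nat) : Nat :=
  (@Bool.rec (fun _ => Nat) (@Bool.rec (fun _ => Nat) (t698 i) (t699 i) (Nat.ble (nat_lit 86208) i)) (@Bool.rec (fun _ => Nat) (t700 i) (b1351 i) (Nat.ble (nat_lit 86464) i)) (Nat.ble (nat_lit 86336) i))

noncomputable def t702 (i : Nat) : Nat :=
  (@Bool.rec (fun _ => Nat) (@Bool.rec (fun _ => Nat) (b1352 i) (b1353 i) (Nat.ble (nat_lit 86592) i)) (@Bool.rec (fun _ => Nat) (b1354 i) (b1355 i) (Nat.ble (nat_lit 86720) i)) (Nat.ble (nat_lit 86656) i))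

noncomputable def t703 (i : Nat) : Nat :=
  (@Bool.rec (fun _ => Nat) (b1356 i) (b1357 i) (Nat.ble (nat_lit 86848) i))

noncomputable def t704 (i : Nat) : Nat :=
  (@Bool.rec (fun _ => Nat) (b1358 i) (b1359 i) (Nat.ble (nat_lit 86976) i))

noncomputable def t705 (i : Nat) : Nat :=
  (@Bool.rec (fun _ => Nat) (@Bool.rec (fun _ => Nat) (t703 i) (t704 i) (Nat.ble (nat_lit 86912) i)) (@Bool.rec (fun _ => Nat) (b1360 i) (b1361 i) (Nat.ble (nat_lit 87104) i)) (Nat.ble (nat_lit 87040) i))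

noncomputable def t706 (i : Nat) : Nat :=
  (@Bool.rec (fun _ => Nat) (b1362 i) (@Bool.rec (fun _ => Nat) (b1363 i) (b1364 i) (Nat.ble (nat_lit 87296) i)) (Nat.ble (nat_lit 87232) i))

noncomputable def t707 (i : Nat) : Nat :=
  (@Bool.rec (fun _ => Nat) (@Bool.rec (fun _ => Nat) (t701 i) (t702 i) (Nat.ble (nat_lit 86528) i)) (@Bool.rec (fun _ => Nat) (t705 i) (t706 i) (Nat.ble (nat_lit 87168) i)) (Nat.ble (nat_lit 86784) i))

noncomputable def t708 (i : Nat) : Nat :=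
  (@Bool.rec (fun _ => Nat) (b1365 i) (b1366 i) (Nat.ble (nat_lit 87424) i))

noncomputable def t709 (i : Nat) : Nat :=
  (@Bool.rec (fun _ => Nat) (@Bool.rec (fun _ => Nat) (t708 i) (b1367 i) (Nat.ble (nat_lit 87488) i)) (b1368 i) (Nat.ble (nat_lit 87552) i))

noncomputable def t710 (i : Nat) : Nat :=
  (@Bool.rec (fun _ => Nat) (b1369 i) (b1370 i) (Nat.ble (nat_lit 87680) i))

noncomputable def t711 (i : Nat) : Nat :=
  (@Bool.rec (fun _ => Nat) (b1374 i) (b1375 i) (Nat.ble (nat_lit 88000) i))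

noncomputable def t712 (i : Nat) : Nat :=
  (@Bool.rec (fun _ => Nat) (@Bool.rec (fun _ => Nat) (b1371 i) (b1372 i) (Nat.ble (nat_lit 87808) i)) (@Bool.rec (fun _ => Nat) (b1373 i) (t711 i) (Nat.ble (nat_lit 87936) i)) (Nat.ble (nat_lit 87872) i))

noncomputable def t713 (i : Nat) : Nat :=
  (@Bool.rec (fun _ => Nat) (b1376 i) (b1377 i) (Nat.ble (nat_lit 88128) i))

noncomputable def t714 (i : Nat) : Nat :=
  (@Bool.rec (fun _ => Nat) (@Bool.rec (fun _ => Nat) (t713 i) (b1378 i) (Nat.ble (nat_lit 88192) i)) (@Bool.rec (fun _ => Nat) (b1379 i) (b1380 i) (Nat.ble (nat_lit 88320) i)) (Nat.ble (nat_lit 88256) i))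

noncomputable def t715 (i : Nat) : Nat :=
  (@Bool.rec (fun _ => Nat) (@Bool.rec (fun _ => Nat) (t709 i) (t710 i) (Nat.ble (nat_lit 87616) i)) (@Bool.rec (fun _ => Nat) (t712 i) (t714 i) (Nat.ble (nat_lit 88064) i)) (Nat.ble (nat_lit 87744) i))

noncomputable def t716 (i : Nat) : Nat :=
  (@Bool.rec (fun _ => Nat) (@Bool.rec (fun _ => Nat) (t684 i) (t697 i) (Nat.ble (nat_lit 84544) i)) (@Bool.rec (fun _ => Nat) (t707 i) (t715 i) (Nat.ble (nat_lit 87360) i)) (Nat.ble (nat_lit 86080) i))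

noncomputable def t717 (i : Nat) : Nat :=
  (@Bool.rec (fun _ => Nat) (b1382 i) (b1383 i) (Nat.ble (nat_lit 88512) i))

noncomputable def t718 (i : Nat) : Nat :=
  (@Bool.rec (fun _ => Nat) (b1381 i) (@Bool.rec (fun _ => Nat) (t717 i) (b1384 i) (Nat.ble (nat_lit 88576) i)) (Nat.ble (nat_lit 88448) i))

noncomputable def t719 (i : Nat) : Nat :=
  (@Bool.rec (fun _ => Nat) (b1385 i) (b1386 i) (Nat.ble (nat_lit 88704) i))

noncomputable def t720 (i : Nat) : Nat :=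
  (@Bool.rec (fun _ => Nat) (b1387 i) (b1388 i) (Nat.ble (nat_lit 88832) i))

noncomputable def t721 (i : Nat) : Nat :=
  (@Bool.rec (fun _ => Nat) (b1389 i) (b1390 i) (Nat.ble (nat_lit 88960) i))

noncomputable def t722 (i : Nat) : Nat :=
  (@Bool.rec (fun _ => Nat) (@Bool.rec (fun _ => Nat) (t719 i) (t720 i) (Nat.ble (nat_lit 88768) i)) (@Bool.rec (fun _ => Nat) (t721 i) (b1391 i) (Nat.ble (nat_lit 89024) i)) (Nat.ble (nat_lit 88896) i))

noncomputable def t723 (i : Nat) : Nat :=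
  (@Bool.rec (fun _ => Nat) (b1392 i) (b1393 i) (Nat.ble (nat_lit 89152) i))

noncomputable def t724 (i : Nat) : Nat :=
  (@Bool.rec (fun _ => Nat) (b1395 i) (b1396 i) (Nat.ble (nat_lit 89344) i))

noncomputable def t725 (i : Nat) : Nat :=
  (@Bool.rec (fun _ => Nat) (@Bool.rec (fun _ => Nat) (t723 i) (b1394 i) (Nat.ble (nat_lit 89216) i)) (@Bool.rec (fun _ => Nat) (t724 i) (b1397 i) (Nat.ble (nat_lit 89408) i)) (Nat.ble (nat_lit 89280) i))

noncomputable def t726 (i : Nat) : Nat :=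
  (@Bool.rec (fun _ => Nat) (b1398 i) (@Bool.rec (fun _ => Nat) (b1399 i) (b1400 i) (Nat.ble (nat_lit 89600) i)) (Nat.ble (nat_lit 89536) i))

noncomputable def t727 (i : Nat) : Nat :=
  (@Bool.rec (fun _ => Nat) (@Bool.rec (fun _ => Nat) (t718 i) (t722 i) (Nat.ble (nat_lit 88640) i)) (@Bool.rec (fun _ => Nat) (t725 i) (t726 i) (Nat.ble (nat_lit 89472) i)) (Nat.ble (nat_lit 89088) i))

noncomputable def t728 (i : Nat) : Nat :=
  (@Bool.rec (fun _ => Nat) (b1402 i) (b1403 i) (Nat.ble (nat_lit 89792) i))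

noncomputable def t729 (i : Nat) : Nat :=
  (@Bool.rec (fun _ => Nat) (b1405 i) (b1406 i) (Nat.ble (nat_lit 89984) i))

noncomputable def t730 (i : Nat) : Nat :=
  (@Bool.rec (fun _ => Nat) (@Bool.rec (fun _ => Nat) (b1401 i) (t728 i) (Nat.ble (nat_lit 89728) i)) (@Bool.rec (fun _ => Nat) (b1404 i) (t729 i) (Nat.ble (nat_lit 89920) i)) (Nat.ble (nat_lit 89856) i))

noncomputable def t731 (i : Nat) : Nat :=
  (@Bool.rec (fun _ => Nat) (b1407 i) (b1408 i) (Nat.ble (nat_lit 90112) i))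

noncomputable def t732 (i : Nat) : Nat :=
  (@Bool.rec (fun _ => Nat) (b1410 i) (b1411 i) (Nat.ble (nat_lit 90304) i))

noncomputable def t733 (i : Nat) : Nat :=
  (@Bool.rec (fun _ => Nat) (b1412 i) (b1413 i) (Nat.ble (nat_lit 90432) i))

noncomputable def t734 (i : Nat) : Nat :=
  (@Bool.rec (fun _ => Nat) (@Bool.rec (fun _ => Nat) (t731 i) (b1409 i) (Nat.ble (nat_lit 90176) i)) (@Bool.rec (fun _ => Nat) (t732 i) (t733 i) (Nat.ble (nat_lit 90368) i)) (Nat.ble (nat_lit 90240) i))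

noncomputable def t735 (i : Nat) : Nat :=
  (@Bool.rec (fun _ => Nat) (b1415 i) (b1416 i) (Nat.ble (nat_lit 90624) i))

noncomputable def t736 (i : Nat) : Nat :=
  (@Bool.rec (fun _ => Nat) (b1418 i) (b1419 i) (Nat.ble (nat_lit 90816) i))

noncomputable def t737 (i : Nat) : Nat :=
  (@Bool.rec (fun _ => Nat) (@Bool.rec (fun _ => Nat) (b1414 i) (t735 i) (Nat.ble (nat_lit 90560) i)) (@Bool.rec (fun _ => Nat) (b1417 i) (t736 i) (Nat.ble (nat_lit 90752) i)) (Nat.ble (nat_lit 90688) i))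

noncomputable def t738 (i : Nat) : Nat :=
  (@Bool.rec (fun _ => Nat) (b1421 i) (b1422 i) (Nat.ble (nat_lit 91008) i))

noncomputable def t739 (i : Nat) : Nat :=
  (@Bool.rec (fun _ => Nat) (b1423 i) (b1424 i) (Nat.ble (nat_lit 91136) i))

noncomputable def t740 (i : Nat) : Nat :=
  (@Bool.rec (fun _ => Nat) (@Bool.rec (fun _ => Nat) (b1425 i) (b1426 i) (Nat.ble (nat_lit 91264) i)) (b1427 i) (Nat.ble (nat_lit 91328) i))

noncomputable def t741 (i : Nat) : Nat :=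
  (@Bool.rec (fun _ => Nat) (@Bool.rec (fun _ => Nat) (b1420 i) (t738 i) (Nat.ble (nat_lit 90944) i)) (@Bool.rec (fun _ => Nat) (t739 i) (t740 i) (Nat.ble (nat_lit 91200) i)) (Nat.ble (nat_lit 91072) i))

noncomputable def t742 (i : Nat) : Nat :=
  (@Bool.rec (fun _ => Nat) (@Bool.rec (fun _ => Nat) (t730 i) (t734 i) (Nat.ble (nat_lit 90048) i)) (@Bool.rec (fun _ => Nat) (t737 i) (t741 i) (Nat.ble (nat_lit 90880) i)) (Nat.ble (nat_lit 90496) i))

noncomputable def t743 (i : Nat) : Nat :=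
  (@Bool.rec (fun _ => Nat) (b1428 i) (b1429 i) (Nat.ble (nat_lit 91456) i))

noncomputable def t744 (i : Nat) : Nat :=
  (@Bool.rec (fun _ => Nat) (b1430 i) (b1431 i) (Nat.ble (nat_lit 91584) i))

noncomputable def t745 (i : Nat) : Nat :=
  (@Bool.rec (fun _ => Nat) (b1432 i) (b1433 i) (Nat.ble (nat_lit 91712) i))

noncomputable def t746 (i : Nat) : Nat :=
  (@Bool.rec (fun _ => Nat) (b1434 i) (b1435 i) (Nat.ble (nat_lit 91840) i))

noncomputable def t747 (i : Nat) : Nat :=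
  (@Bool.rec (fun _ => Nat) (@Bool.rec (fun _ => Nat) (t743 i) (t744 i) (Nat.ble (nat_lit 91520) i)) (@Bool.rec (fun _ => Nat) (t745 i) (t746 i) (Nat.ble (nat_lit 91776) i)) (Nat.ble (nat_lit 91648) i))

noncomputable def t748 (i : Nat) : Nat :=
  (@Bool.rec (fun _ => Nat) (b1436 i) (b1437 i) (Nat.ble (nat_lit 91968) i))

noncomputable def t749 (i : Nat) : Nat :=
  (@Bool.rec (fun _ => Nat) (b1438 i) (b1439 i) (Nat.ble (nat_lit 92096) i))

noncomputable def t750 (i : Nat) : Nat :=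
  (@Bool.rec (fun _ => Nat) (b1440 i) (b1441 i) (Nat.ble (nat_lit 92224) i))

noncomputable def t751 (i : Nat) : Nat :=
  (@Bool.rec (fun _ => Nat) (@Bool.rec (fun _ => Nat) (t748 i) (t749 i) (Nat.ble (nat_lit 92032) i)) (@Bool.rec (fun _ => Nat) (t750 i) (b1442 i) (Nat.ble (nat_lit 92288) i)) (Nat.ble (nat_lit 92160) i))

noncomputable def t752 (i : Nat) : Nat :=
  (@Bool.rec (fun _ => Nat) (b1444 i) (b1445 i) (Nat.ble (nat_lit 92480) i))

noncomputable def t753 (i : Nat) : Nat :=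
  (@Bool.rec (fun _ => Nat) (b1446 i) (b1447 i) (Nat.ble (nat_lit 92608) i))

noncomputable def t754 (i : Nat) : Nat :=
  (@Bool.rec (fun _ => Nat) (@Bool.rec (fun _ => Nat) (b1443 i) (t752 i) (Nat.ble (nat_lit 92416) i)) (@Bool.rec (fun _ => Nat) (t753 i) (b1448 i) (Nat.ble (nat_lit 92672) i)) (Nat.ble (nat_lit 92544) i))

noncomputable def t755 (i : Nat) : Nat :=
  (@Bool.rec (fun _ => Nat) (b1452 i) (b1453 i) (Nat.ble (nat_lit 92992) i))

noncomputable def t756 (i : Nat) : Nat :=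
  (@Bool.rec (fun _ => Nat) (@Bool.rec (fun _ => Nat) (b1449 i) (b1450 i) (Nat.ble (nat_lit 92800) i)) (@Bool.rec (fun _ => Nat) (b1451 i) (t755 i) (Nat.ble (nat_lit 92928) i)) (Nat.ble (nat_lit 92864) i))

noncomputable def t757 (i : Nat) : Nat :=
  (@Bool.rec (fun _ => Nat) (@Bool.rec (fun _ => Nat) (t747 i) (t751 i) (Nat.ble (nat_lit 91904) i)) (@Bool.rec (fun _ => Nat) (t754 i) (t756 i) (Nat.ble (nat_lit 92736) i)) (Nat.ble (nat_lit 92352) i))

noncomputable def t758 (i : Nat) : Nat :=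
  (@Bool.rec (fun _ => Nat) (b1454 i) (b1455 i) (Nat.ble (nat_lit 93120) i))

noncomputable def t759 (i : Nat) : Nat :=
  (@Bool.rec (fun _ => Nat) (b1456 i) (@Bool.rec (fun _ => Nat) (b1457 i) (b1458 i) (Nat.ble (nat_lit 93312) i)) (Nat.ble (nat_lit 93248) i))

noncomputable def t760 (i : Nat) : Nat :=
  (@Bool.rec (fun _ => Nat) (b1459 i) (b1460 i) (Nat.ble (nat_lit 93440) i))

noncomputable def t761 (i : Nat) : Nat :=
  (@Bool.rec (fun _ => Nat) (b1461 i) (b1462 i) (Nat.ble (nat_lit 93568) i))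

noncomputable def t762 (i : Nat) : Nat :=
  (@Bool.rec (fun _ => Nat) (@Bool.rec (fun _ => Nat) (t758 i) (t759 i) (Nat.ble (nat_lit 93184) i)) (@Bool.rec (fun _ => Nat) (t760 i) (t761 i) (Nat.ble (nat_lit 93504) i)) (Nat.ble (nat_lit 93376) i))

noncomputable def t763 (i : Nat) : Nat :=
  (@Bool.rec (fun _ => Nat) (b1463 i) (b1464 i) (Nat.ble (nat_lit 93696) i))

noncomputable def t764 (i : Nat) : Nat :=
  (@Bool.rec (fun _ => Nat) (b1465 i) (b1466 i) (Nat.ble (nat_lit 93824) i))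

noncomputable def t765 (i : Nat) : Nat :=
  (@Bool.rec (fun _ => Nat) (b1468 i) (b1469 i) (Nat.ble (nat_lit 94016) i))

noncomputable def t766 (i : Nat) : Nat :=
  (@Bool.rec (fun _ => Nat) (@Bool.rec (fun _ => Nat) (t763 i) (t764 i) (Nat.ble (nat_lit 93760) i)) (@Bool.rec (fun _ => Nat) (b1467 i) (t765 i) (Nat.ble (nat_lit 93952) i)) (Nat.ble (nat_lit 93888) i))

noncomputable def t767 (i : Nat) : Nat :=
  (@Bool.rec (fun _ => Nat) (b1470 i) (b1471 i) (Nat.ble (nat_lit 94144) i))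

noncomputable def t768 (i : Nat) : Nat :=
  (@Bool.rec (fun _ => Nat) (b1473 i) (b1474 i) (Nat.ble (nat_lit 94336) i))

noncomputable def t769 (i : Nat) : Nat :=
  (@Bool.rec (fun _ => Nat) (b1475 i) (b1476 i) (Nat.ble (nat_lit 94464) i))

noncomputable def t770 (i : Nat) : Nat :=
  (@Bool.rec (fun _ => Nat) (@Bool.rec (fun _ => Nat) (t767 i) (b1472 i) (Nat.ble (nat_lit 94208) i)) (@Bool.rec (fun _ => Nat) (t768 i) (t769 i) (Nat.ble (nat_lit 94400) i)) (Nat.ble (nat_lit 94272) i))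

noncomputable def t771 (i : Nat) : Nat :=
  (@Bool.rec (fun _ => Nat) (b1477 i) (b1478 i) (Nat.ble (nat_lit 94592) i))

noncomputable def t772 (i : Nat) : Nat :=
  (@Bool.rec (fun _ => Nat) (@Bool.rec (fun _ => Nat) (b1479 i) (b1480 i) (Nat.ble (nat_lit 94720) i)) (b1481 i) (Nat.ble (nat_lit 94784) i))

noncomputable def t773 (i : Nat) : Nat :=
  (@Bool.rec (fun _ => Nat) (b1482 i) (b1483 i) (Nat.ble (nat_lit 94912) i))

noncomputable def t774 (i : Nat) : Nat :=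
  (@Bool.rec (fun _ => Nat) (@Bool.rec (fun _ => Nat) (t771 i) (t772 i) (Nat.ble (nat_lit 94656) i)) (@Bool.rec (fun _ => Nat) (t773 i) (b1484 i) (Nat.ble (nat_lit 94976) i)) (Nat.ble (nat_lit 94848) i))

noncomputable def t775 (i : Nat) : Nat :=
  (@Bool.rec (fun _ => Nat) (@Bool.rec (fun _ => Nat) (t762 i) (t766 i) (Nat.ble (nat_lit 93632) i)) (@Bool.rec (fun _ => Nat) (t770 i) (t774 i) (Nat.ble (nat_lit 94528) i)) (Nat.ble (nat_lit 94080) i))

noncomputable def t776 (i : Nat) : Nat :=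
  (@Bool.rec (fun _ => Nat) (@Bool.rec (fun _ => Nat) (t727 i) (t742 i) (Nat.ble (nat_lit 89664) i)) (@Bool.rec (fun _ => Nat) (t757 i) (t775 i) (Nat.ble (nat_lit 93056) i)) (Nat.ble (nat_lit 91392) i))

noncomputable def t777 (i : Nat) : Nat :=
  (@Bool.rec (fun _ => Nat) (@Bool.rec (fun _ => Nat) (t643 i) (t674 i) (Nat.ble (nat_lit 79424) i)) (@Bool.rec (fun _ => Nat) (t716 i) (t776 i) (Nat.ble (nat_lit 88384) i)) (Nat.ble (nat_lit 83328) i))

noncomputable def t778 (i : Nat) : Nat :=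
  (@Bool.rec (fun _ => Nat) (@Bool.rec (fun _ => Nat) (t222 i) (t354 i) (Nat.ble (nat_lit 28864) i)) (@Bool.rec (fun _ => Nat) (t577 i) (t777 i) (Nat.ble (nat_lit 71936) i)) (Nat.ble (nat_lit 45120) i))

noncomputable def t779 (i : Nat) : Nat :=
  (@Bool.rec (fun _ => Nat) (b1485 i) (b1486 i) (Nat.ble (nat_lit 95104) i))

noncomputable def t780 (i : Nat) : Nat :=
  (@Bool.rec (fun _ => Nat) (@Bool.rec (fun _ => Nat) (t779 i) (b1487 i) (Nat.ble (nat_lit 95168) i)) (b1488 i) (Nat.ble (nat_lit 95232) i))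

noncomputable def t781 (i : Nat) : Nat :=
  (@Bool.rec (fun _ => Nat) (b1489 i) (b1490 i) (Nat.ble (nat_lit 95360) i))

noncomputable def t782 (i : Nat) : Nat :=
  (@Bool.rec (fun _ => Nat) (b1491 i) (b1492 i) (Nat.ble (nat_lit 95488) i))

noncomputable def t783 (i : Nat) : Nat :=
  (@Bool.rec (fun _ => Nat) (b1493 i) (b1494 i) (Nat.ble (nat_lit 95616) i))

noncomputable def t784 (i : Nat) : Nat :=
  (@Bool.rec (fun _ => Nat) (b1495 i) (b1496 i) (Nat.ble (nat_lit 95744) i))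

noncomputable def t785 (i : Nat) : Nat :=
  (@Bool.rec (fun _ => Nat) (@Bool.rec (fun _ => Nat) (t781 i) (t782 i) (Nat.ble (nat_lit 95424) i)) (@Bool.rec (fun _ => Nat) (t783 i) (t784 i) (Nat.ble (nat_lit 95680) i)) (Nat.ble (nat_lit 95552) i))

noncomputable def t786 (i : Nat) : Nat :=
  (@Bool.rec (fun _ => Nat) (b1497 i) (b1498 i) (Nat.ble (nat_lit 95872) i))

noncomputable def t787 (i : Nat) : Nat :=
  (@Bool.rec (fun _ => Nat) (b1499 i) (b1500 i) (Nat.ble (nat_lit 96000) i))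

noncomputable def t788 (i : Nat) : Nat :=
  (@Bool.rec (fun _ => Nat) (b1502 i) (b1503 i) (Nat.ble (nat_lit 96192) i))

noncomputable def t789 (i : Nat) : Nat :=
  (@Bool.rec (fun _ => Nat) (@Bool.rec (fun _ => Nat) (t786 i) (t787 i) (Nat.ble (nat_lit 95936) i)) (@Bool.rec (fun _ => Nat) (b1501 i) (t788 i) (Nat.ble (nat_lit 96128) i)) (Nat.ble (nat_lit 96064) i))

noncomputable def t790 (i : Nat) : Nat :=
  (@Bool.rec (fun _ => Nat) (b1504 i) (b1505 i) (Nat.ble (nat_lit 96320) i))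

noncomputable def t791 (i : Nat) : Nat :=
  (@Bool.rec (fun _ => Nat) (b1506 i) (@Bool.rec (fun _ => Nat) (b1507 i) (b1508 i) (Nat.ble (nat_lit 96512) i)) (Nat.ble (nat_lit 96448) i))

noncomputable def t792 (i : Nat) : Nat :=
  (@Bool.rec (fun _ => Nat) (b1509 i) (b1510 i) (Nat.ble (nat_lit 96640) i))

noncomputable def t793 (i : Nat) : Nat :=
  (@Bool.rec (fun _ => Nat) (b1511 i) (b1512 i) (Nat.ble (nat_lit 96768) i))

noncomputable def t794 (i : Nat) : Nat :=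
  (@Bool.rec (fun _ => Nat) (@Bool.rec (fun _ => Nat) (t790 i) (t791 i) (Nat.ble (nat_lit 96384) i)) (@Bool.rec (fun _ => Nat) (t792 i) (t793 i) (Nat.ble (nat_lit 96704) i)) (Nat.ble (nat_lit 96576) i))

noncomputable def t795 (i : Nat) : Nat :=
  (@Bool.rec (fun _ => Nat) (@Bool.rec (fun _ => Nat) (t780 i) (t785 i) (Nat.ble (nat_lit 95296) i)) (@Bool.rec (fun _ => Nat) (t789 i) (t794 i) (Nat.ble (nat_lit 96256) i)) (Nat.ble (nat_lit 95808) i))

noncomputable def t796 (i : Nat) : Nat :=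
  (@Bool.rec (fun _ => Nat) (b1513 i) (b1514 i) (Nat.ble (nat_lit 96896) i))

noncomputable def t797 (i : Nat) : Nat :=
  (@Bool.rec (fun _ => Nat) (b1516 i) (b1517 i) (Nat.ble (nat_lit 97088) i))

noncomputable def t798 (i : Nat) : Nat :=
  (@Bool.rec (fun _ => Nat) (b1518 i) (@Bool.rec (fun _ => Nat) (b1519 i) (b1520 i) (Nat.ble (nat_lit 97280) i)) (Nat.ble (nat_lit 97216) i))

noncomputable def t799 (i : Nat) : Nat :=
  (@Bool.rec (fun _ => Nat) (@Bool.rec (fun _ => Nat) (t796 i) (b1515 i) (Nat.ble (nat_lit 96960) i)) (@Bool.rec (fun _ => Nat) (t797 i) (t798 i) (Nat.ble (nat_lit 97152) i)) (Nat.ble (nat_lit 97024) i))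

noncomputable def t800 (i : Nat) : Nat :=
  (@Bool.rec (fun _ => Nat) (b1521 i) (b1522 i) (Nat.ble (nat_lit 97408) i))

noncomputable def t801 (i : Nat) : Nat :=
  (@Bool.rec (fun _ => Nat) (b1523 i) (@Bool.rec (fun _ => Nat) (b1524 i) (b1525 i) (Nat.ble (nat_lit 97600) i)) (Nat.ble (nat_lit 97536) i))

noncomputable def t802 (i : Nat) : Nat :=
  (@Bool.rec (fun _ => Nat) (@Bool.rec (fun _ => Nat) (b1526 i) (b1527 i) (Nat.ble (nat_lit 97728) i)) (b1528 i) (Nat.ble (nat_lit 97792) i))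

noncomputable def t803 (i : Nat) : Nat :=
  (@Bool.rec (fun _ => Nat) (@Bool.rec (fun _ => Nat) (b1529 i) (b1530 i) (Nat.ble (nat_lit 97920) i)) (b1531 i) (Nat.ble (nat_lit 97984) i))

noncomputable def t804 (i : Nat) : Nat :=
  (@Bool.rec (fun _ => Nat) (@Bool.rec (fun _ => Nat) (t800 i) (t801 i) (Nat.ble (nat_lit 97472) i)) (@Bool.rec (fun _ => Nat) (t802 i) (t803 i) (Nat.ble (nat_lit 97856) i)) (Nat.ble (nat_lit 97664) i))

noncomputable def t805 (i : Nat) : Nat :=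
  (@Bool.rec (fun _ => Nat) (b1532 i) (@Bool.rec (fun _ => Nat) (b1533 i) (b1534 i) (Nat.ble (nat_lit 98176) i)) (Nat.ble (nat_lit 98112) i))

noncomputable def t806 (i : Nat) : Nat :=
  (@Bool.rec (fun _ => Nat) (b1535 i) (b1536 i) (Nat.ble (nat_lit 98304) i))

noncomputable def t807 (i : Nat) : Nat :=
  (@Bool.rec (fun _ => Nat) (b1537 i) (b1538 i) (Nat.ble (nat_lit 98432) i))

noncomputable def t808 (i : Nat) : Nat :=
  (@Bool.rec (fun _ => Nat) (b1539 i) (b1540 i) (Nat.ble (nat_lit 98560) i))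

noncomputable def t809 (i : Nat) : Nat :=
  (@Bool.rec (fun _ => Nat) (@Bool.rec (fun _ => Nat) (t805 i) (t806 i) (Nat.ble (nat_lit 98240) i)) (@Bool.rec (fun _ => Nat) (t807 i) (t808 i) (Nat.ble (nat_lit 98496) i)) (Nat.ble (nat_lit 98368) i))

noncomputable def t810 (i : Nat) : Nat :=
  (@Bool.rec (fun _ => Nat) (b1541 i) (b1542 i) (Nat.ble (nat_lit 98688) i))

noncomputable def t811 (i : Nat) : Nat :=
  (@Bool.rec (fun _ => Nat) (@Bool.rec (fun _ => Nat) (b1543 i) (b1544 i) (Nat.ble (nat_lit 98816) i)) (b1545 i) (Nat.ble (nat_lit 98880) i))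

noncomputable def t812 (i : Nat) : Nat :=
  (@Bool.rec (fun _ => Nat) (b1546 i) (b1547 i) (Nat.ble (nat_lit 99008) i))

noncomputable def t813 (i : Nat) : Nat :=
  (@Bool.rec (fun _ => Nat) (@Bool.rec (fun _ => Nat) (b1548 i) (b1549 i) (Nat.ble (nat_lit 99136) i)) (b1550 i) (Nat.ble (nat_lit 99200) i))

noncomputable def t814 (i : Nat) : Nat :=
  (@Bool.rec (fun _ => Nat) (@Bool.rec (fun _ => Nat) (t810 i) (t811 i) (Nat.ble (nat_lit 98752) i)) (@Bool.rec (fun _ => Nat) (t812 i) (t813 i) (Nat.ble (nat_lit 99072) i)) (Nat.ble (nat_lit 98944) i))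

noncomputable def t815 (i : Nat) : Nat :=
  (@Bool.rec (fun _ => Nat) (@Bool.rec (fun _ => Nat) (t799 i) (t804 i) (Nat.ble (nat_lit 97344) i)) (@Bool.rec (fun _ => Nat) (t809 i) (t814 i) (Nat.ble (nat_lit 98624) i)) (Nat.ble (nat_lit 98048) i))

noncomputable def t816 (i : Nat) : Nat :=
  (@Bool.rec (fun _ => Nat) (@Bool.rec (fun _ => Nat) (b1551 i) (b1552 i) (Nat.ble (nat_lit 99328) i)) (b1553 i) (Nat.ble (nat_lit 99392) i))

noncomputable def t817 (i : Nat) : Nat :=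
  (@Bool.rec (fun _ => Nat) (b1554 i) (b1555 i) (Nat.ble (nat_lit 99520) i))

noncomputable def t818 (i : Nat) : Nat :=
  (@Bool.rec (fun _ => Nat) (b1556 i) (b1557 i) (Nat.ble (nat_lit 99648) i))

noncomputable def t819 (i : Nat) : Nat :=
  (@Bool.rec (fun _ => Nat) (@Bool.rec (fun _ => Nat) (b1558 i) (b1559 i) (Nat.ble (nat_lit 99776) i)) (b1560 i) (Nat.ble (nat_lit 99840) i))

noncomputable def t820 (i : Nat) : Nat :=
  (@Bool.rec (fun _ => Nat) (@Bool.rec (fun _ => Nat) (t816 i) (t817 i) (Nat.ble (nat_lit 99456) i)) (@Bool.rec (fun _ => Nat) (t818 i) (t819 i) (Nat.ble (nat_lit 99712) i)) (Nat.ble (nat_lit 99584) i))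

noncomputable def t821 (i : Nat) : Nat :=
  (@Bool.rec (fun _ => Nat) (b1561 i) (@Bool.rec (fun _ => Nat) (b1562 i) (b1563 i) (Nat.ble (nat_lit 100032) i)) (Nat.ble (nat_lit 99968) i))

noncomputable def t822 (i : Nat) : Nat :=
  (@Bool.rec (fun _ => Nat) (b1565 i) (b1566 i) (Nat.ble (nat_lit 100224) i))

noncomputable def t823 (i : Nat) : Nat :=
  (@Bool.rec (fun _ => Nat) (b1567 i) (b1568 i) (Nat.ble (nat_lit 100352) i))

noncomputable def t824 (i : Nat) : Nat :=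
  (@Bool.rec (fun _ => Nat) (@Bool.rec (fun _ => Nat) (t821 i) (b1564 i) (Nat.ble (nat_lit 100096) i)) (@Bool.rec (fun _ => Nat) (t822 i) (t823 i) (Nat.ble (nat_lit 100288) i)) (Nat.ble (nat_lit 100160) i))

noncomputable def t825 (i : Nat) : Nat :=
  (@Bool.rec (fun _ => Nat) (b1569 i) (b1570 i) (Nat.ble (nat_lit 100480) i))

noncomputable def t826 (i : Nat) : Nat :=
  (@Bool.rec (fun _ => Nat) (b1571 i) (b1572 i) (Nat.ble (nat_lit 100608) i))

noncomputable def t827 (i : Nat) : Nat :=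
  (@Bool.rec (fun _ => Nat) (@Bool.rec (fun _ => Nat) (b1573 i) (b1574 i) (Nat.ble (nat_lit 100736) i)) (b1575 i) (Nat.ble (nat_lit 100800) i))

noncomputable def t828 (i : Nat) : Nat :=
  (@Bool.rec (fun _ => Nat) (b1576 i) (b1577 i) (Nat.ble (nat_lit 100928) i))

noncomputable def t829 (i : Nat) : Nat :=
  (@Bool.rec (fun _ => Nat) (@Bool.rec (fun _ => Nat) (t825 i) (t826 i) (Nat.ble (nat_lit 100544) i)) (@Bool.rec (fun _ => Nat) (t827 i) (t828 i) (Nat.ble (nat_lit 100864) i)) (Nat.ble (nat_lit 100672) i))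

noncomputable def t830 (i : Nat) : Nat :=
  (@Bool.rec (fun _ => Nat) (b1578 i) (b1579 i) (Nat.ble (nat_lit 101056) i))

noncomputable def t831 (i : Nat) : Nat :=
  (@Bool.rec (fun _ => Nat) (b1580 i) (@Bool.rec (fun _ => Nat) (b1581 i) (b1582 i) (Nat.ble (nat_lit 101248) i)) (Nat.ble (nat_lit 101184) i))

noncomputable def t832 (i : Nat) : Nat :=
  (@Bool.rec (fun _ => Nat) (@Bool.rec (fun _ => Nat) (b1583 i) (b1584 i) (Nat.ble (nat_lit 101376) i)) (b1585 i) (Nat.ble (nat_lit 101440) i))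

noncomputable def t833 (i : Nat) : Nat :=
  (@Bool.rec (fun _ => Nat) (@Bool.rec (fun _ => Nat) (b1586 i) (b1587 i) (Nat.ble (nat_lit 101568) i)) (b1588 i) (Nat.ble (nat_lit 101632) i))

noncomputable def t834 (i : Nat) : Nat :=
  (@Bool.rec (fun _ => Nat) (@Bool.rec (fun _ => Nat) (t830 i) (t831 i) (Nat.ble (nat_lit 101120) i)) (@Bool.rec (fun _ => Nat) (t832 i) (t833 i) (Nat.ble (nat_lit 101504) i)) (Nat.ble (nat_lit 101312) i))

noncomputable def t835 (i : Nat) : Nat :=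
  (@Bool.rec (fun _ => Nat) (@Bool.rec (fun _ => Nat) (t820 i) (t824 i) (Nat.ble (nat_lit 99904) i)) (@Bool.rec (fun _ => Nat) (t829 i) (t834 i) (Nat.ble (nat_lit 100992) i)) (Nat.ble (nat_lit 100416) i))

noncomputable def t836 (i : Nat) : Nat :=
  (@Bool.rec (fun _ => Nat) (b1589 i) (b1590 i) (Nat.ble (nat_lit 101760) i))

noncomputable def t837 (i : Nat) : Nat :=
  (@Bool.rec (fun _ => Nat) (b1591 i) (@Bool.rec (fun _ => Nat) (b1592 i) (b1593 i) (Nat.ble (nat_lit 101952) i)) (Nat.ble (nat_lit 101888) i))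

noncomputable def t838 (i : Nat) : Nat :=
  (@Bool.rec (fun _ => Nat) (b1594 i) (b1595 i) (Nat.ble (nat_lit 102080) i))

noncomputable def t839 (i : Nat) : Nat :=
  (@Bool.rec (fun _ => Nat) (b1596 i) (b1597 i) (Nat.ble (nat_lit 102208) i))

noncomputable def t840 (i : Nat) : Nat :=
  (@Bool.rec (fun _ => Nat) (@Bool.rec (fun _ => Nat) (t836 i) (t837 i) (Nat.ble (nat_lit 101824) i)) (@Bool.rec (fun _ => Nat) (t838 i) (t839 i) (Nat.ble (nat_lit 102144) i)) (Nat.ble (nat_lit 102016) i))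

noncomputable def t841 (i : Nat) : Nat :=
  (@Bool.rec (fun _ => Nat) (@Bool.rec (fun _ => Nat) (b1598 i) (b1599 i) (Nat.ble (nat_lit 102336) i)) (b1600 i) (Nat.ble (nat_lit 102400) i))

noncomputable def t842 (i : Nat) : Nat :=
  (@Bool.rec (fun _ => Nat) (b1601 i) (b1602 i) (Nat.ble (nat_lit 102528) i))

noncomputable def t843 (i : Nat) : Nat :=
  (@Bool.rec (fun _ => Nat) (b1603 i) (b1604 i) (Nat.ble (nat_lit 102656) i))

noncomputable def t844 (i : Nat) : Nat :=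
  (@Bool.rec (fun _ => Nat) (b1605 i) (b1606 i) (Nat.ble (nat_lit 102784) i))

noncomputable def t845 (i : Nat) : Nat :=
  (@Bool.rec (fun _ => Nat) (@Bool.rec (fun _ => Nat) (t841 i) (t842 i) (Nat.ble (nat_lit 102464) i)) (@Bool.rec (fun _ => Nat) (t843 i) (t844 i) (Nat.ble (nat_lit 102720) i)) (Nat.ble (nat_lit 102592) i))

noncomputable def t846 (i : Nat) : Nat :=
  (@Bool.rec (fun _ => Nat) (@Bool.rec (fun _ => Nat) (b1607 i) (b1608 i) (Nat.ble (nat_lit 102912) i)) (b1609 i) (Nat.ble (nat_lit 102976) i))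

noncomputable def t847 (i : Nat) : Nat :=
  (@Bool.rec (fun _ => Nat) (@Bool.rec (fun _ => Nat) (b1610 i) (b1611 i) (Nat.ble (nat_lit 103104) i)) (b1612 i) (Nat.ble (nat_lit 103168) i))

noncomputable def t848 (i : Nat) : Nat :=
  (@Bool.rec (fun _ => Nat) (b1613 i) (b1614 i) (Nat.ble (nat_lit 103296) i))

noncomputable def t849 (i : Nat) : Nat :=
  (@Bool.rec (fun _ => Nat) (b1615 i) (b1616 i) (Nat.ble (nat_lit 103424) i))

noncomputable def t850 (i : Nat) : Nat :=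
  (@Bool.rec (fun _ => Nat) (@Bool.rec (fun _ => Nat) (t846 i) (t847 i) (Nat.ble (nat_lit 103040) i)) (@Bool.rec (fun _ => Nat) (t848 i) (t849 i) (Nat.ble (nat_lit 103360) i)) (Nat.ble (nat_lit 103232) i))

noncomputable def t851 (i : Nat) : Nat :=
  (@Bool.rec (fun _ => Nat) (b1617 i) (@Bool.rec (fun _ => Nat) (b1618 i) (b1619 i) (Nat.ble (nat_lit 103616) i)) (Nat.ble (nat_lit 103552) i))

noncomputable def t852 (i : Nat) : Nat :=
  (@Bool.rec (fun _ => Nat) (@Bool.rec (fun _ => Nat) (b1620 i) (b1621 i) (Nat.ble (nat_lit 103744) i)) (b1622 i) (Nat.ble (nat_lit 103808) i))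

noncomputable def t853 (i : Nat) : Nat :=
  (@Bool.rec (fun _ => Nat) (b1623 i) (@Bool.rec (fun _ => Nat) (b1624 i) (b1625 i) (Nat.ble (nat_lit 104000) i)) (Nat.ble (nat_lit 103936) i))

noncomputable def t854 (i : Nat) : Nat :=
  (@Bool.rec (fun _ => Nat) (b1626 i) (@Bool.rec (fun _ => Nat) (b1627 i) (b1628 i) (Nat.ble (nat_lit 104192) i)) (Nat.ble (nat_lit 104128) i))

noncomputable def t855 (i : Nat) : Nat :=
  (@Bool.rec (fun _ => Nat) (@Bool.rec (fun _ => Nat) (t851 i) (t852 i) (Nat.ble (nat_lit 103680) i)) (@Bool.rec (fun _ => Nat) (t853 i) (t854 i) (Nat.ble (nat_lit 104064) i)) (Nat.ble (nat_lit 103872) i))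

noncomputable def t856 (i : Nat) : Nat :=
  (@Bool.rec (fun _ => Nat) (@Bool.rec (fun _ => Nat) (t840 i) (t845 i) (Nat.ble (nat_lit 102272) i)) (@Bool.rec (fun _ => Nat) (t850 i) (t855 i) (Nat.ble (nat_lit 103488) i)) (Nat.ble (nat_lit 102848) i))

noncomputable def t857 (i : Nat) : Nat :=
  (@Bool.rec (fun _ => Nat) (@Bool.rec (fun _ => Nat) (t795 i) (t815 i) (Nat.ble (nat_lit 96832) i)) (@Bool.rec (fun _ => Nat) (t835 i) (t856 i) (Nat.ble (nat_lit 101696) i)) (Nat.ble (nat_lit 99264) i))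

noncomputable def t858 (i : Nat) : Nat :=
  (@Bool.rec (fun _ => Nat) (b1629 i) (b1630 i) (Nat.ble (nat_lit 104320) i))

noncomputable def t859 (i : Nat) : Nat :=
  (@Bool.rec (fun _ => Nat) (b1631 i) (b1632 i) (Nat.ble (nat_lit 104448) i))

noncomputable def t860 (i : Nat) : Nat :=
  (@Bool.rec (fun _ => Nat) (b1633 i) (b1634 i) (Nat.ble (nat_lit 104576) i))

noncomputable def t861 (i : Nat) : Nat :=
  (@Bool.rec (fun _ => Nat) (b1635 i) (b1636 i) (Nat.ble (nat_lit 104704) i))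

noncomputable def t862 (i : Nat) : Nat :=
  (@Bool.rec (fun _ => Nat) (@Bool.rec (fun _ => Nat) (t858 i) (t859 i) (Nat.ble (nat_lit 104384) i)) (@Bool.rec (fun _ => Nat) (t860 i) (t861 i) (Nat.ble (nat_lit 104640) i)) (Nat.ble (nat_lit 104512) i))

noncomputable def t863 (i : Nat) : Nat :=
  (@Bool.rec (fun _ => Nat) (@Bool.rec (fun _ => Nat) (b1637 i) (b1638 i) (Nat.ble (nat_lit 104832) i)) (b1639 i) (Nat.ble (nat_lit 104896) i))

noncomputable def t864 (i : Nat) : Nat :=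
  (@Bool.rec (fun _ => Nat) (b1640 i) (b1641 i) (Nat.ble (nat_lit 105024) i))

noncomputable def t865 (i : Nat) : Nat :=
  (@Bool.rec (fun _ => Nat) (@Bool.rec (fun _ => Nat) (b1642 i) (b1643 i) (Nat.ble (nat_lit 105152) i)) (b1644 i) (Nat.ble (nat_lit 105216) i))

noncomputable def t866 (i : Nat) : Nat :=
  (@Bool.rec (fun _ => Nat) (b1645 i) (@Bool.rec (fun _ => Nat) (b1646 i) (b1647 i) (Nat.ble (nat_lit 105408) i)) (Nat.ble (nat_lit 105344) i))

noncomputable def t867 (i : Nat) : Nat :=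
  (@Bool.rec (fun _ => Nat) (@Bool.rec (fun _ => Nat) (t863 i) (t864 i) (Nat.ble (nat_lit 104960) i)) (@Bool.rec (fun _ => Nat) (t865 i) (t866 i) (Nat.ble (nat_lit 105280) i)) (Nat.ble (nat_lit 105088) i))

noncomputable def t868 (i : Nat) : Nat :=
  (@Bool.rec (fun _ => Nat) (b1648 i) (@Bool.rec (fun _ => Nat) (b1649 i) (b1650 i) (Nat.ble (nat_lit 105600) i)) (Nat.ble (nat_lit 105536) i))

noncomputable def t869 (i : Nat) : Nat :=
  (@Bool.rec (fun _ => Nat) (@Bool.rec (fun _ => Nat) (b1651 i) (b1652 i) (Nat.ble (nat_lit 105728) i)) (b1653 i) (Nat.ble (nat_lit 105792) i))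

noncomputable def t870 (i : Nat) : Nat :=
  (@Bool.rec (fun _ => Nat) (b1654 i) (@Bool.rec (fun _ => Nat) (b1655 i) (b1656 i) (Nat.ble (nat_lit 105984) i)) (Nat.ble (nat_lit 105920) i))

noncomputable def t871 (i : Nat) : Nat :=
  (@Bool.rec (fun _ => Nat) (@Bool.rec (fun _ => Nat) (b1657 i) (b1658 i) (Nat.ble (nat_lit 106112) i)) (b1659 i) (Nat.ble (nat_lit 106176) i))

noncomputable def t872 (i : Nat) : Nat :=
  (@Bool.rec (fun _ => Nat) (@Bool.rec (fun _ => Nat) (t868 i) (t869 i) (Nat.ble (nat_lit 105664) i)) (@Bool.rec (fun _ => Nat) (t870 i) (t871 i) (Nat.ble (nat_lit 106048) i)) (Nat.ble (nat_lit 105856) i))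

noncomputable def t873 (i : Nat) : Nat :=
  (@Bool.rec (fun _ => Nat) (b1660 i) (@Bool.rec (fun _ => Nat) (b1661 i) (b1662 i) (Nat.ble (nat_lit 106368) i)) (Nat.ble (nat_lit 106304) i))

noncomputable def t874 (i : Nat) : Nat :=
  (@Bool.rec (fun _ => Nat) (@Bool.rec (fun _ => Nat) (b1663 i) (b1664 i) (Nat.ble (nat_lit 106496) i)) (b1665 i) (Nat.ble (nat_lit 106560) i))

noncomputable def t875 (i : Nat) : Nat :=
  (@Bool.rec (fun _ => Nat) (b1666 i) (@Bool.rec (fun _ => Nat) (b1667 i) (b1668 i) (Nat.ble (nat_lit 106752) i)) (Nat.ble (nat_lit 106688) i))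

noncomputable def t876 (i : Nat) : Nat :=
  (@Bool.rec (fun _ => Nat) (@Bool.rec (fun _ => Nat) (b1669 i) (b1670 i) (Nat.ble (nat_lit 106880) i)) (b1671 i) (Nat.ble (nat_lit 106944) i))

noncomputable def t877 (i : Nat) : Nat :=
  (@Bool.rec (fun _ => Nat) (@Bool.rec (fun _ => Nat) (t873 i) (t874 i) (Nat.ble (nat_lit 106432) i)) (@Bool.rec (fun _ => Nat) (t875 i) (t876 i) (Nat.ble (nat_lit 106816) i)) (Nat.ble (nat_lit 106624) i))

noncomputable def t878 (i : Nat) : Nat :=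
  (@Bool.rec (fun _ => Nat) (@Bool.rec (fun _ => Nat) (t862 i) (t867 i) (Nat.ble (nat_lit 104768) i)) (@Bool.rec (fun _ => Nat) (t872 i) (t877 i) (Nat.ble (nat_lit 106240) i)) (Nat.ble (nat_lit 105472) i))

noncomputable def t879 (i : Nat) : Nat :=
  (@Bool.rec (fun _ => Nat) (b1672 i) (@Bool.rec (fun _ => Nat) (b1673 i) (b1674 i) (Nat.ble (nat_lit 107136) i)) (Nat.ble (nat_lit 107072) i))

noncomputable def t880 (i : Nat) : Nat :=
  (@Bool.rec (fun _ => Nat) (@Bool.rec (fun _ => Nat) (b1675 i) (b1676 i) (Nat.ble (nat_lit 107264) i)) (b1677 i) (Nat.ble (nat_lit 107328) i))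

noncomputable def t881 (i : Nat) : Nat :=
  (@Bool.rec (fun _ => Nat) (@Bool.rec (fun _ => Nat) (b1678 i) (b1679 i) (Nat.ble (nat_lit 107456) i)) (b1680 i) (Nat.ble (nat_lit 107520) i))

noncomputable def t882 (i : Nat) : Nat :=
  (@Bool.rec (fun _ => Nat) (@Bool.rec (fun _ => Nat) (b1681 i) (b1682 i) (Nat.ble (nat_lit 107648) i)) (b1683 i) (Nat.ble (nat_lit 107712) i))

noncomputable def t883 (i : Nat) : Nat :=
  (@Bool.rec (fun _ => Nat) (@Bool.rec (fun _ => Nat) (t879 i) (t880 i) (Nat.ble (nat_lit 107200) i)) (@Bool.rec (fun _ => Nat) (t881 i) (t882 i) (Nat.ble (nat_lit 107584) i)) (Nat.ble (nat_lit 107392) i))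

noncomputable def t884 (i : Nat) : Nat :=
  (@Bool.rec (fun _ => Nat) (@Bool.rec (fun _ => Nat) (b1684 i) (b1685 i) (Nat.ble (nat_lit 107840) i)) (b1686 i) (Nat.ble (nat_lit 107904) i))

noncomputable def t885 (i : Nat) : Nat :=
  (@Bool.rec (fun _ => Nat) (@Bool.rec (fun _ => Nat) (b1687 i) (b1688 i) (Nat.ble (nat_lit 108032) i)) (b1689 i) (Nat.ble (nat_lit 108096) i))

noncomputable def t886 (i : Nat) : Nat :=
  (@Bool.rec (fun _ => Nat) (@Bool.rec (fun _ => Nat) (b1690 i) (b1691 i) (Nat.ble (nat_lit 108224) i)) (b1692 i) (Nat.ble (nat_lit 108288) i))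

noncomputable def t887 (i : Nat) : Nat :=
  (@Bool.rec (fun _ => Nat) (b1693 i) (b1694 i) (Nat.ble (nat_lit 108416) i))

noncomputable def t888 (i : Nat) : Nat :=
  (@Bool.rec (fun _ => Nat) (@Bool.rec (fun _ => Nat) (t884 i) (t885 i) (Nat.ble (nat_lit 107968) i)) (@Bool.rec (fun _ => Nat) (t886 i) (t887 i) (Nat.ble (nat_lit 108352) i)) (Nat.ble (nat_lit 108160) i))

noncomputable def t889 (i : Nat) : Nat :=
  (@Bool.rec (fun _ => Nat) (b1695 i) (b1696 i) (Nat.ble (nat_lit 108544) i))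

noncomputable def t890 (i : Nat) : Nat :=
  (@Bool.rec (fun _ => Nat) (b1697 i) (@Bool.rec (fun _ => Nat) (b1698 i) (b1699 i) (Nat.ble (nat_lit 108736) i)) (Nat.ble (nat_lit 108672) i))

noncomputable def t891 (i : Nat) : Nat :=
  (@Bool.rec (fun _ => Nat) (@Bool.rec (fun _ => Nat) (b1700 i) (b1701 i) (Nat.ble (nat_lit 108864) i)) (b1702 i) (Nat.ble (nat_lit 108928) i))

noncomputable def t892 (i : Nat) : Nat :=
  (@Bool.rec (fun _ => Nat) (b1703 i) (b1704 i) (Nat.ble (nat_lit 109056) i))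

noncomputable def t893 (i : Nat) : Nat :=
  (@Bool.rec (fun _ => Nat) (@Bool.rec (fun _ => Nat) (t889 i) (t890 i) (Nat.ble (nat_lit 108608) i)) (@Bool.rec (fun _ => Nat) (t891 i) (t892 i) (Nat.ble (nat_lit 108992) i)) (Nat.ble (nat_lit 108800) i))

noncomputable def t894 (i : Nat) : Nat :=
  (@Bool.rec (fun _ => Nat) (b1705 i) (b1706 i) (Nat.ble (nat_lit 109184) i))

noncomputable def t895 (i : Nat) : Nat :=
  (@Bool.rec (fun _ => Nat) (@Bool.rec (fun _ => Nat) (b1707 i) (b1708 i) (Nat.ble (nat_lit 109312) i)) (b1709 i) (Nat.ble (nat_lit 109376) i))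

noncomputable def t896 (i : Nat) : Nat :=
  (@Bool.rec (fun _ => Nat) (@Bool.rec (fun _ => Nat) (b1710 i) (b1711 i) (Nat.ble (nat_lit 109504) i)) (b1712 i) (Nat.ble (nat_lit 109568) i))

noncomputable def t897 (i : Nat) : Nat :=
  (@Bool.rec (fun _ => Nat) (b1713 i) (b1714 i) (Nat.ble (nat_lit 109696) i))

noncomputable def t898 (i : Nat) : Nat :=
  (@Bool.rec (fun _ => Nat) (@Bool.rec (fun _ => Nat) (t894 i) (t895 i) (Nat.ble (nat_lit 109248) i)) (@Bool.rec (fun _ => Nat) (t896 i) (t897 i) (Nat.ble (nat_lit 109632) i)) (Nat.ble (nat_lit 109440) i))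

noncomputable def t899 (i : Nat) : Nat :=
  (@Bool.rec (fun _ => Nat) (@Bool.rec (fun _ => Nat) (t883 i) (t888 i) (Nat.ble (nat_lit 107776) i)) (@Bool.rec (fun _ => Nat) (t893 i) (t898 i) (Nat.ble (nat_lit 109120) i)) (Nat.ble (nat_lit 108480) i))

noncomputable def t900 (i : Nat) : Nat :=
  (@Bool.rec (fun _ => Nat) (b1715 i) (@Bool.rec (fun _ => Nat) (b1716 i) (b1717 i) (Nat.ble (nat_lit 109888) i)) (Nat.ble (nat_lit 109824) i))

noncomputable def t901 (i : Nat) : Nat :=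
  (@Bool.rec (fun _ => Nat) (@Bool.rec (fun _ => Nat) (b1718 i) (b1719 i) (Nat.ble (nat_lit 110016) i)) (b1720 i) (Nat.ble (nat_lit 110080) i))

noncomputable def t902 (i : Nat) : Nat :=
  (@Bool.rec (fun _ => Nat) (b1721 i) (@Bool.rec (fun _ => Nat) (b1722 i) (b1723 i) (Nat.ble (nat_lit 110272) i)) (Nat.ble (nat_lit 110208) i))

noncomputable def t903 (i : Nat) : Nat :=
  (@Bool.rec (fun _ => Nat) (@Bool.rec (fun _ => Nat) (b1724 i) (b1725 i) (Nat.ble (nat_lit 110400) i)) (b1726 i) (Nat.ble (nat_lit 110464) i))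

noncomputable def t904 (i : Nat) : Nat :=
  (@Bool.rec (fun _ => Nat) (@Bool.rec (fun _ => Nat) (t900 i) (t901 i) (Nat.ble (nat_lit 109952) i)) (@Bool.rec (fun _ => Nat) (t902 i) (t903 i) (Nat.ble (nat_lit 110336) i)) (Nat.ble (nat_lit 110144) i))

noncomputable def t905 (i : Nat) : Nat :=
  (@Bool.rec (fun _ => Nat) (b1727 i) (@Bool.rec (fun _ => Nat) (b1728 i) (b1729 i) (Nat.ble (nat_lit 110656) i)) (Nat.ble (nat_lit 110592) i))

noncomputable def t906 (i : Nat) : Nat :=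
  (@Bool.rec (fun _ => Nat) (b1730 i) (@Bool.rec (fun _ => Nat) (b1731 i) (b1732 i) (Nat.ble (nat_lit 110848) i)) (Nat.ble (nat_lit 110784) i))

noncomputable def t907 (i : Nat) : Nat :=
  (@Bool.rec (fun _ => Nat) (b1733 i) (@Bool.rec (fun _ => Nat) (b1734 i) (b1735 i) (Nat.ble (nat_lit 111040) i)) (Nat.ble (nat_lit 110976) i))

noncomputable def t908 (i : Nat) : Nat :=
  (@Bool.rec (fun _ => Nat) (b1736 i) (@Bool.rec (fun _ => Nat) (b1737 i) (b1738 i) (Nat.ble (nat_lit 111232) i)) (Nat.ble (nat_lit 111168) i))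

noncomputable def t909 (i : Nat) : Nat :=
  (@Bool.rec (fun _ => Nat) (@Bool.rec (fun _ => Nat) (t905 i) (t906 i) (Nat.ble (nat_lit 110720) i)) (@Bool.rec (fun _ => Nat) (t907 i) (t908 i) (Nat.ble (nat_lit 111104) i)) (Nat.ble (nat_lit 110912) i))

noncomputable def t910 (i : Nat) : Nat :=
  (@Bool.rec (fun _ => Nat) (b1739 i) (@Bool.rec (fun _ => Nat) (b1740 i) (b1741 i) (Nat.ble (nat_lit 111424) i)) (Nat.ble (nat_lit 111360) i))

noncomputable def t911 (i : Nat) : Nat :=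
  (@Bool.rec (fun _ => Nat) (b1742 i) (@Bool.rec (fun _ => Nat) (b1743 i) (b1744 i) (Nat.ble (nat_lit 111616) i)) (Nat.ble (nat_lit 111552) i))

noncomputable def t912 (i : Nat) : Nat :=
  (@Bool.rec (fun _ => Nat) (@Bool.rec (fun _ => Nat) (b1745 i) (b1746 i) (Nat.ble (nat_lit 111744) i)) (b1747 i) (Nat.ble (nat_lit 111808) i))

noncomputable def t913 (i : Nat) : Nat :=
  (@Bool.rec (fun _ => Nat) (@Bool.rec (fun _ => Nat) (b1748 i) (b1749 i) (Nat.ble (nat_lit 111936) i)) (b1750 i) (Nat.ble (nat_lit 112000) i))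

noncomputable def t914 (i : Nat) : Nat :=
  (@Bool.rec (fun _ => Nat) (@Bool.rec (fun _ => Nat) (t910 i) (t911 i) (Nat.ble (nat_lit 111488) i)) (@Bool.rec (fun _ => Nat) (t912 i) (t913 i) (Nat.ble (nat_lit 111872) i)) (Nat.ble (nat_lit 111680) i))

noncomputable def t915 (i : Nat) : Nat :=
  (@Bool.rec (fun _ => Nat) (@Bool.rec (fun _ => Nat) (b1751 i) (b1752 i) (Nat.ble (nat_lit 112128) i)) (b1753 i) (Nat.ble (nat_lit 112192) i))

noncomputable def t916 (i : Nat) : Nat :=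
  (@Bool.rec (fun _ => Nat) (b1754 i) (b1755 i) (Nat.ble (nat_lit 112320) i))

noncomputable def t917 (i : Nat) : Nat :=
  (@Bool.rec (fun _ => Nat) (b1757 i) (b1758 i) (Nat.ble (nat_lit 112512) i))

noncomputable def t918 (i : Nat) : Nat :=
  (@Bool.rec (fun _ => Nat) (@Bool.rec (fun _ => Nat) (t915 i) (t916 i) (Nat.ble (nat_lit 112256) i)) (@Bool.rec (fun _ => Nat) (b1756 i) (t917 i) (Nat.ble (nat_lit 112448) i)) (Nat.ble (nat_lit 112384) i))

noncomputable def t919 (i : Nat) : Nat :=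
  (@Bool.rec (fun _ => Nat) (@Bool.rec (fun _ => Nat) (t904 i) (t909 i) (Nat.ble (nat_lit 110528) i)) (@Bool.rec (fun _ => Nat) (t914 i) (t918 i) (Nat.ble (nat_lit 112064) i)) (Nat.ble (nat_lit 111296) i))

noncomputable def t920 (i : Nat) : Nat :=
  (@Bool.rec (fun _ => Nat) (b1759 i) (b1760 i) (Nat.ble (nat_lit 112640) i))

noncomputable def t921 (i : Nat) : Nat :=
  (@Bool.rec (fun _ => Nat) (b1761 i) (b1762 i) (Nat.ble (nat_lit 112768) i))

noncomputable def t922 (i : Nat) : Nat :=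
  (@Bool.rec (fun _ => Nat) (b1763 i) (b1764 i) (Nat.ble (nat_lit 112896) i))

noncomputable def t923 (i : Nat) : Nat :=
  (@Bool.rec (fun _ => Nat) (b1765 i) (b1766 i) (Nat.ble (nat_lit 113024) i))

noncomputable def t924 (i : Nat) : Nat :=
  (@Bool.rec (fun _ => Nat) (@Bool.rec (fun _ => Nat) (t920 i) (t921 i) (Nat.ble (nat_lit 112704) i)) (@Bool.rec (fun _ => Nat) (t922 i) (t923 i) (Nat.ble (nat_lit 112960) i)) (Nat.ble (nat_lit 112832) i))

noncomputable def t925 (i : Nat) : Nat :=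
  (@Bool.rec (fun _ => Nat) (b1767 i) (b1768 i) (Nat.ble (nat_lit 113152) i))

noncomputable def t926 (i : Nat) : Nat :=
  (@Bool.rec (fun _ => Nat) (@Bool.rec (fun _ => Nat) (t925 i) (b1769 i) (Nat.ble (nat_lit 113216) i)) (@Bool.rec (fun _ => Nat) (b1770 i) (b1771 i) (Nat.ble (nat_lit 113344) i)) (Nat.ble (nat_lit 113280) i))

noncomputable def t927 (i : Nat) : Nat :=
  (@Bool.rec (fun _ => Nat) (@Bool.rec (fun _ => Nat) (b1772 i) (b1773 i) (Nat.ble (nat_lit 113472) i)) (b1774 i) (Nat.ble (nat_lit 113536) i))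

noncomputable def t928 (i : Nat) : Nat :=
  (@Bool.rec (fun _ => Nat) (b1777 i) (b1778 i) (Nat.ble (nat_lit 113792) i))

noncomputable def t929 (i : Nat) : Nat :=
  (@Bool.rec (fun _ => Nat) (b1775 i) (@Bool.rec (fun _ => Nat) (b1776 i) (t928 i) (Nat.ble (nat_lit 113728) i)) (Nat.ble (nat_lit 113664) i))

noncomputable def t930 (i : Nat) : Nat :=
  (@Bool.rec (fun _ => Nat) (@Bool.rec (fun _ => Nat) (t924 i) (t926 i) (Nat.ble (nat_lit 113088) i)) (@Bool.rec (fun _ => Nat) (t927 i) (t929 i) (Nat.ble (nat_lit 113600) i)) (Nat.ble (nat_lit 113408) i))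

noncomputable def t931 (i : Nat) : Nat :=
  (@Bool.rec (fun _ => Nat) (@Bool.rec (fun _ => Nat) (t878 i) (t899 i) (Nat.ble (nat_lit 107008) i)) (@Bool.rec (fun _ => Nat) (t919 i) (t930 i) (Nat.ble (nat_lit 112576) i)) (Nat.ble (nat_lit 109760) i))

noncomputable def t932 (i : Nat) : Nat :=
  (@Bool.rec (fun _ => Nat) (@Bool.rec (fun _ => Nat) (b1779 i) (b1780 i) (Nat.ble (nat_lit 113920) i)) (b1781 i) (Nat.ble (nat_lit 113984) i))

noncomputable def t933 (i : Nat) : Nat :=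
  (@Bool.rec (fun _ => Nat) (b1782 i) (b1783 i) (Nat.ble (nat_lit 114112) i))

noncomputable def t934 (i : Nat) : Nat :=
  (@Bool.rec (fun _ => Nat) (@Bool.rec (fun _ => Nat) (t932 i) (t933 i) (Nat.ble (nat_lit 114048) i)) (@Bool.rec (fun _ => Nat) (b1784 i) (b1785 i) (Nat.ble (nat_lit 114240) i)) (Nat.ble (nat_lit 114176) i))

noncomputable def t935 (i : Nat) : Nat :=
  (@Bool.rec (fun _ => Nat) (b1789 i) (b1790 i) (Nat.ble (nat_lit 114560) i))

noncomputable def t936 (i : Nat) : Nat :=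
  (@Bool.rec (fun _ => Nat) (@Bool.rec (fun _ => Nat) (b1786 i) (b1787 i) (Nat.ble (nat_lit 114368) i)) (@Bool.rec (fun _ => Nat) (b1788 i) (t935 i) (Nat.ble (nat_lit 114496) i)) (Nat.ble (nat_lit 114432) i))

noncomputable def t937 (i : Nat) : Nat :=
  (@Bool.rec (fun _ => Nat) (b1792 i) (b1793 i) (Nat.ble (nat_lit 114752) i))

noncomputable def t938 (i : Nat) : Nat :=
  (@Bool.rec (fun _ => Nat) (b1794 i) (b1795 i) (Nat.ble (nat_lit 114880) i))

noncomputable def t939 (i : Nat) : Nat :=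
  (@Bool.rec (fun _ => Nat) (b1796 i) (b1797 i) (Nat.ble (nat_lit 115008) i))

noncomputable def t940 (i : Nat) : Nat :=
  (@Bool.rec (fun _ => Nat) (@Bool.rec (fun _ => Nat) (b1791 i) (t937 i) (Nat.ble (nat_lit 114688) i)) (@Bool.rec (fun _ => Nat) (t938 i) (t939 i) (Nat.ble (nat_lit 114944) i)) (Nat.ble (nat_lit 114816) i))

noncomputable def t941 (i : Nat) : Nat :=
  (@Bool.rec (fun _ => Nat) (b1798 i) (b1799 i) (Nat.ble (nat_lit 115136) i))

noncomputable def t942 (i : Nat) : Nat :=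
  (@Bool.rec (fun _ => Nat) (b1801 i) (b1802 i) (Nat.ble (nat_lit 115328) i))

noncomputable def t943 (i : Nat) : Nat :=
  (@Bool.rec (fun _ => Nat) (b1803 i) (b1804 i) (Nat.ble (nat_lit 115456) i))

noncomputable def t944 (i : Nat) : Nat :=
  (@Bool.rec (fun _ => Nat) (@Bool.rec (fun _ => Nat) (t941 i) (b1800 i) (Nat.ble (nat_lit 115200) i)) (@Bool.rec (fun _ => Nat) (t942 i) (t943 i) (Nat.ble (nat_lit 115392) i)) (Nat.ble (nat_lit 115264) i))

noncomputable def t945 (i : Nat) : Nat :=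
  (@Bool.rec (fun _ => Nat) (@Bool.rec (fun _ => Nat) (t934 i) (t936 i) (Nat.ble (nat_lit 114304) i)) (@Bool.rec (fun _ => Nat) (t940 i) (t944 i) (Nat.ble (nat_lit 115072) i)) (Nat.ble (nat_lit 114624) i))

noncomputable def t946 (i : Nat) : Nat :=
  (@Bool.rec (fun _ => Nat) (b1805 i) (b1806 i) (Nat.ble (nat_lit 115584) i))

noncomputable def t947 (i : Nat) : Nat :=
  (@Bool.rec (fun _ => Nat) (b1807 i) (b1808 i) (Nat.ble (nat_lit 115712) i))

noncomputable def t948 (i : Nat) : Nat :=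
  (@Bool.rec (fun _ => Nat) (b1809 i) (b1810 i) (Nat.ble (nat_lit 115840) i))

noncomputable def t949 (i : Nat) : Nat :=
  (@Bool.rec (fun _ => Nat) (b1811 i) (b1812 i) (Nat.ble (nat_lit 115968) i))

noncomputable def t950 (i : Nat) : Nat :=
  (@Bool.rec (fun _ => Nat) (@Bool.rec (fun _ => Nat) (t946 i) (t947 i) (Nat.ble (nat_lit 115648) i)) (@Bool.rec (fun _ => Nat) (t948 i) (t949 i) (Nat.ble (nat_lit 115904) i)) (Nat.ble (nat_lit 115776) i))

noncomputable def t951 (i : Nat) : Nat :=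
  (@Bool.rec (fun _ => Nat) (b1813 i) (b1814 i) (Nat.ble (nat_lit 116096) i))

noncomputable def t952 (i : Nat) : Nat :=
  (@Bool.rec (fun _ => Nat) (b1815 i) (b1816 i) (Nat.ble (nat_lit 116224) i))

noncomputable def t953 (i : Nat) : Nat :=
  (@Bool.rec (fun _ => Nat) (b1817 i) (b1818 i) (Nat.ble (nat_lit 116352) i))

noncomputable def t954 (i : Nat) : Nat :=
  (@Bool.rec (fun _ => Nat) (b1819 i) (b1820 i) (Nat.ble (nat_lit 116480) i))

noncomputable def t955 (i : Nat) : Nat :=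
  (@Bool.rec (fun _ => Nat) (@Bool.rec (fun _ => Nat) (t951 i) (t952 i) (Nat.ble (nat_lit 116160) i)) (@Bool.rec (fun _ => Nat) (t953 i) (t954 i) (Nat.ble (nat_lit 116416) i)) (Nat.ble (nat_lit 116288) i))

noncomputable def t956 (i : Nat) : Nat :=
  (@Bool.rec (fun _ => Nat) (b1822 i) (b1823 i) (Nat.ble (nat_lit 116672) i))

noncomputable def t957 (i : Nat) : Nat :=
  (@Bool.rec (fun _ => Nat) (b1824 i) (b1825 i) (Nat.ble (nat_lit 116800) i))

noncomputable def t958 (i : Nat) : Nat :=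
  (@Bool.rec (fun _ => Nat) (b1821 i) (@Bool.rec (fun _ => Nat) (t956 i) (t957 i) (Nat.ble (nat_lit 116736) i)) (Nat.ble (nat_lit 116608) i))

noncomputable def t959 (i : Nat) : Nat :=
  (@Bool.rec (fun _ => Nat) (b1826 i) (b1827 i) (Nat.ble (nat_lit 116928) i))

noncomputable def t960 (i : Nat) : Nat :=
  (@Bool.rec (fun _ => Nat) (b1828 i) (@Bool.rec (fun _ => Nat) (b1829 i) (b1830 i) (Nat.ble (nat_lit 117120) i)) (Nat.ble (nat_lit 117056) i))

noncomputable def t961 (i : Nat) : Nat :=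
  (@Bool.rec (fun _ => Nat) (@Bool.rec (fun _ => Nat) (b1831 i) (b1832 i) (Nat.ble (nat_lit 117248) i)) (b1833 i) (Nat.ble (nat_lit 117312) i))

noncomputable def t962 (i : Nat) : Nat :=
  (@Bool.rec (fun _ => Nat) (b1834 i) (b1835 i) (Nat.ble (nat_lit 117440) i))

noncomputable def t963 (i : Nat) : Nat :=
  (@Bool.rec (fun _ => Nat) (@Bool.rec (fun _ => Nat) (t959 i) (t960 i) (Nat.ble (nat_lit 116992) i)) (@Bool.rec (fun _ => Nat) (t961 i) (t962 i) (Nat.ble (nat_lit 117376) i)) (Nat.ble (nat_lit 117184) i))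

noncomputable def t964 (i : Nat) : Nat :=
  (@Bool.rec (fun _ => Nat) (@Bool.rec (fun _ => Nat) (t950 i) (t955 i) (Nat.ble (nat_lit 116032) i)) (@Bool.rec (fun _ => Nat) (t958 i) (t963 i) (Nat.ble (nat_lit 116864) i)) (Nat.ble (nat_lit 116544) i))

noncomputable def t965 (i : Nat) : Nat :=
  (@Bool.rec (fun _ => Nat) (@Bool.rec (fun _ => Nat) (b1836 i) (b1837 i) (Nat.ble (nat_lit 117568) i)) (b1838 i) (Nat.ble (nat_lit 117632) i))

noncomputable def t966 (i : Nat) : Nat :=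
  (@Bool.rec (fun _ => Nat) (b1839 i) (@Bool.rec (fun _ => Nat) (b1840 i) (b1841 i) (Nat.ble (nat_lit 117824) i)) (Nat.ble (nat_lit 117760) i))

noncomputable def t967 (i : Nat) : Nat :=
  (@Bool.rec (fun _ => Nat) (@Bool.rec (fun _ => Nat) (b1842 i) (b1843 i) (Nat.ble (nat_lit 117952) i)) (b1844 i) (Nat.ble (nat_lit 118016) i))

noncomputable def t968 (i : Nat) : Nat :=
  (@Bool.rec (fun _ => Nat) (@Bool.rec (fun _ => Nat) (b1845 i) (b1846 i) (Nat.ble (nat_lit 118144) i)) (b1847 i) (Nat.ble (nat_lit 118208) i))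

noncomputable def t969 (i : Nat) : Nat :=
  (@Bool.rec (fun _ => Nat) (@Bool.rec (fun _ => Nat) (t965 i) (t966 i) (Nat.ble (nat_lit 117696) i)) (@Bool.rec (fun _ => Nat) (t967 i) (t968 i) (Nat.ble (nat_lit 118080) i)) (Nat.ble (nat_lit 117888) i))

noncomputable def t970 (i : Nat) : Nat :=
  (@Bool.rec (fun _ => Nat) (b1848 i) (b1849 i) (Nat.ble (nat_lit 118336) i))

noncomputable def t971 (i : Nat) : Nat :=
  (@Bool.rec (fun _ => Nat) (b1850 i) (@Bool.rec (fun _ => Nat) (b1851 i) (b1852 i) (Nat.ble (nat_lit 118528) i)) (Nat.ble (nat_lit 118464) i))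

noncomputable def t972 (i : Nat) : Nat :=
  (@Bool.rec (fun _ => Nat) (b1853 i) (b1854 i) (Nat.ble (nat_lit 118656) i))

noncomputable def t973 (i : Nat) : Nat :=
  (@Bool.rec (fun _ => Nat) (b1855 i) (@Bool.rec (fun _ => Nat) (b1856 i) (b1857 i) (Nat.ble (nat_lit 118848) i)) (Nat.ble (nat_lit 118784) i))

noncomputable def t974 (i : Nat) : Nat :=
  (@Bool.rec (fun _ => Nat) (@Bool.rec (fun _ => Nat) (t970 i) (t971 i) (Nat.ble (nat_lit 118400) i)) (@Bool.rec (fun _ => Nat) (t972 i) (t973 i) (Nat.ble (nat_lit 118720) i)) (Nat.ble (nat_lit 118592) i))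

noncomputable def t975 (i : Nat) : Nat :=
  (@Bool.rec (fun _ => Nat) (b1858 i) (@Bool.rec (fun _ => Nat) (b1859 i) (b1860 i) (Nat.ble (nat_lit 119040) i)) (Nat.ble (nat_lit 118976) i))

noncomputable def t976 (i : Nat) : Nat :=
  (@Bool.rec (fun _ => Nat) (b1861 i) (@Bool.rec (fun _ => Nat) (b1862 i) (b1863 i) (Nat.ble (nat_lit 119232) i)) (Nat.ble (nat_lit 119168) i))

noncomputable def t977 (i : Nat) : Nat :=
  (@Bool.rec (fun _ => Nat) (b1864 i) (@Bool.rec (fun _ => Nat) (b1865 i) (b1866 i) (Nat.ble (nat_lit 119424) i)) (Nat.ble (nat_lit 119360) i))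

noncomputable def t978 (i : Nat) : Nat :=
  (@Bool.rec (fun _ => Nat) (b1867 i) (b1868 i) (Nat.ble (nat_lit 119552) i))

noncomputable def t979 (i : Nat) : Nat :=
  (@Bool.rec (fun _ => Nat) (@Bool.rec (fun _ => Nat) (t975 i) (t976 i) (Nat.ble (nat_lit 119104) i)) (@Bool.rec (fun _ => Nat) (t977 i) (t978 i) (Nat.ble (nat_lit 119488) i)) (Nat.ble (nat_lit 119296) i))

noncomputable def t980 (i : Nat) : Nat :=
  (@Bool.rec (fun _ => Nat) (b1869 i) (b1870 i) (Nat.ble (nat_lit 119680) i))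

noncomputable def t981 (i : Nat) : Nat :=
  (@Bool.rec (fun _ => Nat) (b1871 i) (b1872 i) (Nat.ble (nat_lit 119808) i))

noncomputable def t982 (i : Nat) : Nat :=
  (@Bool.rec (fun _ => Nat) (b1873 i) (@Bool.rec (fun _ => Nat) (b1874 i) (b1875 i) (Nat.ble (nat_lit 120000) i)) (Nat.ble (nat_lit 119936) i))

noncomputable def t983 (i : Nat) : Nat :=
  (@Bool.rec (fun _ => Nat) (@Bool.rec (fun _ => Nat) (b1876 i) (b1877 i) (Nat.ble (nat_lit 120128) i)) (b1878 i) (Nat.ble (nat_lit 120192) i))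

noncomputable def t984 (i : Nat) : Nat :=
  (@Bool.rec (fun _ => Nat) (@Bool.rec (fun _ => Nat) (t980 i) (t981 i) (Nat.ble (nat_lit 119744) i)) (@Bool.rec (fun _ => Nat) (t982 i) (t983 i) (Nat.ble (nat_lit 120064) i)) (Nat.ble (nat_lit 119872) i))

noncomputable def t985 (i : Nat) : Nat :=
  (@Bool.rec (fun _ => Nat) (@Bool.rec (fun _ => Nat) (t969 i) (t974 i) (Nat.ble (nat_lit 118272) i)) (@Bool.rec (fun _ => Nat) (t979 i) (t984 i) (Nat.ble (nat_lit 119616) i)) (Nat.ble (nat_lit 118912) i))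

noncomputable def t986 (i : Nat) : Nat :=
  (@Bool.rec (fun _ => Nat) (b1879 i) (@Bool.rec (fun _ => Nat) (b1880 i) (b1881 i) (Nat.ble (nat_lit 120384) i)) (Nat.ble (nat_lit 120320) i))

noncomputable def t987 (i : Nat) : Nat :=
  (@Bool.rec (fun _ => Nat) (@Bool.rec (fun _ => Nat) (b1882 i) (b1883 i) (Nat.ble (nat_lit 120512) i)) (b1884 i) (Nat.ble (nat_lit 120576) i))

noncomputable def t988 (i : Nat) : Nat :=
  (@Bool.rec (fun _ => Nat) (b1885 i) (@Bool.rec (fun _ => Nat) (b1886 i) (b1887 i) (Nat.ble (nat_lit 120768) i)) (Nat.ble (nat_lit 120704) i))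

noncomputable def t989 (i : Nat) : Nat :=
  (@Bool.rec (fun _ => Nat) (b1888 i) (@Bool.rec (fun _ => Nat) (b1889 i) (b1890 i) (Nat.ble (nat_lit 120960) i)) (Nat.ble (nat_lit 120896) i))

noncomputable def t990 (i : Nat) : Nat :=
  (@Bool.rec (fun _ => Nat) (@Bool.rec (fun _ => Nat) (t986 i) (t987 i) (Nat.ble (nat_lit 120448) i)) (@Bool.rec (fun _ => Nat) (t988 i) (t989 i) (Nat.ble (nat_lit 120832) i)) (Nat.ble (nat_lit 120640) i))

noncomputable def t991 (i : Nat) : Nat :=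
  (@Bool.rec (fun _ => Nat) (@Bool.rec (fun _ => Nat) (b1891 i) (b1892 i) (Nat.ble (nat_lit 121088) i)) (b1893 i) (Nat.ble (nat_lit 121152) i))

noncomputable def t992 (i : Nat) : Nat :=
  (@Bool.rec (fun _ => Nat) (b1894 i) (@Bool.rec (fun _ => Nat) (b1895 i) (b1896 i) (Nat.ble (nat_lit 121344) i)) (Nat.ble (nat_lit 121280) i))

noncomputable def t993 (i : Nat) : Nat :=
  (@Bool.rec (fun _ => Nat) (b1897 i) (@Bool.rec (fun _ => Nat) (b1898 i) (b1899 i) (Nat.ble (nat_lit 121536) i)) (Nat.ble (nat_lit 121472) i))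

noncomputable def t994 (i : Nat) : Nat :=
  (@Bool.rec (fun _ => Nat) (b1900 i) (@Bool.rec (fun _ => Nat) (b1901 i) (b1902 i) (Nat.ble (nat_lit 121728) i)) (Nat.ble (nat_lit 121664) i))

noncomputable def t995 (i : Nat) : Nat :=
  (@Bool.rec (fun _ => Nat) (@Bool.rec (fun _ => Nat) (t991 i) (t992 i) (Nat.ble (nat_lit 121216) i)) (@Bool.rec (fun _ => Nat) (t993 i) (t994 i) (Nat.ble (nat_lit 121600) i)) (Nat.ble (nat_lit 121408) i))

noncomputable def t996 (i : Nat) : Nat :=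
  (@Bool.rec (fun _ => Nat) (@Bool.rec (fun _ => Nat) (b1903 i) (b1904 i) (Nat.ble (nat_lit 121856) i)) (b1905 i) (Nat.ble (nat_lit 121920) i))

noncomputable def t997 (i : Nat) : Nat :=
  (@Bool.rec (fun _ => Nat) (@Bool.rec (fun _ => Nat) (b1906 i) (b1907 i) (Nat.ble (nat_lit 122048) i)) (b1908 i) (Nat.ble (nat_lit 122112) i))

noncomputable def t998 (i : Nat) : Nat :=
  (@Bool.rec (fun _ => Nat) (@Bool.rec (fun _ => Nat) (b1909 i) (b1910 i) (Nat.ble (nat_lit 122240) i)) (@Bool.rec (fun _ => Nat) (b1911 i) (b1912 i) (Nat.ble (nat_lit 122368) i)) (Nat.ble (nat_lit 122304) i))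

noncomputable def t999 (i : Nat) : Nat :=
  (@Bool.rec (fun _ => Nat) (@Bool.rec (fun _ => Nat) (b1913 i) (b1914 i) (Nat.ble (nat_lit 122496) i)) (b1915 i) (Nat.ble (nat_lit 122560) i))

noncomputable def t1000 (i : Nat) : Nat :=
  (@Bool.rec (fun _ => Nat) (@Bool.rec (fun _ => Nat) (t996 i) (t997 i) (Nat.ble (nat_lit 121984) i)) (@Bool.rec (fun _ => Nat) (t998 i) (t999 i) (Nat.ble (nat_lit 122432) i)) (Nat.ble (nat_lit 122176) i))

noncomputable def t1001 (i : Nat) : Nat :=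
  (@Bool.rec (fun _ => Nat) (b1916 i) (@Bool.rec (fun _ => Nat) (b1917 i) (b1918 i) (Nat.ble (nat_lit 122752) i)) (Nat.ble (nat_lit 122688) i))

noncomputable def t1002 (i : Nat) : Nat :=
  (@Bool.rec (fun _ => Nat) (@Bool.rec (fun _ => Nat) (b1919 i) (b1920 i) (Nat.ble (nat_lit 122880) i)) (b1921 i) (Nat.ble (nat_lit 122944) i))

noncomputable def t1003 (i : Nat) : Nat :=
  (@Bool.rec (fun _ => Nat) (b1922 i) (b1923 i) (Nat.ble (nat_lit 123072) i))

noncomputable def t1004 (i : Nat) : Nat :=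
  (@Bool.rec (fun _ => Nat) (b1924 i) (b1925 i) (Nat.ble (nat_lit 123200) i))

noncomputable def t1005 (i : Nat) : Nat :=
  (@Bool.rec (fun _ => Nat) (@Bool.rec (fun _ => Nat) (t1001 i) (t1002 i) (Nat.ble (nat_lit 122816) i)) (@Bool.rec (fun _ => Nat) (t1003 i) (t1004 i) (Nat.ble (nat_lit 123136) i)) (Nat.ble (nat_lit 123008) i))

noncomputable def t1006 (i : Nat) : Nat :=
  (@Bool.rec (fun _ => Nat) (@Bool.rec (fun _ => Nat) (t990 i) (t995 i) (Nat.ble (nat_lit 121024) i)) (@Bool.rec (fun _ => Nat) (t1000 i) (t1005 i) (Nat.ble (nat_lit 122624) i)) (Nat.ble (nat_lit 121792) i))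

noncomputable def t1007 (i : Nat) : Nat :=
  (@Bool.rec (fun _ => Nat) (@Bool.rec (fun _ => Nat) (t945 i) (t964 i) (Nat.ble (nat_lit 115520) i)) (@Bool.rec (fun _ => Nat) (t985 i) (t1006 i) (Nat.ble (nat_lit 120256) i)) (Nat.ble (nat_lit 117504) i))

noncomputable def t1008 (i : Nat) : Nat :=
  (@Bool.rec (fun _ => Nat) (b1926 i) (@Bool.rec (fun _ => Nat) (b1927 i) (b1928 i) (Nat.ble (nat_lit 123392) i)) (Nat.ble (nat_lit 123328) i))

noncomputable def t1009 (i : Nat) : Nat :=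
  (@Bool.rec (fun _ => Nat) (@Bool.rec (fun _ => Nat) (b1929 i) (b1930 i) (Nat.ble (nat_lit 123520) i)) (@Bool.rec (fun _ => Nat) (b1931 i) (b1932 i) (Nat.ble (nat_lit 123648) i)) (Nat.ble (nat_lit 123584) i))

noncomputable def t1010 (i : Nat) : Nat :=
  (@Bool.rec (fun _ => Nat) (b1934 i) (b1935 i) (Nat.ble (nat_lit 123840) i))

noncomputable def t1011 (i : Nat) : Nat :=
  (@Bool.rec (fun _ => Nat) (b1937 i) (b1938 i) (Nat.ble (nat_lit 124032) i))

noncomputable def t1012 (i : Nat) : Nat :=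
  (@Bool.rec (fun _ => Nat) (@Bool.rec (fun _ => Nat) (b1933 i) (t1010 i) (Nat.ble (nat_lit 123776) i)) (@Bool.rec (fun _ => Nat) (b1936 i) (t1011 i) (Nat.ble (nat_lit 123968) i)) (Nat.ble (nat_lit 123904) i))

noncomputable def t1013 (i : Nat) : Nat :=
  (@Bool.rec (fun _ => Nat) (b1941 i) (b1942 i) (Nat.ble (nat_lit 124288) i))

noncomputable def t1014 (i : Nat) : Nat :=
  (@Bool.rec (fun _ => Nat) (b1939 i) (@Bool.rec (fun _ => Nat) (b1940 i) (t1013 i) (Nat.ble (nat_lit 124224) i)) (Nat.ble (nat_lit 124160) i))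

noncomputable def t1015 (i : Nat) : Nat :=
  (@Bool.rec (fun _ => Nat) (@Bool.rec (fun _ => Nat) (t1008 i) (t1009 i) (Nat.ble (nat_lit 123456) i)) (@Bool.rec (fun _ => Nat) (t1012 i) (t1014 i) (Nat.ble (nat_lit 124096) i)) (Nat.ble (nat_lit 123712) i))

noncomputable def t1016 (i : Nat) : Nat :=
  (@Bool.rec (fun _ => Nat) (b1943 i) (b1944 i) (Nat.ble (nat_lit 124416) i))

noncomputable def t1017 (i : Nat) : Nat :=
  (@Bool.rec (fun _ => Nat) (b1945 i) (b1946 i) (Nat.ble (nat_lit 124544) i))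

noncomputable def t1018 (i : Nat) : Nat :=
  (@Bool.rec (fun _ => Nat) (@Bool.rec (fun _ => Nat) (b1947 i) (b1948 i) (Nat.ble (nat_lit 124672) i)) (b1949 i) (Nat.ble (nat_lit 124736) i))

noncomputable def t1019 (i : Nat) : Nat :=
  (@Bool.rec (fun _ => Nat) (@Bool.rec (fun _ => Nat) (t1016 i) (t1017 i) (Nat.ble (nat_lit 124480) i)) (@Bool.rec (fun _ => Nat) (t1018 i) (b1950 i) (Nat.ble (nat_lit 124800) i)) (Nat.ble (nat_lit 124608) i))

noncomputable def t1020 (i : Nat) : Nat :=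
  (@Bool.rec (fun _ => Nat) (b1951 i) (b1952 i) (Nat.ble (nat_lit 124928) i))

noncomputable def t1021 (i : Nat) : Nat :=
  (@Bool.rec (fun _ => Nat) (b1953 i) (b1954 i) (Nat.ble (nat_lit 125056) i))

noncomputable def t1022 (i : Nat) : Nat :=
  (@Bool.rec (fun _ => Nat) (b1955 i) (@Bool.rec (fun _ => Nat) (b1956 i) (b1957 i) (Nat.ble (nat_lit 125248) i)) (Nat.ble (nat_lit 125184) i))

noncomputable def t1023 (i : Nat) : Nat :=
  (@Bool.rec (fun _ => Nat) (@Bool.rec (fun _ => Nat) (t1020 i) (t1021 i) (Nat.ble (nat_lit 124992) i)) (@Bool.rec (fun _ => Nat) (t1022 i) (b1958 i) (Nat.ble (nat_lit 125312) i)) (Nat.ble (nat_lit 125120) i))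

noncomputable def t1024 (i : Nat) : Nat :=
  (@Bool.rec (fun _ => Nat) (@Bool.rec (fun _ => Nat) (b1959 i) (b1960 i) (Nat.ble (nat_lit 125440) i)) (b1961 i) (Nat.ble (nat_lit 125504) i))

noncomputable def t1025 (i : Nat) : Nat :=
  (@Bool.rec (fun _ => Nat) (b1963 i) (@Bool.rec (fun _ => Nat) (b1964 i) (b1965 i) (Nat.ble (nat_lit 125760) i)) (Nat.ble (nat_lit 125696) i))

noncomputable def t1026 (i : Nat) : Nat :=
  (@Bool.rec (fun _ => Nat) (b1966 i) (b1967 i) (Nat.ble (nat_lit 125888) i))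

noncomputable def t1027 (i : Nat) : Nat :=
  (@Bool.rec (fun _ => Nat) (@Bool.rec (fun _ => Nat) (t1024 i) (b1962 i) (Nat.ble (nat_lit 125568) i)) (@Bool.rec (fun _ => Nat) (t1025 i) (t1026 i) (Nat.ble (nat_lit 125824) i)) (Nat.ble (nat_lit 125632) i))

noncomputable def t1028 (i : Nat) : Nat :=
  (@Bool.rec (fun _ => Nat) (b1970 i) (@Bool.rec (fun _ => Nat) (b1971 i) (b1972 i) (Nat.ble (nat_lit 126208) i)) (Nat.ble (nat_lit 126144) i))

noncomputable def t1029 (i : Nat) : Nat :=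
  (@Bool.rec (fun _ => Nat) (b1973 i) (b1974 i) (Nat.ble (nat_lit 126336) i))

noncomputable def t1030 (i : Nat) : Nat :=
  (@Bool.rec (fun _ => Nat) (@Bool.rec (fun _ => Nat) (b1968 i) (b1969 i) (Nat.ble (nat_lit 126016) i)) (@Bool.rec (fun _ => Nat) (t1028 i) (t1029 i) (Nat.ble (nat_lit 126272) i)) (Nat.ble (nat_lit 126080) i))

noncomputable def t1031 (i : Nat) : Nat :=
  (@Bool.rec (fun _ => Nat) (@Bool.rec (fun _ => Nat) (t1019 i) (t1023 i) (Nat.ble (nat_lit 124864) i)) (@Bool.rec (fun _ => Nat) (t1027 i) (t1030 i) (Nat.ble (nat_lit 125952) i)) (Nat.ble (nat_lit 125376) i))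

noncomputable def t1032 (i : Nat) : Nat :=
  (@Bool.rec (fun _ => Nat) (b1978 i) (b1979 i) (Nat.ble (nat_lit 126656) i))

noncomputable def t1033 (i : Nat) : Nat :=
  (@Bool.rec (fun _ => Nat) (@Bool.rec (fun _ => Nat) (b1975 i) (b1976 i) (Nat.ble (nat_lit 126464) i)) (@Bool.rec (fun _ => Nat) (b1977 i) (t1032 i) (Nat.ble (nat_lit 126592) i)) (Nat.ble (nat_lit 126528) i))

noncomputable def t1034 (i : Nat) : Nat :=
  (@Bool.rec (fun _ => Nat) (b1981 i) (b1982 i) (Nat.ble (nat_lit 126848) i))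

noncomputable def t1035 (i : Nat) : Nat :=
  (@Bool.rec (fun _ => Nat) (@Bool.rec (fun _ => Nat) (b1980 i) (t1034 i) (Nat.ble (nat_lit 126784) i)) (b1983 i) (Nat.ble (nat_lit 126912) i))

noncomputable def t1036 (i : Nat) : Nat :=
  (@Bool.rec (fun _ => Nat) (b1984 i) (@Bool.rec (fun _ => Nat) (b1985 i) (b1986 i) (Nat.ble (nat_lit 127104) i)) (Nat.ble (nat_lit 127040) i))

noncomputable def t1037 (i : Nat) : Nat :=
  (@Bool.rec (fun _ => Nat) (b1987 i) (b1988 i) (Nat.ble (nat_lit 127232) i))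

noncomputable def t1038 (i : Nat) : Nat :=
  (@Bool.rec (fun _ => Nat) (b1989 i) (b1990 i) (Nat.ble (nat_lit 127360) i))

noncomputable def t1039 (i : Nat) : Nat :=
  (@Bool.rec (fun _ => Nat) (b1991 i) (b1992 i) (Nat.ble (nat_lit 127488) i))

noncomputable def t1040 (i : Nat) : Nat :=
  (@Bool.rec (fun _ => Nat) (b1993 i) (b1994 i) (Nat.ble (nat_lit 127616) i))

noncomputable def t1041 (i : Nat) : Nat :=
  (@Bool.rec (fun _ => Nat) (@Bool.rec (fun _ => Nat) (t1037 i) (t1038 i) (Nat.ble (nat_lit 127296) i)) (@Bool.rec (fun _ => Nat) (t1039 i) (t1040 i) (Nat.ble (nat_lit 127552) i)) (Nat.ble (nat_lit 127424) i))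

noncomputable def t1042 (i : Nat) : Nat :=
  (@Bool.rec (fun _ => Nat) (@Bool.rec (fun _ => Nat) (t1033 i) (t1035 i) (Nat.ble (nat_lit 126720) i)) (@Bool.rec (fun _ => Nat) (t1036 i) (t1041 i) (Nat.ble (nat_lit 127168) i)) (Nat.ble (nat_lit 126976) i))

noncomputable def t1043 (i : Nat) : Nat :=
  (@Bool.rec (fun _ => Nat) (b1997 i) (b1998 i) (Nat.ble (nat_lit 127872) i))

noncomputable def t1044 (i : Nat) : Nat :=
  (@Bool.rec (fun _ => Nat) (b1999 i) (b2000 i) (Nat.ble (nat_lit 128000) i))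

noncomputable def t1045 (i : Nat) : Nat :=
  (@Bool.rec (fun _ => Nat) (b2001 i) (b2002 i) (Nat.ble (nat_lit 128128) i))

noncomputable def t1046 (i : Nat) : Nat :=
  (@Bool.rec (fun _ => Nat) (@Bool.rec (fun _ => Nat) (b1996 i) (t1043 i) (Nat.ble (nat_lit 127808) i)) (@Bool.rec (fun _ => Nat) (t1044 i) (t1045 i) (Nat.ble (nat_lit 128064) i)) (Nat.ble (nat_lit 127936) i))

noncomputable def t1047 (i : Nat) : Nat :=
  (@Bool.rec (fun _ => Nat) (b2004 i) (b2005 i) (Nat.ble (nat_lit 128320) i))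

noncomputable def t1048 (i : Nat) : Nat :=
  (@Bool.rec (fun _ => Nat) (b2006 i) (b2007 i) (Nat.ble (nat_lit 128448) i))

noncomputable def t1049 (i : Nat) : Nat :=
  (@Bool.rec (fun _ => Nat) (b2008 i) (b2009 i) (Nat.ble (nat_lit 128576) i))

noncomputable def t1050 (i : Nat) : Nat :=
  (@Bool.rec (fun _ => Nat) (@Bool.rec (fun _ => Nat) (b2003 i) (t1047 i) (Nat.ble (nat_lit 128256) i)) (@Bool.rec (fun _ => Nat) (t1048 i) (t1049 i) (Nat.ble (nat_lit 128512) i)) (Nat.ble (nat_lit 128384) i))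

noncomputable def t1051 (i : Nat) : Nat :=
  (@Bool.rec (fun _ => Nat) (b1995 i) (@Bool.rec (fun _ => Nat) (t1046 i) (t1050 i) (Nat.ble (nat_lit 128192) i)) (Nat.ble (nat_lit 127744) i))

noncomputable def t1052 (i : Nat) : Nat :=
  (@Bool.rec (fun _ => Nat) (@Bool.rec (fun _ => Nat) (t1015 i) (t1031 i) (Nat.ble (nat_lit 124352) i)) (@Bool.rec (fun _ => Nat) (t1042 i) (t1051 i) (Nat.ble (nat_lit 127680) i)) (Nat.ble (nat_lit 126400) i))

noncomputable def t1053 (i : Nat) : Nat :=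
  (@Bool.rec (fun _ => Nat) (@Bool.rec (fun _ => Nat) (t857 i) (t931 i) (Nat.ble (nat_lit 104256) i)) (@Bool.rec (fun _ => Nat) (t1007 i) (t1052 i) (Nat.ble (nat_lit 123264) i)) (Nat.ble (nat_lit 113856) i))

noncomputable def t1054 (i : Nat) : Nat :=
  (@Bool.rec (fun _ => Nat) (@Bool.rec (fun _ => Nat) (b2010 i) (b2011 i) (Nat.ble (nat_lit 128704) i)) (b2012 i) (Nat.ble (nat_lit 128768) i))

noncomputable def t1055 (i : Nat) : Nat :=
  (@Bool.rec (fun _ => Nat) (b2015 i) (b2016 i) (Nat.ble (nat_lit 129024) i))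

noncomputable def t1056 (i : Nat) : Nat :=
  (@Bool.rec (fun _ => Nat) (b2013 i) (@Bool.rec (fun _ => Nat) (b2014 i) (t1055 i) (Nat.ble (nat_lit 128960) i)) (Nat.ble (nat_lit 128896) i))

noncomputable def t1057 (i : Nat) : Nat :=
  (@Bool.rec (fun _ => Nat) (@Bool.rec (fun _ => Nat) (b2017 i) (b2018 i) (Nat.ble (nat_lit 129152) i)) (@Bool.rec (fun _ => Nat) (b2019 i) (b2020 i) (Nat.ble (nat_lit 129280) i)) (Nat.ble (nat_lit 129216) i))

noncomputable def t1058 (i : Nat) : Nat :=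
  (@Bool.rec (fun _ => Nat) (b2021 i) (@Bool.rec (fun _ => Nat) (b2022 i) (b2023 i) (Nat.ble (nat_lit 129472) i)) (Nat.ble (nat_lit 129408) i))

noncomputable def t1059 (i : Nat) : Nat :=
  (@Bool.rec (fun _ => Nat) (@Bool.rec (fun _ => Nat) (t1054 i) (t1056 i) (Nat.ble (nat_lit 128832) i)) (@Bool.rec (fun _ => Nat) (t1057 i) (t1058 i) (Nat.ble (nat_lit 129344) i)) (Nat.ble (nat_lit 129088) i))

noncomputable def t1060 (i : Nat) : Nat :=
  (@Bool.rec (fun _ => Nat) (@Bool.rec (fun _ => Nat) (b2024 i) (b2025 i) (Nat.ble (nat_lit 129600) i)) (b2026 i) (Nat.ble (nat_lit 129664) i))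

noncomputable def t1061 (i : Nat) : Nat :=
  (@Bool.rec (fun _ => Nat) (@Bool.rec (fun _ => Nat) (b2027 i) (b2028 i) (Nat.ble (nat_lit 129792) i)) (b2029 i) (Nat.ble (nat_lit 129856) i))

noncomputable def t1062 (i : Nat) : Nat :=
  (@Bool.rec (fun _ => Nat) (@Bool.rec (fun _ => Nat) (t1060 i) (t1061 i) (Nat.ble (nat_lit 129728) i)) (b2030 i) (Nat.ble (nat_lit 129920) i))

noncomputable def t1063 (i : Nat) : Nat :=
  (@Bool.rec (fun _ => Nat) (@Bool.rec (fun _ => Nat) (t1059 i) (t1062 i) (Nat.ble (nat_lit 129536) i)) (b2031 i) (Nat.ble (nat_lit 129984) i))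

noncomputable def t1064 (i : Nat) : Nat :=
  (@Bool.rec (fun _ => Nat) (b2032 i) (@Bool.rec (fun _ => Nat) (b2033 i) (b2034 i) (Nat.ble (nat_lit 130176) i)) (Nat.ble (nat_lit 130112) i))

noncomputable def t1065 (i : Nat) : Nat :=
  (@Bool.rec (fun _ => Nat) (b2035 i) (b2036 i) (Nat.ble (nat_lit 130304) i))

noncomputable def t1066 (i : Nat) : Nat :=
  (@Bool.rec (fun _ => Nat) (@Bool.rec (fun _ => Nat) (b2037 i) (b2038 i) (Nat.ble (nat_lit 130432) i)) (b2039 i) (Nat.ble (nat_lit 130496) i))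

noncomputable def t1067 (i : Nat) : Nat :=
  (@Bool.rec (fun _ => Nat) (b2040 i) (b2041 i) (Nat.ble (nat_lit 130624) i))

noncomputable def t1068 (i : Nat) : Nat :=
  (@Bool.rec (fun _ => Nat) (b2044 i) (b2045 i) (Nat.ble (nat_lit 130880) i))

noncomputable def t1069 (i : Nat) : Nat :=
  (@Bool.rec (fun _ => Nat) (@Bool.rec (fun _ => Nat) (b2042 i) (b2043 i) (Nat.ble (nat_lit 130752) i)) (@Bool.rec (fun _ => Nat) (t1068 i) (b2046 i) (Nat.ble (nat_lit 130944) i)) (Nat.ble (nat_lit 130816) i))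

noncomputable def t1070 (i : Nat) : Nat :=
  (@Bool.rec (fun _ => Nat) (@Bool.rec (fun _ => Nat) (t1065 i) (t1066 i) (Nat.ble (nat_lit 130368) i)) (@Bool.rec (fun _ => Nat) (t1067 i) (t1069 i) (Nat.ble (nat_lit 130688) i)) (Nat.ble (nat_lit 130560) i))

noncomputable def t1071 (i : Nat) : Nat :=
  (@Bool.rec (fun _ => Nat) (b2050 i) (b2051 i) (Nat.ble (nat_lit 131264) i))

noncomputable def t1072 (i : Nat) : Nat :=
  (@Bool.rec (fun _ => Nat) (@Bool.rec (fun _ => Nat) (b2047 i) (b2048 i) (Nat.ble (nat_lit 131072) i)) (@Bool.rec (fun _ => Nat) (b2049 i) (t1071 i) (Nat.ble (nat_lit 131200) i)) (Nat.ble (nat_lit 131136) i))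

noncomputable def t1073 (i : Nat) : Nat :=
  (@Bool.rec (fun _ => Nat) (b2052 i) (b2053 i) (Nat.ble (nat_lit 131392) i))

noncomputable def t1074 (i : Nat) : Nat :=
  (@Bool.rec (fun _ => Nat) (b2054 i) (b2055 i) (Nat.ble (nat_lit 131520) i))

noncomputable def t1075 (i : Nat) : Nat :=
  (@Bool.rec (fun _ => Nat) (@Bool.rec (fun _ => Nat) (t1073 i) (t1074 i) (Nat.ble (nat_lit 131456) i)) (@Bool.rec (fun _ => Nat) (b2056 i) (b2057 i) (Nat.ble (nat_lit 131648) i)) (Nat.ble (nat_lit 131584) i))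

noncomputable def t1076 (i : Nat) : Nat :=
  (@Bool.rec (fun _ => Nat) (@Bool.rec (fun _ => Nat) (b2058 i) (b2059 i) (Nat.ble (nat_lit 131776) i)) (@Bool.rec (fun _ => Nat) (b2060 i) (b2061 i) (Nat.ble (nat_lit 131904) i)) (Nat.ble (nat_lit 131840) i))

noncomputable def t1077 (i : Nat) : Nat :=
  (@Bool.rec (fun _ => Nat) (@Bool.rec (fun _ => Nat) (b2062 i) (b2063 i) (Nat.ble (nat_lit 132032) i)) (@Bool.rec (fun _ => Nat) (b2064 i) (b2065 i) (Nat.ble (nat_lit 132160) i)) (Nat.ble (nat_lit 132096) i))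

noncomputable def t1078 (i : Nat) : Nat :=
  (@Bool.rec (fun _ => Nat) (@Bool.rec (fun _ => Nat) (t1072 i) (t1075 i) (Nat.ble (nat_lit 131328) i)) (@Bool.rec (fun _ => Nat) (t1076 i) (t1077 i) (Nat.ble (nat_lit 131968) i)) (Nat.ble (nat_lit 131712) i))

noncomputable def t1079 (i : Nat) : Nat :=
  (@Bool.rec (fun _ => Nat) (@Bool.rec (fun _ => Nat) (t1063 i) (t1064 i) (Nat.ble (nat_lit 130048) i)) (@Bool.rec (fun _ => Nat) (t1070 i) (t1078 i) (Nat.ble (nat_lit 131008) i)) (Nat.ble (nat_lit 130240) i))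

noncomputable def t1080 (i : Nat) : Nat :=
  (@Bool.rec (fun _ => Nat) (b2066 i) (b2067 i) (Nat.ble (nat_lit 132288) i))

noncomputable def t1081 (i : Nat) : Nat :=
  (@Bool.rec (fun _ => Nat) (b2069 i) (b2070 i) (Nat.ble (nat_lit 132480) i))

noncomputable def t1082 (i : Nat) : Nat :=
  (@Bool.rec (fun _ => Nat) (b2071 i) (b2072 i) (Nat.ble (nat_lit 132608) i))

noncomputable def t1083 (i : Nat) : Nat :=
  (@Bool.rec (fun _ => Nat) (@Bool.rec (fun _ => Nat) (t1080 i) (b2068 i) (Nat.ble (nat_lit 132352) i)) (@Bool.rec (fun _ => Nat) (t1081 i) (t1082 i) (Nat.ble (nat_lit 132544) i)) (Nat.ble (nat_lit 132416) i))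

noncomputable def t1084 (i : Nat) : Nat :=
  (@Bool.rec (fun _ => Nat) (b2073 i) (b2074 i) (Nat.ble (nat_lit 132736) i))

noncomputable def t1085 (i : Nat) : Nat :=
  (@Bool.rec (fun _ => Nat) (b2075 i) (@Bool.rec (fun _ => Nat) (b2076 i) (b2077 i) (Nat.ble (nat_lit 132928) i)) (Nat.ble (nat_lit 132864) i))

noncomputable def t1086 (i : Nat) : Nat :=
  (@Bool.rec (fun _ => Nat) (@Bool.rec (fun _ => Nat) (t1084 i) (t1085 i) (Nat.ble (nat_lit 132800) i)) (@Bool.rec (fun _ => Nat) (b2078 i) (b2079 i) (Nat.ble (nat_lit 133056) i)) (Nat.ble (nat_lit 132992) i))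

noncomputable def t1087 (i : Nat) : Nat :=
  (@Bool.rec (fun _ => Nat) (b2081 i) (b2082 i) (Nat.ble (nat_lit 133248) i))

noncomputable def t1088 (i : Nat) : Nat :=
  (@Bool.rec (fun _ => Nat) (b2083 i) (b2084 i) (Nat.ble (nat_lit 133376) i))

noncomputable def t1089 (i : Nat) : Nat :=
  (@Bool.rec (fun _ => Nat) (@Bool.rec (fun _ => Nat) (b2085 i) (b2086 i) (Nat.ble (nat_lit 133504) i)) (b2087 i) (Nat.ble (nat_lit 133568) i))

noncomputable def t1090 (i : Nat) : Nat :=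
  (@Bool.rec (fun _ => Nat) (@Bool.rec (fun _ => Nat) (b2080 i) (t1087 i) (Nat.ble (nat_lit 133184) i)) (@Bool.rec (fun _ => Nat) (t1088 i) (t1089 i) (Nat.ble (nat_lit 133440) i)) (Nat.ble (nat_lit 133312) i))

noncomputable def t1091 (i : Nat) : Nat :=
  (@Bool.rec (fun _ => Nat) (b2088 i) (b2089 i) (Nat.ble (nat_lit 133696) i))

noncomputable def t1092 (i : Nat) : Nat :=
  (@Bool.rec (fun _ => Nat) (@Bool.rec (fun _ => Nat) (b2090 i) (b2091 i) (Nat.ble (nat_lit 133824) i)) (b2092 i) (Nat.ble (nat_lit 133888) i))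

noncomputable def t1093 (i : Nat) : Nat :=
  (@Bool.rec (fun _ => Nat) (@Bool.rec (fun _ => Nat) (b2093 i) (b2094 i) (Nat.ble (nat_lit 134016) i)) (b2095 i) (Nat.ble (nat_lit 134080) i))

noncomputable def t1094 (i : Nat) : Nat :=
  (@Bool.rec (fun _ => Nat) (b2096 i) (@Bool.rec (fun _ => Nat) (b2097 i) (b2098 i) (Nat.ble (nat_lit 134272) i)) (Nat.ble (nat_lit 134208) i))

noncomputable def t1095 (i : Nat) : Nat :=
  (@Bool.rec (fun _ => Nat) (@Bool.rec (fun _ => Nat) (t1091 i) (t1092 i) (Nat.ble (nat_lit 133760) i)) (@Bool.rec (fun _ => Nat) (t1093 i) (t1094 i) (Nat.ble (nat_lit 134144) i)) (Nat.ble (nat_lit 133952) i))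

noncomputable def t1096 (i : Nat) : Nat :=
  (@Bool.rec (fun _ => Nat) (@Bool.rec (fun _ => Nat) (t1083 i) (t1086 i) (Nat.ble (nat_lit 132672) i)) (@Bool.rec (fun _ => Nat) (t1090 i) (t1095 i) (Nat.ble (nat_lit 133632) i)) (Nat.ble (nat_lit 133120) i))

noncomputable def t1097 (i : Nat) : Nat :=
  (@Bool.rec (fun _ => Nat) (b2099 i) (b2100 i) (Nat.ble (nat_lit 134400) i))

noncomputable def t1098 (i : Nat) : Nat :=
  (@Bool.rec (fun _ => Nat) (b2101 i) (@Bool.rec (fun _ => Nat) (b2102 i) (b2103 i) (Nat.ble (nat_lit 134592) i)) (Nat.ble (nat_lit 134528) i))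

noncomputable def t1099 (i : Nat) : Nat :=
  (@Bool.rec (fun _ => Nat) (b2104 i) (b2105 i) (Nat.ble (nat_lit 134720) i))

noncomputable def t1100 (i : Nat) : Nat :=
  (@Bool.rec (fun _ => Nat) (@Bool.rec (fun _ => Nat) (t1097 i) (t1098 i) (Nat.ble (nat_lit 134464) i)) (@Bool.rec (fun _ => Nat) (t1099 i) (b2106 i) (Nat.ble (nat_lit 134784) i)) (Nat.ble (nat_lit 134656) i))

noncomputable def t1101 (i : Nat) : Nat :=
  (@Bool.rec (fun _ => Nat) (b2107 i) (b2108 i) (Nat.ble (nat_lit 134912) i))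

noncomputable def t1102 (i : Nat) : Nat :=
  (@Bool.rec (fun _ => Nat) (b2109 i) (@Bool.rec (fun _ => Nat) (b2110 i) (b2111 i) (Nat.ble (nat_lit 135104) i)) (Nat.ble (nat_lit 135040) i))

noncomputable def t1103 (i : Nat) : Nat :=
  (@Bool.rec (fun _ => Nat) (@Bool.rec (fun _ => Nat) (t1101 i) (t1102 i) (Nat.ble (nat_lit 134976) i)) (b2112 i) (Nat.ble (nat_lit 135168) i))

noncomputable def t1104 (i : Nat) : Nat :=
  (@Bool.rec (fun _ => Nat) (b2113 i) (b2114 i) (Nat.ble (nat_lit 135296) i))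

noncomputable def t1105 (i : Nat) : Nat :=
  (@Bool.rec (fun _ => Nat) (b2115 i) (b2116 i) (Nat.ble (nat_lit 135424) i))

noncomputable def t1106 (i : Nat) : Nat :=
  (@Bool.rec (fun _ => Nat) (b2117 i) (b2118 i) (Nat.ble (nat_lit 135552) i))

noncomputable def t1107 (i : Nat) : Nat :=
  (@Bool.rec (fun _ => Nat) (b2119 i) (b2120 i) (Nat.ble (nat_lit 135680) i))

noncomputable def t1108 (i : Nat) : Nat :=
  (@Bool.rec (fun _ => Nat) (@Bool.rec (fun _ => Nat) (t1104 i) (t1105 i) (Nat.ble (nat_lit 135360) i)) (@Bool.rec (fun _ => Nat) (t1106 i) (t1107 i) (Nat.ble (nat_lit 135616) i)) (Nat.ble (nat_lit 135488) i))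

noncomputable def t1109 (i : Nat) : Nat :=
  (@Bool.rec (fun _ => Nat) (b2121 i) (@Bool.rec (fun _ => Nat) (b2122 i) (b2123 i) (Nat.ble (nat_lit 135872) i)) (Nat.ble (nat_lit 135808) i))

noncomputable def t1110 (i : Nat) : Nat :=
  (@Bool.rec (fun _ => Nat) (@Bool.rec (fun _ => Nat) (b2124 i) (b2125 i) (Nat.ble (nat_lit 136000) i)) (b2126 i) (Nat.ble (nat_lit 136064) i))

noncomputable def t1111 (i : Nat) : Nat :=
  (@Bool.rec (fun _ => Nat) (b2127 i) (b2128 i) (Nat.ble (nat_lit 136192) i))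

noncomputable def t1112 (i : Nat) : Nat :=
  (@Bool.rec (fun _ => Nat) (b2129 i) (b2130 i) (Nat.ble (nat_lit 136320) i))

noncomputable def t1113 (i : Nat) : Nat :=
  (@Bool.rec (fun _ => Nat) (@Bool.rec (fun _ => Nat) (t1109 i) (t1110 i) (Nat.ble (nat_lit 135936) i)) (@Bool.rec (fun _ => Nat) (t1111 i) (t1112 i) (Nat.ble (nat_lit 136256) i)) (Nat.ble (nat_lit 136128) i))

noncomputable def t1114 (i : Nat) : Nat :=
  (@Bool.rec (fun _ => Nat) (@Bool.rec (fun _ => Nat) (t1100 i) (t1103 i) (Nat.ble (nat_lit 134848) i)) (@Bool.rec (fun _ => Nat) (t1108 i) (t1113 i) (Nat.ble (nat_lit 135744) i)) (Nat.ble (nat_lit 135232) i))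

noncomputable def t1115 (i : Nat) : Nat :=
  (@Bool.rec (fun _ => Nat) (b2133 i) (b2134 i) (Nat.ble (nat_lit 136576) i))

noncomputable def t1116 (i : Nat) : Nat :=
  (@Bool.rec (fun _ => Nat) (@Bool.rec (fun _ => Nat) (b2131 i) (b2132 i) (Nat.ble (nat_lit 136448) i)) (@Bool.rec (fun _ => Nat) (t1115 i) (b2135 i) (Nat.ble (nat_lit 136640) i)) (Nat.ble (nat_lit 136512) i))

noncomputable def t1117 (i : Nat) : Nat :=
  (@Bool.rec (fun _ => Nat) (b2137 i) (b2138 i) (Nat.ble (nat_lit 136832) i))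

noncomputable def t1118 (i : Nat) : Nat :=
  (@Bool.rec (fun _ => Nat) (b2139 i) (b2140 i) (Nat.ble (nat_lit 136960) i))

noncomputable def t1119 (i : Nat) : Nat :=
  (@Bool.rec (fun _ => Nat) (@Bool.rec (fun _ => Nat) (b2141 i) (b2142 i) (Nat.ble (nat_lit 137088) i)) (b2143 i) (Nat.ble (nat_lit 137152) i))

noncomputable def t1120 (i : Nat) : Nat :=
  (@Bool.rec (fun _ => Nat) (@Bool.rec (fun _ => Nat) (b2136 i) (t1117 i) (Nat.ble (nat_lit 136768) i)) (@Bool.rec (fun _ => Nat) (t1118 i) (t1119 i) (Nat.ble (nat_lit 137024) i)) (Nat.ble (nat_lit 136896) i))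

noncomputable def t1121 (i : Nat) : Nat :=
  (@Bool.rec (fun _ => Nat) (b2145 i) (b2146 i) (Nat.ble (nat_lit 137344) i))

noncomputable def t1122 (i : Nat) : Nat :=
  (@Bool.rec (fun _ => Nat) (b2147 i) (@Bool.rec (fun _ => Nat) (b2148 i) (b2149 i) (Nat.ble (nat_lit 137536) i)) (Nat.ble (nat_lit 137472) i))

noncomputable def t1123 (i : Nat) : Nat :=
  (@Bool.rec (fun _ => Nat) (b2150 i) (b2151 i) (Nat.ble (nat_lit 137664) i))

noncomputable def t1124 (i : Nat) : Nat :=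
  (@Bool.rec (fun _ => Nat) (@Bool.rec (fun _ => Nat) (b2144 i) (t1121 i) (Nat.ble (nat_lit 137280) i)) (@Bool.rec (fun _ => Nat) (t1122 i) (t1123 i) (Nat.ble (nat_lit 137600) i)) (Nat.ble (nat_lit 137408) i))

noncomputable def t1125 (i : Nat) : Nat :=
  (@Bool.rec (fun _ => Nat) (b2153 i) (b2154 i) (Nat.ble (nat_lit 137856) i))

noncomputable def t1126 (i : Nat) : Nat :=
  (@Bool.rec (fun _ => Nat) (b2155 i) (b2156 i) (Nat.ble (nat_lit 137984) i))

noncomputable def t1127 (i : Nat) : Nat :=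
  (@Bool.rec (fun _ => Nat) (b2157 i) (b2158 i) (Nat.ble (nat_lit 138112) i))

noncomputable def t1128 (i : Nat) : Nat :=
  (@Bool.rec (fun _ => Nat) (@Bool.rec (fun _ => Nat) (b2152 i) (t1125 i) (Nat.ble (nat_lit 137792) i)) (@Bool.rec (fun _ => Nat) (t1126 i) (t1127 i) (Nat.ble (nat_lit 138048) i)) (Nat.ble (nat_lit 137920) i))

noncomputable def t1129 (i : Nat) : Nat :=
  (@Bool.rec (fun _ => Nat) (@Bool.rec (fun _ => Nat) (t1116 i) (t1120 i) (Nat.ble (nat_lit 136704) i)) (@Bool.rec (fun _ => Nat) (t1124 i) (t1128 i) (Nat.ble (nat_lit 137728) i)) (Nat.ble (nat_lit 137216) i))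

noncomputable def t1130 (i : Nat) : Nat :=
  (@Bool.rec (fun _ => Nat) (b2159 i) (@Bool.rec (fun _ => Nat) (b2160 i) (b2161 i) (Nat.ble (nat_lit 138304) i)) (Nat.ble (nat_lit 138240) i))

noncomputable def t1131 (i : Nat) : Nat :=
  (@Bool.rec (fun _ => Nat) (b2162 i) (b2163 i) (Nat.ble (nat_lit 138432) i))

noncomputable def t1132 (i : Nat) : Nat :=
  (@Bool.rec (fun _ => Nat) (@Bool.rec (fun _ => Nat) (b2164 i) (b2165 i) (Nat.ble (nat_lit 138560) i)) (b2166 i) (Nat.ble (nat_lit 138624) i))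

noncomputable def t1133 (i : Nat) : Nat :=
  (@Bool.rec (fun _ => Nat) (b2167 i) (b2168 i) (Nat.ble (nat_lit 138752) i))

noncomputable def t1134 (i : Nat) : Nat :=
  (@Bool.rec (fun _ => Nat) (@Bool.rec (fun _ => Nat) (t1130 i) (t1131 i) (Nat.ble (nat_lit 138368) i)) (@Bool.rec (fun _ => Nat) (t1132 i) (t1133 i) (Nat.ble (nat_lit 138688) i)) (Nat.ble (nat_lit 138496) i))

noncomputable def t1135 (i : Nat) : Nat :=
  (@Bool.rec (fun _ => Nat) (b2169 i) (b2170 i) (Nat.ble (nat_lit 138880) i))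

noncomputable def t1136 (i : Nat) : Nat :=
  (@Bool.rec (fun _ => Nat) (b2171 i) (@Bool.rec (fun _ => Nat) (b2172 i) (b2173 i) (Nat.ble (nat_lit 139072) i)) (Nat.ble (nat_lit 139008) i))

noncomputable def t1137 (i : Nat) : Nat :=
  (@Bool.rec (fun _ => Nat) (b2174 i) (@Bool.rec (fun _ => Nat) (b2175 i) (b2176 i) (Nat.ble (nat_lit 139264) i)) (Nat.ble (nat_lit 139200) i))

noncomputable def t1138 (i : Nat) : Nat :=
  (@Bool.rec (fun _ => Nat) (b2177 i) (b2178 i) (Nat.ble (nat_lit 139392) i))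

noncomputable def t1139 (i : Nat) : Nat :=
  (@Bool.rec (fun _ => Nat) (@Bool.rec (fun _ => Nat) (t1135 i) (t1136 i) (Nat.ble (nat_lit 138944) i)) (@Bool.rec (fun _ => Nat) (t1137 i) (t1138 i) (Nat.ble (nat_lit 139328) i)) (Nat.ble (nat_lit 139136) i))

noncomputable def t1140 (i : Nat) : Nat :=
  (@Bool.rec (fun _ => Nat) (b2179 i) (@Bool.rec (fun _ => Nat) (b2180 i) (b2181 i) (Nat.ble (nat_lit 139584) i)) (Nat.ble (nat_lit 139520) i))

noncomputable def t1141 (i : Nat) : Nat :=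
  (@Bool.rec (fun _ => Nat) (@Bool.rec (fun _ => Nat) (b2182 i) (b2183 i) (Nat.ble (nat_lit 139712) i)) (b2184 i) (Nat.ble (nat_lit 139776) i))

noncomputable def t1142 (i : Nat) : Nat :=
  (@Bool.rec (fun _ => Nat) (b2185 i) (b2186 i) (Nat.ble (nat_lit 139904) i))

noncomputable def t1143 (i : Nat) : Nat :=
  (@Bool.rec (fun _ => Nat) (b2187 i) (b2188 i) (Nat.ble (nat_lit 140032) i))

noncomputable def t1144 (i : Nat) : Nat :=
  (@Bool.rec (fun _ => Nat) (@Bool.rec (fun _ => Nat) (t1140 i) (t1141 i) (Nat.ble (nat_lit 139648) i)) (@Bool.rec (fun _ => Nat) (t1142 i) (t1143 i) (Nat.ble (nat_lit 139968) i)) (Nat.ble (nat_lit 139840) i))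

noncomputable def t1145 (i : Nat) : Nat :=
  (@Bool.rec (fun _ => Nat) (b2189 i) (@Bool.rec (fun _ => Nat) (b2190 i) (b2191 i) (Nat.ble (nat_lit 140224) i)) (Nat.ble (nat_lit 140160) i))

noncomputable def t1146 (i : Nat) : Nat :=
  (@Bool.rec (fun _ => Nat) (b2192 i) (@Bool.rec (fun _ => Nat) (b2193 i) (b2194 i) (Nat.ble (nat_lit 140416) i)) (Nat.ble (nat_lit 140352) i))

noncomputable def t1147 (i : Nat) : Nat :=
  (@Bool.rec (fun _ => Nat) (@Bool.rec (fun _ => Nat) (b2195 i) (b2196 i) (Nat.ble (nat_lit 140544) i)) (@Bool.rec (fun _ => Nat) (b2197 i) (b2198 i) (Nat.ble (nat_lit 140672) i)) (Nat.ble (nat_lit 140608) i))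

noncomputable def t1148 (i : Nat) : Nat :=
  (@Bool.rec (fun _ => Nat) (b2199 i) (@Bool.rec (fun _ => Nat) (b2200 i) (b2201 i) (Nat.ble (nat_lit 140864) i)) (Nat.ble (nat_lit 140800) i))

noncomputable def t1149 (i : Nat) : Nat :=
  (@Bool.rec (fun _ => Nat) (@Bool.rec (fun _ => Nat) (t1145 i) (t1146 i) (Nat.ble (nat_lit 140288) i)) (@Bool.rec (fun _ => Nat) (t1147 i) (t1148 i) (Nat.ble (nat_lit 140736) i)) (Nat.ble (nat_lit 140480) i))

noncomputable def t1150 (i : Nat) : Nat :=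
  (@Bool.rec (fun _ => Nat) (@Bool.rec (fun _ => Nat) (t1134 i) (t1139 i) (Nat.ble (nat_lit 138816) i)) (@Bool.rec (fun _ => Nat) (t1144 i) (t1149 i) (Nat.ble (nat_lit 140096) i)) (Nat.ble (nat_lit 139456) i))

noncomputable def t1151 (i : Nat) : Nat :=
  (@Bool.rec (fun _ => Nat) (@Bool.rec (fun _ => Nat) (t1096 i) (t1114 i) (Nat.ble (nat_lit 134336) i)) (@Bool.rec (fun _ => Nat) (t1129 i) (t1150 i) (Nat.ble (nat_lit 138176) i)) (Nat.ble (nat_lit 136384) i))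

noncomputable def t1152 (i : Nat) : Nat :=
  (@Bool.rec (fun _ => Nat) (@Bool.rec (fun _ => Nat) (b2202 i) (b2203 i) (Nat.ble (nat_lit 140992) i)) (@Bool.rec (fun _ => Nat) (b2204 i) (b2205 i) (Nat.ble (nat_lit 141120) i)) (Nat.ble (nat_lit 141056) i))

noncomputable def t1153 (i : Nat) : Nat :=
  (@Bool.rec (fun _ => Nat) (b2206 i) (b2207 i) (Nat.ble (nat_lit 141248) i))

noncomputable def t1154 (i : Nat) : Nat :=
  (@Bool.rec (fun _ => Nat) (b2209 i) (b2210 i) (Nat.ble (nat_lit 141440) i))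

noncomputable def t1155 (i : Nat) : Nat :=
  (@Bool.rec (fun _ => Nat) (b2211 i) (b2212 i) (Nat.ble (nat_lit 141568) i))

noncomputable def t1156 (i : Nat) : Nat :=
  (@Bool.rec (fun _ => Nat) (@Bool.rec (fun _ => Nat) (t1153 i) (b2208 i) (Nat.ble (nat_lit 141312) i)) (@Bool.rec (fun _ => Nat) (t1154 i) (t1155 i) (Nat.ble (nat_lit 141504) i)) (Nat.ble (nat_lit 141376) i))

noncomputable def t1157 (i : Nat) : Nat :=
  (@Bool.rec (fun _ => Nat) (@Bool.rec (fun _ => Nat) (b2213 i) (b2214 i) (Nat.ble (nat_lit 141696) i)) (b2215 i) (Nat.ble (nat_lit 141760) i))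

noncomputable def t1158 (i : Nat) : Nat :=
  (@Bool.rec (fun _ => Nat) (b2216 i) (b2217 i) (Nat.ble (nat_lit 141888) i))

noncomputable def t1159 (i : Nat) : Nat :=
  (@Bool.rec (fun _ => Nat) (@Bool.rec (fun _ => Nat) (b2218 i) (b2219 i) (Nat.ble (nat_lit 142016) i)) (b2220 i) (Nat.ble (nat_lit 142080) i))

noncomputable def t1160 (i : Nat) : Nat :=
  (@Bool.rec (fun _ => Nat) (b2221 i) (b2222 i) (Nat.ble (nat_lit 142208) i))

noncomputable def t1161 (i : Nat) : Nat :=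
  (@Bool.rec (fun _ => Nat) (@Bool.rec (fun _ => Nat) (t1157 i) (t1158 i) (Nat.ble (nat_lit 141824) i)) (@Bool.rec (fun _ => Nat) (t1159 i) (t1160 i) (Nat.ble (nat_lit 142144) i)) (Nat.ble (nat_lit 141952) i))

noncomputable def t1162 (i : Nat) : Nat :=
  (@Bool.rec (fun _ => Nat) (b2223 i) (@Bool.rec (fun _ => Nat) (b2224 i) (b2225 i) (Nat.ble (nat_lit 142400) i)) (Nat.ble (nat_lit 142336) i))

noncomputable def t1163 (i : Nat) : Nat :=
  (@Bool.rec (fun _ => Nat) (@Bool.rec (fun _ => Nat) (b2226 i) (b2227 i) (Nat.ble (nat_lit 142528) i)) (b2228 i) (Nat.ble (nat_lit 142592) i))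

noncomputable def t1164 (i : Nat) : Nat :=
  (@Bool.rec (fun _ => Nat) (b2229 i) (b2230 i) (Nat.ble (nat_lit 142720) i))

noncomputable def t1165 (i : Nat) : Nat :=
  (@Bool.rec (fun _ => Nat) (b2231 i) (@Bool.rec (fun _ => Nat) (b2232 i) (b2233 i) (Nat.ble (nat_lit 142912) i)) (Nat.ble (nat_lit 142848) i))

noncomputable def t1166 (i : Nat) : Nat :=
  (@Bool.rec (fun _ => Nat) (@Bool.rec (fun _ => Nat) (t1162 i) (t1163 i) (Nat.ble (nat_lit 142464) i)) (@Bool.rec (fun _ => Nat) (t1164 i) (t1165 i) (Nat.ble (nat_lit 142784) i)) (Nat.ble (nat_lit 142656) i))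

noncomputable def t1167 (i : Nat) : Nat :=
  (@Bool.rec (fun _ => Nat) (@Bool.rec (fun _ => Nat) (t1152 i) (t1156 i) (Nat.ble (nat_lit 141184) i)) (@Bool.rec (fun _ => Nat) (t1161 i) (t1166 i) (Nat.ble (nat_lit 142272) i)) (Nat.ble (nat_lit 141632) i))

noncomputable def t1168 (i : Nat) : Nat :=
  (@Bool.rec (fun _ => Nat) (b2234 i) (b2235 i) (Nat.ble (nat_lit 143040) i))

noncomputable def t1169 (i : Nat) : Nat :=
  (@Bool.rec (fun _ => Nat) (b2236 i) (@Bool.rec (fun _ => Nat) (b2237 i) (b2238 i) (Nat.ble (nat_lit 143232) i)) (Nat.ble (nat_lit 143168) i))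

noncomputable def t1170 (i : Nat) : Nat :=
  (@Bool.rec (fun _ => Nat) (b2239 i) (b2240 i) (Nat.ble (nat_lit 143360) i))

noncomputable def t1171 (i : Nat) : Nat :=
  (@Bool.rec (fun _ => Nat) (b2241 i) (@Bool.rec (fun _ => Nat) (b2242 i) (b2243 i) (Nat.ble (nat_lit 143552) i)) (Nat.ble (nat_lit 143488) i))

noncomputable def t1172 (i : Nat) : Nat :=
  (@Bool.rec (fun _ => Nat) (@Bool.rec (fun _ => Nat) (t1168 i) (t1169 i) (Nat.ble (nat_lit 143104) i)) (@Bool.rec (fun _ => Nat) (t1170 i) (t1171 i) (Nat.ble (nat_lit 143424) i)) (Nat.ble (nat_lit 143296) i))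

noncomputable def t1173 (i : Nat) : Nat :=
  (@Bool.rec (fun _ => Nat) (@Bool.rec (fun _ => Nat) (b2244 i) (b2245 i) (Nat.ble (nat_lit 143680) i)) (b2246 i) (Nat.ble (nat_lit 143744) i))

noncomputable def t1174 (i : Nat) : Nat :=
  (@Bool.rec (fun _ => Nat) (@Bool.rec (fun _ => Nat) (b2247 i) (b2248 i) (Nat.ble (nat_lit 143872) i)) (b2249 i) (Nat.ble (nat_lit 143936) i))

noncomputable def t1175 (i : Nat) : Nat :=
  (@Bool.rec (fun _ => Nat) (@Bool.rec (fun _ => Nat) (b2250 i) (b2251 i) (Nat.ble (nat_lit 144064) i)) (@Bool.rec (fun _ => Nat) (b2252 i) (b2253 i) (Nat.ble (nat_lit 144192) i)) (Nat.ble (nat_lit 144128) i))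

noncomputable def t1176 (i : Nat) : Nat :=
  (@Bool.rec (fun _ => Nat) (@Bool.rec (fun _ => Nat) (t1173 i) (t1174 i) (Nat.ble (nat_lit 143808) i)) (@Bool.rec (fun _ => Nat) (t1175 i) (b2254 i) (Nat.ble (nat_lit 144256) i)) (Nat.ble (nat_lit 144000) i))

noncomputable def t1177 (i : Nat) : Nat :=
  (@Bool.rec (fun _ => Nat) (b2255 i) (b2256 i) (Nat.ble (nat_lit 144384) i))

noncomputable def t1178 (i : Nat) : Nat :=
  (@Bool.rec (fun _ => Nat) (b2257 i) (b2258 i) (Nat.ble (nat_lit 144512) i))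

noncomputable def t1179 (i : Nat) : Nat :=
  (@Bool.rec (fun _ => Nat) (b2259 i) (b2260 i) (Nat.ble (nat_lit 144640) i))

noncomputable def t1180 (i : Nat) : Nat :=
  (@Bool.rec (fun _ => Nat) (@Bool.rec (fun _ => Nat) (t1177 i) (t1178 i) (Nat.ble (nat_lit 144448) i)) (@Bool.rec (fun _ => Nat) (t1179 i) (b2261 i) (Nat.ble (nat_lit 144704) i)) (Nat.ble (nat_lit 144576) i))

noncomputable def t1181 (i : Nat) : Nat :=
  (@Bool.rec (fun _ => Nat) (b2262 i) (@Bool.rec (fun _ => Nat) (b2263 i) (b2264 i) (Nat.ble (nat_lit 144896) i)) (Nat.ble (nat_lit 144832) i))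

noncomputable def t1182 (i : Nat) : Nat :=
  (@Bool.rec (fun _ => Nat) (b2265 i) (@Bool.rec (fun _ => Nat) (b2266 i) (b2267 i) (Nat.ble (nat_lit 145088) i)) (Nat.ble (nat_lit 145024) i))

noncomputable def t1183 (i : Nat) : Nat :=
  (@Bool.rec (fun _ => Nat) (@Bool.rec (fun _ => Nat) (b2268 i) (b2269 i) (Nat.ble (nat_lit 145216) i)) (b2270 i) (Nat.ble (nat_lit 145280) i))

noncomputable def t1184 (i : Nat) : Nat :=
  (@Bool.rec (fun _ => Nat) (@Bool.rec (fun _ => Nat) (b2271 i) (b2272 i) (Nat.ble (nat_lit 145408) i)) (@Bool.rec (fun _ => Nat) (b2273 i) (b2274 i) (Nat.ble (nat_lit 145536) i)) (Nat.ble (nat_lit 145472) i))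

noncomputable def t1185 (i : Nat) : Nat :=
  (@Bool.rec (fun _ => Nat) (@Bool.rec (fun _ => Nat) (t1181 i) (t1182 i) (Nat.ble (nat_lit 144960) i)) (@Bool.rec (fun _ => Nat) (t1183 i) (t1184 i) (Nat.ble (nat_lit 145344) i)) (Nat.ble (nat_lit 145152) i))

noncomputable def t1186 (i : Nat) : Nat :=
  (@Bool.rec (fun _ => Nat) (@Bool.rec (fun _ => Nat) (t1172 i) (t1176 i) (Nat.ble (nat_lit 143616) i)) (@Bool.rec (fun _ => Nat) (t1180 i) (t1185 i) (Nat.ble (nat_lit 144768) i)) (Nat.ble (nat_lit 144320) i))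

noncomputable def t1187 (i : Nat) : Nat :=
  (@Bool.rec (fun _ => Nat) (@Bool.rec (fun _ => Nat) (b2275 i) (b2276 i) (Nat.ble (nat_lit 145664) i)) (b2277 i) (Nat.ble (nat_lit 145728) i))

noncomputable def t1188 (i : Nat) : Nat :=
  (@Bool.rec (fun _ => Nat) (b2278 i) (@Bool.rec (fun _ => Nat) (b2279 i) (b2280 i) (Nat.ble (nat_lit 145920) i)) (Nat.ble (nat_lit 145856) i))

noncomputable def t1189 (i : Nat) : Nat :=
  (@Bool.rec (fun _ => Nat) (@Bool.rec (fun _ => Nat) (t1187 i) (t1188 i) (Nat.ble (nat_lit 145792) i)) (b2281 i) (Nat.ble (nat_lit 145984) i))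

noncomputable def t1190 (i : Nat) : Nat :=
  (@Bool.rec (fun _ => Nat) (@Bool.rec (fun _ => Nat) (b2282 i) (b2283 i) (Nat.ble (nat_lit 146112) i)) (@Bool.rec (fun _ => Nat) (b2284 i) (b2285 i) (Nat.ble (nat_lit 146240) i)) (Nat.ble (nat_lit 146176) i))

noncomputable def t1191 (i : Nat) : Nat :=
  (@Bool.rec (fun _ => Nat) (b2287 i) (b2288 i) (Nat.ble (nat_lit 146432) i))

noncomputable def t1192 (i : Nat) : Nat :=
  (@Bool.rec (fun _ => Nat) (b2289 i) (b2290 i) (Nat.ble (nat_lit 146560) i))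

noncomputable def t1193 (i : Nat) : Nat :=
  (@Bool.rec (fun _ => Nat) (@Bool.rec (fun _ => Nat) (b2291 i) (b2292 i) (Nat.ble (nat_lit 146688) i)) (b2293 i) (Nat.ble (nat_lit 146752) i))

noncomputable def t1194 (i : Nat) : Nat :=
  (@Bool.rec (fun _ => Nat) (@Bool.rec (fun _ => Nat) (b2286 i) (t1191 i) (Nat.ble (nat_lit 146368) i)) (@Bool.rec (fun _ => Nat) (t1192 i) (t1193 i) (Nat.ble (nat_lit 146624) i)) (Nat.ble (nat_lit 146496) i))

noncomputable def t1195 (i : Nat) : Nat :=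
  (@Bool.rec (fun _ => Nat) (@Bool.rec (fun _ => Nat) (b2294 i) (b2295 i) (Nat.ble (nat_lit 146880) i)) (b2296 i) (Nat.ble (nat_lit 146944) i))

noncomputable def t1196 (i : Nat) : Nat :=
  (@Bool.rec (fun _ => Nat) (b2297 i) (b2298 i) (Nat.ble (nat_lit 147072) i))

noncomputable def t1197 (i : Nat) : Nat :=
  (@Bool.rec (fun _ => Nat) (b2300 i) (b2301 i) (Nat.ble (nat_lit 147264) i))

noncomputable def t1198 (i : Nat) : Nat :=
  (@Bool.rec (fun _ => Nat) (@Bool.rec (fun _ => Nat) (t1195 i) (t1196 i) (Nat.ble (nat_lit 147008) i)) (@Bool.rec (fun _ => Nat) (b2299 i) (t1197 i) (Nat.ble (nat_lit 147200) i)) (Nat.ble (nat_lit 147136) i))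

noncomputable def t1199 (i : Nat) : Nat :=
  (@Bool.rec (fun _ => Nat) (@Bool.rec (fun _ => Nat) (t1189 i) (t1190 i) (Nat.ble (nat_lit 146048) i)) (@Bool.rec (fun _ => Nat) (t1194 i) (t1198 i) (Nat.ble (nat_lit 146816) i)) (Nat.ble (nat_lit 146304) i))

noncomputable def t1200 (i : Nat) : Nat :=
  (@Bool.rec (fun _ => Nat) (b2302 i) (@Bool.rec (fun _ => Nat) (b2303 i) (b2304 i) (Nat.ble (nat_lit 147456) i)) (Nat.ble (nat_lit 147392) i))

noncomputable def t1201 (i : Nat) : Nat :=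
  (@Bool.rec (fun _ => Nat) (b2305 i) (b2306 i) (Nat.ble (nat_lit 147584) i))

noncomputable def t1202 (i : Nat) : Nat :=
  (@Bool.rec (fun _ => Nat) (b2307 i) (b2308 i) (Nat.ble (nat_lit 147712) i))

noncomputable def t1203 (i : Nat) : Nat :=
  (@Bool.rec (fun _ => Nat) (b2309 i) (b2310 i) (Nat.ble (nat_lit 147840) i))

noncomputable def t1204 (i : Nat) : Nat :=
  (@Bool.rec (fun _ => Nat) (@Bool.rec (fun _ => Nat) (t1200 i) (t1201 i) (Nat.ble (nat_lit 147520) i)) (@Bool.rec (fun _ => Nat) (t1202 i) (t1203 i) (Nat.ble (nat_lit 147776) i)) (Nat.ble (nat_lit 147648) i))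

noncomputable def t1205 (i : Nat) : Nat :=
  (@Bool.rec (fun _ => Nat) (b2311 i) (b2312 i) (Nat.ble (nat_lit 147968) i))

noncomputable def t1206 (i : Nat) : Nat :=
  (@Bool.rec (fun _ => Nat) (b2313 i) (b2314 i) (Nat.ble (nat_lit 148096) i))

noncomputable def t1207 (i : Nat) : Nat :=
  (@Bool.rec (fun _ => Nat) (b2315 i) (@Bool.rec (fun _ => Nat) (b2316 i) (b2317 i) (Nat.ble (nat_lit 148288) i)) (Nat.ble (nat_lit 148224) i))

noncomputable def t1208 (i : Nat) : Nat :=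
  (@Bool.rec (fun _ => Nat) (b2318 i) (b2319 i) (Nat.ble (nat_lit 148416) i))

noncomputable def t1209 (i : Nat) : Nat :=
  (@Bool.rec (fun _ => Nat) (@Bool.rec (fun _ => Nat) (t1205 i) (t1206 i) (Nat.ble (nat_lit 148032) i)) (@Bool.rec (fun _ => Nat) (t1207 i) (t1208 i) (Nat.ble (nat_lit 148352) i)) (Nat.ble (nat_lit 148160) i))

noncomputable def t1210 (i : Nat) : Nat :=
  (@Bool.rec (fun _ => Nat) (b2320 i) (@Bool.rec (fun _ => Nat) (b2321 i) (b2322 i) (Nat.ble (nat_lit 148608) i)) (Nat.ble (nat_lit 148544) i))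

noncomputable def t1211 (i : Nat) : Nat :=
  (@Bool.rec (fun _ => Nat) (@Bool.rec (fun _ => Nat) (b2323 i) (b2324 i) (Nat.ble (nat_lit 148736) i)) (b2325 i) (Nat.ble (nat_lit 148800) i))

noncomputable def t1212 (i : Nat) : Nat :=
  (@Bool.rec (fun _ => Nat) (b2326 i) (@Bool.rec (fun _ => Nat) (b2327 i) (b2328 i) (Nat.ble (nat_lit 148992) i)) (Nat.ble (nat_lit 148928) i))

noncomputable def t1213 (i : Nat) : Nat :=
  (@Bool.rec (fun _ => Nat) (b2329 i) (b2330 i) (Nat.ble (nat_lit 149120) i))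

noncomputable def t1214 (i : Nat) : Nat :=
  (@Bool.rec (fun _ => Nat) (@Bool.rec (fun _ => Nat) (t1210 i) (t1211 i) (Nat.ble (nat_lit 148672) i)) (@Bool.rec (fun _ => Nat) (t1212 i) (t1213 i) (Nat.ble (nat_lit 149056) i)) (Nat.ble (nat_lit 148864) i))

noncomputable def t1215 (i : Nat) : Nat :=
  (@Bool.rec (fun _ => Nat) (b2332 i) (b2333 i) (Nat.ble (nat_lit 149312) i))

noncomputable def t1216 (i : Nat) : Nat :=
  (@Bool.rec (fun _ => Nat) (b2335 i) (b2336 i) (Nat.ble (nat_lit 149504) i))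

noncomputable def t1217 (i : Nat) : Nat :=
  (@Bool.rec (fun _ => Nat) (@Bool.rec (fun _ => Nat) (b2331 i) (t1215 i) (Nat.ble (nat_lit 149248) i)) (@Bool.rec (fun _ => Nat) (b2334 i) (t1216 i) (Nat.ble (nat_lit 149440) i)) (Nat.ble (nat_lit 149376) i))

noncomputable def t1218 (i : Nat) : Nat :=
  (@Bool.rec (fun _ => Nat) (@Bool.rec (fun _ => Nat) (t1204 i) (t1209 i) (Nat.ble (nat_lit 147904) i)) (@Bool.rec (fun _ => Nat) (t1214 i) (t1217 i) (Nat.ble (nat_lit 149184) i)) (Nat.ble (nat_lit 148480) i))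

noncomputable def t1219 (i : Nat) : Nat :=
  (@Bool.rec (fun _ => Nat) (@Bool.rec (fun _ => Nat) (t1167 i) (t1186 i) (Nat.ble (nat_lit 142976) i)) (@Bool.rec (fun _ => Nat) (t1199 i) (t1218 i) (Nat.ble (nat_lit 147328) i)) (Nat.ble (nat_lit 145600) i))

noncomputable def t1220 (i : Nat) : Nat :=
  (@Bool.rec (fun _ => Nat) (@Bool.rec (fun _ => Nat) (b2337 i) (b2338 i) (Nat.ble (nat_lit 149632) i)) (b2339 i) (Nat.ble (nat_lit 149696) i))

noncomputable def t1221 (i : Nat) : Nat :=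
  (@Bool.rec (fun _ => Nat) (b2341 i) (b2342 i) (Nat.ble (nat_lit 149888) i))

noncomputable def t1222 (i : Nat) : Nat :=
  (@Bool.rec (fun _ => Nat) (b2343 i) (b2344 i) (Nat.ble (nat_lit 150016) i))

noncomputable def t1223 (i : Nat) : Nat :=
  (@Bool.rec (fun _ => Nat) (@Bool.rec (fun _ => Nat) (t1220 i) (b2340 i) (Nat.ble (nat_lit 149760) i)) (@Bool.rec (fun _ => Nat) (t1221 i) (t1222 i) (Nat.ble (nat_lit 149952) i)) (Nat.ble (nat_lit 149824) i))

noncomputable def t1224 (i : Nat) : Nat :=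
  (@Bool.rec (fun _ => Nat) (@Bool.rec (fun _ => Nat) (b2345 i) (b2346 i) (Nat.ble (nat_lit 150144) i)) (b2347 i) (Nat.ble (nat_lit 150208) i))

noncomputable def t1225 (i : Nat) : Nat :=
  (@Bool.rec (fun _ => Nat) (b2348 i) (@Bool.rec (fun _ => Nat) (b2349 i) (b2350 i) (Nat.ble (nat_lit 150400) i)) (Nat.ble (nat_lit 150336) i))

noncomputable def t1226 (i : Nat) : Nat :=
  (@Bool.rec (fun _ => Nat) (@Bool.rec (fun _ => Nat) (b2351 i) (b2352 i) (Nat.ble (nat_lit 150528) i)) (b2353 i) (Nat.ble (nat_lit 150592) i))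

noncomputable def t1227 (i : Nat) : Nat :=
  (@Bool.rec (fun _ => Nat) (b2354 i) (b2355 i) (Nat.ble (nat_lit 150720) i))

noncomputable def t1228 (i : Nat) : Nat :=
  (@Bool.rec (fun _ => Nat) (@Bool.rec (fun _ => Nat) (t1224 i) (t1225 i) (Nat.ble (nat_lit 150272) i)) (@Bool.rec (fun _ => Nat) (t1226 i) (t1227 i) (Nat.ble (nat_lit 150656) i)) (Nat.ble (nat_lit 150464) i))

noncomputable def t1229 (i : Nat) : Nat :=
  (@Bool.rec (fun _ => Nat) (b2356 i) (b2357 i) (Nat.ble (nat_lit 150848) i))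

noncomputable def t1230 (i : Nat) : Nat :=
  (@Bool.rec (fun _ => Nat) (b2359 i) (b2360 i) (Nat.ble (nat_lit 151040) i))

noncomputable def t1231 (i : Nat) : Nat :=
  (@Bool.rec (fun _ => Nat) (b2361 i) (b2362 i) (Nat.ble (nat_lit 151168) i))

noncomputable def t1232 (i : Nat) : Nat :=
  (@Bool.rec (fun _ => Nat) (@Bool.rec (fun _ => Nat) (t1229 i) (b2358 i) (Nat.ble (nat_lit 150912) i)) (@Bool.rec (fun _ => Nat) (t1230 i) (t1231 i) (Nat.ble (nat_lit 151104) i)) (Nat.ble (nat_lit 150976) i))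

noncomputable def t1233 (i : Nat) : Nat :=
  (@Bool.rec (fun _ => Nat) (b2363 i) (b2364 i) (Nat.ble (nat_lit 151296) i))

noncomputable def t1234 (i : Nat) : Nat :=
  (@Bool.rec (fun _ => Nat) (@Bool.rec (fun _ => Nat) (b2365 i) (b2366 i) (Nat.ble (nat_lit 151424) i)) (b2367 i) (Nat.ble (nat_lit 151488) i))

noncomputable def t1235 (i : Nat) : Nat :=
  (@Bool.rec (fun _ => Nat) (@Bool.rec (fun _ => Nat) (b2368 i) (b2369 i) (Nat.ble (nat_lit 151616) i)) (b2370 i) (Nat.ble (nat_lit 151680) i))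

noncomputable def t1236 (i : Nat) : Nat :=
  (@Bool.rec (fun _ => Nat) (b2371 i) (@Bool.rec (fun _ => Nat) (b2372 i) (b2373 i) (Nat.ble (nat_lit 151872) i)) (Nat.ble (nat_lit 151808) i))

noncomputable def t1237 (i : Nat) : Nat :=
  (@Bool.rec (fun _ => Nat) (@Bool.rec (fun _ => Nat) (t1233 i) (t1234 i) (Nat.ble (nat_lit 151360) i)) (@Bool.rec (fun _ => Nat) (t1235 i) (t1236 i) (Nat.ble (nat_lit 151744) i)) (Nat.ble (nat_lit 151552) i))

noncomputable def t1238 (i : Nat) : Nat :=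
  (@Bool.rec (fun _ => Nat) (@Bool.rec (fun _ => Nat) (t1223 i) (t1228 i) (Nat.ble (nat_lit 150080) i)) (@Bool.rec (fun _ => Nat) (t1232 i) (t1237 i) (Nat.ble (nat_lit 151232) i)) (Nat.ble (nat_lit 150784) i))

noncomputable def t1239 (i : Nat) : Nat :=
  (@Bool.rec (fun _ => Nat) (b2374 i) (b2375 i) (Nat.ble (nat_lit 152000) i))

noncomputable def t1240 (i : Nat) : Nat :=
  (@Bool.rec (fun _ => Nat) (b2376 i) (b2377 i) (Nat.ble (nat_lit 152128) i))

noncomputable def t1241 (i : Nat) : Nat :=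
  (@Bool.rec (fun _ => Nat) (@Bool.rec (fun _ => Nat) (b2378 i) (b2379 i) (Nat.ble (nat_lit 152256) i)) (b2380 i) (Nat.ble (nat_lit 152320) i))

noncomputable def t1242 (i : Nat) : Nat :=
  (@Bool.rec (fun _ => Nat) (@Bool.rec (fun _ => Nat) (b2381 i) (b2382 i) (Nat.ble (nat_lit 152448) i)) (b2383 i) (Nat.ble (nat_lit 152512) i))

noncomputable def t1243 (i : Nat) : Nat :=
  (@Bool.rec (fun _ => Nat) (@Bool.rec (fun _ => Nat) (t1239 i) (t1240 i) (Nat.ble (nat_lit 152064) i)) (@Bool.rec (fun _ => Nat) (t1241 i) (t1242 i) (Nat.ble (nat_lit 152384) i)) (Nat.ble (nat_lit 152192) i))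

noncomputable def t1244 (i : Nat) : Nat :=
  (@Bool.rec (fun _ => Nat) (b2384 i) (@Bool.rec (fun _ => Nat) (b2385 i) (b2386 i) (Nat.ble (nat_lit 152704) i)) (Nat.ble (nat_lit 152640) i))

noncomputable def t1245 (i : Nat) : Nat :=
  (@Bool.rec (fun _ => Nat) (b2387 i) (b2388 i) (Nat.ble (nat_lit 152832) i))

noncomputable def t1246 (i : Nat) : Nat :=
  (@Bool.rec (fun _ => Nat) (@Bool.rec (fun _ => Nat) (b2389 i) (b2390 i) (Nat.ble (nat_lit 152960) i)) (@Bool.rec (fun _ => Nat) (b2391 i) (b2392 i) (Nat.ble (nat_lit 153088) i)) (Nat.ble (nat_lit 153024) i))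

noncomputable def t1247 (i : Nat) : Nat :=
  (@Bool.rec (fun _ => Nat) (@Bool.rec (fun _ => Nat) (b2393 i) (b2394 i) (Nat.ble (nat_lit 153216) i)) (b2395 i) (Nat.ble (nat_lit 153280) i))

noncomputable def t1248 (i : Nat) : Nat :=
  (@Bool.rec (fun _ => Nat) (@Bool.rec (fun _ => Nat) (t1244 i) (t1245 i) (Nat.ble (nat_lit 152768) i)) (@Bool.rec (fun _ => Nat) (t1246 i) (t1247 i) (Nat.ble (nat_lit 153152) i)) (Nat.ble (nat_lit 152896) i))

noncomputable def t1249 (i : Nat) : Nat :=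
  (@Bool.rec (fun _ => Nat) (@Bool.rec (fun _ => Nat) (b2396 i) (b2397 i) (Nat.ble (nat_lit 153408) i)) (b2398 i) (Nat.ble (nat_lit 153472) i))

noncomputable def t1250 (i : Nat) : Nat :=
  (@Bool.rec (fun _ => Nat) (@Bool.rec (fun _ => Nat) (b2399 i) (b2400 i) (Nat.ble (nat_lit 153600) i)) (b2401 i) (Nat.ble (nat_lit 153664) i))

noncomputable def t1251 (i : Nat) : Nat :=
  (@Bool.rec (fun _ => Nat) (b2402 i) (b2403 i) (Nat.ble (nat_lit 153792) i))

noncomputable def t1252 (i : Nat) : Nat :=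
  (@Bool.rec (fun _ => Nat) (b2404 i) (b2405 i) (Nat.ble (nat_lit 153920) i))

noncomputable def t1253 (i : Nat) : Nat :=
  (@Bool.rec (fun _ => Nat) (@Bool.rec (fun _ => Nat) (t1249 i) (t1250 i) (Nat.ble (nat_lit 153536) i)) (@Bool.rec (fun _ => Nat) (t1251 i) (t1252 i) (Nat.ble (nat_lit 153856) i)) (Nat.ble (nat_lit 153728) i))

noncomputable def t1254 (i : Nat) : Nat :=
  (@Bool.rec (fun _ => Nat) (b2406 i) (@Bool.rec (fun _ => Nat) (b2407 i) (b2408 i) (Nat.ble (nat_lit 154112) i)) (Nat.ble (nat_lit 154048) i))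

noncomputable def t1255 (i : Nat) : Nat :=
  (@Bool.rec (fun _ => Nat) (@Bool.rec (fun _ => Nat) (b2409 i) (b2410 i) (Nat.ble (nat_lit 154240) i)) (@Bool.rec (fun _ => Nat) (b2411 i) (b2412 i) (Nat.ble (nat_lit 154368) i)) (Nat.ble (nat_lit 154304) i))

noncomputable def t1256 (i : Nat) : Nat :=
  (@Bool.rec (fun _ => Nat) (b2413 i) (@Bool.rec (fun _ => Nat) (b2414 i) (b2415 i) (Nat.ble (nat_lit 154560) i)) (Nat.ble (nat_lit 154496) i))

noncomputable def t1257 (i : Nat) : Nat :=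
  (@Bool.rec (fun _ => Nat) (@Bool.rec (fun _ => Nat) (b2416 i) (b2417 i) (Nat.ble (nat_lit 154688) i)) (b2418 i) (Nat.ble (nat_lit 154752) i))

noncomputable def t1258 (i : Nat) : Nat :=
  (@Bool.rec (fun _ => Nat) (@Bool.rec (fun _ => Nat) (t1254 i) (t1255 i) (Nat.ble (nat_lit 154176) i)) (@Bool.rec (fun _ => Nat) (t1256 i) (t1257 i) (Nat.ble (nat_lit 154624) i)) (Nat.ble (nat_lit 154432) i))

noncomputable def t1259 (i : Nat) : Nat :=
  (@Bool.rec (fun _ => Nat) (@Bool.rec (fun _ => Nat) (t1243 i) (t1248 i) (Nat.ble (nat_lit 152576) i)) (@Bool.rec (fun _ => Nat) (t1253 i) (t1258 i) (Nat.ble (nat_lit 153984) i)) (Nat.ble (nat_lit 153344) i))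

noncomputable def t1260 (i : Nat) : Nat :=
  (@Bool.rec (fun _ => Nat) (b2420 i) (b2421 i) (Nat.ble (nat_lit 154944) i))

noncomputable def t1261 (i : Nat) : Nat :=
  (@Bool.rec (fun _ => Nat) (b2422 i) (b2423 i) (Nat.ble (nat_lit 155072) i))

noncomputable def t1262 (i : Nat) : Nat :=
  (@Bool.rec (fun _ => Nat) (b2424 i) (@Bool.rec (fun _ => Nat) (b2425 i) (b2426 i) (Nat.ble (nat_lit 155264) i)) (Nat.ble (nat_lit 155200) i))

noncomputable def t1263 (i : Nat) : Nat :=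
  (@Bool.rec (fun _ => Nat) (@Bool.rec (fun _ => Nat) (b2419 i) (t1260 i) (Nat.ble (nat_lit 154880) i)) (@Bool.rec (fun _ => Nat) (t1261 i) (t1262 i) (Nat.ble (nat_lit 155136) i)) (Nat.ble (nat_lit 155008) i))

noncomputable def t1264 (i : Nat) : Nat :=
  (@Bool.rec (fun _ => Nat) (b2427 i) (b2428 i) (Nat.ble (nat_lit 155392) i))

noncomputable def t1265 (i : Nat) : Nat :=
  (@Bool.rec (fun _ => Nat) (b2429 i) (b2430 i) (Nat.ble (nat_lit 155520) i))

noncomputable def t1266 (i : Nat) : Nat :=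
  (@Bool.rec (fun _ => Nat) (b2432 i) (b2433 i) (Nat.ble (nat_lit 155712) i))

noncomputable def t1267 (i : Nat) : Nat :=
  (@Bool.rec (fun _ => Nat) (@Bool.rec (fun _ => Nat) (t1264 i) (t1265 i) (Nat.ble (nat_lit 155456) i)) (@Bool.rec (fun _ => Nat) (b2431 i) (t1266 i) (Nat.ble (nat_lit 155648) i)) (Nat.ble (nat_lit 155584) i))

noncomputable def t1268 (i : Nat) : Nat :=
  (@Bool.rec (fun _ => Nat) (b2434 i) (b2435 i) (Nat.ble (nat_lit 155840) i))

noncomputable def t1269 (i : Nat) : Nat :=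
  (@Bool.rec (fun _ => Nat) (b2436 i) (@Bool.rec (fun _ => Nat) (b2437 i) (b2438 i) (Nat.ble (nat_lit 156032) i)) (Nat.ble (nat_lit 155968) i))

noncomputable def t1270 (i : Nat) : Nat :=
  (@Bool.rec (fun _ => Nat) (@Bool.rec (fun _ => Nat) (b2439 i) (b2440 i) (Nat.ble (nat_lit 156160) i)) (b2441 i) (Nat.ble (nat_lit 156224) i))

noncomputable def t1271 (i : Nat) : Nat :=
  (@Bool.rec (fun _ => Nat) (b2442 i) (b2443 i) (Nat.ble (nat_lit 156352) i))

noncomputable def t1272 (i : Nat) : Nat :=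
  (@Bool.rec (fun _ => Nat) (@Bool.rec (fun _ => Nat) (t1268 i) (t1269 i) (Nat.ble (nat_lit 155904) i)) (@Bool.rec (fun _ => Nat) (t1270 i) (t1271 i) (Nat.ble (nat_lit 156288) i)) (Nat.ble (nat_lit 156096) i))

noncomputable def t1273 (i : Nat) : Nat :=
  (@Bool.rec (fun _ => Nat) (b2444 i) (@Bool.rec (fun _ => Nat) (b2445 i) (b2446 i) (Nat.ble (nat_lit 156544) i)) (Nat.ble (nat_lit 156480) i))

noncomputable def t1274 (i : Nat) : Nat :=
  (@Bool.rec (fun _ => Nat) (b2447 i) (b2448 i) (Nat.ble (nat_lit 156672) i))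

noncomputable def t1275 (i : Nat) : Nat :=
  (@Bool.rec (fun _ => Nat) (b2449 i) (b2450 i) (Nat.ble (nat_lit 156800) i))

noncomputable def t1276 (i : Nat) : Nat :=
  (@Bool.rec (fun _ => Nat) (@Bool.rec (fun _ => Nat) (t1273 i) (t1274 i) (Nat.ble (nat_lit 156608) i)) (@Bool.rec (fun _ => Nat) (t1275 i) (b2451 i) (Nat.ble (nat_lit 156864) i)) (Nat.ble (nat_lit 156736) i))

noncomputable def t1277 (i : Nat) : Nat :=
  (@Bool.rec (fun _ => Nat) (@Bool.rec (fun _ => Nat) (t1263 i) (t1267 i) (Nat.ble (nat_lit 155328) i)) (@Bool.rec (fun _ => Nat) (t1272 i) (t1276 i) (Nat.ble (nat_lit 156416) i)) (Nat.ble (nat_lit 155776) i))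

noncomputable def t1278 (i : Nat) : Nat :=
  (@Bool.rec (fun _ => Nat) (b2453 i) (b2454 i) (Nat.ble (nat_lit 157056) i))

noncomputable def t1279 (i : Nat) : Nat :=
  (@Bool.rec (fun _ => Nat) (@Bool.rec (fun _ => Nat) (t1278 i) (b2455 i) (Nat.ble (nat_lit 157120) i)) (@Bool.rec (fun _ => Nat) (b2456 i) (b2457 i) (Nat.ble (nat_lit 157248) i)) (Nat.ble (nat_lit 157184) i))

noncomputable def t1280 (i : Nat) : Nat :=
  (@Bool.rec (fun _ => Nat) (b2458 i) (@Bool.rec (fun _ => Nat) (b2459 i) (b2460 i) (Nat.ble (nat_lit 157440) i)) (Nat.ble (nat_lit 157376) i))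

noncomputable def t1281 (i : Nat) : Nat :=
  (@Bool.rec (fun _ => Nat) (b2452 i) (@Bool.rec (fun _ => Nat) (t1279 i) (t1280 i) (Nat.ble (nat_lit 157312) i)) (Nat.ble (nat_lit 156992) i))

noncomputable def t1282 (i : Nat) : Nat :=
  (@Bool.rec (fun _ => Nat) (@Bool.rec (fun _ => Nat) (t1238 i) (t1259 i) (Nat.ble (nat_lit 151936) i)) (@Bool.rec (fun _ => Nat) (t1277 i) (t1281 i) (Nat.ble (nat_lit 156928) i)) (Nat.ble (nat_lit 154816) i))

noncomputable def t1283 (i : Nat) : Nat :=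
  (@Bool.rec (fun _ => Nat) (@Bool.rec (fun _ => Nat) (t1079 i) (t1151 i) (Nat.ble (nat_lit 132224) i)) (@Bool.rec (fun _ => Nat) (t1219 i) (t1282 i) (Nat.ble (nat_lit 149568) i)) (Nat.ble (nat_lit 140928) i))

noncomputable def t1284 (i : Nat) : Nat :=
  (@Bool.rec (fun _ => Nat) (@Bool.rec (fun _ => Nat) (b2461 i) (b2462 i) (Nat.ble (nat_lit 157568) i)) (b2463 i) (Nat.ble (nat_lit 157632) i))

noncomputable def t1285 (i : Nat) : Nat :=
  (@Bool.rec (fun _ => Nat) (b2466 i) (b2467 i) (Nat.ble (nat_lit 157888) i))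

noncomputable def t1286 (i : Nat) : Nat :=
  (@Bool.rec (fun _ => Nat) (b2468 i) (b2469 i) (Nat.ble (nat_lit 158016) i))

noncomputable def t1287 (i : Nat) : Nat :=
  (@Bool.rec (fun _ => Nat) (@Bool.rec (fun _ => Nat) (b2464 i) (b2465 i) (Nat.ble (nat_lit 157760) i)) (@Bool.rec (fun _ => Nat) (t1285 i) (t1286 i) (Nat.ble (nat_lit 157952) i)) (Nat.ble (nat_lit 157824) i))

noncomputable def t1288 (i : Nat) : Nat :=
  (@Bool.rec (fun _ => Nat) (b2470 i) (@Bool.rec (fun _ => Nat) (b2471 i) (b2472 i) (Nat.ble (nat_lit 158208) i)) (Nat.ble (nat_lit 158144) i))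

noncomputable def t1289 (i : Nat) : Nat :=
  (@Bool.rec (fun _ => Nat) (@Bool.rec (fun _ => Nat) (b2473 i) (b2474 i) (Nat.ble (nat_lit 158336) i)) (b2475 i) (Nat.ble (nat_lit 158400) i))

noncomputable def t1290 (i : Nat) : Nat :=
  (@Bool.rec (fun _ => Nat) (b2476 i) (b2477 i) (Nat.ble (nat_lit 158528) i))

noncomputable def t1291 (i : Nat) : Nat :=
  (@Bool.rec (fun _ => Nat) (@Bool.rec (fun _ => Nat) (t1289 i) (t1290 i) (Nat.ble (nat_lit 158464) i)) (b2478 i) (Nat.ble (nat_lit 158592) i))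

noncomputable def t1292 (i : Nat) : Nat :=
  (@Bool.rec (fun _ => Nat) (@Bool.rec (fun _ => Nat) (t1284 i) (t1287 i) (Nat.ble (nat_lit 157696) i)) (@Bool.rec (fun _ => Nat) (t1288 i) (t1291 i) (Nat.ble (nat_lit 158272) i)) (Nat.ble (nat_lit 158080) i))

noncomputable def t1293 (i : Nat) : Nat :=
  (@Bool.rec (fun _ => Nat) (@Bool.rec (fun _ => Nat) (b2479 i) (b2480 i) (Nat.ble (nat_lit 158720) i)) (b2481 i) (Nat.ble (nat_lit 158784) i))

noncomputable def t1294 (i : Nat) : Nat :=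
  (@Bool.rec (fun _ => Nat) (b2482 i) (b2483 i) (Nat.ble (nat_lit 158912) i))

noncomputable def t1295 (i : Nat) : Nat :=
  (@Bool.rec (fun _ => Nat) (b2484 i) (b2485 i) (Nat.ble (nat_lit 159040) i))

noncomputable def t1296 (i : Nat) : Nat :=
  (@Bool.rec (fun _ => Nat) (b2486 i) (b2487 i) (Nat.ble (nat_lit 159168) i))

noncomputable def t1297 (i : Nat) : Nat :=
  (@Bool.rec (fun _ => Nat) (@Bool.rec (fun _ => Nat) (t1293 i) (t1294 i) (Nat.ble (nat_lit 158848) i)) (@Bool.rec (fun _ => Nat) (t1295 i) (t1296 i) (Nat.ble (nat_lit 159104) i)) (Nat.ble (nat_lit 158976) i))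

noncomputable def t1298 (i : Nat) : Nat :=
  (@Bool.rec (fun _ => Nat) (b2489 i) (b2490 i) (Nat.ble (nat_lit 159360) i))

noncomputable def t1299 (i : Nat) : Nat :=
  (@Bool.rec (fun _ => Nat) (b2491 i) (b2492 i) (Nat.ble (nat_lit 159488) i))

noncomputable def t1300 (i : Nat) : Nat :=
  (@Bool.rec (fun _ => Nat) (b2493 i) (b2494 i) (Nat.ble (nat_lit 159616) i))

noncomputable def t1301 (i : Nat) : Nat :=
  (@Bool.rec (fun _ => Nat) (@Bool.rec (fun _ => Nat) (b2488 i) (t1298 i) (Nat.ble (nat_lit 159296) i)) (@Bool.rec (fun _ => Nat) (t1299 i) (t1300 i) (Nat.ble (nat_lit 159552) i)) (Nat.ble (nat_lit 159424) i))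

noncomputable def t1302 (i : Nat) : Nat :=
  (@Bool.rec (fun _ => Nat) (b2495 i) (b2496 i) (Nat.ble (nat_lit 159744) i))

noncomputable def t1303 (i : Nat) : Nat :=
  (@Bool.rec (fun _ => Nat) (b2497 i) (@Bool.rec (fun _ => Nat) (b2498 i) (b2499 i) (Nat.ble (nat_lit 159936) i)) (Nat.ble (nat_lit 159872) i))

noncomputable def t1304 (i : Nat) : Nat :=
  (@Bool.rec (fun _ => Nat) (b2500 i) (b2501 i) (Nat.ble (nat_lit 160064) i))

noncomputable def t1305 (i : Nat) : Nat :=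
  (@Bool.rec (fun _ => Nat) (b2502 i) (b2503 i) (Nat.ble (nat_lit 160192) i))

noncomputable def t1306 (i : Nat) : Nat :=
  (@Bool.rec (fun _ => Nat) (@Bool.rec (fun _ => Nat) (t1302 i) (t1303 i) (Nat.ble (nat_lit 159808) i)) (@Bool.rec (fun _ => Nat) (t1304 i) (t1305 i) (Nat.ble (nat_lit 160128) i)) (Nat.ble (nat_lit 160000) i))

noncomputable def t1307 (i : Nat) : Nat :=
  (@Bool.rec (fun _ => Nat) (b2504 i) (@Bool.rec (fun _ => Nat) (b2505 i) (b2506 i) (Nat.ble (nat_lit 160384) i)) (Nat.ble (nat_lit 160320) i))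

noncomputable def t1308 (i : Nat) : Nat :=
  (@Bool.rec (fun _ => Nat) (b2508 i) (b2509 i) (Nat.ble (nat_lit 160576) i))

noncomputable def t1309 (i : Nat) : Nat :=
  (@Bool.rec (fun _ => Nat) (@Bool.rec (fun _ => Nat) (t1307 i) (b2507 i) (Nat.ble (nat_lit 160448) i)) (@Bool.rec (fun _ => Nat) (t1308 i) (b2510 i) (Nat.ble (nat_lit 160640) i)) (Nat.ble (nat_lit 160512) i))

noncomputable def t1310 (i : Nat) : Nat :=
  (@Bool.rec (fun _ => Nat) (@Bool.rec (fun _ => Nat) (t1297 i) (t1301 i) (Nat.ble (nat_lit 159232) i)) (@Bool.rec (fun _ => Nat) (t1306 i) (t1309 i) (Nat.ble (nat_lit 160256) i)) (Nat.ble (nat_lit 159680) i))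

noncomputable def t1311 (i : Nat) : Nat :=
  (@Bool.rec (fun _ => Nat) (b2511 i) (b2512 i) (Nat.ble (nat_lit 160768) i))

noncomputable def t1312 (i : Nat) : Nat :=
  (@Bool.rec (fun _ => Nat) (b2513 i) (b2514 i) (Nat.ble (nat_lit 160896) i))

noncomputable def t1313 (i : Nat) : Nat :=
  (@Bool.rec (fun _ => Nat) (@Bool.rec (fun _ => Nat) (t1311 i) (t1312 i) (Nat.ble (nat_lit 160832) i)) (@Bool.rec (fun _ => Nat) (b2515 i) (b2516 i) (Nat.ble (nat_lit 161024) i)) (Nat.ble (nat_lit 160960) i))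

noncomputable def t1314 (i : Nat) : Nat :=
  (@Bool.rec (fun _ => Nat) (b2518 i) (b2519 i) (Nat.ble (nat_lit 161216) i))

noncomputable def t1315 (i : Nat) : Nat :=
  (@Bool.rec (fun _ => Nat) (b2521 i) (b2522 i) (Nat.ble (nat_lit 161408) i))

noncomputable def t1316 (i : Nat) : Nat :=
  (@Bool.rec (fun _ => Nat) (@Bool.rec (fun _ => Nat) (b2517 i) (t1314 i) (Nat.ble (nat_lit 161152) i)) (@Bool.rec (fun _ => Nat) (b2520 i) (t1315 i) (Nat.ble (nat_lit 161344) i)) (Nat.ble (nat_lit 161280) i))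

noncomputable def t1317 (i : Nat) : Nat :=
  (@Bool.rec (fun _ => Nat) (b2524 i) (b2525 i) (Nat.ble (nat_lit 161600) i))

noncomputable def t1318 (i : Nat) : Nat :=
  (@Bool.rec (fun _ => Nat) (b2523 i) (@Bool.rec (fun _ => Nat) (t1317 i) (b2526 i) (Nat.ble (nat_lit 161664) i)) (Nat.ble (nat_lit 161536) i))

noncomputable def t1319 (i : Nat) : Nat :=
  (@Bool.rec (fun _ => Nat) (b2528 i) (b2529 i) (Nat.ble (nat_lit 161856) i))

noncomputable def t1320 (i : Nat) : Nat :=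
  (@Bool.rec (fun _ => Nat) (b2530 i) (b2531 i) (Nat.ble (nat_lit 161984) i))

noncomputable def t1321 (i : Nat) : Nat :=
  (@Bool.rec (fun _ => Nat) (b2532 i) (@Bool.rec (fun _ => Nat) (b2533 i) (b2534 i) (Nat.ble (nat_lit 162176) i)) (Nat.ble (nat_lit 162112) i))

noncomputable def t1322 (i : Nat) : Nat :=
  (@Bool.rec (fun _ => Nat) (@Bool.rec (fun _ => Nat) (b2527 i) (t1319 i) (Nat.ble (nat_lit 161792) i)) (@Bool.rec (fun _ => Nat) (t1320 i) (t1321 i) (Nat.ble (nat_lit 162048) i)) (Nat.ble (nat_lit 161920) i))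

noncomputable def t1323 (i : Nat) : Nat :=
  (@Bool.rec (fun _ => Nat) (@Bool.rec (fun _ => Nat) (t1313 i) (t1316 i) (Nat.ble (nat_lit 161088) i)) (@Bool.rec (fun _ => Nat) (t1318 i) (t1322 i) (Nat.ble (nat_lit 161728) i)) (Nat.ble (nat_lit 161472) i))

noncomputable def t1324 (i : Nat) : Nat :=
  (@Bool.rec (fun _ => Nat) (b2535 i) (@Bool.rec (fun _ => Nat) (b2536 i) (b2537 i) (Nat.ble (nat_lit 162368) i)) (Nat.ble (nat_lit 162304) i))

noncomputable def t1325 (i : Nat) : Nat :=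
  (@Bool.rec (fun _ => Nat) (b2538 i) (b2539 i) (Nat.ble (nat_lit 162496) i))

noncomputable def t1326 (i : Nat) : Nat :=
  (@Bool.rec (fun _ => Nat) (b2540 i) (b2541 i) (Nat.ble (nat_lit 162624) i))

noncomputable def t1327 (i : Nat) : Nat :=
  (@Bool.rec (fun _ => Nat) (b2542 i) (b2543 i) (Nat.ble (nat_lit 162752) i))

noncomputable def t1328 (i : Nat) : Nat :=
  (@Bool.rec (fun _ => Nat) (@Bool.rec (fun _ => Nat) (t1324 i) (t1325 i) (Nat.ble (nat_lit 162432) i)) (@Bool.rec (fun _ => Nat) (t1326 i) (t1327 i) (Nat.ble (nat_lit 162688) i)) (Nat.ble (nat_lit 162560) i))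

noncomputable def t1329 (i : Nat) : Nat :=
  (@Bool.rec (fun _ => Nat) (b2545 i) (b2546 i) (Nat.ble (nat_lit 162944) i))

noncomputable def t1330 (i : Nat) : Nat :=
  (@Bool.rec (fun _ => Nat) (@Bool.rec (fun _ => Nat) (b2547 i) (b2548 i) (Nat.ble (nat_lit 163072) i)) (@Bool.rec (fun _ => Nat) (b2549 i) (b2550 i) (Nat.ble (nat_lit 163200) i)) (Nat.ble (nat_lit 163136) i))

noncomputable def t1331 (i : Nat) : Nat :=
  (@Bool.rec (fun _ => Nat) (@Bool.rec (fun _ => Nat) (b2551 i) (b2552 i) (Nat.ble (nat_lit 163328) i)) (b2553 i) (Nat.ble (nat_lit 163392) i))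

noncomputable def t1332 (i : Nat) : Nat :=
  (@Bool.rec (fun _ => Nat) (@Bool.rec (fun _ => Nat) (b2544 i) (t1329 i) (Nat.ble (nat_lit 162880) i)) (@Bool.rec (fun _ => Nat) (t1330 i) (t1331 i) (Nat.ble (nat_lit 163264) i)) (Nat.ble (nat_lit 163008) i))

noncomputable def t1333 (i : Nat) : Nat :=
  (@Bool.rec (fun _ => Nat) (b2554 i) (b2555 i) (Nat.ble (nat_lit 163520) i))

noncomputable def t1334 (i : Nat) : Nat :=
  (@Bool.rec (fun _ => Nat) (@Bool.rec (fun _ => Nat) (b2556 i) (b2557 i) (Nat.ble (nat_lit 163648) i)) (@Bool.rec (fun _ => Nat) (b2558 i) (b2559 i) (Nat.ble (nat_lit 163776) i)) (Nat.ble (nat_lit 163712) i))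

noncomputable def t1335 (i : Nat) : Nat :=
  (@Bool.rec (fun _ => Nat) (b2561 i) (b2562 i) (Nat.ble (nat_lit 163968) i))

noncomputable def t1336 (i : Nat) : Nat :=
  (@Bool.rec (fun _ => Nat) (@Bool.rec (fun _ => Nat) (t1333 i) (t1334 i) (Nat.ble (nat_lit 163584) i)) (@Bool.rec (fun _ => Nat) (b2560 i) (t1335 i) (Nat.ble (nat_lit 163904) i)) (Nat.ble (nat_lit 163840) i))

noncomputable def t1337 (i : Nat) : Nat :=
  (@Bool.rec (fun _ => Nat) (b2563 i) (b2564 i) (Nat.ble (nat_lit 164096) i))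

noncomputable def t1338 (i : Nat) : Nat :=
  (@Bool.rec (fun _ => Nat) (b2565 i) (b2566 i) (Nat.ble (nat_lit 164224) i))

noncomputable def t1339 (i : Nat) : Nat :=
  (@Bool.rec (fun _ => Nat) (b2568 i) (@Bool.rec (fun _ => Nat) (b2569 i) (b2570 i) (Nat.ble (nat_lit 164480) i)) (Nat.ble (nat_lit 164416) i))

noncomputable def t1340 (i : Nat) : Nat :=
  (@Bool.rec (fun _ => Nat) (@Bool.rec (fun _ => Nat) (t1337 i) (t1338 i) (Nat.ble (nat_lit 164160) i)) (@Bool.rec (fun _ => Nat) (b2567 i) (t1339 i) (Nat.ble (nat_lit 164352) i)) (Nat.ble (nat_lit 164288) i))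

noncomputable def t1341 (i : Nat) : Nat :=
  (@Bool.rec (fun _ => Nat) (@Bool.rec (fun _ => Nat) (t1328 i) (t1332 i) (Nat.ble (nat_lit 162816) i)) (@Bool.rec (fun _ => Nat) (t1336 i) (t1340 i) (Nat.ble (nat_lit 164032) i)) (Nat.ble (nat_lit 163456) i))

noncomputable def t1342 (i : Nat) : Nat :=
  (@Bool.rec (fun _ => Nat) (@Bool.rec (fun _ => Nat) (t1292 i) (t1310 i) (Nat.ble (nat_lit 158656) i)) (@Bool.rec (fun _ => Nat) (t1323 i) (t1341 i) (Nat.ble (nat_lit 162240) i)) (Nat.ble (nat_lit 160704) i))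

noncomputable def t1343 (i : Nat) : Nat :=
  (@Bool.rec (fun _ => Nat) (b2572 i) (b2573 i) (Nat.ble (nat_lit 164672) i))

noncomputable def t1344 (i : Nat) : Nat :=
  (@Bool.rec (fun _ => Nat) (b2574 i) (b2575 i) (Nat.ble (nat_lit 164800) i))

noncomputable def t1345 (i : Nat) : Nat :=
  (@Bool.rec (fun _ => Nat) (b2576 i) (@Bool.rec (fun _ => Nat) (b2577 i) (b2578 i) (Nat.ble (nat_lit 164992) i)) (Nat.ble (nat_lit 164928) i))

noncomputable def t1346 (i : Nat) : Nat :=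
  (@Bool.rec (fun _ => Nat) (@Bool.rec (fun _ => Nat) (b2571 i) (t1343 i) (Nat.ble (nat_lit 164608) i)) (@Bool.rec (fun _ => Nat) (t1344 i) (t1345 i) (Nat.ble (nat_lit 164864) i)) (Nat.ble (nat_lit 164736) i))

noncomputable def t1347 (i : Nat) : Nat :=
  (@Bool.rec (fun _ => Nat) (@Bool.rec (fun _ => Nat) (b2579 i) (b2580 i) (Nat.ble (nat_lit 165120) i)) (b2581 i) (Nat.ble (nat_lit 165184) i))

noncomputable def t1348 (i : Nat) : Nat :=
  (@Bool.rec (fun _ => Nat) (b2582 i) (b2583 i) (Nat.ble (nat_lit 165312) i))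

noncomputable def t1349 (i : Nat) : Nat :=
  (@Bool.rec (fun _ => Nat) (@Bool.rec (fun _ => Nat) (b2584 i) (b2585 i) (Nat.ble (nat_lit 165440) i)) (b2586 i) (Nat.ble (nat_lit 165504) i))

noncomputable def t1350 (i : Nat) : Nat :=
  (@Bool.rec (fun _ => Nat) (b2587 i) (@Bool.rec (fun _ => Nat) (b2588 i) (b2589 i) (Nat.ble (nat_lit 165696) i)) (Nat.ble (nat_lit 165632) i))

noncomputable def t1351 (i : Nat) : Nat :=
  (@Bool.rec (fun _ => Nat) (@Bool.rec (fun _ => Nat) (t1347 i) (t1348 i) (Nat.ble (nat_lit 165248) i)) (@Bool.rec (fun _ => Nat) (t1349 i) (t1350 i) (Nat.ble (nat_lit 165568) i)) (Nat.ble (nat_lit 165376) i))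

noncomputable def t1352 (i : Nat) : Nat :=
  (@Bool.rec (fun _ => Nat) (@Bool.rec (fun _ => Nat) (b2590 i) (b2591 i) (Nat.ble (nat_lit 165824) i)) (@Bool.rec (fun _ => Nat) (b2592 i) (b2593 i) (Nat.ble (nat_lit 165952) i)) (Nat.ble (nat_lit 165888) i))

noncomputable def t1353 (i : Nat) : Nat :=
  (@Bool.rec (fun _ => Nat) (b2594 i) (@Bool.rec (fun _ => Nat) (b2595 i) (b2596 i) (Nat.ble (nat_lit 166144) i)) (Nat.ble (nat_lit 166080) i))

noncomputable def t1354 (i : Nat) : Nat :=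
  (@Bool.rec (fun _ => Nat) (@Bool.rec (fun _ => Nat) (b2597 i) (b2598 i) (Nat.ble (nat_lit 166272) i)) (b2599 i) (Nat.ble (nat_lit 166336) i))

noncomputable def t1355 (i : Nat) : Nat :=
  (@Bool.rec (fun _ => Nat) (b2600 i) (b2601 i) (Nat.ble (nat_lit 166464) i))

noncomputable def t1356 (i : Nat) : Nat :=
  (@Bool.rec (fun _ => Nat) (@Bool.rec (fun _ => Nat) (t1352 i) (t1353 i) (Nat.ble (nat_lit 166016) i)) (@Bool.rec (fun _ => Nat) (t1354 i) (t1355 i) (Nat.ble (nat_lit 166400) i)) (Nat.ble (nat_lit 166208) i))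

noncomputable def t1357 (i : Nat) : Nat :=
  (@Bool.rec (fun _ => Nat) (b2602 i) (@Bool.rec (fun _ => Nat) (b2603 i) (b2604 i) (Nat.ble (nat_lit 166656) i)) (Nat.ble (nat_lit 166592) i))

noncomputable def t1358 (i : Nat) : Nat :=
  (@Bool.rec (fun _ => Nat) (@Bool.rec (fun _ => Nat) (b2605 i) (b2606 i) (Nat.ble (nat_lit 166784) i)) (b2607 i) (Nat.ble (nat_lit 166848) i))

noncomputable def t1359 (i : Nat) : Nat :=
  (@Bool.rec (fun _ => Nat) (b2608 i) (b2609 i) (Nat.ble (nat_lit 166976) i))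

noncomputable def t1360 (i : Nat) : Nat :=
  (@Bool.rec (fun _ => Nat) (@Bool.rec (fun _ => Nat) (b2610 i) (b2611 i) (Nat.ble (nat_lit 167104) i)) (b2612 i) (Nat.ble (nat_lit 167168) i))

noncomputable def t1361 (i : Nat) : Nat :=
  (@Bool.rec (fun _ => Nat) (@Bool.rec (fun _ => Nat) (t1357 i) (t1358 i) (Nat.ble (nat_lit 166720) i)) (@Bool.rec (fun _ => Nat) (t1359 i) (t1360 i) (Nat.ble (nat_lit 167040) i)) (Nat.ble (nat_lit 166912) i))

noncomputable def t1362 (i : Nat) : Nat :=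
  (@Bool.rec (fun _ => Nat) (@Bool.rec (fun _ => Nat) (t1346 i) (t1351 i) (Nat.ble (nat_lit 165056) i)) (@Bool.rec (fun _ => Nat) (t1356 i) (t1361 i) (Nat.ble (nat_lit 166528) i)) (Nat.ble (nat_lit 165760) i))

noncomputable def t1363 (i : Nat) : Nat :=
  (@Bool.rec (fun _ => Nat) (b2613 i) (b2614 i) (Nat.ble (nat_lit 167296) i))

noncomputable def t1364 (i : Nat) : Nat :=
  (@Bool.rec (fun _ => Nat) (@Bool.rec (fun _ => Nat) (b2615 i) (b2616 i) (Nat.ble (nat_lit 167424) i)) (b2617 i) (Nat.ble (nat_lit 167488) i))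

noncomputable def t1365 (i : Nat) : Nat :=
  (@Bool.rec (fun _ => Nat) (@Bool.rec (fun _ => Nat) (b2618 i) (b2619 i) (Nat.ble (nat_lit 167616) i)) (b2620 i) (Nat.ble (nat_lit 167680) i))

noncomputable def t1366 (i : Nat) : Nat :=
  (@Bool.rec (fun _ => Nat) (b2621 i) (@Bool.rec (fun _ => Nat) (b2622 i) (b2623 i) (Nat.ble (nat_lit 167872) i)) (Nat.ble (nat_lit 167808) i))

noncomputable def t1367 (i : Nat) : Nat :=
  (@Bool.rec (fun _ => Nat) (@Bool.rec (fun _ => Nat) (t1363 i) (t1364 i) (Nat.ble (nat_lit 167360) i)) (@Bool.rec (fun _ => Nat) (t1365 i) (t1366 i) (Nat.ble (nat_lit 167744) i)) (Nat.ble (nat_lit 167552) i))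

noncomputable def t1368 (i : Nat) : Nat :=
  (@Bool.rec (fun _ => Nat) (b2624 i) (b2625 i) (Nat.ble (nat_lit 168000) i))

noncomputable def t1369 (i : Nat) : Nat :=
  (@Bool.rec (fun _ => Nat) (b2626 i) (@Bool.rec (fun _ => Nat) (b2627 i) (b2628 i) (Nat.ble (nat_lit 168192) i)) (Nat.ble (nat_lit 168128) i))

noncomputable def t1370 (i : Nat) : Nat :=
  (@Bool.rec (fun _ => Nat) (b2629 i) (@Bool.rec (fun _ => Nat) (b2630 i) (b2631 i) (Nat.ble (nat_lit 168384) i)) (Nat.ble (nat_lit 168320) i))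

noncomputable def t1371 (i : Nat) : Nat :=
  (@Bool.rec (fun _ => Nat) (b2632 i) (@Bool.rec (fun _ => Nat) (b2633 i) (b2634 i) (Nat.ble (nat_lit 168576) i)) (Nat.ble (nat_lit 168512) i))

noncomputable def t1372 (i : Nat) : Nat :=
  (@Bool.rec (fun _ => Nat) (@Bool.rec (fun _ => Nat) (t1368 i) (t1369 i) (Nat.ble (nat_lit 168064) i)) (@Bool.rec (fun _ => Nat) (t1370 i) (t1371 i) (Nat.ble (nat_lit 168448) i)) (Nat.ble (nat_lit 168256) i))

noncomputable def t1373 (i : Nat) : Nat :=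
  (@Bool.rec (fun _ => Nat) (@Bool.rec (fun _ => Nat) (b2635 i) (b2636 i) (Nat.ble (nat_lit 168704) i)) (b2637 i) (Nat.ble (nat_lit 168768) i))

noncomputable def t1374 (i : Nat) : Nat :=
  (@Bool.rec (fun _ => Nat) (@Bool.rec (fun _ => Nat) (b2638 i) (b2639 i) (Nat.ble (nat_lit 168896) i)) (b2640 i) (Nat.ble (nat_lit 168960) i))

noncomputable def t1375 (i : Nat) : Nat :=
  (@Bool.rec (fun _ => Nat) (b2641 i) (@Bool.rec (fun _ => Nat) (b2642 i) (b2643 i) (Nat.ble (nat_lit 169152) i)) (Nat.ble (nat_lit 169088) i))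

noncomputable def t1376 (i : Nat) : Nat :=
  (@Bool.rec (fun _ => Nat) (@Bool.rec (fun _ => Nat) (b2644 i) (b2645 i) (Nat.ble (nat_lit 169280) i)) (b2646 i) (Nat.ble (nat_lit 169344) i))

noncomputable def t1377 (i : Nat) : Nat :=
  (@Bool.rec (fun _ => Nat) (@Bool.rec (fun _ => Nat) (t1373 i) (t1374 i) (Nat.ble (nat_lit 168832) i)) (@Bool.rec (fun _ => Nat) (t1375 i) (t1376 i) (Nat.ble (nat_lit 169216) i)) (Nat.ble (nat_lit 169024) i))

noncomputable def t1378 (i : Nat) : Nat :=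
  (@Bool.rec (fun _ => Nat) (b2647 i) (@Bool.rec (fun _ => Nat) (b2648 i) (b2649 i) (Nat.ble (nat_lit 169536) i)) (Nat.ble (nat_lit 169472) i))

noncomputable def t1379 (i : Nat) : Nat :=
  (@Bool.rec (fun _ => Nat) (@Bool.rec (fun _ => Nat) (b2650 i) (b2651 i) (Nat.ble (nat_lit 169664) i)) (@Bool.rec (fun _ => Nat) (b2652 i) (b2653 i) (Nat.ble (nat_lit 169792) i)) (Nat.ble (nat_lit 169728) i))

noncomputable def t1380 (i : Nat) : Nat :=
  (@Bool.rec (fun _ => Nat) (@Bool.rec (fun _ => Nat) (b2654 i) (b2655 i) (Nat.ble (nat_lit 169920) i)) (b2656 i) (Nat.ble (nat_lit 169984) i))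

noncomputable def t1381 (i : Nat) : Nat :=
  (@Bool.rec (fun _ => Nat) (@Bool.rec (fun _ => Nat) (b2657 i) (b2658 i) (Nat.ble (nat_lit 170112) i)) (b2659 i) (Nat.ble (nat_lit 170176) i))

noncomputable def t1382 (i : Nat) : Nat :=
  (@Bool.rec (fun _ => Nat) (@Bool.rec (fun _ => Nat) (t1378 i) (t1379 i) (Nat.ble (nat_lit 169600) i)) (@Bool.rec (fun _ => Nat) (t1380 i) (t1381 i) (Nat.ble (nat_lit 170048) i)) (Nat.ble (nat_lit 169856) i))

noncomputable def t1383 (i : Nat) : Nat :=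
  (@Bool.rec (fun _ => Nat) (@Bool.rec (fun _ => Nat) (t1367 i) (t1372 i) (Nat.ble (nat_lit 167936) i)) (@Bool.rec (fun _ => Nat) (t1377 i) (t1382 i) (Nat.ble (nat_lit 169408) i)) (Nat.ble (nat_lit 168640) i))

noncomputable def t1384 (i : Nat) : Nat :=
  (@Bool.rec (fun _ => Nat) (b2660 i) (b2661 i) (Nat.ble (nat_lit 170304) i))

noncomputable def t1385 (i : Nat) : Nat :=
  (@Bool.rec (fun _ => Nat) (b2662 i) (b2663 i) (Nat.ble (nat_lit 170432) i))

noncomputable def t1386 (i : Nat) : Nat :=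
  (@Bool.rec (fun _ => Nat) (b2664 i) (b2665 i) (Nat.ble (nat_lit 170560) i))

noncomputable def t1387 (i : Nat) : Nat :=
  (@Bool.rec (fun _ => Nat) (@Bool.rec (fun _ => Nat) (b2666 i) (b2667 i) (Nat.ble (nat_lit 170688) i)) (b2668 i) (Nat.ble (nat_lit 170752) i))

noncomputable def t1388 (i : Nat) : Nat :=
  (@Bool.rec (fun _ => Nat) (@Bool.rec (fun _ => Nat) (t1384 i) (t1385 i) (Nat.ble (nat_lit 170368) i)) (@Bool.rec (fun _ => Nat) (t1386 i) (t1387 i) (Nat.ble (nat_lit 170624) i)) (Nat.ble (nat_lit 170496) i))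

noncomputable def t1389 (i : Nat) : Nat :=
  (@Bool.rec (fun _ => Nat) (b2669 i) (b2670 i) (Nat.ble (nat_lit 170880) i))

noncomputable def t1390 (i : Nat) : Nat :=
  (@Bool.rec (fun _ => Nat) (@Bool.rec (fun _ => Nat) (b2671 i) (b2672 i) (Nat.ble (nat_lit 171008) i)) (b2673 i) (Nat.ble (nat_lit 171072) i))

noncomputable def t1391 (i : Nat) : Nat :=
  (@Bool.rec (fun _ => Nat) (@Bool.rec (fun _ => Nat) (b2674 i) (b2675 i) (Nat.ble (nat_lit 171200) i)) (b2676 i) (Nat.ble (nat_lit 171264) i))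

noncomputable def t1392 (i : Nat) : Nat :=
  (@Bool.rec (fun _ => Nat) (b2677 i) (@Bool.rec (fun _ => Nat) (b2678 i) (b2679 i) (Nat.ble (nat_lit 171456) i)) (Nat.ble (nat_lit 171392) i))

noncomputable def t1393 (i : Nat) : Nat :=
  (@Bool.rec (fun _ => Nat) (@Bool.rec (fun _ => Nat) (t1389 i) (t1390 i) (Nat.ble (nat_lit 170944) i)) (@Bool.rec (fun _ => Nat) (t1391 i) (t1392 i) (Nat.ble (nat_lit 171328) i)) (Nat.ble (nat_lit 171136) i))

noncomputable def t1394 (i : Nat) : Nat :=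
  (@Bool.rec (fun _ => Nat) (b2680 i) (b2681 i) (Nat.ble (nat_lit 171584) i))

noncomputable def t1395 (i : Nat) : Nat :=
  (@Bool.rec (fun _ => Nat) (b2682 i) (@Bool.rec (fun _ => Nat) (b2683 i) (b2684 i) (Nat.ble (nat_lit 171776) i)) (Nat.ble (nat_lit 171712) i))

noncomputable def t1396 (i : Nat) : Nat :=
  (@Bool.rec (fun _ => Nat) (b2685 i) (b2686 i) (Nat.ble (nat_lit 171904) i))

noncomputable def t1397 (i : Nat) : Nat :=
  (@Bool.rec (fun _ => Nat) (@Bool.rec (fun _ => Nat) (b2687 i) (b2688 i) (Nat.ble (nat_lit 172032) i)) (b2689 i) (Nat.ble (nat_lit 172096) i))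

noncomputable def t1398 (i : Nat) : Nat :=
  (@Bool.rec (fun _ => Nat) (@Bool.rec (fun _ => Nat) (t1394 i) (t1395 i) (Nat.ble (nat_lit 171648) i)) (@Bool.rec (fun _ => Nat) (t1396 i) (t1397 i) (Nat.ble (nat_lit 171968) i)) (Nat.ble (nat_lit 171840) i))

noncomputable def t1399 (i : Nat) : Nat :=
  (@Bool.rec (fun _ => Nat) (b2690 i) (@Bool.rec (fun _ => Nat) (b2691 i) (b2692 i) (Nat.ble (nat_lit 172288) i)) (Nat.ble (nat_lit 172224) i))

noncomputable def t1400 (i : Nat) : Nat :=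
  (@Bool.rec (fun _ => Nat) (@Bool.rec (fun _ => Nat) (b2693 i) (b2694 i) (Nat.ble (nat_lit 172416) i)) (b2695 i) (Nat.ble (nat_lit 172480) i))

noncomputable def t1401 (i : Nat) : Nat :=
  (@Bool.rec (fun _ => Nat) (@Bool.rec (fun _ => Nat) (b2696 i) (b2697 i) (Nat.ble (nat_lit 172608) i)) (b2698 i) (Nat.ble (nat_lit 172672) i))

noncomputable def t1402 (i : Nat) : Nat :=
  (@Bool.rec (fun _ => Nat) (b2699 i) (@Bool.rec (fun _ => Nat) (b2700 i) (b2701 i) (Nat.ble (nat_lit 172864) i)) (Nat.ble (nat_lit 172800) i))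

noncomputable def t1403 (i : Nat) : Nat :=
  (@Bool.rec (fun _ => Nat) (@Bool.rec (fun _ => Nat) (t1399 i) (t1400 i) (Nat.ble (nat_lit 172352) i)) (@Bool.rec (fun _ => Nat) (t1401 i) (t1402 i) (Nat.ble (nat_lit 172736) i)) (Nat.ble (nat_lit 172544) i))

noncomputable def t1404 (i : Nat) : Nat :=
  (@Bool.rec (fun _ => Nat) (@Bool.rec (fun _ => Nat) (t1388 i) (t1393 i) (Nat.ble (nat_lit 170816) i)) (@Bool.rec (fun _ => Nat) (t1398 i) (t1403 i) (Nat.ble (nat_lit 172160) i)) (Nat.ble (nat_lit 171520) i))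

noncomputable def t1405 (i : Nat) : Nat :=
  (@Bool.rec (fun _ => Nat) (@Bool.rec (fun _ => Nat) (b2702 i) (b2703 i) (Nat.ble (nat_lit 172992) i)) (b2704 i) (Nat.ble (nat_lit 173056) i))

noncomputable def t1406 (i : Nat) : Nat :=
  (@Bool.rec (fun _ => Nat) (@Bool.rec (fun _ => Nat) (b2705 i) (b2706 i) (Nat.ble (nat_lit 173184) i)) (b2707 i) (Nat.ble (nat_lit 173248) i))

noncomputable def t1407 (i : Nat) : Nat :=
  (@Bool.rec (fun _ => Nat) (b2708 i) (b2709 i) (Nat.ble (nat_lit 173376) i))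

noncomputable def t1408 (i : Nat) : Nat :=
  (@Bool.rec (fun _ => Nat) (b2710 i) (@Bool.rec (fun _ => Nat) (b2711 i) (b2712 i) (Nat.ble (nat_lit 173568) i)) (Nat.ble (nat_lit 173504) i))

noncomputable def t1409 (i : Nat) : Nat :=
  (@Bool.rec (fun _ => Nat) (@Bool.rec (fun _ => Nat) (t1405 i) (t1406 i) (Nat.ble (nat_lit 173120) i)) (@Bool.rec (fun _ => Nat) (t1407 i) (t1408 i) (Nat.ble (nat_lit 173440) i)) (Nat.ble (nat_lit 173312) i))

noncomputable def t1410 (i : Nat) : Nat :=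
  (@Bool.rec (fun _ => Nat) (@Bool.rec (fun _ => Nat) (b2713 i) (b2714 i) (Nat.ble (nat_lit 173696) i)) (@Bool.rec (fun _ => Nat) (b2715 i) (b2716 i) (Nat.ble (nat_lit 173824) i)) (Nat.ble (nat_lit 173760) i))

noncomputable def t1411 (i : Nat) : Nat :=
  (@Bool.rec (fun _ => Nat) (@Bool.rec (fun _ => Nat) (b2717 i) (b2718 i) (Nat.ble (nat_lit 173952) i)) (b2719 i) (Nat.ble (nat_lit 174016) i))

noncomputable def t1412 (i : Nat) : Nat :=
  (@Bool.rec (fun _ => Nat) (b2720 i) (@Bool.rec (fun _ => Nat) (b2721 i) (b2722 i) (Nat.ble (nat_lit 174208) i)) (Nat.ble (nat_lit 174144) i))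

noncomputable def t1413 (i : Nat) : Nat :=
  (@Bool.rec (fun _ => Nat) (b2723 i) (b2724 i) (Nat.ble (nat_lit 174336) i))

noncomputable def t1414 (i : Nat) : Nat :=
  (@Bool.rec (fun _ => Nat) (@Bool.rec (fun _ => Nat) (t1410 i) (t1411 i) (Nat.ble (nat_lit 173888) i)) (@Bool.rec (fun _ => Nat) (t1412 i) (t1413 i) (Nat.ble (nat_lit 174272) i)) (Nat.ble (nat_lit 174080) i))

noncomputable def t1415 (i : Nat) : Nat :=
  (@Bool.rec (fun _ => Nat) (@Bool.rec (fun _ => Nat) (b2725 i) (b2726 i) (Nat.ble (nat_lit 174464) i)) (b2727 i) (Nat.ble (nat_lit 174528) i))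

noncomputable def t1416 (i : Nat) : Nat :=
  (@Bool.rec (fun _ => Nat) (b2728 i) (b2729 i) (Nat.ble (nat_lit 174656) i))

noncomputable def t1417 (i : Nat) : Nat :=
  (@Bool.rec (fun _ => Nat) (@Bool.rec (fun _ => Nat) (b2730 i) (b2731 i) (Nat.ble (nat_lit 174784) i)) (@Bool.rec (fun _ => Nat) (b2732 i) (b2733 i) (Nat.ble (nat_lit 174912) i)) (Nat.ble (nat_lit 174848) i))

noncomputable def t1418 (i : Nat) : Nat :=
  (@Bool.rec (fun _ => Nat) (@Bool.rec (fun _ => Nat) (b2734 i) (b2735 i) (Nat.ble (nat_lit 175040) i)) (b2736 i) (Nat.ble (nat_lit 175104) i))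

noncomputable def t1419 (i : Nat) : Nat :=
  (@Bool.rec (fun _ => Nat) (@Bool.rec (fun _ => Nat) (t1415 i) (t1416 i) (Nat.ble (nat_lit 174592) i)) (@Bool.rec (fun _ => Nat) (t1417 i) (t1418 i) (Nat.ble (nat_lit 174976) i)) (Nat.ble (nat_lit 174720) i))

noncomputable def t1420 (i : Nat) : Nat :=
  (@Bool.rec (fun _ => Nat) (@Bool.rec (fun _ => Nat) (b2737 i) (b2738 i) (Nat.ble (nat_lit 175232) i)) (@Bool.rec (fun _ => Nat) (b2739 i) (b2740 i) (Nat.ble (nat_lit 175360) i)) (Nat.ble (nat_lit 175296) i))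

noncomputable def t1421 (i : Nat) : Nat :=
  (@Bool.rec (fun _ => Nat) (b2741 i) (@Bool.rec (fun _ => Nat) (b2742 i) (b2743 i) (Nat.ble (nat_lit 175552) i)) (Nat.ble (nat_lit 175488) i))

noncomputable def t1422 (i : Nat) : Nat :=
  (@Bool.rec (fun _ => Nat) (@Bool.rec (fun _ => Nat) (b2744 i) (b2745 i) (Nat.ble (nat_lit 175680) i)) (@Bool.rec (fun _ => Nat) (b2746 i) (b2747 i) (Nat.ble (nat_lit 175808) i)) (Nat.ble (nat_lit 175744) i))

noncomputable def t1423 (i : Nat) : Nat :=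
  (@Bool.rec (fun _ => Nat) (b2748 i) (@Bool.rec (fun _ => Nat) (b2749 i) (b2750 i) (Nat.ble (nat_lit 176000) i)) (Nat.ble (nat_lit 175936) i))

noncomputable def t1424 (i : Nat) : Nat :=
  (@Bool.rec (fun _ => Nat) (@Bool.rec (fun _ => Nat) (t1420 i) (t1421 i) (Nat.ble (nat_lit 175424) i)) (@Bool.rec (fun _ => Nat) (t1422 i) (t1423 i) (Nat.ble (nat_lit 175872) i)) (Nat.ble (nat_lit 175616) i))

noncomputable def t1425 (i : Nat) : Nat :=
  (@Bool.rec (fun _ => Nat) (@Bool.rec (fun _ => Nat) (t1409 i) (t1414 i) (Nat.ble (nat_lit 173632) i)) (@Bool.rec (fun _ => Nat) (t1419 i) (t1424 i) (Nat.ble (nat_lit 175168) i)) (Nat.ble (nat_lit 174400) i))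

noncomputable def t1426 (i : Nat) : Nat :=
  (@Bool.rec (fun _ => Nat) (@Bool.rec (fun _ => Nat) (t1362 i) (t1383 i) (Nat.ble (nat_lit 167232) i)) (@Bool.rec (fun _ => Nat) (t1404 i) (t1425 i) (Nat.ble (nat_lit 172928) i)) (Nat.ble (nat_lit 170240) i))

noncomputable def t1427 (i : Nat) : Nat :=
  (@Bool.rec (fun _ => Nat) (b2751 i) (@Bool.rec (fun _ => Nat) (b2752 i) (b2753 i) (Nat.ble (nat_lit 176192) i)) (Nat.ble (nat_lit 176128) i))

noncomputable def t1428 (i : Nat) : Nat :=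
  (@Bool.rec (fun _ => Nat) (@Bool.rec (fun _ => Nat) (b2754 i) (b2755 i) (Nat.ble (nat_lit 176320) i)) (@Bool.rec (fun _ => Nat) (b2756 i) (b2757 i) (Nat.ble (nat_lit 176448) i)) (Nat.ble (nat_lit 176384) i))

noncomputable def t1429 (i : Nat) : Nat :=
  (@Bool.rec (fun _ => Nat) (b2758 i) (@Bool.rec (fun _ => Nat) (b2759 i) (b2760 i) (Nat.ble (nat_lit 176640) i)) (Nat.ble (nat_lit 176576) i))

noncomputable def t1430 (i : Nat) : Nat :=
  (@Bool.rec (fun _ => Nat) (@Bool.rec (fun _ => Nat) (b2761 i) (b2762 i) (Nat.ble (nat_lit 176768) i)) (b2763 i) (Nat.ble (nat_lit 176832) i))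

noncomputable def t1431 (i : Nat) : Nat :=
  (@Bool.rec (fun _ => Nat) (@Bool.rec (fun _ => Nat) (t1427 i) (t1428 i) (Nat.ble (nat_lit 176256) i)) (@Bool.rec (fun _ => Nat) (t1429 i) (t1430 i) (Nat.ble (nat_lit 176704) i)) (Nat.ble (nat_lit 176512) i))

noncomputable def t1432 (i : Nat) : Nat :=
  (@Bool.rec (fun _ => Nat) (@Bool.rec (fun _ => Nat) (b2764 i) (b2765 i) (Nat.ble (nat_lit 176960) i)) (b2766 i) (Nat.ble (nat_lit 177024) i))

noncomputable def t1433 (i : Nat) : Nat :=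
  (@Bool.rec (fun _ => Nat) (b2767 i) (@Bool.rec (fun _ => Nat) (b2768 i) (b2769 i) (Nat.ble (nat_lit 177216) i)) (Nat.ble (nat_lit 177152) i))

noncomputable def t1434 (i : Nat) : Nat :=
  (@Bool.rec (fun _ => Nat) (b2770 i) (b2771 i) (Nat.ble (nat_lit 177344) i))

noncomputable def t1435 (i : Nat) : Nat :=
  (@Bool.rec (fun _ => Nat) (b2772 i) (b2773 i) (Nat.ble (nat_lit 177472) i))

noncomputable def t1436 (i : Nat) : Nat :=
  (@Bool.rec (fun _ => Nat) (@Bool.rec (fun _ => Nat) (t1432 i) (t1433 i) (Nat.ble (nat_lit 177088) i)) (@Bool.rec (fun _ => Nat) (t1434 i) (t1435 i) (Nat.ble (nat_lit 177408) i)) (Nat.ble (nat_lit 177280) i))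

noncomputable def t1437 (i : Nat) : Nat :=
  (@Bool.rec (fun _ => Nat) (b2774 i) (b2775 i) (Nat.ble (nat_lit 177600) i))

noncomputable def t1438 (i : Nat) : Nat :=
  (@Bool.rec (fun _ => Nat) (b2776 i) (b2777 i) (Nat.ble (nat_lit 177728) i))

noncomputable def t1439 (i : Nat) : Nat :=
  (@Bool.rec (fun _ => Nat) (b2779 i) (b2780 i) (Nat.ble (nat_lit 177920) i))

noncomputable def t1440 (i : Nat) : Nat :=
  (@Bool.rec (fun _ => Nat) (@Bool.rec (fun _ => Nat) (t1437 i) (t1438 i) (Nat.ble (nat_lit 177664) i)) (@Bool.rec (fun _ => Nat) (b2778 i) (t1439 i) (Nat.ble (nat_lit 177856) i)) (Nat.ble (nat_lit 177792) i))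

noncomputable def t1441 (i : Nat) : Nat :=
  (@Bool.rec (fun _ => Nat) (@Bool.rec (fun _ => Nat) (b2781 i) (b2782 i) (Nat.ble (nat_lit 178048) i)) (b2783 i) (Nat.ble (nat_lit 178112) i))

noncomputable def t1442 (i : Nat) : Nat :=
  (@Bool.rec (fun _ => Nat) (b2784 i) (b2785 i) (Nat.ble (nat_lit 178240) i))

noncomputable def t1443 (i : Nat) : Nat :=
  (@Bool.rec (fun _ => Nat) (b2786 i) (@Bool.rec (fun _ => Nat) (b2787 i) (b2788 i) (Nat.ble (nat_lit 178432) i)) (Nat.ble (nat_lit 178368) i))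

noncomputable def t1444 (i : Nat) : Nat :=
  (@Bool.rec (fun _ => Nat) (@Bool.rec (fun _ => Nat) (b2789 i) (b2790 i) (Nat.ble (nat_lit 178560) i)) (@Bool.rec (fun _ => Nat) (b2791 i) (b2792 i) (Nat.ble (nat_lit 178688) i)) (Nat.ble (nat_lit 178624) i))

noncomputable def t1445 (i : Nat) : Nat :=
  (@Bool.rec (fun _ => Nat) (@Bool.rec (fun _ => Nat) (t1441 i) (t1442 i) (Nat.ble (nat_lit 178176) i)) (@Bool.rec (fun _ => Nat) (t1443 i) (t1444 i) (Nat.ble (nat_lit 178496) i)) (Nat.ble (nat_lit 178304) i))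

noncomputable def t1446 (i : Nat) : Nat :=
  (@Bool.rec (fun _ => Nat) (@Bool.rec (fun _ => Nat) (t1431 i) (t1436 i) (Nat.ble (nat_lit 176896) i)) (@Bool.rec (fun _ => Nat) (t1440 i) (t1445 i) (Nat.ble (nat_lit 177984) i)) (Nat.ble (nat_lit 177536) i))

noncomputable def t1447 (i : Nat) : Nat :=
  (@Bool.rec (fun _ => Nat) (b2793 i) (b2794 i) (Nat.ble (nat_lit 178816) i))

noncomputable def t1448 (i : Nat) : Nat :=
  (@Bool.rec (fun _ => Nat) (b2795 i) (b2796 i) (Nat.ble (nat_lit 178944) i))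

noncomputable def t1449 (i : Nat) : Nat :=
  (@Bool.rec (fun _ => Nat) (@Bool.rec (fun _ => Nat) (b2797 i) (b2798 i) (Nat.ble (nat_lit 179072) i)) (b2799 i) (Nat.ble (nat_lit 179136) i))

noncomputable def t1450 (i : Nat) : Nat :=
  (@Bool.rec (fun _ => Nat) (@Bool.rec (fun _ => Nat) (b2800 i) (b2801 i) (Nat.ble (nat_lit 179264) i)) (@Bool.rec (fun _ => Nat) (b2802 i) (b2803 i) (Nat.ble (nat_lit 179392) i)) (Nat.ble (nat_lit 179328) i))

noncomputable def t1451 (i : Nat) : Nat :=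
  (@Bool.rec (fun _ => Nat) (@Bool.rec (fun _ => Nat) (t1447 i) (t1448 i) (Nat.ble (nat_lit 178880) i)) (@Bool.rec (fun _ => Nat) (t1449 i) (t1450 i) (Nat.ble (nat_lit 179200) i)) (Nat.ble (nat_lit 179008) i))

noncomputable def t1452 (i : Nat) : Nat :=
  (@Bool.rec (fun _ => Nat) (@Bool.rec (fun _ => Nat) (b2804 i) (b2805 i) (Nat.ble (nat_lit 179520) i)) (b2806 i) (Nat.ble (nat_lit 179584) i))

noncomputable def t1453 (i : Nat) : Nat :=
  (@Bool.rec (fun _ => Nat) (@Bool.rec (fun _ => Nat) (b2807 i) (b2808 i) (Nat.ble (nat_lit 179712) i)) (b2809 i) (Nat.ble (nat_lit 179776) i))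

noncomputable def t1454 (i : Nat) : Nat :=
  (@Bool.rec (fun _ => Nat) (b2810 i) (b2811 i) (Nat.ble (nat_lit 179904) i))

noncomputable def t1455 (i : Nat) : Nat :=
  (@Bool.rec (fun _ => Nat) (b2812 i) (@Bool.rec (fun _ => Nat) (b2813 i) (b2814 i) (Nat.ble (nat_lit 180096) i)) (Nat.ble (nat_lit 180032) i))

noncomputable def t1456 (i : Nat) : Nat :=
  (@Bool.rec (fun _ => Nat) (@Bool.rec (fun _ => Nat) (t1452 i) (t1453 i) (Nat.ble (nat_lit 179648) i)) (@Bool.rec (fun _ => Nat) (t1454 i) (t1455 i) (Nat.ble (nat_lit 179968) i)) (Nat.ble (nat_lit 179840) i))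

noncomputable def t1457 (i : Nat) : Nat :=
  (@Bool.rec (fun _ => Nat) (@Bool.rec (fun _ => Nat) (b2815 i) (b2816 i) (Nat.ble (nat_lit 180224) i)) (b2817 i) (Nat.ble (nat_lit 180288) i))

noncomputable def t1458 (i : Nat) : Nat :=
  (@Bool.rec (fun _ => Nat) (@Bool.rec (fun _ => Nat) (b2818 i) (b2819 i) (Nat.ble (nat_lit 180416) i)) (@Bool.rec (fun _ => Nat) (b2820 i) (b2821 i) (Nat.ble (nat_lit 180544) i)) (Nat.ble (nat_lit 180480) i))

noncomputable def t1459 (i : Nat) : Nat :=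
  (@Bool.rec (fun _ => Nat) (b2822 i) (b2823 i) (Nat.ble (nat_lit 180672) i))

noncomputable def t1460 (i : Nat) : Nat :=
  (@Bool.rec (fun _ => Nat) (@Bool.rec (fun _ => Nat) (t1457 i) (t1458 i) (Nat.ble (nat_lit 180352) i)) (@Bool.rec (fun _ => Nat) (t1459 i) (b2824 i) (Nat.ble (nat_lit 180736) i)) (Nat.ble (nat_lit 180608) i))

noncomputable def t1461 (i : Nat) : Nat :=
  (@Bool.rec (fun _ => Nat) (b2825 i) (@Bool.rec (fun _ => Nat) (b2826 i) (b2827 i) (Nat.ble (nat_lit 180928) i)) (Nat.ble (nat_lit 180864) i))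

noncomputable def t1462 (i : Nat) : Nat :=
  (@Bool.rec (fun _ => Nat) (@Bool.rec (fun _ => Nat) (t1451 i) (t1456 i) (Nat.ble (nat_lit 179456) i)) (@Bool.rec (fun _ => Nat) (t1460 i) (t1461 i) (Nat.ble (nat_lit 180800) i)) (Nat.ble (nat_lit 180160) i))

noncomputable def t1463 (i : Nat) : Nat :=
  (@Bool.rec (fun _ => Nat) (b2829 i) (b2830 i) (Nat.ble (nat_lit 181120) i))

noncomputable def t1464 (i : Nat) : Nat :=
  (@Bool.rec (fun _ => Nat) (@Bool.rec (fun _ => Nat) (b2828 i) (t1463 i) (Nat.ble (nat_lit 181056) i)) (@Bool.rec (fun _ => Nat) (b2831 i) (b2832 i) (Nat.ble (nat_lit 181248) i)) (Nat.ble (nat_lit 181184) i))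

noncomputable def t1465 (i : Nat) : Nat :=
  (@Bool.rec (fun _ => Nat) (b2833 i) (b2834 i) (Nat.ble (nat_lit 181376) i))

noncomputable def t1466 (i : Nat) : Nat :=
  (@Bool.rec (fun _ => Nat) (b2836 i) (b2837 i) (Nat.ble (nat_lit 181568) i))

noncomputable def t1467 (i : Nat) : Nat :=
  (@Bool.rec (fun _ => Nat) (b2838 i) (@Bool.rec (fun _ => Nat) (b2839 i) (b2840 i) (Nat.ble (nat_lit 181760) i)) (Nat.ble (nat_lit 181696) i))

noncomputable def t1468 (i : Nat) : Nat :=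
  (@Bool.rec (fun _ => Nat) (@Bool.rec (fun _ => Nat) (t1465 i) (b2835 i) (Nat.ble (nat_lit 181440) i)) (@Bool.rec (fun _ => Nat) (t1466 i) (t1467 i) (Nat.ble (nat_lit 181632) i)) (Nat.ble (nat_lit 181504) i))

noncomputable def t1469 (i : Nat) : Nat :=
  (@Bool.rec (fun _ => Nat) (b2841 i) (b2842 i) (Nat.ble (nat_lit 181888) i))

noncomputable def t1470 (i : Nat) : Nat :=
  (@Bool.rec (fun _ => Nat) (b2843 i) (@Bool.rec (fun _ => Nat) (b2844 i) (b2845 i) (Nat.ble (nat_lit 182080) i)) (Nat.ble (nat_lit 182016) i))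

noncomputable def t1471 (i : Nat) : Nat :=
  (@Bool.rec (fun _ => Nat) (b2846 i) (@Bool.rec (fun _ => Nat) (b2847 i) (b2848 i) (Nat.ble (nat_lit 182272) i)) (Nat.ble (nat_lit 182208) i))

noncomputable def t1472 (i : Nat) : Nat :=
  (@Bool.rec (fun _ => Nat) (@Bool.rec (fun _ => Nat) (b2849 i) (b2850 i) (Nat.ble (nat_lit 182400) i)) (@Bool.rec (fun _ => Nat) (b2851 i) (b2852 i) (Nat.ble (nat_lit 182528) i)) (Nat.ble (nat_lit 182464) i))

noncomputable def t1473 (i : Nat) : Nat :=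
  (@Bool.rec (fun _ => Nat) (@Bool.rec (fun _ => Nat) (t1469 i) (t1470 i) (Nat.ble (nat_lit 181952) i)) (@Bool.rec (fun _ => Nat) (t1471 i) (t1472 i) (Nat.ble (nat_lit 182336) i)) (Nat.ble (nat_lit 182144) i))

noncomputable def t1474 (i : Nat) : Nat :=
  (@Bool.rec (fun _ => Nat) (@Bool.rec (fun _ => Nat) (b2853 i) (b2854 i) (Nat.ble (nat_lit 182656) i)) (b2855 i) (Nat.ble (nat_lit 182720) i))

noncomputable def t1475 (i : Nat) : Nat :=
  (@Bool.rec (fun _ => Nat) (b2856 i) (b2857 i) (Nat.ble (nat_lit 182848) i))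

noncomputable def t1476 (i : Nat) : Nat :=
  (@Bool.rec (fun _ => Nat) (@Bool.rec (fun _ => Nat) (b2858 i) (b2859 i) (Nat.ble (nat_lit 182976) i)) (b2860 i) (Nat.ble (nat_lit 183040) i))

noncomputable def t1477 (i : Nat) : Nat :=
  (@Bool.rec (fun _ => Nat) (b2861 i) (@Bool.rec (fun _ => Nat) (b2862 i) (b2863 i) (Nat.ble (nat_lit 183232) i)) (Nat.ble (nat_lit 183168) i))

noncomputable def t1478 (i : Nat) : Nat :=
  (@Bool.rec (fun _ => Nat) (@Bool.rec (fun _ => Nat) (t1474 i) (t1475 i) (Nat.ble (nat_lit 182784) i)) (@Bool.rec (fun _ => Nat) (t1476 i) (t1477 i) (Nat.ble (nat_lit 183104) i)) (Nat.ble (nat_lit 182912) i))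

noncomputable def t1479 (i : Nat) : Nat :=
  (@Bool.rec (fun _ => Nat) (@Bool.rec (fun _ => Nat) (t1464 i) (t1468 i) (Nat.ble (nat_lit 181312) i)) (@Bool.rec (fun _ => Nat) (t1473 i) (t1478 i) (Nat.ble (nat_lit 182592) i)) (Nat.ble (nat_lit 181824) i))

noncomputable def t1480 (i : Nat) : Nat :=
  (@Bool.rec (fun _ => Nat) (b2864 i) (b2865 i) (Nat.ble (nat_lit 183360) i))

noncomputable def t1481 (i : Nat) : Nat :=
  (@Bool.rec (fun _ => Nat) (b2866 i) (b2867 i) (Nat.ble (nat_lit 183488) i))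

noncomputable def t1482 (i : Nat) : Nat :=
  (@Bool.rec (fun _ => Nat) (@Bool.rec (fun _ => Nat) (b2868 i) (b2869 i) (Nat.ble (nat_lit 183616) i)) (b2870 i) (Nat.ble (nat_lit 183680) i))

noncomputable def t1483 (i : Nat) : Nat :=
  (@Bool.rec (fun _ => Nat) (b2871 i) (b2872 i) (Nat.ble (nat_lit 183808) i))

noncomputable def t1484 (i : Nat) : Nat :=
  (@Bool.rec (fun _ => Nat) (@Bool.rec (fun _ => Nat) (t1480 i) (t1481 i) (Nat.ble (nat_lit 183424) i)) (@Bool.rec (fun _ => Nat) (t1482 i) (t1483 i) (Nat.ble (nat_lit 183744) i)) (Nat.ble (nat_lit 183552) i))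

noncomputable def t1485 (i : Nat) : Nat :=
  (@Bool.rec (fun _ => Nat) (@Bool.rec (fun _ => Nat) (b2873 i) (b2874 i) (Nat.ble (nat_lit 183936) i)) (@Bool.rec (fun _ => Nat) (b2875 i) (b2876 i) (Nat.ble (nat_lit 184064) i)) (Nat.ble (nat_lit 184000) i))

noncomputable def t1486 (i : Nat) : Nat :=
  (@Bool.rec (fun _ => Nat) (b2877 i) (@Bool.rec (fun _ => Nat) (b2878 i) (b2879 i) (Nat.ble (nat_lit 184256) i)) (Nat.ble (nat_lit 184192) i))

noncomputable def t1487 (i : Nat) : Nat :=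
  (@Bool.rec (fun _ => Nat) (b2880 i) (b2881 i) (Nat.ble (nat_lit 184384) i))

noncomputable def t1488 (i : Nat) : Nat :=
  (@Bool.rec (fun _ => Nat) (@Bool.rec (fun _ => Nat) (b2882 i) (b2883 i) (Nat.ble (nat_lit 184512) i)) (b2884 i) (Nat.ble (nat_lit 184576) i))

noncomputable def t1489 (i : Nat) : Nat :=
  (@Bool.rec (fun _ => Nat) (@Bool.rec (fun _ => Nat) (t1485 i) (t1486 i) (Nat.ble (nat_lit 184128) i)) (@Bool.rec (fun _ => Nat) (t1487 i) (t1488 i) (Nat.ble (nat_lit 184448) i)) (Nat.ble (nat_lit 184320) i))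

noncomputable def t1490 (i : Nat) : Nat :=
  (@Bool.rec (fun _ => Nat) (@Bool.rec (fun _ => Nat) (b2885 i) (b2886 i) (Nat.ble (nat_lit 184704) i)) (b2887 i) (Nat.ble (nat_lit 184768) i))

noncomputable def t1491 (i : Nat) : Nat :=
  (@Bool.rec (fun _ => Nat) (b2888 i) (b2889 i) (Nat.ble (nat_lit 184896) i))

noncomputable def t1492 (i : Nat) : Nat :=
  (@Bool.rec (fun _ => Nat) (b2890 i) (b2891 i) (Nat.ble (nat_lit 185024) i))

noncomputable def t1493 (i : Nat) : Nat :=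
  (@Bool.rec (fun _ => Nat) (b2892 i) (b2893 i) (Nat.ble (nat_lit 185152) i))

noncomputable def t1494 (i : Nat) : Nat :=
  (@Bool.rec (fun _ => Nat) (@Bool.rec (fun _ => Nat) (t1490 i) (t1491 i) (Nat.ble (nat_lit 184832) i)) (@Bool.rec (fun _ => Nat) (t1492 i) (t1493 i) (Nat.ble (nat_lit 185088) i)) (Nat.ble (nat_lit 184960) i))

noncomputable def t1495 (i : Nat) : Nat :=
  (@Bool.rec (fun _ => Nat) (b2894 i) (@Bool.rec (fun _ => Nat) (b2895 i) (b2896 i) (Nat.ble (nat_lit 185344) i)) (Nat.ble (nat_lit 185280) i))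

noncomputable def t1496 (i : Nat) : Nat :=
  (@Bool.rec (fun _ => Nat) (b2897 i) (@Bool.rec (fun _ => Nat) (b2898 i) (b2899 i) (Nat.ble (nat_lit 185536) i)) (Nat.ble (nat_lit 185472) i))

noncomputable def t1497 (i : Nat) : Nat :=
  (@Bool.rec (fun _ => Nat) (@Bool.rec (fun _ => Nat) (t1495 i) (t1496 i) (Nat.ble (nat_lit 185408) i)) (@Bool.rec (fun _ => Nat) (b2900 i) (b2901 i) (Nat.ble (nat_lit 185664) i)) (Nat.ble (nat_lit 185600) i))

noncomputable def t1498 (i : Nat) : Nat :=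
  (@Bool.rec (fun _ => Nat) (@Bool.rec (fun _ => Nat) (t1484 i) (t1489 i) (Nat.ble (nat_lit 183872) i)) (@Bool.rec (fun _ => Nat) (t1494 i) (t1497 i) (Nat.ble (nat_lit 185216) i)) (Nat.ble (nat_lit 184640) i))

noncomputable def t1499 (i : Nat) : Nat :=
  (@Bool.rec (fun _ => Nat) (@Bool.rec (fun _ => Nat) (t1446 i) (t1462 i) (Nat.ble (nat_lit 178752) i)) (@Bool.rec (fun _ => Nat) (t1479 i) (t1498 i) (Nat.ble (nat_lit 183296) i)) (Nat.ble (nat_lit 180992) i))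

noncomputable def t1500 (i : Nat) : Nat :=
  (@Bool.rec (fun _ => Nat) (b2902 i) (b2903 i) (Nat.ble (nat_lit 185792) i))

noncomputable def t1501 (i : Nat) : Nat :=
  (@Bool.rec (fun _ => Nat) (b2904 i) (b2905 i) (Nat.ble (nat_lit 185920) i))

noncomputable def t1502 (i : Nat) : Nat :=
  (@Bool.rec (fun _ => Nat) (b2906 i) (b2907 i) (Nat.ble (nat_lit 186048) i))

noncomputable def t1503 (i : Nat) : Nat :=
  (@Bool.rec (fun _ => Nat) (@Bool.rec (fun _ => Nat) (t1500 i) (t1501 i) (Nat.ble (nat_lit 185856) i)) (@Bool.rec (fun _ => Nat) (t1502 i) (b2908 i) (Nat.ble (nat_lit 186112) i)) (Nat.ble (nat_lit 185984) i))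

noncomputable def t1504 (i : Nat) : Nat :=
  (@Bool.rec (fun _ => Nat) (b2911 i) (@Bool.rec (fun _ => Nat) (b2912 i) (b2913 i) (Nat.ble (nat_lit 186432) i)) (Nat.ble (nat_lit 186368) i))

noncomputable def t1505 (i : Nat) : Nat :=
  (@Bool.rec (fun _ => Nat) (b2909 i) (@Bool.rec (fun _ => Nat) (b2910 i) (t1504 i) (Nat.ble (nat_lit 186304) i)) (Nat.ble (nat_lit 186240) i))

noncomputable def t1506 (i : Nat) : Nat :=
  (@Bool.rec (fun _ => Nat) (b2914 i) (b2915 i) (Nat.ble (nat_lit 186560) i))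

noncomputable def t1507 (i : Nat) : Nat :=
  (@Bool.rec (fun _ => Nat) (@Bool.rec (fun _ => Nat) (b2916 i) (b2917 i) (Nat.ble (nat_lit 186688) i)) (b2918 i) (Nat.ble (nat_lit 186752) i))

noncomputable def t1508 (i : Nat) : Nat :=
  (@Bool.rec (fun _ => Nat) (b2919 i) (@Bool.rec (fun _ => Nat) (b2920 i) (b2921 i) (Nat.ble (nat_lit 186944) i)) (Nat.ble (nat_lit 186880) i))

noncomputable def t1509 (i : Nat) : Nat :=
  (@Bool.rec (fun _ => Nat) (b2922 i) (b2923 i) (Nat.ble (nat_lit 187072) i))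

noncomputable def t1510 (i : Nat) : Nat :=
  (@Bool.rec (fun _ => Nat) (@Bool.rec (fun _ => Nat) (t1506 i) (t1507 i) (Nat.ble (nat_lit 186624) i)) (@Bool.rec (fun _ => Nat) (t1508 i) (t1509 i) (Nat.ble (nat_lit 187008) i)) (Nat.ble (nat_lit 186816) i))

noncomputable def t1511 (i : Nat) : Nat :=
  (@Bool.rec (fun _ => Nat) (@Bool.rec (fun _ => Nat) (b2924 i) (b2925 i) (Nat.ble (nat_lit 187200) i)) (b2926 i) (Nat.ble (nat_lit 187264) i))

noncomputable def t1512 (i : Nat) : Nat :=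
  (@Bool.rec (fun _ => Nat) (b2927 i) (b2928 i) (Nat.ble (nat_lit 187392) i))

noncomputable def t1513 (i : Nat) : Nat :=
  (@Bool.rec (fun _ => Nat) (b2929 i) (b2930 i) (Nat.ble (nat_lit 187520) i))

noncomputable def t1514 (i : Nat) : Nat :=
  (@Bool.rec (fun _ => Nat) (b2931 i) (b2932 i) (Nat.ble (nat_lit 187648) i))

noncomputable def t1515 (i : Nat) : Nat :=
  (@Bool.rec (fun _ => Nat) (@Bool.rec (fun _ => Nat) (t1511 i) (t1512 i) (Nat.ble (nat_lit 187328) i)) (@Bool.rec (fun _ => Nat) (t1513 i) (t1514 i) (Nat.ble (nat_lit 187584) i)) (Nat.ble (nat_lit 187456) i))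

noncomputable def t1516 (i : Nat) : Nat :=
  (@Bool.rec (fun _ => Nat) (@Bool.rec (fun _ => Nat) (t1503 i) (t1505 i) (Nat.ble (nat_lit 186176) i)) (@Bool.rec (fun _ => Nat) (t1510 i) (t1515 i) (Nat.ble (nat_lit 187136) i)) (Nat.ble (nat_lit 186496) i))

noncomputable def t1517 (i : Nat) : Nat :=
  (@Bool.rec (fun _ => Nat) (b2933 i) (b2934 i) (Nat.ble (nat_lit 187776) i))

noncomputable def t1518 (i : Nat) : Nat :=
  (@Bool.rec (fun _ => Nat) (b2935 i) (b2936 i) (Nat.ble (nat_lit 187904) i))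

noncomputable def t1519 (i : Nat) : Nat :=
  (@Bool.rec (fun _ => Nat) (@Bool.rec (fun _ => Nat) (t1517 i) (t1518 i) (Nat.ble (nat_lit 187840) i)) (@Bool.rec (fun _ => Nat) (b2937 i) (b2938 i) (Nat.ble (nat_lit 188032) i)) (Nat.ble (nat_lit 187968) i))

noncomputable def t1520 (i : Nat) : Nat :=
  (@Bool.rec (fun _ => Nat) (b2941 i) (b2942 i) (Nat.ble (nat_lit 188288) i))

noncomputable def t1521 (i : Nat) : Nat :=
  (@Bool.rec (fun _ => Nat) (b2943 i) (b2944 i) (Nat.ble (nat_lit 188416) i))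

noncomputable def t1522 (i : Nat) : Nat :=
  (@Bool.rec (fun _ => Nat) (@Bool.rec (fun _ => Nat) (b2939 i) (b2940 i) (Nat.ble (nat_lit 188160) i)) (@Bool.rec (fun _ => Nat) (t1520 i) (t1521 i) (Nat.ble (nat_lit 188352) i)) (Nat.ble (nat_lit 188224) i))

noncomputable def t1523 (i : Nat) : Nat :=
  (@Bool.rec (fun _ => Nat) (b2945 i) (b2946 i) (Nat.ble (nat_lit 188544) i))

noncomputable def t1524 (i : Nat) : Nat :=
  (@Bool.rec (fun _ => Nat) (b2947 i) (@Bool.rec (fun _ => Nat) (b2948 i) (b2949 i) (Nat.ble (nat_lit 188736) i)) (Nat.ble (nat_lit 188672) i))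

noncomputable def t1525 (i : Nat) : Nat :=
  (@Bool.rec (fun _ => Nat) (@Bool.rec (fun _ => Nat) (b2950 i) (b2951 i) (Nat.ble (nat_lit 188864) i)) (b2952 i) (Nat.ble (nat_lit 188928) i))

noncomputable def t1526 (i : Nat) : Nat :=
  (@Bool.rec (fun _ => Nat) (@Bool.rec (fun _ => Nat) (t1523 i) (t1524 i) (Nat.ble (nat_lit 188608) i)) (@Bool.rec (fun _ => Nat) (t1525 i) (b2953 i) (Nat.ble (nat_lit 188992) i)) (Nat.ble (nat_lit 188800) i))

noncomputable def t1527 (i : Nat) : Nat :=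
  (@Bool.rec (fun _ => Nat) (b2954 i) (b2955 i) (Nat.ble (nat_lit 189120) i))

noncomputable def t1528 (i : Nat) : Nat :=
  (@Bool.rec (fun _ => Nat) (b2956 i) (b2957 i) (Nat.ble (nat_lit 189248) i))

noncomputable def t1529 (i : Nat) : Nat :=
  (@Bool.rec (fun _ => Nat) (@Bool.rec (fun _ => Nat) (t1527 i) (t1528 i) (Nat.ble (nat_lit 189184) i)) (@Bool.rec (fun _ => Nat) (b2958 i) (b2959 i) (Nat.ble (nat_lit 189376) i)) (Nat.ble (nat_lit 189312) i))

noncomputable def t1530 (i : Nat) : Nat :=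
  (@Bool.rec (fun _ => Nat) (@Bool.rec (fun _ => Nat) (t1519 i) (t1522 i) (Nat.ble (nat_lit 188096) i)) (@Bool.rec (fun _ => Nat) (t1526 i) (t1529 i) (Nat.ble (nat_lit 189056) i)) (Nat.ble (nat_lit 188480) i))

noncomputable def t1531 (i : Nat) : Nat :=
  (@Bool.rec (fun _ => Nat) (b2961 i) (b2962 i) (Nat.ble (nat_lit 189568) i))

noncomputable def t1532 (i : Nat) : Nat :=
  (@Bool.rec (fun _ => Nat) (@Bool.rec (fun _ => Nat) (b2963 i) (b2964 i) (Nat.ble (nat_lit 189696) i)) (b2965 i) (Nat.ble (nat_lit 189760) i))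

noncomputable def t1533 (i : Nat) : Nat :=
  (@Bool.rec (fun _ => Nat) (@Bool.rec (fun _ => Nat) (b2960 i) (t1531 i) (Nat.ble (nat_lit 189504) i)) (@Bool.rec (fun _ => Nat) (t1532 i) (b2966 i) (Nat.ble (nat_lit 189824) i)) (Nat.ble (nat_lit 189632) i))

noncomputable def t1534 (i : Nat) : Nat :=
  (@Bool.rec (fun _ => Nat) (b2968 i) (b2969 i) (Nat.ble (nat_lit 190016) i))

noncomputable def t1535 (i : Nat) : Nat :=
  (@Bool.rec (fun _ => Nat) (@Bool.rec (fun _ => Nat) (b2967 i) (t1534 i) (Nat.ble (nat_lit 189952) i)) (@Bool.rec (fun _ => Nat) (b2970 i) (b2971 i) (Nat.ble (nat_lit 190144) i)) (Nat.ble (nat_lit 190080) i))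

noncomputable def t1536 (i : Nat) : Nat :=
  (@Bool.rec (fun _ => Nat) (b2972 i) (b2973 i) (Nat.ble (nat_lit 190272) i))

noncomputable def t1537 (i : Nat) : Nat :=
  (@Bool.rec (fun _ => Nat) (b2975 i) (b2976 i) (Nat.ble (nat_lit 190464) i))

noncomputable def t1538 (i : Nat) : Nat :=
  (@Bool.rec (fun _ => Nat) (b2977 i) (b2978 i) (Nat.ble (nat_lit 190592) i))

noncomputable def t1539 (i : Nat) : Nat :=
  (@Bool.rec (fun _ => Nat) (@Bool.rec (fun _ => Nat) (t1536 i) (b2974 i) (Nat.ble (nat_lit 190336) i)) (@Bool.rec (fun _ => Nat) (t1537 i) (t1538 i) (Nat.ble (nat_lit 190528) i)) (Nat.ble (nat_lit 190400) i))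

noncomputable def t1540 (i : Nat) : Nat :=
  (@Bool.rec (fun _ => Nat) (b2981 i) (b2982 i) (Nat.ble (nat_lit 190848) i))

noncomputable def t1541 (i : Nat) : Nat :=
  (@Bool.rec (fun _ => Nat) (b2983 i) (b2984 i) (Nat.ble (nat_lit 190976) i))

noncomputable def t1542 (i : Nat) : Nat :=
  (@Bool.rec (fun _ => Nat) (@Bool.rec (fun _ => Nat) (b2979 i) (b2980 i) (Nat.ble (nat_lit 190720) i)) (@Bool.rec (fun _ => Nat) (t1540 i) (t1541 i) (Nat.ble (nat_lit 190912) i)) (Nat.ble (nat_lit 190784) i))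

noncomputable def t1543 (i : Nat) : Nat :=
  (@Bool.rec (fun _ => Nat) (@Bool.rec (fun _ => Nat) (t1533 i) (t1535 i) (Nat.ble (nat_lit 189888) i)) (@Bool.rec (fun _ => Nat) (t1539 i) (t1542 i) (Nat.ble (nat_lit 190656) i)) (Nat.ble (nat_lit 190208) i))

noncomputable def t1544 (i : Nat) : Nat :=
  (@Bool.rec (fun _ => Nat) (b2985 i) (b2986 i) (Nat.ble (nat_lit 191104) i))

noncomputable def t1545 (i : Nat) : Nat :=
  (@Bool.rec (fun _ => Nat) (b2987 i) (b2988 i) (Nat.ble (nat_lit 191232) i))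

noncomputable def t1546 (i : Nat) : Nat :=
  (@Bool.rec (fun _ => Nat) (b2989 i) (@Bool.rec (fun _ => Nat) (b2990 i) (b2991 i) (Nat.ble (nat_lit 191424) i)) (Nat.ble (nat_lit 191360) i))

noncomputable def t1547 (i : Nat) : Nat :=
  (@Bool.rec (fun _ => Nat) (b2992 i) (b2993 i) (Nat.ble (nat_lit 191552) i))

noncomputable def t1548 (i : Nat) : Nat :=
  (@Bool.rec (fun _ => Nat) (@Bool.rec (fun _ => Nat) (t1544 i) (t1545 i) (Nat.ble (nat_lit 191168) i)) (@Bool.rec (fun _ => Nat) (t1546 i) (t1547 i) (Nat.ble (nat_lit 191488) i)) (Nat.ble (nat_lit 191296) i))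

noncomputable def t1549 (i : Nat) : Nat :=
  (@Bool.rec (fun _ => Nat) (@Bool.rec (fun _ => Nat) (b2994 i) (b2995 i) (Nat.ble (nat_lit 191680) i)) (b2996 i) (Nat.ble (nat_lit 191744) i))

noncomputable def t1550 (i : Nat) : Nat :=
  (@Bool.rec (fun _ => Nat) (b2997 i) (b2998 i) (Nat.ble (nat_lit 191872) i))

noncomputable def t1551 (i : Nat) : Nat :=
  (@Bool.rec (fun _ => Nat) (b2999 i) (@Bool.rec (fun _ => Nat) (b3000 i) (b3001 i) (Nat.ble (nat_lit 192064) i)) (Nat.ble (nat_lit 192000) i))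

noncomputable def t1552 (i : Nat) : Nat :=
  (@Bool.rec (fun _ => Nat) (b3002 i) (b3003 i) (Nat.ble (nat_lit 192192) i))

noncomputable def t1553 (i : Nat) : Nat :=
  (@Bool.rec (fun _ => Nat) (@Bool.rec (fun _ => Nat) (t1549 i) (t1550 i) (Nat.ble (nat_lit 191808) i)) (@Bool.rec (fun _ => Nat) (t1551 i) (t1552 i) (Nat.ble (nat_lit 192128) i)) (Nat.ble (nat_lit 191936) i))

noncomputable def t1554 (i : Nat) : Nat :=
  (@Bool.rec (fun _ => Nat) (b3004 i) (b3005 i) (Nat.ble (nat_lit 192320) i))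

noncomputable def t1555 (i : Nat) : Nat :=
  (@Bool.rec (fun _ => Nat) (@Bool.rec (fun _ => Nat) (b3006 i) (b3007 i) (Nat.ble (nat_lit 192448) i)) (b3008 i) (Nat.ble (nat_lit 192512) i))

noncomputable def t1556 (i : Nat) : Nat :=
  (@Bool.rec (fun _ => Nat) (b3009 i) (b3010 i) (Nat.ble (nat_lit 192640) i))

noncomputable def t1557 (i : Nat) : Nat :=
  (@Bool.rec (fun _ => Nat) (b3011 i) (@Bool.rec (fun _ => Nat) (b3012 i) (b3013 i) (Nat.ble (nat_lit 192832) i)) (Nat.ble (nat_lit 192768) i))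

noncomputable def t1558 (i : Nat) : Nat :=
  (@Bool.rec (fun _ => Nat) (@Bool.rec (fun _ => Nat) (t1554 i) (t1555 i) (Nat.ble (nat_lit 192384) i)) (@Bool.rec (fun _ => Nat) (t1556 i) (t1557 i) (Nat.ble (nat_lit 192704) i)) (Nat.ble (nat_lit 192576) i))

noncomputable def t1559 (i : Nat) : Nat :=
  (@Bool.rec (fun _ => Nat) (b3014 i) (b3015 i) (Nat.ble (nat_lit 192960) i))

noncomputable def t1560 (i : Nat) : Nat :=
  (@Bool.rec (fun _ => Nat) (@Bool.rec (fun _ => Nat) (b3016 i) (b3017 i) (Nat.ble (nat_lit 193088) i)) (@Bool.rec (fun _ => Nat) (b3018 i) (b3019 i) (Nat.ble (nat_lit 193216) i)) (Nat.ble (nat_lit 193152) i))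

noncomputable def t1561 (i : Nat) : Nat :=
  (@Bool.rec (fun _ => Nat) (@Bool.rec (fun _ => Nat) (b3020 i) (b3021 i) (Nat.ble (nat_lit 193344) i)) (b3022 i) (Nat.ble (nat_lit 193408) i))

noncomputable def t1562 (i : Nat) : Nat :=
  (@Bool.rec (fun _ => Nat) (b3023 i) (@Bool.rec (fun _ => Nat) (b3024 i) (b3025 i) (Nat.ble (nat_lit 193600) i)) (Nat.ble (nat_lit 193536) i))

noncomputable def t1563 (i : Nat) : Nat :=
  (@Bool.rec (fun _ => Nat) (@Bool.rec (fun _ => Nat) (t1559 i) (t1560 i) (Nat.ble (nat_lit 193024) i)) (@Bool.rec (fun _ => Nat) (t1561 i) (t1562 i) (Nat.ble (nat_lit 193472) i)) (Nat.ble (nat_lit 193280) i))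

noncomputable def t1564 (i : Nat) : Nat :=
  (@Bool.rec (fun _ => Nat) (@Bool.rec (fun _ => Nat) (t1548 i) (t1553 i) (Nat.ble (nat_lit 191616) i)) (@Bool.rec (fun _ => Nat) (t1558 i) (t1563 i) (Nat.ble (nat_lit 192896) i)) (Nat.ble (nat_lit 192256) i))

noncomputable def t1565 (i : Nat) : Nat :=
  (@Bool.rec (fun _ => Nat) (@Bool.rec (fun _ => Nat) (t1516 i) (t1530 i) (Nat.ble (nat_lit 187712) i)) (@Bool.rec (fun _ => Nat) (t1543 i) (t1564 i) (Nat.ble (nat_lit 191040) i)) (Nat.ble (nat_lit 189440) i))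

noncomputable def t1566 (i : Nat) : Nat :=
  (@Bool.rec (fun _ => Nat) (@Bool.rec (fun _ => Nat) (t1342 i) (t1426 i) (Nat.ble (nat_lit 164544) i)) (@Bool.rec (fun _ => Nat) (t1499 i) (t1565 i) (Nat.ble (nat_lit 185728) i)) (Nat.ble (nat_lit 176064) i))

noncomputable def t1567 (i : Nat) : Nat :=
  (@Bool.rec (fun _ => Nat) (@Bool.rec (fun _ => Nat) (b3026 i) (b3027 i) (Nat.ble (nat_lit 193728) i)) (b3028 i) (Nat.ble (nat_lit 193792) i))

noncomputable def t1568 (i : Nat) : Nat :=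
  (@Bool.rec (fun _ => Nat) (b3029 i) (@Bool.rec (fun _ => Nat) (b3030 i) (b3031 i) (Nat.ble (nat_lit 193984) i)) (Nat.ble (nat_lit 193920) i))

noncomputable def t1569 (i : Nat) : Nat :=
  (@Bool.rec (fun _ => Nat) (@Bool.rec (fun _ => Nat) (b3032 i) (b3033 i) (Nat.ble (nat_lit 194112) i)) (b3034 i) (Nat.ble (nat_lit 194176) i))

noncomputable def t1570 (i : Nat) : Nat :=
  (@Bool.rec (fun _ => Nat) (@Bool.rec (fun _ => Nat) (b3035 i) (b3036 i) (Nat.ble (nat_lit 194304) i)) (@Bool.rec (fun _ => Nat) (b3037 i) (b3038 i) (Nat.ble (nat_lit 194432) i)) (Nat.ble (nat_lit 194368) i))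

noncomputable def t1571 (i : Nat) : Nat :=
  (@Bool.rec (fun _ => Nat) (@Bool.rec (fun _ => Nat) (t1567 i) (t1568 i) (Nat.ble (nat_lit 193856) i)) (@Bool.rec (fun _ => Nat) (t1569 i) (t1570 i) (Nat.ble (nat_lit 194240) i)) (Nat.ble (nat_lit 194048) i))

noncomputable def t1572 (i : Nat) : Nat :=
  (@Bool.rec (fun _ => Nat) (b3039 i) (@Bool.rec (fun _ => Nat) (b3040 i) (b3041 i) (Nat.ble (nat_lit 194624) i)) (Nat.ble (nat_lit 194560) i))

noncomputable def t1573 (i : Nat) : Nat :=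
  (@Bool.rec (fun _ => Nat) (@Bool.rec (fun _ => Nat) (b3042 i) (b3043 i) (Nat.ble (nat_lit 194752) i)) (@Bool.rec (fun _ => Nat) (b3044 i) (b3045 i) (Nat.ble (nat_lit 194880) i)) (Nat.ble (nat_lit 194816) i))

noncomputable def t1574 (i : Nat) : Nat :=
  (@Bool.rec (fun _ => Nat) (b3046 i) (b3047 i) (Nat.ble (nat_lit 195008) i))

noncomputable def t1575 (i : Nat) : Nat :=
  (@Bool.rec (fun _ => Nat) (@Bool.rec (fun _ => Nat) (t1572 i) (t1573 i) (Nat.ble (nat_lit 194688) i)) (@Bool.rec (fun _ => Nat) (t1574 i) (b3048 i) (Nat.ble (nat_lit 195072) i)) (Nat.ble (nat_lit 194944) i))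

noncomputable def t1576 (i : Nat) : Nat :=
  (@Bool.rec (fun _ => Nat) (b3049 i) (@Bool.rec (fun _ => Nat) (b3050 i) (b3051 i) (Nat.ble (nat_lit 195264) i)) (Nat.ble (nat_lit 195200) i))

noncomputable def t1577 (i : Nat) : Nat :=
  (@Bool.rec (fun _ => Nat) (b3052 i) (b3053 i) (Nat.ble (nat_lit 195392) i))

noncomputable def t1578 (i : Nat) : Nat :=
  (@Bool.rec (fun _ => Nat) (b3054 i) (@Bool.rec (fun _ => Nat) (b3055 i) (b3056 i) (Nat.ble (nat_lit 195584) i)) (Nat.ble (nat_lit 195520) i))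

noncomputable def t1579 (i : Nat) : Nat :=
  (@Bool.rec (fun _ => Nat) (b3057 i) (@Bool.rec (fun _ => Nat) (b3058 i) (b3059 i) (Nat.ble (nat_lit 195776) i)) (Nat.ble (nat_lit 195712) i))

noncomputable def t1580 (i : Nat) : Nat :=
  (@Bool.rec (fun _ => Nat) (@Bool.rec (fun _ => Nat) (t1576 i) (t1577 i) (Nat.ble (nat_lit 195328) i)) (@Bool.rec (fun _ => Nat) (t1578 i) (t1579 i) (Nat.ble (nat_lit 195648) i)) (Nat.ble (nat_lit 195456) i))

noncomputable def t1581 (i : Nat) : Nat :=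
  (@Bool.rec (fun _ => Nat) (b3060 i) (b3061 i) (Nat.ble (nat_lit 195904) i))

noncomputable def t1582 (i : Nat) : Nat :=
  (@Bool.rec (fun _ => Nat) (b3062 i) (b3063 i) (Nat.ble (nat_lit 196032) i))

noncomputable def t1583 (i : Nat) : Nat :=
  (@Bool.rec (fun _ => Nat) (b3065 i) (b3066 i) (Nat.ble (nat_lit 196224) i))

noncomputable def t1584 (i : Nat) : Nat :=
  (@Bool.rec (fun _ => Nat) (@Bool.rec (fun _ => Nat) (t1581 i) (t1582 i) (Nat.ble (nat_lit 195968) i)) (@Bool.rec (fun _ => Nat) (b3064 i) (t1583 i) (Nat.ble (nat_lit 196160) i)) (Nat.ble (nat_lit 196096) i))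

noncomputable def t1585 (i : Nat) : Nat :=
  (@Bool.rec (fun _ => Nat) (@Bool.rec (fun _ => Nat) (t1571 i) (t1575 i) (Nat.ble (nat_lit 194496) i)) (@Bool.rec (fun _ => Nat) (t1580 i) (t1584 i) (Nat.ble (nat_lit 195840) i)) (Nat.ble (nat_lit 195136) i))

noncomputable def t1586 (i : Nat) : Nat :=
  (@Bool.rec (fun _ => Nat) (b3069 i) (b3070 i) (Nat.ble (nat_lit 196480) i))

noncomputable def t1587 (i : Nat) : Nat :=
  (@Bool.rec (fun _ => Nat) (b3071 i) (@Bool.rec (fun _ => Nat) (b3072 i) (b3073 i) (Nat.ble (nat_lit 196672) i)) (Nat.ble (nat_lit 196608) i))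

noncomputable def t1588 (i : Nat) : Nat :=
  (@Bool.rec (fun _ => Nat) (@Bool.rec (fun _ => Nat) (b3067 i) (b3068 i) (Nat.ble (nat_lit 196352) i)) (@Bool.rec (fun _ => Nat) (t1586 i) (t1587 i) (Nat.ble (nat_lit 196544) i)) (Nat.ble (nat_lit 196416) i))

noncomputable def t1589 (i : Nat) : Nat :=
  (@Bool.rec (fun _ => Nat) (b3074 i) (b3075 i) (Nat.ble (nat_lit 196800) i))

noncomputable def t1590 (i : Nat) : Nat :=
  (@Bool.rec (fun _ => Nat) (b3076 i) (b3077 i) (Nat.ble (nat_lit 196928) i))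

noncomputable def t1591 (i : Nat) : Nat :=
  (@Bool.rec (fun _ => Nat) (b3078 i) (b3079 i) (Nat.ble (nat_lit 197056) i))

noncomputable def t1592 (i : Nat) : Nat :=
  (@Bool.rec (fun _ => Nat) (@Bool.rec (fun _ => Nat) (b3080 i) (b3081 i) (Nat.ble (nat_lit 197184) i)) (b3082 i) (Nat.ble (nat_lit 197248) i))

noncomputable def t1593 (i : Nat) : Nat :=
  (@Bool.rec (fun _ => Nat) (@Bool.rec (fun _ => Nat) (t1589 i) (t1590 i) (Nat.ble (nat_lit 196864) i)) (@Bool.rec (fun _ => Nat) (t1591 i) (t1592 i) (Nat.ble (nat_lit 197120) i)) (Nat.ble (nat_lit 196992) i))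

noncomputable def t1594 (i : Nat) : Nat :=
  (@Bool.rec (fun _ => Nat) (@Bool.rec (fun _ => Nat) (b3083 i) (b3084 i) (Nat.ble (nat_lit 197376) i)) (@Bool.rec (fun _ => Nat) (b3085 i) (b3086 i) (Nat.ble (nat_lit 197504) i)) (Nat.ble (nat_lit 197440) i))

noncomputable def t1595 (i : Nat) : Nat :=
  (@Bool.rec (fun _ => Nat) (@Bool.rec (fun _ => Nat) (b3087 i) (b3088 i) (Nat.ble (nat_lit 197632) i)) (@Bool.rec (fun _ => Nat) (b3089 i) (b3090 i) (Nat.ble (nat_lit 197760) i)) (Nat.ble (nat_lit 197696) i))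

noncomputable def t1596 (i : Nat) : Nat :=
  (@Bool.rec (fun _ => Nat) (b3091 i) (b3092 i) (Nat.ble (nat_lit 197888) i))

noncomputable def t1597 (i : Nat) : Nat :=
  (@Bool.rec (fun _ => Nat) (b3093 i) (@Bool.rec (fun _ => Nat) (b3094 i) (b3095 i) (Nat.ble (nat_lit 198080) i)) (Nat.ble (nat_lit 198016) i))

noncomputable def t1598 (i : Nat) : Nat :=
  (@Bool.rec (fun _ => Nat) (@Bool.rec (fun _ => Nat) (t1594 i) (t1595 i) (Nat.ble (nat_lit 197568) i)) (@Bool.rec (fun _ => Nat) (t1596 i) (t1597 i) (Nat.ble (nat_lit 197952) i)) (Nat.ble (nat_lit 197824) i))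

noncomputable def t1599 (i : Nat) : Nat :=
  (@Bool.rec (fun _ => Nat) (b3096 i) (b3097 i) (Nat.ble (nat_lit 198208) i))

noncomputable def t1600 (i : Nat) : Nat :=
  (@Bool.rec (fun _ => Nat) (b3099 i) (b3100 i) (Nat.ble (nat_lit 198400) i))

noncomputable def t1601 (i : Nat) : Nat :=
  (@Bool.rec (fun _ => Nat) (b3101 i) (b3102 i) (Nat.ble (nat_lit 198528) i))

noncomputable def t1602 (i : Nat) : Nat :=
  (@Bool.rec (fun _ => Nat) (@Bool.rec (fun _ => Nat) (t1599 i) (b3098 i) (Nat.ble (nat_lit 198272) i)) (@Bool.rec (fun _ => Nat) (t1600 i) (t1601 i) (Nat.ble (nat_lit 198464) i)) (Nat.ble (nat_lit 198336) i))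

noncomputable def t1603 (i : Nat) : Nat :=
  (@Bool.rec (fun _ => Nat) (@Bool.rec (fun _ => Nat) (t1588 i) (t1593 i) (Nat.ble (nat_lit 196736) i)) (@Bool.rec (fun _ => Nat) (t1598 i) (t1602 i) (Nat.ble (nat_lit 198144) i)) (Nat.ble (nat_lit 197312) i))

noncomputable def t1604 (i : Nat) : Nat :=
  (@Bool.rec (fun _ => Nat) (b3103 i) (@Bool.rec (fun _ => Nat) (b3104 i) (b3105 i) (Nat.ble (nat_lit 198720) i)) (Nat.ble (nat_lit 198656) i))

noncomputable def t1605 (i : Nat) : Nat :=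
  (@Bool.rec (fun _ => Nat) (@Bool.rec (fun _ => Nat) (b3106 i) (b3107 i) (Nat.ble (nat_lit 198848) i)) (b3108 i) (Nat.ble (nat_lit 198912) i))

noncomputable def t1606 (i : Nat) : Nat :=
  (@Bool.rec (fun _ => Nat) (b3109 i) (b3110 i) (Nat.ble (nat_lit 199040) i))

noncomputable def t1607 (i : Nat) : Nat :=
  (@Bool.rec (fun _ => Nat) (@Bool.rec (fun _ => Nat) (t1604 i) (t1605 i) (Nat.ble (nat_lit 198784) i)) (@Bool.rec (fun _ => Nat) (t1606 i) (b3111 i) (Nat.ble (nat_lit 199104) i)) (Nat.ble (nat_lit 198976) i))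

noncomputable def t1608 (i : Nat) : Nat :=
  (@Bool.rec (fun _ => Nat) (@Bool.rec (fun _ => Nat) (b3112 i) (b3113 i) (Nat.ble (nat_lit 199232) i)) (b3114 i) (Nat.ble (nat_lit 199296) i))

noncomputable def t1609 (i : Nat) : Nat :=
  (@Bool.rec (fun _ => Nat) (b3117 i) (b3118 i) (Nat.ble (nat_lit 199552) i))

noncomputable def t1610 (i : Nat) : Nat :=
  (@Bool.rec (fun _ => Nat) (@Bool.rec (fun _ => Nat) (b3119 i) (b3120 i) (Nat.ble (nat_lit 199680) i)) (@Bool.rec (fun _ => Nat) (b3121 i) (b3122 i) (Nat.ble (nat_lit 199808) i)) (Nat.ble (nat_lit 199744) i))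

noncomputable def t1611 (i : Nat) : Nat :=
  (@Bool.rec (fun _ => Nat) (@Bool.rec (fun _ => Nat) (b3115 i) (b3116 i) (Nat.ble (nat_lit 199424) i)) (@Bool.rec (fun _ => Nat) (t1609 i) (t1610 i) (Nat.ble (nat_lit 199616) i)) (Nat.ble (nat_lit 199488) i))

noncomputable def t1612 (i : Nat) : Nat :=
  (@Bool.rec (fun _ => Nat) (b3123 i) (@Bool.rec (fun _ => Nat) (b3124 i) (b3125 i) (Nat.ble (nat_lit 200000) i)) (Nat.ble (nat_lit 199936) i))

noncomputable def t1613 (i : Nat) : Nat :=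
  (@Bool.rec (fun _ => Nat) (b3126 i) (b3127 i) (Nat.ble (nat_lit 200128) i))

noncomputable def t1614 (i : Nat) : Nat :=
  (@Bool.rec (fun _ => Nat) (b3128 i) (b3129 i) (Nat.ble (nat_lit 200256) i))

noncomputable def t1615 (i : Nat) : Nat :=
  (@Bool.rec (fun _ => Nat) (b3130 i) (b3131 i) (Nat.ble (nat_lit 200384) i))

noncomputable def t1616 (i : Nat) : Nat :=
  (@Bool.rec (fun _ => Nat) (@Bool.rec (fun _ => Nat) (t1612 i) (t1613 i) (Nat.ble (nat_lit 200064) i)) (@Bool.rec (fun _ => Nat) (t1614 i) (t1615 i) (Nat.ble (nat_lit 200320) i)) (Nat.ble (nat_lit 200192) i))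

noncomputable def t1617 (i : Nat) : Nat :=
  (@Bool.rec (fun _ => Nat) (@Bool.rec (fun _ => Nat) (t1607 i) (t1608 i) (Nat.ble (nat_lit 199168) i)) (@Bool.rec (fun _ => Nat) (t1611 i) (t1616 i) (Nat.ble (nat_lit 199872) i)) (Nat.ble (nat_lit 199360) i))

noncomputable def t1618 (i : Nat) : Nat :=
  (@Bool.rec (fun _ => Nat) (@Bool.rec (fun _ => Nat) (b3132 i) (b3133 i) (Nat.ble (nat_lit 200512) i)) (@Bool.rec (fun _ => Nat) (b3134 i) (b3135 i) (Nat.ble (nat_lit 200640) i)) (Nat.ble (nat_lit 200576) i))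

noncomputable def t1619 (i : Nat) : Nat :=
  (@Bool.rec (fun _ => Nat) (@Bool.rec (fun _ => Nat) (b3136 i) (b3137 i) (Nat.ble (nat_lit 200768) i)) (@Bool.rec (fun _ => Nat) (b3138 i) (b3139 i) (Nat.ble (nat_lit 200896) i)) (Nat.ble (nat_lit 200832) i))

noncomputable def t1620 (i : Nat) : Nat :=
  (@Bool.rec (fun _ => Nat) (b3140 i) (b3141 i) (Nat.ble (nat_lit 201024) i))

noncomputable def t1621 (i : Nat) : Nat :=
  (@Bool.rec (fun _ => Nat) (@Bool.rec (fun _ => Nat) (t1618 i) (t1619 i) (Nat.ble (nat_lit 200704) i)) (@Bool.rec (fun _ => Nat) (t1620 i) (b3142 i) (Nat.ble (nat_lit 201088) i)) (Nat.ble (nat_lit 200960) i))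

noncomputable def t1622 (i : Nat) : Nat :=
  (@Bool.rec (fun _ => Nat) (b3143 i) (b3144 i) (Nat.ble (nat_lit 201216) i))

noncomputable def t1623 (i : Nat) : Nat :=
  (@Bool.rec (fun _ => Nat) (b3146 i) (b3147 i) (Nat.ble (nat_lit 201408) i))

noncomputable def t1624 (i : Nat) : Nat :=
  (@Bool.rec (fun _ => Nat) (b3148 i) (b3149 i) (Nat.ble (nat_lit 201536) i))

noncomputable def t1625 (i : Nat) : Nat :=
  (@Bool.rec (fun _ => Nat) (@Bool.rec (fun _ => Nat) (t1622 i) (b3145 i) (Nat.ble (nat_lit 201280) i)) (@Bool.rec (fun _ => Nat) (t1623 i) (t1624 i) (Nat.ble (nat_lit 201472) i)) (Nat.ble (nat_lit 201344) i))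

noncomputable def t1626 (i : Nat) : Nat :=
  (@Bool.rec (fun _ => Nat) (@Bool.rec (fun _ => Nat) (b3150 i) (b3151 i) (Nat.ble (nat_lit 201664) i)) (@Bool.rec (fun _ => Nat) (b3152 i) (b3153 i) (Nat.ble (nat_lit 201792) i)) (Nat.ble (nat_lit 201728) i))

noncomputable def t1627 (i : Nat) : Nat :=
  (@Bool.rec (fun _ => Nat) (b3154 i) (b3155 i) (Nat.ble (nat_lit 201920) i))

noncomputable def t1628 (i : Nat) : Nat :=
  (@Bool.rec (fun _ => Nat) (b3157 i) (b3158 i) (Nat.ble (nat_lit 202112) i))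

noncomputable def t1629 (i : Nat) : Nat :=
  (@Bool.rec (fun _ => Nat) (@Bool.rec (fun _ => Nat) (t1626 i) (t1627 i) (Nat.ble (nat_lit 201856) i)) (@Bool.rec (fun _ => Nat) (b3156 i) (t1628 i) (Nat.ble (nat_lit 202048) i)) (Nat.ble (nat_lit 201984) i))

noncomputable def t1630 (i : Nat) : Nat :=
  (@Bool.rec (fun _ => Nat) (b3159 i) (@Bool.rec (fun _ => Nat) (b3160 i) (b3161 i) (Nat.ble (nat_lit 202304) i)) (Nat.ble (nat_lit 202240) i))

noncomputable def t1631 (i : Nat) : Nat :=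
  (@Bool.rec (fun _ => Nat) (b3162 i) (b3163 i) (Nat.ble (nat_lit 202432) i))

noncomputable def t1632 (i : Nat) : Nat :=
  (@Bool.rec (fun _ => Nat) (b3164 i) (b3165 i) (Nat.ble (nat_lit 202560) i))

noncomputable def t1633 (i : Nat) : Nat :=
  (@Bool.rec (fun _ => Nat) (@Bool.rec (fun _ => Nat) (b3166 i) (b3167 i) (Nat.ble (nat_lit 202688) i)) (b3168 i) (Nat.ble (nat_lit 202752) i))

noncomputable def t1634 (i : Nat) : Nat :=
  (@Bool.rec (fun _ => Nat) (@Bool.rec (fun _ => Nat) (t1630 i) (t1631 i) (Nat.ble (nat_lit 202368) i)) (@Bool.rec (fun _ => Nat) (t1632 i) (t1633 i) (Nat.ble (nat_lit 202624) i)) (Nat.ble (nat_lit 202496) i))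

noncomputable def t1635 (i : Nat) : Nat :=
  (@Bool.rec (fun _ => Nat) (@Bool.rec (fun _ => Nat) (t1621 i) (t1625 i) (Nat.ble (nat_lit 201152) i)) (@Bool.rec (fun _ => Nat) (t1629 i) (t1634 i) (Nat.ble (nat_lit 202176) i)) (Nat.ble (nat_lit 201600) i))

noncomputable def t1636 (i : Nat) : Nat :=
  (@Bool.rec (fun _ => Nat) (@Bool.rec (fun _ => Nat) (t1585 i) (t1603 i) (Nat.ble (nat_lit 196288) i)) (@Bool.rec (fun _ => Nat) (t1617 i) (t1635 i) (Nat.ble (nat_lit 200448) i)) (Nat.ble (nat_lit 198592) i))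

noncomputable def t1637 (i : Nat) : Nat :=
  (@Bool.rec (fun _ => Nat) (b3169 i) (b3170 i) (Nat.ble (nat_lit 202880) i))

noncomputable def t1638 (i : Nat) : Nat :=
  (@Bool.rec (fun _ => Nat) (@Bool.rec (fun _ => Nat) (b3173 i) (b3174 i) (Nat.ble (nat_lit 203136) i)) (b3175 i) (Nat.ble (nat_lit 203200) i))

noncomputable def t1639 (i : Nat) : Nat :=
  (@Bool.rec (fun _ => Nat) (@Bool.rec (fun _ => Nat) (t1637 i) (b3171 i) (Nat.ble (nat_lit 202944) i)) (@Bool.rec (fun _ => Nat) (b3172 i) (t1638 i) (Nat.ble (nat_lit 203072) i)) (Nat.ble (nat_lit 203008) i))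

noncomputable def t1640 (i : Nat) : Nat :=
  (@Bool.rec (fun _ => Nat) (@Bool.rec (fun _ => Nat) (b3176 i) (b3177 i) (Nat.ble (nat_lit 203328) i)) (b3178 i) (Nat.ble (nat_lit 203392) i))

noncomputable def t1641 (i : Nat) : Nat :=
  (@Bool.rec (fun _ => Nat) (b3179 i) (@Bool.rec (fun _ => Nat) (b3180 i) (b3181 i) (Nat.ble (nat_lit 203584) i)) (Nat.ble (nat_lit 203520) i))

noncomputable def t1642 (i : Nat) : Nat :=
  (@Bool.rec (fun _ => Nat) (@Bool.rec (fun _ => Nat) (b3182 i) (b3183 i) (Nat.ble (nat_lit 203712) i)) (b3184 i) (Nat.ble (nat_lit 203776) i))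

noncomputable def t1643 (i : Nat) : Nat :=
  (@Bool.rec (fun _ => Nat) (@Bool.rec (fun _ => Nat) (b3185 i) (b3186 i) (Nat.ble (nat_lit 203904) i)) (b3187 i) (Nat.ble (nat_lit 203968) i))

noncomputable def t1644 (i : Nat) : Nat :=
  (@Bool.rec (fun _ => Nat) (@Bool.rec (fun _ => Nat) (t1640 i) (t1641 i) (Nat.ble (nat_lit 203456) i)) (@Bool.rec (fun _ => Nat) (t1642 i) (t1643 i) (Nat.ble (nat_lit 203840) i)) (Nat.ble (nat_lit 203648) i))

noncomputable def t1645 (i : Nat) : Nat :=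
  (@Bool.rec (fun _ => Nat) (@Bool.rec (fun _ => Nat) (b3188 i) (b3189 i) (Nat.ble (nat_lit 204096) i)) (b3190 i) (Nat.ble (nat_lit 204160) i))

noncomputable def t1646 (i : Nat) : Nat :=
  (@Bool.rec (fun _ => Nat) (b3191 i) (b3192 i) (Nat.ble (nat_lit 204288) i))

noncomputable def t1647 (i : Nat) : Nat :=
  (@Bool.rec (fun _ => Nat) (@Bool.rec (fun _ => Nat) (t1645 i) (t1646 i) (Nat.ble (nat_lit 204224) i)) (b3193 i) (Nat.ble (nat_lit 204352) i))

noncomputable def t1648 (i : Nat) : Nat :=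
  (@Bool.rec (fun _ => Nat) (@Bool.rec (fun _ => Nat) (b3194 i) (b3195 i) (Nat.ble (nat_lit 204480) i)) (b3196 i) (Nat.ble (nat_lit 204544) i))

noncomputable def t1649 (i : Nat) : Nat :=
  (@Bool.rec (fun _ => Nat) (@Bool.rec (fun _ => Nat) (t1639 i) (t1644 i) (Nat.ble (nat_lit 203264) i)) (@Bool.rec (fun _ => Nat) (t1647 i) (t1648 i) (Nat.ble (nat_lit 204416) i)) (Nat.ble (nat_lit 204032) i))

noncomputable def t1650 (i : Nat) : Nat :=
  (@Bool.rec (fun _ => Nat) (b3200 i) (b3201 i) (Nat.ble (nat_lit 204864) i))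

noncomputable def t1651 (i : Nat) : Nat :=
  (@Bool.rec (fun _ => Nat) (@Bool.rec (fun _ => Nat) (b3197 i) (b3198 i) (Nat.ble (nat_lit 204672) i)) (@Bool.rec (fun _ => Nat) (b3199 i) (t1650 i) (Nat.ble (nat_lit 204800) i)) (Nat.ble (nat_lit 204736) i))

noncomputable def t1652 (i : Nat) : Nat :=
  (@Bool.rec (fun _ => Nat) (b3202 i) (@Bool.rec (fun _ => Nat) (b3203 i) (b3204 i) (Nat.ble (nat_lit 205056) i)) (Nat.ble (nat_lit 204992) i))

noncomputable def t1653 (i : Nat) : Nat :=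
  (@Bool.rec (fun _ => Nat) (@Bool.rec (fun _ => Nat) (b3205 i) (b3206 i) (Nat.ble (nat_lit 205184) i)) (b3207 i) (Nat.ble (nat_lit 205248) i))

noncomputable def t1654 (i : Nat) : Nat :=
  (@Bool.rec (fun _ => Nat) (@Bool.rec (fun _ => Nat) (b3208 i) (b3209 i) (Nat.ble (nat_lit 205376) i)) (b3210 i) (Nat.ble (nat_lit 205440) i))

noncomputable def t1655 (i : Nat) : Nat :=
  (@Bool.rec (fun _ => Nat) (b3211 i) (b3212 i) (Nat.ble (nat_lit 205568) i))

noncomputable def t1656 (i : Nat) : Nat :=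
  (@Bool.rec (fun _ => Nat) (@Bool.rec (fun _ => Nat) (t1652 i) (t1653 i) (Nat.ble (nat_lit 205120) i)) (@Bool.rec (fun _ => Nat) (t1654 i) (t1655 i) (Nat.ble (nat_lit 205504) i)) (Nat.ble (nat_lit 205312) i))

noncomputable def t1657 (i : Nat) : Nat :=
  (@Bool.rec (fun _ => Nat) (b3215 i) (b3216 i) (Nat.ble (nat_lit 205824) i))

noncomputable def t1658 (i : Nat) : Nat :=
  (@Bool.rec (fun _ => Nat) (b3217 i) (b3218 i) (Nat.ble (nat_lit 205952) i))

noncomputable def t1659 (i : Nat) : Nat :=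
  (@Bool.rec (fun _ => Nat) (@Bool.rec (fun _ => Nat) (b3213 i) (b3214 i) (Nat.ble (nat_lit 205696) i)) (@Bool.rec (fun _ => Nat) (t1657 i) (t1658 i) (Nat.ble (nat_lit 205888) i)) (Nat.ble (nat_lit 205760) i))

noncomputable def t1660 (i : Nat) : Nat :=
  (@Bool.rec (fun _ => Nat) (@Bool.rec (fun _ => Nat) (b3219 i) (b3220 i) (Nat.ble (nat_lit 206080) i)) (b3221 i) (Nat.ble (nat_lit 206144) i))

noncomputable def t1661 (i : Nat) : Nat :=
  (@Bool.rec (fun _ => Nat) (b3222 i) (b3223 i) (Nat.ble (nat_lit 206272) i))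

noncomputable def t1662 (i : Nat) : Nat :=
  (@Bool.rec (fun _ => Nat) (b3224 i) (b3225 i) (Nat.ble (nat_lit 206400) i))

noncomputable def t1663 (i : Nat) : Nat :=
  (@Bool.rec (fun _ => Nat) (b3226 i) (b3227 i) (Nat.ble (nat_lit 206528) i))

noncomputable def t1664 (i : Nat) : Nat :=
  (@Bool.rec (fun _ => Nat) (@Bool.rec (fun _ => Nat) (t1660 i) (t1661 i) (Nat.ble (nat_lit 206208) i)) (@Bool.rec (fun _ => Nat) (t1662 i) (t1663 i) (Nat.ble (nat_lit 206464) i)) (Nat.ble (nat_lit 206336) i))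

noncomputable def t1665 (i : Nat) : Nat :=
  (@Bool.rec (fun _ => Nat) (@Bool.rec (fun _ => Nat) (t1651 i) (t1656 i) (Nat.ble (nat_lit 204928) i)) (@Bool.rec (fun _ => Nat) (t1659 i) (t1664 i) (Nat.ble (nat_lit 206016) i)) (Nat.ble (nat_lit 205632) i))

noncomputable def t1666 (i : Nat) : Nat :=
  (@Bool.rec (fun _ => Nat) (b3228 i) (b3229 i) (Nat.ble (nat_lit 206656) i))

noncomputable def t1667 (i : Nat) : Nat :=
  (@Bool.rec (fun _ => Nat) (@Bool.rec (fun _ => Nat) (b3230 i) (b3231 i) (Nat.ble (nat_lit 206784) i)) (b3232 i) (Nat.ble (nat_lit 206848) i))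

noncomputable def t1668 (i : Nat) : Nat :=
  (@Bool.rec (fun _ => Nat) (b3233 i) (b3234 i) (Nat.ble (nat_lit 206976) i))

noncomputable def t1669 (i : Nat) : Nat :=
  (@Bool.rec (fun _ => Nat) (b3235 i) (@Bool.rec (fun _ => Nat) (b3236 i) (b3237 i) (Nat.ble (nat_lit 207168) i)) (Nat.ble (nat_lit 207104) i))

noncomputable def t1670 (i : Nat) : Nat :=
  (@Bool.rec (fun _ => Nat) (@Bool.rec (fun _ => Nat) (t1666 i) (t1667 i) (Nat.ble (nat_lit 206720) i)) (@Bool.rec (fun _ => Nat) (t1668 i) (t1669 i) (Nat.ble (nat_lit 207040) i)) (Nat.ble (nat_lit 206912) i))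

noncomputable def t1671 (i : Nat) : Nat :=
  (@Bool.rec (fun _ => Nat) (b3238 i) (b3239 i) (Nat.ble (nat_lit 207296) i))

noncomputable def t1672 (i : Nat) : Nat :=
  (@Bool.rec (fun _ => Nat) (b3240 i) (@Bool.rec (fun _ => Nat) (b3241 i) (b3242 i) (Nat.ble (nat_lit 207488) i)) (Nat.ble (nat_lit 207424) i))

noncomputable def t1673 (i : Nat) : Nat :=
  (@Bool.rec (fun _ => Nat) (b3243 i) (b3244 i) (Nat.ble (nat_lit 207616) i))

noncomputable def t1674 (i : Nat) : Nat :=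
  (@Bool.rec (fun _ => Nat) (@Bool.rec (fun _ => Nat) (b3245 i) (b3246 i) (Nat.ble (nat_lit 207744) i)) (@Bool.rec (fun _ => Nat) (b3247 i) (b3248 i) (Nat.ble (nat_lit 207872) i)) (Nat.ble (nat_lit 207808) i))

noncomputable def t1675 (i : Nat) : Nat :=
  (@Bool.rec (fun _ => Nat) (@Bool.rec (fun _ => Nat) (t1671 i) (t1672 i) (Nat.ble (nat_lit 207360) i)) (@Bool.rec (fun _ => Nat) (t1673 i) (t1674 i) (Nat.ble (nat_lit 207680) i)) (Nat.ble (nat_lit 207552) i))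

noncomputable def t1676 (i : Nat) : Nat :=
  (@Bool.rec (fun _ => Nat) (@Bool.rec (fun _ => Nat) (b3249 i) (b3250 i) (Nat.ble (nat_lit 208000) i)) (b3251 i) (Nat.ble (nat_lit 208064) i))

noncomputable def t1677 (i : Nat) : Nat :=
  (@Bool.rec (fun _ => Nat) (b3252 i) (b3253 i) (Nat.ble (nat_lit 208192) i))

noncomputable def t1678 (i : Nat) : Nat :=
  (@Bool.rec (fun _ => Nat) (b3254 i) (b3255 i) (Nat.ble (nat_lit 208320) i))

noncomputable def t1679 (i : Nat) : Nat :=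
  (@Bool.rec (fun _ => Nat) (b3256 i) (b3257 i) (Nat.ble (nat_lit 208448) i))

noncomputable def t1680 (i : Nat) : Nat :=
  (@Bool.rec (fun _ => Nat) (@Bool.rec (fun _ => Nat) (t1676 i) (t1677 i) (Nat.ble (nat_lit 208128) i)) (@Bool.rec (fun _ => Nat) (t1678 i) (t1679 i) (Nat.ble (nat_lit 208384) i)) (Nat.ble (nat_lit 208256) i))

noncomputable def t1681 (i : Nat) : Nat :=
  (@Bool.rec (fun _ => Nat) (b3258 i) (b3259 i) (Nat.ble (nat_lit 208576) i))

noncomputable def t1682 (i : Nat) : Nat :=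
  (@Bool.rec (fun _ => Nat) (@Bool.rec (fun _ => Nat) (b3261 i) (b3262 i) (Nat.ble (nat_lit 208768) i)) (b3263 i) (Nat.ble (nat_lit 208832) i))

noncomputable def t1683 (i : Nat) : Nat :=
  (@Bool.rec (fun _ => Nat) (b3264 i) (b3265 i) (Nat.ble (nat_lit 208960) i))

noncomputable def t1684 (i : Nat) : Nat :=
  (@Bool.rec (fun _ => Nat) (@Bool.rec (fun _ => Nat) (t1681 i) (b3260 i) (Nat.ble (nat_lit 208640) i)) (@Bool.rec (fun _ => Nat) (t1682 i) (t1683 i) (Nat.ble (nat_lit 208896) i)) (Nat.ble (nat_lit 208704) i))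

noncomputable def t1685 (i : Nat) : Nat :=
  (@Bool.rec (fun _ => Nat) (@Bool.rec (fun _ => Nat) (t1670 i) (t1675 i) (Nat.ble (nat_lit 207232) i)) (@Bool.rec (fun _ => Nat) (t1680 i) (t1684 i) (Nat.ble (nat_lit 208512) i)) (Nat.ble (nat_lit 207936) i))

noncomputable def t1686 (i : Nat) : Nat :=
  (@Bool.rec (fun _ => Nat) (b3266 i) (@Bool.rec (fun _ => Nat) (b3267 i) (b3268 i) (Nat.ble (nat_lit 209152) i)) (Nat.ble (nat_lit 209088) i))

noncomputable def t1687 (i : Nat) : Nat :=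
  (@Bool.rec (fun _ => Nat) (b3269 i) (b3270 i) (Nat.ble (nat_lit 209280) i))

noncomputable def t1688 (i : Nat) : Nat :=
  (@Bool.rec (fun _ => Nat) (b3271 i) (@Bool.rec (fun _ => Nat) (b3272 i) (b3273 i) (Nat.ble (nat_lit 209472) i)) (Nat.ble (nat_lit 209408) i))

noncomputable def t1689 (i : Nat) : Nat :=
  (@Bool.rec (fun _ => Nat) (b3274 i) (@Bool.rec (fun _ => Nat) (b3275 i) (b3276 i) (Nat.ble (nat_lit 209664) i)) (Nat.ble (nat_lit 209600) i))

noncomputable def t1690 (i : Nat) : Nat :=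
  (@Bool.rec (fun _ => Nat) (@Bool.rec (fun _ => Nat) (t1686 i) (t1687 i) (Nat.ble (nat_lit 209216) i)) (@Bool.rec (fun _ => Nat) (t1688 i) (t1689 i) (Nat.ble (nat_lit 209536) i)) (Nat.ble (nat_lit 209344) i))

noncomputable def t1691 (i : Nat) : Nat :=
  (@Bool.rec (fun _ => Nat) (@Bool.rec (fun _ => Nat) (b3277 i) (b3278 i) (Nat.ble (nat_lit 209792) i)) (b3279 i) (Nat.ble (nat_lit 209856) i))

noncomputable def t1692 (i : Nat) : Nat :=
  (@Bool.rec (fun _ => Nat) (b3280 i) (b3281 i) (Nat.ble (nat_lit 209984) i))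

noncomputable def t1693 (i : Nat) : Nat :=
  (@Bool.rec (fun _ => Nat) (@Bool.rec (fun _ => Nat) (b3282 i) (b3283 i) (Nat.ble (nat_lit 210112) i)) (b3284 i) (Nat.ble (nat_lit 210176) i))

noncomputable def t1694 (i : Nat) : Nat :=
  (@Bool.rec (fun _ => Nat) (@Bool.rec (fun _ => Nat) (b3285 i) (b3286 i) (Nat.ble (nat_lit 210304) i)) (b3287 i) (Nat.ble (nat_lit 210368) i))

noncomputable def t1695 (i : Nat) : Nat :=
  (@Bool.rec (fun _ => Nat) (@Bool.rec (fun _ => Nat) (t1691 i) (t1692 i) (Nat.ble (nat_lit 209920) i)) (@Bool.rec (fun _ => Nat) (t1693 i) (t1694 i) (Nat.ble (nat_lit 210240) i)) (Nat.ble (nat_lit 210048) i))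

noncomputable def t1696 (i : Nat) : Nat :=
  (@Bool.rec (fun _ => Nat) (b3288 i) (b3289 i) (Nat.ble (nat_lit 210496) i))

noncomputable def t1697 (i : Nat) : Nat :=
  (@Bool.rec (fun _ => Nat) (@Bool.rec (fun _ => Nat) (b3290 i) (b3291 i) (Nat.ble (nat_lit 210624) i)) (@Bool.rec (fun _ => Nat) (b3292 i) (b3293 i) (Nat.ble (nat_lit 210752) i)) (Nat.ble (nat_lit 210688) i))

noncomputable def t1698 (i : Nat) : Nat :=
  (@Bool.rec (fun _ => Nat) (@Bool.rec (fun _ => Nat) (b3294 i) (b3295 i) (Nat.ble (nat_lit 210880) i)) (@Bool.rec (fun _ => Nat) (b3296 i) (b3297 i) (Nat.ble (nat_lit 211008) i)) (Nat.ble (nat_lit 210944) i))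

noncomputable def t1699 (i : Nat) : Nat :=
  (@Bool.rec (fun _ => Nat) (@Bool.rec (fun _ => Nat) (b3298 i) (b3299 i) (Nat.ble (nat_lit 211136) i)) (@Bool.rec (fun _ => Nat) (b3300 i) (b3301 i) (Nat.ble (nat_lit 211264) i)) (Nat.ble (nat_lit 211200) i))

noncomputable def t1700 (i : Nat) : Nat :=
  (@Bool.rec (fun _ => Nat) (@Bool.rec (fun _ => Nat) (t1696 i) (t1697 i) (Nat.ble (nat_lit 210560) i)) (@Bool.rec (fun _ => Nat) (t1698 i) (t1699 i) (Nat.ble (nat_lit 211072) i)) (Nat.ble (nat_lit 210816) i))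

noncomputable def t1701 (i : Nat) : Nat :=
  (@Bool.rec (fun _ => Nat) (b3302 i) (@Bool.rec (fun _ => Nat) (b3303 i) (b3304 i) (Nat.ble (nat_lit 211456) i)) (Nat.ble (nat_lit 211392) i))

noncomputable def t1702 (i : Nat) : Nat :=
  (@Bool.rec (fun _ => Nat) (@Bool.rec (fun _ => Nat) (b3305 i) (b3306 i) (Nat.ble (nat_lit 211584) i)) (b3307 i) (Nat.ble (nat_lit 211648) i))

noncomputable def t1703 (i : Nat) : Nat :=
  (@Bool.rec (fun _ => Nat) (b3309 i) (@Bool.rec (fun _ => Nat) (b3310 i) (b3311 i) (Nat.ble (nat_lit 211904) i)) (Nat.ble (nat_lit 211840) i))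

noncomputable def t1704 (i : Nat) : Nat :=
  (@Bool.rec (fun _ => Nat) (@Bool.rec (fun _ => Nat) (t1701 i) (t1702 i) (Nat.ble (nat_lit 211520) i)) (@Bool.rec (fun _ => Nat) (b3308 i) (t1703 i) (Nat.ble (nat_lit 211776) i)) (Nat.ble (nat_lit 211712) i))

noncomputable def t1705 (i : Nat) : Nat :=
  (@Bool.rec (fun _ => Nat) (@Bool.rec (fun _ => Nat) (t1690 i) (t1695 i) (Nat.ble (nat_lit 209728) i)) (@Bool.rec (fun _ => Nat) (t1700 i) (t1704 i) (Nat.ble (nat_lit 211328) i)) (Nat.ble (nat_lit 210432) i))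

noncomputable def t1706 (i : Nat) : Nat :=
  (@Bool.rec (fun _ => Nat) (@Bool.rec (fun _ => Nat) (t1649 i) (t1665 i) (Nat.ble (nat_lit 204608) i)) (@Bool.rec (fun _ => Nat) (t1685 i) (t1705 i) (Nat.ble (nat_lit 209024) i)) (Nat.ble (nat_lit 206592) i))

noncomputable def t1707 (i : Nat) : Nat :=
  (@Bool.rec (fun _ => Nat) (b3312 i) (b3313 i) (Nat.ble (nat_lit 212032) i))

noncomputable def t1708 (i : Nat) : Nat :=
  (@Bool.rec (fun _ => Nat) (b3314 i) (@Bool.rec (fun _ => Nat) (b3315 i) (b3316 i) (Nat.ble (nat_lit 212224) i)) (Nat.ble (nat_lit 212160) i))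

noncomputable def t1709 (i : Nat) : Nat :=
  (@Bool.rec (fun _ => Nat) (b3317 i) (b3318 i) (Nat.ble (nat_lit 212352) i))

noncomputable def t1710 (i : Nat) : Nat :=
  (@Bool.rec (fun _ => Nat) (@Bool.rec (fun _ => Nat) (b3319 i) (b3320 i) (Nat.ble (nat_lit 212480) i)) (@Bool.rec (fun _ => Nat) (b3321 i) (b3322 i) (Nat.ble (nat_lit 212608) i)) (Nat.ble (nat_lit 212544) i))

noncomputable def t1711 (i : Nat) : Nat :=
  (@Bool.rec (fun _ => Nat) (@Bool.rec (fun _ => Nat) (t1707 i) (t1708 i) (Nat.ble (nat_lit 212096) i)) (@Bool.rec (fun _ => Nat) (t1709 i) (t1710 i) (Nat.ble (nat_lit 212416) i)) (Nat.ble (nat_lit 212288) i))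

noncomputable def t1712 (i : Nat) : Nat :=
  (@Bool.rec (fun _ => Nat) (b3323 i) (@Bool.rec (fun _ => Nat) (b3324 i) (b3325 i) (Nat.ble (nat_lit 212800) i)) (Nat.ble (nat_lit 212736) i))

noncomputable def t1713 (i : Nat) : Nat :=
  (@Bool.rec (fun _ => Nat) (b3326 i) (@Bool.rec (fun _ => Nat) (b3327 i) (b3328 i) (Nat.ble (nat_lit 212992) i)) (Nat.ble (nat_lit 212928) i))

noncomputable def t1714 (i : Nat) : Nat :=
  (@Bool.rec (fun _ => Nat) (b3329 i) (@Bool.rec (fun _ => Nat) (b3330 i) (b3331 i) (Nat.ble (nat_lit 213184) i)) (Nat.ble (nat_lit 213120) i))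

noncomputable def t1715 (i : Nat) : Nat :=
  (@Bool.rec (fun _ => Nat) (@Bool.rec (fun _ => Nat) (b3332 i) (b3333 i) (Nat.ble (nat_lit 213312) i)) (b3334 i) (Nat.ble (nat_lit 213376) i))

noncomputable def t1716 (i : Nat) : Nat :=
  (@Bool.rec (fun _ => Nat) (@Bool.rec (fun _ => Nat) (t1712 i) (t1713 i) (Nat.ble (nat_lit 212864) i)) (@Bool.rec (fun _ => Nat) (t1714 i) (t1715 i) (Nat.ble (nat_lit 213248) i)) (Nat.ble (nat_lit 213056) i))

noncomputable def t1717 (i : Nat) : Nat :=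
  (@Bool.rec (fun _ => Nat) (@Bool.rec (fun _ => Nat) (b3335 i) (b3336 i) (Nat.ble (nat_lit 213504) i)) (b3337 i) (Nat.ble (nat_lit 213568) i))

noncomputable def t1718 (i : Nat) : Nat :=
  (@Bool.rec (fun _ => Nat) (@Bool.rec (fun _ => Nat) (b3338 i) (b3339 i) (Nat.ble (nat_lit 213696) i)) (@Bool.rec (fun _ => Nat) (b3340 i) (b3341 i) (Nat.ble (nat_lit 213824) i)) (Nat.ble (nat_lit 213760) i))

noncomputable def t1719 (i : Nat) : Nat :=
  (@Bool.rec (fun _ => Nat) (@Bool.rec (fun _ => Nat) (t1717 i) (t1718 i) (Nat.ble (nat_lit 213632) i)) (@Bool.rec (fun _ => Nat) (b3342 i) (b3343 i) (Nat.ble (nat_lit 213952) i)) (Nat.ble (nat_lit 213888) i))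

noncomputable def t1720 (i : Nat) : Nat :=
  (@Bool.rec (fun _ => Nat) (b3344 i) (b3345 i) (Nat.ble (nat_lit 214080) i))

noncomputable def t1721 (i : Nat) : Nat :=
  (@Bool.rec (fun _ => Nat) (@Bool.rec (fun _ => Nat) (t1720 i) (b3346 i) (Nat.ble (nat_lit 214144) i)) (b3347 i) (Nat.ble (nat_lit 214208) i))

noncomputable def t1722 (i : Nat) : Nat :=
  (@Bool.rec (fun _ => Nat) (@Bool.rec (fun _ => Nat) (t1711 i) (t1716 i) (Nat.ble (nat_lit 212672) i)) (@Bool.rec (fun _ => Nat) (t1719 i) (t1721 i) (Nat.ble (nat_lit 214016) i)) (Nat.ble (nat_lit 213440) i))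

noncomputable def t1723 (i : Nat) : Nat :=
  (@Bool.rec (fun _ => Nat) (b3350 i) (b3351 i) (Nat.ble (nat_lit 214464) i))

noncomputable def t1724 (i : Nat) : Nat :=
  (@Bool.rec (fun _ => Nat) (@Bool.rec (fun _ => Nat) (b3352 i) (b3353 i) (Nat.ble (nat_lit 214592) i)) (b3354 i) (Nat.ble (nat_lit 214656) i))

noncomputable def t1725 (i : Nat) : Nat :=
  (@Bool.rec (fun _ => Nat) (@Bool.rec (fun _ => Nat) (b3348 i) (b3349 i) (Nat.ble (nat_lit 214336) i)) (@Bool.rec (fun _ => Nat) (t1723 i) (t1724 i) (Nat.ble (nat_lit 214528) i)) (Nat.ble (nat_lit 214400) i))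

noncomputable def t1726 (i : Nat) : Nat :=
  (@Bool.rec (fun _ => Nat) (@Bool.rec (fun _ => Nat) (b3355 i) (b3356 i) (Nat.ble (nat_lit 214784) i)) (@Bool.rec (fun _ => Nat) (b3357 i) (b3358 i) (Nat.ble (nat_lit 214912) i)) (Nat.ble (nat_lit 214848) i))

noncomputable def t1727 (i : Nat) : Nat :=
  (@Bool.rec (fun _ => Nat) (b3359 i) (b3360 i) (Nat.ble (nat_lit 215040) i))

noncomputable def t1728 (i : Nat) : Nat :=
  (@Bool.rec (fun _ => Nat) (b3363 i) (b3364 i) (Nat.ble (nat_lit 215296) i))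

noncomputable def t1729 (i : Nat) : Nat :=
  (@Bool.rec (fun _ => Nat) (@Bool.rec (fun _ => Nat) (t1727 i) (b3361 i) (Nat.ble (nat_lit 215104) i)) (@Bool.rec (fun _ => Nat) (b3362 i) (t1728 i) (Nat.ble (nat_lit 215232) i)) (Nat.ble (nat_lit 215168) i))

noncomputable def t1730 (i : Nat) : Nat :=
  (@Bool.rec (fun _ => Nat) (b3368 i) (b3369 i) (Nat.ble (nat_lit 215616) i))

noncomputable def t1731 (i : Nat) : Nat :=
  (@Bool.rec (fun _ => Nat) (@Bool.rec (fun _ => Nat) (b3365 i) (b3366 i) (Nat.ble (nat_lit 215424) i)) (@Bool.rec (fun _ => Nat) (b3367 i) (t1730 i) (Nat.ble (nat_lit 215552) i)) (Nat.ble (nat_lit 215488) i))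

noncomputable def t1732 (i : Nat) : Nat :=
  (@Bool.rec (fun _ => Nat) (@Bool.rec (fun _ => Nat) (t1725 i) (t1726 i) (Nat.ble (nat_lit 214720) i)) (@Bool.rec (fun _ => Nat) (t1729 i) (t1731 i) (Nat.ble (nat_lit 215360) i)) (Nat.ble (nat_lit 214976) i))

noncomputable def t1733 (i : Nat) : Nat :=
  (@Bool.rec (fun _ => Nat) (b3372 i) (@Bool.rec (fun _ => Nat) (b3373 i) (b3374 i) (Nat.ble (nat_lit 215936) i)) (Nat.ble (nat_lit 215872) i))

noncomputable def t1734 (i : Nat) : Nat :=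
  (@Bool.rec (fun _ => Nat) (b3375 i) (b3376 i) (Nat.ble (nat_lit 216064) i))

noncomputable def t1735 (i : Nat) : Nat :=
  (@Bool.rec (fun _ => Nat) (@Bool.rec (fun _ => Nat) (b3370 i) (b3371 i) (Nat.ble (nat_lit 215744) i)) (@Bool.rec (fun _ => Nat) (t1733 i) (t1734 i) (Nat.ble (nat_lit 216000) i)) (Nat.ble (nat_lit 215808) i))

noncomputable def t1736 (i : Nat) : Nat :=
  (@Bool.rec (fun _ => Nat) (b3377 i) (b3378 i) (Nat.ble (nat_lit 216192) i))

noncomputable def t1737 (i : Nat) : Nat :=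
  (@Bool.rec (fun _ => Nat) (b3379 i) (b3380 i) (Nat.ble (nat_lit 216320) i))

noncomputable def t1738 (i : Nat) : Nat :=
  (@Bool.rec (fun _ => Nat) (b3381 i) (b3382 i) (Nat.ble (nat_lit 216448) i))

noncomputable def t1739 (i : Nat) : Nat :=
  (@Bool.rec (fun _ => Nat) (b3383 i) (@Bool.rec (fun _ => Nat) (b3384 i) (b3385 i) (Nat.ble (nat_lit 216640) i)) (Nat.ble (nat_lit 216576) i))

noncomputable def t1740 (i : Nat) : Nat :=
  (@Bool.rec (fun _ => Nat) (@Bool.rec (fun _ => Nat) (t1736 i) (t1737 i) (Nat.ble (nat_lit 216256) i)) (@Bool.rec (fun _ => Nat) (t1738 i) (t1739 i) (Nat.ble (nat_lit 216512) i)) (Nat.ble (nat_lit 216384) i))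

noncomputable def t1741 (i : Nat) : Nat :=
  (@Bool.rec (fun _ => Nat) (@Bool.rec (fun _ => Nat) (b3386 i) (b3387 i) (Nat.ble (nat_lit 216768) i)) (b3388 i) (Nat.ble (nat_lit 216832) i))

noncomputable def t1742 (i : Nat) : Nat :=
  (@Bool.rec (fun _ => Nat) (b3389 i) (@Bool.rec (fun _ => Nat) (b3390 i) (b3391 i) (Nat.ble (nat_lit 217024) i)) (Nat.ble (nat_lit 216960) i))

noncomputable def t1743 (i : Nat) : Nat :=
  (@Bool.rec (fun _ => Nat) (b3392 i) (@Bool.rec (fun _ => Nat) (b3393 i) (b3394 i) (Nat.ble (nat_lit 217216) i)) (Nat.ble (nat_lit 217152) i))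

noncomputable def t1744 (i : Nat) : Nat :=
  (@Bool.rec (fun _ => Nat) (@Bool.rec (fun _ => Nat) (b3395 i) (b3396 i) (Nat.ble (nat_lit 217344) i)) (b3397 i) (Nat.ble (nat_lit 217408) i))

noncomputable def t1745 (i : Nat) : Nat :=
  (@Bool.rec (fun _ => Nat) (@Bool.rec (fun _ => Nat) (t1741 i) (t1742 i) (Nat.ble (nat_lit 216896) i)) (@Bool.rec (fun _ => Nat) (t1743 i) (t1744 i) (Nat.ble (nat_lit 217280) i)) (Nat.ble (nat_lit 217088) i))

noncomputable def t1746 (i : Nat) : Nat :=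
  (@Bool.rec (fun _ => Nat) (@Bool.rec (fun _ => Nat) (b3398 i) (b3399 i) (Nat.ble (nat_lit 217536) i)) (b3400 i) (Nat.ble (nat_lit 217600) i))

noncomputable def t1747 (i : Nat) : Nat :=
  (@Bool.rec (fun _ => Nat) (@Bool.rec (fun _ => Nat) (b3401 i) (b3402 i) (Nat.ble (nat_lit 217728) i)) (b3403 i) (Nat.ble (nat_lit 217792) i))

noncomputable def t1748 (i : Nat) : Nat :=
  (@Bool.rec (fun _ => Nat) (b3404 i) (b3405 i) (Nat.ble (nat_lit 217920) i))

noncomputable def t1749 (i : Nat) : Nat :=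
  (@Bool.rec (fun _ => Nat) (b3406 i) (@Bool.rec (fun _ => Nat) (b3407 i) (b3408 i) (Nat.ble (nat_lit 218112) i)) (Nat.ble (nat_lit 218048) i))

noncomputable def t1750 (i : Nat) : Nat :=
  (@Bool.rec (fun _ => Nat) (@Bool.rec (fun _ => Nat) (t1746 i) (t1747 i) (Nat.ble (nat_lit 217664) i)) (@Bool.rec (fun _ => Nat) (t1748 i) (t1749 i) (Nat.ble (nat_lit 217984) i)) (Nat.ble (nat_lit 217856) i))

noncomputable def t1751 (i : Nat) : Nat :=
  (@Bool.rec (fun _ => Nat) (@Bool.rec (fun _ => Nat) (t1735 i) (t1740 i) (Nat.ble (nat_lit 216128) i)) (@Bool.rec (fun _ => Nat) (t1745 i) (t1750 i) (Nat.ble (nat_lit 217472) i)) (Nat.ble (nat_lit 216704) i))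

noncomputable def t1752 (i : Nat) : Nat :=
  (@Bool.rec (fun _ => Nat) (@Bool.rec (fun _ => Nat) (b3409 i) (b3410 i) (Nat.ble (nat_lit 218240) i)) (b3411 i) (Nat.ble (nat_lit 218304) i))

noncomputable def t1753 (i : Nat) : Nat :=
  (@Bool.rec (fun _ => Nat) (b3412 i) (@Bool.rec (fun _ => Nat) (b3413 i) (b3414 i) (Nat.ble (nat_lit 218496) i)) (Nat.ble (nat_lit 218432) i))

noncomputable def t1754 (i : Nat) : Nat :=
  (@Bool.rec (fun _ => Nat) (@Bool.rec (fun _ => Nat) (b3415 i) (b3416 i) (Nat.ble (nat_lit 218624) i)) (b3417 i) (Nat.ble (nat_lit 218688) i))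

noncomputable def t1755 (i : Nat) : Nat :=
  (@Bool.rec (fun _ => Nat) (@Bool.rec (fun _ => Nat) (b3418 i) (b3419 i) (Nat.ble (nat_lit 218816) i)) (b3420 i) (Nat.ble (nat_lit 218880) i))

noncomputable def t1756 (i : Nat) : Nat :=
  (@Bool.rec (fun _ => Nat) (@Bool.rec (fun _ => Nat) (t1752 i) (t1753 i) (Nat.ble (nat_lit 218368) i)) (@Bool.rec (fun _ => Nat) (t1754 i) (t1755 i) (Nat.ble (nat_lit 218752) i)) (Nat.ble (nat_lit 218560) i))

noncomputable def t1757 (i : Nat) : Nat :=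
  (@Bool.rec (fun _ => Nat) (@Bool.rec (fun _ => Nat) (b3421 i) (b3422 i) (Nat.ble (nat_lit 219008) i)) (@Bool.rec (fun _ => Nat) (b3423 i) (b3424 i) (Nat.ble (nat_lit 219136) i)) (Nat.ble (nat_lit 219072) i))

noncomputable def t1758 (i : Nat) : Nat :=
  (@Bool.rec (fun _ => Nat) (@Bool.rec (fun _ => Nat) (b3425 i) (b3426 i) (Nat.ble (nat_lit 219264) i)) (b3427 i) (Nat.ble (nat_lit 219328) i))

noncomputable def t1759 (i : Nat) : Nat :=
  (@Bool.rec (fun _ => Nat) (@Bool.rec (fun _ => Nat) (b3428 i) (b3429 i) (Nat.ble (nat_lit 219456) i)) (b3430 i) (Nat.ble (nat_lit 219520) i))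

noncomputable def t1760 (i : Nat) : Nat :=
  (@Bool.rec (fun _ => Nat) (b3431 i) (b3432 i) (Nat.ble (nat_lit 219648) i))

noncomputable def t1761 (i : Nat) : Nat :=
  (@Bool.rec (fun _ => Nat) (@Bool.rec (fun _ => Nat) (t1757 i) (t1758 i) (Nat.ble (nat_lit 219200) i)) (@Bool.rec (fun _ => Nat) (t1759 i) (t1760 i) (Nat.ble (nat_lit 219584) i)) (Nat.ble (nat_lit 219392) i))

noncomputable def t1762 (i : Nat) : Nat :=
  (@Bool.rec (fun _ => Nat) (b3433 i) (@Bool.rec (fun _ => Nat) (b3434 i) (b3435 i) (Nat.ble (nat_lit 219840) i)) (Nat.ble (nat_lit 219776) i))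

noncomputable def t1763 (i : Nat) : Nat :=
  (@Bool.rec (fun _ => Nat) (b3436 i) (b3437 i) (Nat.ble (nat_lit 219968) i))

noncomputable def t1764 (i : Nat) : Nat :=
  (@Bool.rec (fun _ => Nat) (b3438 i) (b3439 i) (Nat.ble (nat_lit 220096) i))

noncomputable def t1765 (i : Nat) : Nat :=
  (@Bool.rec (fun _ => Nat) (b3441 i) (b3442 i) (Nat.ble (nat_lit 220288) i))

noncomputable def t1766 (i : Nat) : Nat :=
  (@Bool.rec (fun _ => Nat) (@Bool.rec (fun _ => Nat) (t1763 i) (t1764 i) (Nat.ble (nat_lit 220032) i)) (@Bool.rec (fun _ => Nat) (b3440 i) (t1765 i) (Nat.ble (nat_lit 220224) i)) (Nat.ble (nat_lit 220160) i))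

noncomputable def t1767 (i : Nat) : Nat :=
  (@Bool.rec (fun _ => Nat) (@Bool.rec (fun _ => Nat) (t1756 i) (t1761 i) (Nat.ble (nat_lit 218944) i)) (@Bool.rec (fun _ => Nat) (t1762 i) (t1766 i) (Nat.ble (nat_lit 219904) i)) (Nat.ble (nat_lit 219712) i))

noncomputable def t1768 (i : Nat) : Nat :=
  (@Bool.rec (fun _ => Nat) (@Bool.rec (fun _ => Nat) (t1722 i) (t1732 i) (Nat.ble (nat_lit 214272) i)) (@Bool.rec (fun _ => Nat) (t1751 i) (t1767 i) (Nat.ble (nat_lit 218176) i)) (Nat.ble (nat_lit 215680) i))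

noncomputable def t1769 (i : Nat) : Nat :=
  (@Bool.rec (fun _ => Nat) (b3444 i) (b3445 i) (Nat.ble (nat_lit 220480) i))

noncomputable def t1770 (i : Nat) : Nat :=
  (@Bool.rec (fun _ => Nat) (b3446 i) (b3447 i) (Nat.ble (nat_lit 220608) i))

noncomputable def t1771 (i : Nat) : Nat :=
  (@Bool.rec (fun _ => Nat) (@Bool.rec (fun _ => Nat) (b3443 i) (t1769 i) (Nat.ble (nat_lit 220416) i)) (@Bool.rec (fun _ => Nat) (t1770 i) (b3448 i) (Nat.ble (nat_lit 220672) i)) (Nat.ble (nat_lit 220544) i))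

noncomputable def t1772 (i : Nat) : Nat :=
  (@Bool.rec (fun _ => Nat) (b3449 i) (b3450 i) (Nat.ble (nat_lit 220800) i))

noncomputable def t1773 (i : Nat) : Nat :=
  (@Bool.rec (fun _ => Nat) (b3451 i) (b3452 i) (Nat.ble (nat_lit 220928) i))

noncomputable def t1774 (i : Nat) : Nat :=
  (@Bool.rec (fun _ => Nat) (b3453 i) (b3454 i) (Nat.ble (nat_lit 221056) i))

noncomputable def t1775 (i : Nat) : Nat :=
  (@Bool.rec (fun _ => Nat) (b3455 i) (b3456 i) (Nat.ble (nat_lit 221184) i))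

noncomputable def t1776 (i : Nat) : Nat :=
  (@Bool.rec (fun _ => Nat) (@Bool.rec (fun _ => Nat) (t1772 i) (t1773 i) (Nat.ble (nat_lit 220864) i)) (@Bool.rec (fun _ => Nat) (t1774 i) (t1775 i) (Nat.ble (nat_lit 221120) i)) (Nat.ble (nat_lit 220992) i))

noncomputable def t1777 (i : Nat) : Nat :=
  (@Bool.rec (fun _ => Nat) (b3457 i) (b3458 i) (Nat.ble (nat_lit 221312) i))

noncomputable def t1778 (i : Nat) : Nat :=
  (@Bool.rec (fun _ => Nat) (b3459 i) (b3460 i) (Nat.ble (nat_lit 221440) i))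

noncomputable def t1779 (i : Nat) : Nat :=
  (@Bool.rec (fun _ => Nat) (b3461 i) (@Bool.rec (fun _ => Nat) (b3462 i) (b3463 i) (Nat.ble (nat_lit 221632) i)) (Nat.ble (nat_lit 221568) i))

noncomputable def t1780 (i : Nat) : Nat :=
  (@Bool.rec (fun _ => Nat) (b3464 i) (b3465 i) (Nat.ble (nat_lit 221760) i))

noncomputable def t1781 (i : Nat) : Nat :=
  (@Bool.rec (fun _ => Nat) (@Bool.rec (fun _ => Nat) (t1777 i) (t1778 i) (Nat.ble (nat_lit 221376) i)) (@Bool.rec (fun _ => Nat) (t1779 i) (t1780 i) (Nat.ble (nat_lit 221696) i)) (Nat.ble (nat_lit 221504) i))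

noncomputable def t1782 (i : Nat) : Nat :=
  (@Bool.rec (fun _ => Nat) (@Bool.rec (fun _ => Nat) (b3466 i) (b3467 i) (Nat.ble (nat_lit 221888) i)) (b3468 i) (Nat.ble (nat_lit 221952) i))

noncomputable def t1783 (i : Nat) : Nat :=
  (@Bool.rec (fun _ => Nat) (@Bool.rec (fun _ => Nat) (b3469 i) (b3470 i) (Nat.ble (nat_lit 222080) i)) (b3471 i) (Nat.ble (nat_lit 222144) i))

noncomputable def t1784 (i : Nat) : Nat :=
  (@Bool.rec (fun _ => Nat) (@Bool.rec (fun _ => Nat) (b3472 i) (b3473 i) (Nat.ble (nat_lit 222272) i)) (b3474 i) (Nat.ble (nat_lit 222336) i))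

noncomputable def t1785 (i : Nat) : Nat :=
  (@Bool.rec (fun _ => Nat) (b3475 i) (b3476 i) (Nat.ble (nat_lit 222464) i))

noncomputable def t1786 (i : Nat) : Nat :=
  (@Bool.rec (fun _ => Nat) (@Bool.rec (fun _ => Nat) (t1782 i) (t1783 i) (Nat.ble (nat_lit 222016) i)) (@Bool.rec (fun _ => Nat) (t1784 i) (t1785 i) (Nat.ble (nat_lit 222400) i)) (Nat.ble (nat_lit 222208) i))

noncomputable def t1787 (i : Nat) : Nat :=
  (@Bool.rec (fun _ => Nat) (@Bool.rec (fun _ => Nat) (t1771 i) (t1776 i) (Nat.ble (nat_lit 220736) i)) (@Bool.rec (fun _ => Nat) (t1781 i) (t1786 i) (Nat.ble (nat_lit 221824) i)) (Nat.ble (nat_lit 221248) i))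

noncomputable def t1788 (i : Nat) : Nat :=
  (@Bool.rec (fun _ => Nat) (b3477 i) (b3478 i) (Nat.ble (nat_lit 222592) i))

noncomputable def t1789 (i : Nat) : Nat :=
  (@Bool.rec (fun _ => Nat) (b3479 i) (b3480 i) (Nat.ble (nat_lit 222720) i))

noncomputable def t1790 (i : Nat) : Nat :=
  (@Bool.rec (fun _ => Nat) (b3481 i) (@Bool.rec (fun _ => Nat) (b3482 i) (b3483 i) (Nat.ble (nat_lit 222912) i)) (Nat.ble (nat_lit 222848) i))

noncomputable def t1791 (i : Nat) : Nat :=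
  (@Bool.rec (fun _ => Nat) (b3484 i) (b3485 i) (Nat.ble (nat_lit 223040) i))

noncomputable def t1792 (i : Nat) : Nat :=
  (@Bool.rec (fun _ => Nat) (@Bool.rec (fun _ => Nat) (t1788 i) (t1789 i) (Nat.ble (nat_lit 222656) i)) (@Bool.rec (fun _ => Nat) (t1790 i) (t1791 i) (Nat.ble (nat_lit 222976) i)) (Nat.ble (nat_lit 222784) i))

noncomputable def t1793 (i : Nat) : Nat :=
  (@Bool.rec (fun _ => Nat) (b3487 i) (b3488 i) (Nat.ble (nat_lit 223232) i))

noncomputable def t1794 (i : Nat) : Nat :=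
  (@Bool.rec (fun _ => Nat) (b3489 i) (b3490 i) (Nat.ble (nat_lit 223360) i))

noncomputable def t1795 (i : Nat) : Nat :=
  (@Bool.rec (fun _ => Nat) (b3491 i) (b3492 i) (Nat.ble (nat_lit 223488) i))

noncomputable def t1796 (i : Nat) : Nat :=
  (@Bool.rec (fun _ => Nat) (@Bool.rec (fun _ => Nat) (b3486 i) (t1793 i) (Nat.ble (nat_lit 223168) i)) (@Bool.rec (fun _ => Nat) (t1794 i) (t1795 i) (Nat.ble (nat_lit 223424) i)) (Nat.ble (nat_lit 223296) i))

noncomputable def t1797 (i : Nat) : Nat :=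
  (@Bool.rec (fun _ => Nat) (b3493 i) (b3494 i) (Nat.ble (nat_lit 223616) i))

noncomputable def t1798 (i : Nat) : Nat :=
  (@Bool.rec (fun _ => Nat) (b3497 i) (@Bool.rec (fun _ => Nat) (b3498 i) (b3499 i) (Nat.ble (nat_lit 223936) i)) (Nat.ble (nat_lit 223872) i))

noncomputable def t1799 (i : Nat) : Nat :=
  (@Bool.rec (fun _ => Nat) (@Bool.rec (fun _ => Nat) (t1797 i) (b3495 i) (Nat.ble (nat_lit 223680) i)) (@Bool.rec (fun _ => Nat) (b3496 i) (t1798 i) (Nat.ble (nat_lit 223808) i)) (Nat.ble (nat_lit 223744) i))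

noncomputable def t1800 (i : Nat) : Nat :=
  (@Bool.rec (fun _ => Nat) (b3503 i) (b3504 i) (Nat.ble (nat_lit 224256) i))

noncomputable def t1801 (i : Nat) : Nat :=
  (@Bool.rec (fun _ => Nat) (@Bool.rec (fun _ => Nat) (b3500 i) (b3501 i) (Nat.ble (nat_lit 224064) i)) (@Bool.rec (fun _ => Nat) (b3502 i) (t1800 i) (Nat.ble (nat_lit 224192) i)) (Nat.ble (nat_lit 224128) i))

noncomputable def t1802 (i : Nat) : Nat :=
  (@Bool.rec (fun _ => Nat) (@Bool.rec (fun _ => Nat) (t1792 i) (t1796 i) (Nat.ble (nat_lit 223104) i)) (@Bool.rec (fun _ => Nat) (t1799 i) (t1801 i) (Nat.ble (nat_lit 224000) i)) (Nat.ble (nat_lit 223552) i))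

noncomputable def t1803 (i : Nat) : Nat :=
  (@Bool.rec (fun _ => Nat) (@Bool.rec (fun _ => Nat) (b3505 i) (b3506 i) (Nat.ble (nat_lit 224384) i)) (b3507 i) (Nat.ble (nat_lit 224448) i))

noncomputable def t1804 (i : Nat) : Nat :=
  (@Bool.rec (fun _ => Nat) (@Bool.rec (fun _ => Nat) (b3508 i) (b3509 i) (Nat.ble (nat_lit 224576) i)) (b3510 i) (Nat.ble (nat_lit 224640) i))

noncomputable def t1805 (i : Nat) : Nat :=
  (@Bool.rec (fun _ => Nat) (b3511 i) (b3512 i) (Nat.ble (nat_lit 224768) i))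

noncomputable def t1806 (i : Nat) : Nat :=
  (@Bool.rec (fun _ => Nat) (@Bool.rec (fun _ => Nat) (b3513 i) (b3514 i) (Nat.ble (nat_lit 224896) i)) (b3515 i) (Nat.ble (nat_lit 224960) i))

noncomputable def t1807 (i : Nat) : Nat :=
  (@Bool.rec (fun _ => Nat) (@Bool.rec (fun _ => Nat) (t1803 i) (t1804 i) (Nat.ble (nat_lit 224512) i)) (@Bool.rec (fun _ => Nat) (t1805 i) (t1806 i) (Nat.ble (nat_lit 224832) i)) (Nat.ble (nat_lit 224704) i))

noncomputable def t1808 (i : Nat) : Nat :=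
  (@Bool.rec (fun _ => Nat) (b3516 i) (b3517 i) (Nat.ble (nat_lit 225088) i))

noncomputable def t1809 (i : Nat) : Nat :=
  (@Bool.rec (fun _ => Nat) (b3518 i) (@Bool.rec (fun _ => Nat) (b3519 i) (b3520 i) (Nat.ble (nat_lit 225280) i)) (Nat.ble (nat_lit 225216) i))

noncomputable def t1810 (i : Nat) : Nat :=
  (@Bool.rec (fun _ => Nat) (@Bool.rec (fun _ => Nat) (b3521 i) (b3522 i) (Nat.ble (nat_lit 225408) i)) (b3523 i) (Nat.ble (nat_lit 225472) i))

noncomputable def t1811 (i : Nat) : Nat :=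
  (@Bool.rec (fun _ => Nat) (b3524 i) (b3525 i) (Nat.ble (nat_lit 225600) i))

noncomputable def t1812 (i : Nat) : Nat :=
  (@Bool.rec (fun _ => Nat) (@Bool.rec (fun _ => Nat) (t1808 i) (t1809 i) (Nat.ble (nat_lit 225152) i)) (@Bool.rec (fun _ => Nat) (t1810 i) (t1811 i) (Nat.ble (nat_lit 225536) i)) (Nat.ble (nat_lit 225344) i))

noncomputable def t1813 (i : Nat) : Nat :=
  (@Bool.rec (fun _ => Nat) (b3526 i) (b3527 i) (Nat.ble (nat_lit 225728) i))

noncomputable def t1814 (i : Nat) : Nat :=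
  (@Bool.rec (fun _ => Nat) (b3528 i) (b3529 i) (Nat.ble (nat_lit 225856) i))

noncomputable def t1815 (i : Nat) : Nat :=
  (@Bool.rec (fun _ => Nat) (b3530 i) (b3531 i) (Nat.ble (nat_lit 225984) i))

noncomputable def t1816 (i : Nat) : Nat :=
  (@Bool.rec (fun _ => Nat) (@Bool.rec (fun _ => Nat) (b3532 i) (b3533 i) (Nat.ble (nat_lit 226112) i)) (b3534 i) (Nat.ble (nat_lit 226176) i))

noncomputable def t1817 (i : Nat) : Nat :=
  (@Bool.rec (fun _ => Nat) (@Bool.rec (fun _ => Nat) (t1813 i) (t1814 i) (Nat.ble (nat_lit 225792) i)) (@Bool.rec (fun _ => Nat) (t1815 i) (t1816 i) (Nat.ble (nat_lit 226048) i)) (Nat.ble (nat_lit 225920) i))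

noncomputable def t1818 (i : Nat) : Nat :=
  (@Bool.rec (fun _ => Nat) (@Bool.rec (fun _ => Nat) (b3535 i) (b3536 i) (Nat.ble (nat_lit 226304) i)) (@Bool.rec (fun _ => Nat) (b3537 i) (b3538 i) (Nat.ble (nat_lit 226432) i)) (Nat.ble (nat_lit 226368) i))

noncomputable def t1819 (i : Nat) : Nat :=
  (@Bool.rec (fun _ => Nat) (b3539 i) (@Bool.rec (fun _ => Nat) (b3540 i) (b3541 i) (Nat.ble (nat_lit 226624) i)) (Nat.ble (nat_lit 226560) i))

noncomputable def t1820 (i : Nat) : Nat :=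
  (@Bool.rec (fun _ => Nat) (@Bool.rec (fun _ => Nat) (b3542 i) (b3543 i) (Nat.ble (nat_lit 226752) i)) (@Bool.rec (fun _ => Nat) (b3544 i) (b3545 i) (Nat.ble (nat_lit 226880) i)) (Nat.ble (nat_lit 226816) i))

noncomputable def t1821 (i : Nat) : Nat :=
  (@Bool.rec (fun _ => Nat) (b3546 i) (b3547 i) (Nat.ble (nat_lit 227008) i))

noncomputable def t1822 (i : Nat) : Nat :=
  (@Bool.rec (fun _ => Nat) (@Bool.rec (fun _ => Nat) (t1818 i) (t1819 i) (Nat.ble (nat_lit 226496) i)) (@Bool.rec (fun _ => Nat) (t1820 i) (t1821 i) (Nat.ble (nat_lit 226944) i)) (Nat.ble (nat_lit 226688) i))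

noncomputable def t1823 (i : Nat) : Nat :=
  (@Bool.rec (fun _ => Nat) (@Bool.rec (fun _ => Nat) (t1807 i) (t1812 i) (Nat.ble (nat_lit 225024) i)) (@Bool.rec (fun _ => Nat) (t1817 i) (t1822 i) (Nat.ble (nat_lit 226240) i)) (Nat.ble (nat_lit 225664) i))

noncomputable def t1824 (i : Nat) : Nat :=
  (@Bool.rec (fun _ => Nat) (b3550 i) (@Bool.rec (fun _ => Nat) (b3551 i) (b3552 i) (Nat.ble (nat_lit 227328) i)) (Nat.ble (nat_lit 227264) i))

noncomputable def t1825 (i : Nat) : Nat :=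
  (@Bool.rec (fun _ => Nat) (@Bool.rec (fun _ => Nat) (b3553 i) (b3554 i) (Nat.ble (nat_lit 227456) i)) (@Bool.rec (fun _ => Nat) (b3555 i) (b3556 i) (Nat.ble (nat_lit 227584) i)) (Nat.ble (nat_lit 227520) i))

noncomputable def t1826 (i : Nat) : Nat :=
  (@Bool.rec (fun _ => Nat) (@Bool.rec (fun _ => Nat) (b3548 i) (b3549 i) (Nat.ble (nat_lit 227136) i)) (@Bool.rec (fun _ => Nat) (t1824 i) (t1825 i) (Nat.ble (nat_lit 227392) i)) (Nat.ble (nat_lit 227200) i))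

noncomputable def t1827 (i : Nat) : Nat :=
  (@Bool.rec (fun _ => Nat) (b3557 i) (b3558 i) (Nat.ble (nat_lit 227712) i))

noncomputable def t1828 (i : Nat) : Nat :=
  (@Bool.rec (fun _ => Nat) (b3559 i) (b3560 i) (Nat.ble (nat_lit 227840) i))

noncomputable def t1829 (i : Nat) : Nat :=
  (@Bool.rec (fun _ => Nat) (@Bool.rec (fun _ => Nat) (b3561 i) (b3562 i) (Nat.ble (nat_lit 227968) i)) (@Bool.rec (fun _ => Nat) (b3563 i) (b3564 i) (Nat.ble (nat_lit 228096) i)) (Nat.ble (nat_lit 228032) i))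

noncomputable def t1830 (i : Nat) : Nat :=
  (@Bool.rec (fun _ => Nat) (b3565 i) (b3566 i) (Nat.ble (nat_lit 228224) i))

noncomputable def t1831 (i : Nat) : Nat :=
  (@Bool.rec (fun _ => Nat) (@Bool.rec (fun _ => Nat) (t1827 i) (t1828 i) (Nat.ble (nat_lit 227776) i)) (@Bool.rec (fun _ => Nat) (t1829 i) (t1830 i) (Nat.ble (nat_lit 228160) i)) (Nat.ble (nat_lit 227904) i))

noncomputable def t1832 (i : Nat) : Nat :=
  (@Bool.rec (fun _ => Nat) (@Bool.rec (fun _ => Nat) (b3567 i) (b3568 i) (Nat.ble (nat_lit 228352) i)) (b3569 i) (Nat.ble (nat_lit 228416) i))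

noncomputable def t1833 (i : Nat) : Nat :=
  (@Bool.rec (fun _ => Nat) (@Bool.rec (fun _ => Nat) (b3570 i) (b3571 i) (Nat.ble (nat_lit 228544) i)) (@Bool.rec (fun _ => Nat) (b3572 i) (b3573 i) (Nat.ble (nat_lit 228672) i)) (Nat.ble (nat_lit 228608) i))

noncomputable def t1834 (i : Nat) : Nat :=
  (@Bool.rec (fun _ => Nat) (@Bool.rec (fun _ => Nat) (b3574 i) (b3575 i) (Nat.ble (nat_lit 228800) i)) (@Bool.rec (fun _ => Nat) (b3576 i) (b3577 i) (Nat.ble (nat_lit 228928) i)) (Nat.ble (nat_lit 228864) i))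

noncomputable def t1835 (i : Nat) : Nat :=
  (@Bool.rec (fun _ => Nat) (b3578 i) (b3579 i) (Nat.ble (nat_lit 229056) i))

noncomputable def t1836 (i : Nat) : Nat :=
  (@Bool.rec (fun _ => Nat) (@Bool.rec (fun _ => Nat) (t1832 i) (t1833 i) (Nat.ble (nat_lit 228480) i)) (@Bool.rec (fun _ => Nat) (t1834 i) (t1835 i) (Nat.ble (nat_lit 228992) i)) (Nat.ble (nat_lit 228736) i))

noncomputable def t1837 (i : Nat) : Nat :=
  (@Bool.rec (fun _ => Nat) (@Bool.rec (fun _ => Nat) (b3580 i) (b3581 i) (Nat.ble (nat_lit 229184) i)) (b3582 i) (Nat.ble (nat_lit 229248) i))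

noncomputable def t1838 (i : Nat) : Nat :=
  (@Bool.rec (fun _ => Nat) (b3583 i) (b3584 i) (Nat.ble (nat_lit 229376) i))

noncomputable def t1839 (i : Nat) : Nat :=
  (@Bool.rec (fun _ => Nat) (b3585 i) (@Bool.rec (fun _ => Nat) (b3586 i) (b3587 i) (Nat.ble (nat_lit 229568) i)) (Nat.ble (nat_lit 229504) i))

noncomputable def t1840 (i : Nat) : Nat :=
  (@Bool.rec (fun _ => Nat) (b3588 i) (@Bool.rec (fun _ => Nat) (b3589 i) (b3590 i) (Nat.ble (nat_lit 229760) i)) (Nat.ble (nat_lit 229696) i))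

noncomputable def t1841 (i : Nat) : Nat :=
  (@Bool.rec (fun _ => Nat) (@Bool.rec (fun _ => Nat) (t1837 i) (t1838 i) (Nat.ble (nat_lit 229312) i)) (@Bool.rec (fun _ => Nat) (t1839 i) (t1840 i) (Nat.ble (nat_lit 229632) i)) (Nat.ble (nat_lit 229440) i))

noncomputable def t1842 (i : Nat) : Nat :=
  (@Bool.rec (fun _ => Nat) (@Bool.rec (fun _ => Nat) (t1826 i) (t1831 i) (Nat.ble (nat_lit 227648) i)) (@Bool.rec (fun _ => Nat) (t1836 i) (t1841 i) (Nat.ble (nat_lit 229120) i)) (Nat.ble (nat_lit 228288) i))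

noncomputable def t1843 (i : Nat) : Nat :=
  (@Bool.rec (fun _ => Nat) (@Bool.rec (fun _ => Nat) (t1787 i) (t1802 i) (Nat.ble (nat_lit 222528) i)) (@Bool.rec (fun _ => Nat) (t1823 i) (t1842 i) (Nat.ble (nat_lit 227072) i)) (Nat.ble (nat_lit 224320) i))

noncomputable def t1844 (i : Nat) : Nat :=
  (@Bool.rec (fun _ => Nat) (@Bool.rec (fun _ => Nat) (t1636 i) (t1706 i) (Nat.ble (nat_lit 202816) i)) (@Bool.rec (fun _ => Nat) (t1768 i) (t1843 i) (Nat.ble (nat_lit 220352) i)) (Nat.ble (nat_lit 211968) i))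

noncomputable def t1845 (i : Nat) : Nat :=
  (@Bool.rec (fun _ => Nat) (@Bool.rec (fun _ => Nat) (t1053 i) (t1283 i) (Nat.ble (nat_lit 128640) i)) (@Bool.rec (fun _ => Nat) (t1566 i) (t1844 i) (Nat.ble (nat_lit 193664) i)) (Nat.ble (nat_lit 157504) i))

noncomputable def db (i : Nat) : Nat :=
  dc (@Bool.rec (fun _ => Nat) (@Bool.rec (fun _ => Nat) (t12 i) (t120 i) (Nat.ble (nat_lit 1600) i)) (@Bool.rec (fun _ => Nat) (t778 i) (t1845 i) (Nat.ble (nat_lit 95040) i)) (Nat.ble (nat_lit 15552) i))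


end Pool.Agent.Lib.MP_79d702_lc.U2.Crt
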